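import Pool.Agent.H26.DIC.Pol3

/-!
# Labelled lines with polynomial labels

Samples with a point, a window, a line (in window coordinates), a polynomial label which is a
function of the window, and frames of the fans; the lines through the point lie in the leaf of the
label. Outside events on which the fans
are thin, and events on which the slopes are known from the window, the label is nearly affine.
-/

set_option autoImplicit false

namespace Pool.S6P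

open MvPolynomial Finset

/-! ### Separated values or few values -/

/-- A set of numbers has `d + 1` separated points, or it is covered by `d` intervals. -/
theorem sep_or_cover (S : ℝ → Prop) (ρ : ℝ) (d : ℕ) :
    (∃ x : ℕ → ℝ, (∀ i ≤ d, S (x i)) ∧ ∀ i ≤ d, ∀ j ≤ d, i ≠ j → ρ ≤ |x i - x j|) ∨
    ∃ t : ℕ → ℝ, ∀ x, S x → ∃ k < d, |x - t k| ≤ ρ := by
  induction d with
  | zero =>
    by_cases h : ∃ x, S x
    · obtain ⟨x, hx⟩ := h
      left
      exact ⟨fun _ => x, fun _ _ => hx, fun i hi j hj hij => absurd (by omega) hij⟩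
    · right
      push Not at h
      exact ⟨fun _ => 0, fun x hx => absurd hx (h x)⟩
  | succ d ih =>
    rcases ih with ⟨x, h1, h2⟩ | ⟨t, ht⟩
    · by_cases h : ∃ y, S y ∧ ∀ i ≤ d, ρ ≤ |x i - y|
      · obtain ⟨y, hy, hyx⟩ := h
        left
        refine ⟨fun i => if i ≤ d then x i else y, fun i _ => ?_, fun i hi j hj hij => ?_⟩
        · simp only
          split_ifs with h3
          · exact h1 i h3
          · exact hy
        · simp only
          split_ifs with h3 h4 h4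
          · exact h2 i h3 j h4 hij
          · exact hyx i h3
          · rw [abs_sub_comm]
            exact hyx j h4
          · exact absurd (by omega) hij
      · right
        push Not at h
        refine ⟨x, fun y hy => ?_⟩
        obtain ⟨i, hi, hlt⟩ := h y hy
        refine ⟨i, by omega, ?_⟩
        rw [abs_sub_comm]
        exact hlt.le
    · right
      exact ⟨t, fun x hx => by
        obtain ⟨k, hk, h⟩ := ht x hx
        exact ⟨k, by omega, h⟩⟩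

variable {Ω U V : Type}

/-- There are `d + 1` samples with separated values in the fibre of the sample. -/
def SepF (q : Ω → U) (f : Ω → ℝ) (B : Ω → Prop) (ρ : ℝ) (d : ℕ) (ω : Ω) : Prop :=
  ∃ z : ℕ → Ω, (∀ i ≤ d, B (z i) ∧ q (z i) = q ω) ∧
    ∀ i ≤ d, ∀ j ≤ d, i ≠ j → ρ ≤ |f (z i) - f (z j)|

/-- Separated values in the fibre, or one of `d` functions of the fibre. -/
theorem cover (q : Ω → U) (f : Ω → ℝ) (B : Ω → Prop) (ρ : ℝ) (d : ℕ) :
    ∃ t : ℕ → U → ℝ, ∀ ω, B ω → SepF q f B ρ d ω ∨ ∃ k < d, |f ω - t k (q ω)| ≤ ρ := by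
  classical
  have key : ∀ u : U, ∃ t : ℕ → ℝ, ∀ ω, B ω → q ω = u →
      SepF q f B ρ d ω ∨ ∃ k < d, |f ω - t k| ≤ ρ := by
    intro u
    rcases sep_or_cover (fun x => ∃ ω, B ω ∧ q ω = u ∧ f ω = x) ρ d with ⟨x, h1, h2⟩ | ⟨t, ht⟩
    · refine ⟨fun _ => 0, fun ω hω hq => Or.inl ?_⟩
      have h3 : ∀ i, ∃ ω', i ≤ d → B ω' ∧ q ω' = u ∧ f ω' = x i := by
        intro i
        by_cases hi : i ≤ d
        · obtain ⟨ω', h⟩ := h1 i hi
          exact ⟨ω', fun _ => h⟩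
        · exact ⟨ω, fun h => absurd h hi⟩
      choose z hz using h3
      refine ⟨z, fun i hi => ⟨(hz i hi).1, (hz i hi).2.1.trans hq.symm⟩, fun i hi j hj hij => ?_⟩
      rw [(hz i hi).2.2, (hz j hj).2.2]
      exact h2 i hi j hj hij
    · exact ⟨t, fun ω hω hq => Or.inr (ht (f ω) ⟨ω, hω, hq, rfl⟩)⟩
  choose t ht using key
  exact ⟨fun k u => t u k, fun ω hω => ht (q ω) ω hω rfl⟩

/-! ### Data -/

/-- Data. -/
structure Ldp (Ω U V : Type) where
  /-- point -/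
  pt : Ω → U
  /-- line and window -/
  wn : Ω → V
  /-- time in the window -/
  s : Ω → ℝ
  /-- position at the base time -/
  Y : Ω → Fin 3 → ℝ
  /-- velocity -/
  D : Ω → Fin 3 → ℝ
  /-- label -/
  L : Ω → P3
  /-- slopes of the frames -/
  e : U → Fin 3 → ℝ
  /-- offsets of the frames -/
  n : U → Fin 3 → ℝ

/-- Bounds; `ε` is the precision of the label, `r` that of the frames and of the points. -/
structure Ldp.Ok (X : Ldp Ω U V) (A : Ω → Prop) (d : ℕ) (K ε r : ℝ) : Prop where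
  hK : 1 ≤ K
  ε0 : 0 ≤ ε
  r0 : 0 ≤ r
  r1 : r ≤ 1
  hd : 1 ≤ d
  spt : ∀ ω ω', A ω → A ω' → X.pt ω' = X.pt ω → X.s ω' = X.s ω
  ypt : ∀ ω ω', A ω → A ω' → X.pt ω' = X.pt ω → ∀ i,
    |(X.Y ω' i + X.s ω * X.D ω' i) - (X.Y ω i + X.s ω * X.D ω i)| ≤ r
  rel : ∀ ω ω', A ω → A ω' → X.pt ω' = X.pt ω → l1 (aeval (ln (X.Y ω') (X.D ω')) (X.L ω) -
    (C (X.Y ω' 2) + C (X.D ω' 2) * MvPolynomial.X 0)) ≤ ε
  deg : ∀ ω, A ω → (X.L ω).totalDegree ≤ d
  Lb : ∀ ω, A ω → l1 (X.L ω) ≤ K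
  s1 : ∀ ω, A ω → |X.s ω| ≤ 1
  Y : ∀ ω, A ω → ∀ i, |X.Y ω i| ≤ K
  D : ∀ ω, A ω → ∀ i, |X.D ω i| ≤ K
  line : ∀ ω, A ω → ∀ i, |X.D ω i - X.e (X.pt ω) i * X.D ω 0 - X.n (X.pt ω) i| ≤ r / 2

/-- Line and label are functions of the window. -/
def Ldp.Wn (X : Ldp Ω U V) (A : Ω → Prop) : Prop :=
  ∀ ω ω', A ω → A ω' → X.wn ω' = X.wn ω → X.Y ω' = X.Y ω ∧ X.D ω' = X.D ω ∧ X.L ω' = X.L ω

namespace Ldp

variable {X : Ldp Ω U V} {A : Ω → Prop} {d : ℕ} {K ε r : ℝ}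

/-- The samples with separated mates. -/
def Sp (X : Ldp Ω U V) (A : Ω → Prop) (ρ : ℝ) (d : ℕ) (ω : Ω) : Prop :=
  A ω ∧ SepF X.pt (fun ω => X.D ω 0) A ρ d ω

theorem Ok.mt (h : X.Ok A d K ε r) {ω ω' : Ω} (hω : A ω) (hω' : A ω')
    (hp : X.pt ω' = X.pt ω) :
    Mt K ε r (X.s ω) (X.Y ω) (X.D ω) (X.e (X.pt ω) 1) (X.L ω) (X.Y ω') (X.D ω') where
  yb := h.Y ω' hω'
  vb := h.D ω' hω'
  p0 := h.ypt ω ω' hω hω' hp 0
  p1 := h.ypt ω ω' hω hω' hp 1
  sl := by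
    have h1 := h.line ω hω 1
    have h2 := h.line ω' hω' 1
    rw [hp] at h2
    rw [abs_le] at *
    constructor <;> linarith only [h1, h2, h1.1, h1.2, h2.1, h2.2]
  rel := h.rel ω ω' hω hω' hp

/-- The constant of the slopes. -/
noncomputable def cS (d : ℕ) (K : ℝ) : ℝ := 2 + 4 * ((d + 1) * (4 * K) ^ d * 2 * K) +
  2 ^ d * (cA d K * K)

/-- Everything known about a sample with separated mates. -/
theorem Ok.pt_facts (h : X.Ok A d K ε r) {ρ : ℝ} (hρ : 0 < ρ) (hρ1 : ρ ≤ 1) {ω : Ω}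
    (hω : X.Sp A ρ d ω) :
    nn (aeval (pl (X.Y ω) (X.D ω) (X.e (X.pt ω) 1)) (X.L ω)) ≤
      2 ^ d * (cA d K / ρ ^ d * (ε + r * nn (X.L ω))) ∧
    |X.e (X.pt ω) 0 - 1| ≤ r / ρ ∧ |X.e (X.pt ω) 1| ≤ 3 * K / ρ ∧
    |X.e (X.pt ω) 2 - gE (X.Y ω) (X.D ω) (X.e (X.pt ω) 1) (X.L ω)| ≤
      cS d K * (ε + r) / ρ ^ (d + 1) := by
  obtain ⟨hA, z, hz, hsep⟩ := hω
  have hK := h.hK
  have hK0 : 0 < K := by linarith only [hK]
  have hr0 := h.r0
  have hε0 := h.ε0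
  have hm : ∀ j ≤ d, Mt K ε r (X.s ω) (X.Y ω) (X.D ω) (X.e (X.pt ω) 1) (X.L ω) (X.Y (z j))
      (X.D (z j)) := fun j hj => h.mt hA (hz j hj).1 (hz j hj).2
  have hpl := plane hK (h.s1 ω hA) h.ε0 h.r1 hρ hρ1 (h.Y ω hA) (h.D ω hA) h.hd (h.deg ω hA) hm
    hsep
  have hsl := slope (E := X.e (X.pt ω) 2) (n := X.n (X.pt ω) 2) hK (h.s1 ω hA) h.ε0 h.r1 hρ hρ1
    (h.Y ω hA) (h.D ω hA) h.hd (h.deg ω hA) hm hsep (fun j hj => by
      have h1 := h.line (z j) (hz j hj).1 2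
      rw [(hz j hj).2] at h1
      linarith only [hr0, h1])
  have s01 := hsep 0 (Nat.zero_le _) 1 h.hd (by norm_num)
  have z0 := hz 0 (Nat.zero_le _)
  have z1 := hz 1 h.hd
  refine ⟨hpl, ?_, ?_, ?_⟩
  · have l0 := h.line (z 0) z0.1 0
    have l1 := h.line (z 1) z1.1 0
    rw [z0.2] at l0
    rw [z1.2] at l1
    have k1 : |(X.e (X.pt ω) 0 - 1) * (X.D (z 0) 0 - X.D (z 1) 0)| ≤ r := by
      rw [abs_le] at *
      constructor <;> linarith only [l0, l1, l0.1, l0.2, l1.1, l1.2]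
    rw [le_div_iff₀ hρ]
    rw [abs_mul] at k1
    have := mul_le_mul_of_nonneg_left s01 (abs_nonneg (X.e (X.pt ω) 0 - 1))
    linarith only [k1, this]
  · have l0 := h.line (z 0) z0.1 1
    have l1 := h.line (z 1) z1.1 1
    rw [z0.2] at l0
    rw [z1.2] at l1
    have d0 := h.D _ z0.1 1
    have d1 := h.D _ z1.1 1
    have hr1 := h.r1
    have k1 : |X.e (X.pt ω) 1 * (X.D (z 0) 0 - X.D (z 1) 0)| ≤ 3 * K := by
      rw [abs_le] at *
      constructor <;> linarith only [hK, l0, l1, d0, d1, hr1, l0.1, l0.2, l1.1, l1.2, d0.1, d0.2, d1.1, d1.2]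
    rw [le_div_iff₀ hρ]
    rw [abs_mul] at k1
    have := mul_le_mul_of_nonneg_left s01 (abs_nonneg (X.e (X.pt ω) 1))
    linarith only [k1, this]
  · refine hsl.trans ?_
    have hL := h.Lb ω hA
    have hnn : nn (X.L ω) ≤ K := (nn_le_l1 _).trans hL
    have hn0 := nn_nonneg (X.L ω)
    have hl0 := l1_nonneg (X.L ω)
    have hcA : 0 ≤ cA d K := by unfold cA; positivity
    have hρd : (0 : ℝ) < ρ ^ d := by positivity
    have e0 : cS d K * (ε + r) / ρ ^ (d + 1) = ((2 + 4 * ((d + 1) * (4 * K) ^ d * 2 * K)) *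
        (ε + r) / ρ ^ d + 2 ^ d * (cA d K / ρ ^ d * (K * (ε + r)))) / ρ := by
      unfold cS
      rw [pow_succ]
      field_simp
    rw [e0]
    have t1 : 2 * r + 2 * (2 ^ d * ε + d * (4 * K) ^ d * (2 * r) * l1 (X.L ω)) ≤
        (2 + 4 * ((d + 1) * (4 * K) ^ d * 2 * K)) * (ε + r) / ρ ^ d := by
      rw [le_div_iff₀ hρd]
      have hρ2 : ρ ^ d ≤ 1 := pow_le_one₀ hρ.le hρ1
      have a1 : (2 : ℝ) ^ d ≤ (4 * K) ^ d := pow_le_pow_left₀ (by norm_num) (by linarith only [hK]) _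
      have hd0 : (0 : ℝ) ≤ d := Nat.cast_nonneg d
      have a2 : (2 : ℝ) ^ d * ε ≤ (d + 1) * (4 * K) ^ d * 2 * K * ε := by
        refine mul_le_mul_of_nonneg_right ?_ hε0
        calc (2 : ℝ) ^ d ≤ (4 * K) ^ d := a1
          _ = 1 * (4 * K) ^ d * 1 * 1 := by ring
          _ ≤ (d + 1) * (4 * K) ^ d * 2 * K := by
              refine mul_le_mul (mul_le_mul (mul_le_mul_of_nonneg_right (by linarith only)
                (by positivity)) (by norm_num) (by norm_num) (by positivity)) hK (by norm_num)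
                (by positivity)
      have a3 : d * (4 * K) ^ d * (2 * r) * l1 (X.L ω) ≤ (d + 1) * (4 * K) ^ d * 2 * K * r := by
        have a4 : d * (4 * K) ^ d * (2 * r) * l1 (X.L ω) ≤ d * (4 * K) ^ d * (2 * r) * K :=
          mul_le_mul_of_nonneg_left hL (by positivity)
        have a5 : 0 ≤ (4 * K) ^ d * 2 * K * r := by positivity
        nlinarith only [a4, a5]
      have a6 : 2 * r + 2 * (2 ^ d * ε + d * (4 * K) ^ d * (2 * r) * l1 (X.L ω)) ≤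
          (2 + 4 * ((d + 1) * (4 * K) ^ d * 2 * K)) * (ε + r) := by
        have a7 : 0 ≤ (d + 1) * (4 * K) ^ d * 2 * K * ε := by positivity
        have a8 : 0 ≤ (d + 1) * (4 * K) ^ d * 2 * K * r := by positivity
        nlinarith only [hε0, a2, a3, a7, a8]
      have a9 : 0 ≤ 2 * r + 2 * (2 ^ d * ε + d * (4 * K) ^ d * (2 * r) * l1 (X.L ω)) := by
        positivity
      calc _ ≤ (2 * r + 2 * (2 ^ d * ε + d * (4 * K) ^ d * (2 * r) * l1 (X.L ω))) * 1 :=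
            mul_le_mul_of_nonneg_left hρ2 a9
        _ ≤ _ := by rw [mul_one]; exact a6
    have t2 : 2 ^ d * (cA d K / ρ ^ d * (ε + r * nn (X.L ω))) ≤
        2 ^ d * (cA d K / ρ ^ d * (K * (ε + r))) / ρ := by
      rw [le_div_iff₀ hρ]
      have b1 : ε + r * nn (X.L ω) ≤ K * (ε + r) := by
        have b2 : r * nn (X.L ω) ≤ r * K := mul_le_mul_of_nonneg_left hnn hr0
        nlinarith only [b2, hK, hε0]
      have b3 : 0 ≤ 2 ^ d * (cA d K / ρ ^ d * (K * (ε + r))) := by positivity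
      calc _ ≤ 2 ^ d * (cA d K / ρ ^ d * (K * (ε + r))) * 1 :=
            mul_le_mul (mul_le_mul_of_nonneg_left (mul_le_mul_of_nonneg_left b1 (by positivity))
              (by positivity)) hρ1 hρ.le (by positivity)
        _ = _ := mul_one _
    refine (add_le_add (div_le_div_of_nonneg_right t1 hρ.le) t2).trans (le_of_eq ?_)
    rw [← add_div]

/-- **The alternatives.** -/
theorem Ok.alt (h : X.Ok A d K ε r) (hW : X.Wn A) {ρ τ : ℝ} (hρ : 0 < ρ) (hρ1 : ρ ≤ 1)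
    (hτ : 0 < τ) (hτ1 : τ ≤ 1) (hr : cB d K / (ρ ^ 2 * τ) ^ d * r ≤ 1 / 2) :
    ∃ (v : ℕ → U → ℝ) (E : ℕ → Ω → Prop) (ζ : ℕ → V → Fin 3 → ℝ),
      (∀ k ω, E k ω → A ω ∧ ∀ j, |X.e (X.pt ω) j - ζ k (X.wn ω) j| ≤
        cS d K * (ε + r) / ρ ^ (d + 1) + (4 * K) ^ (d + 1) * τ) ∧
      ∀ ω, A ω → (∃ k < d, |X.D ω 0 - v k (X.pt ω)| ≤ ρ) ∨ (∃ k < d, E k ω) ∨
        nn (X.L ω) ≤ 2 * (cB d K / (ρ ^ 2 * τ) ^ d) * ε := by
  classical
  have hK := h.hK
  have hK0 : 0 < K := by linarith only [hK]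
  obtain ⟨v, hv⟩ := cover X.pt (fun ω => X.D ω 0) A ρ d
  obtain ⟨t, ht⟩ := cover X.wn (fun ω => X.e (X.pt ω) 1) (X.Sp A ρ d) τ d
  -- representatives of the windows
  have hrep : ∀ y : V, ∃ ω₀ : Option Ω, (∃ ω, ω₀ = some ω ∧ A ω ∧ X.wn ω = y) ∨
      ∀ ω, A ω → X.wn ω ≠ y := by
    intro y
    by_cases hy : ∃ ω, A ω ∧ X.wn ω = y
    · obtain ⟨ω, h1, h2⟩ := hy
      exact ⟨some ω, Or.inl ⟨ω, rfl, h1, h2⟩⟩
    · push Not at hy
      exact ⟨none, Or.inr hy⟩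
  choose rp hrp using hrep
  obtain ⟨ζN, hζN⟩ : ∃ ζN : ℕ → V → ℝ, ∀ k ω, A ω →
      ζN k (X.wn ω) = gE (X.Y ω) (X.D ω) (t k (X.wn ω)) (X.L ω) := by
    refine ⟨fun k y => match rp y with
      | some ω => gE (X.Y ω) (X.D ω) (t k y) (X.L ω)
      | none => 0, fun k ω hω => ?_⟩
    rcases hrp (X.wn ω) with ⟨ω', e1, e2, e3⟩ | hno
    · simp only [e1]
      obtain ⟨w1, w2, w3⟩ := hW ω ω' hω e2 e3
      rw [w1, w2, w3]
    · exact absurd rfl (hno ω hω)
  refine ⟨v, fun k ω => X.Sp A ρ d ω ∧ |X.e (X.pt ω) 1 - t k (X.wn ω)| ≤ τ,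
    fun k y => ![1, t k y, ζN k y], ?_, ?_⟩
  · rintro k ω ⟨hsp, hk⟩
    obtain ⟨f1, f2, f3, f4⟩ := h.pt_facts hρ hρ1 hsp
    have hcA : 0 ≤ cA d K := by unfold cA; positivity
    have hr0 := h.r0
    have hε0 := h.ε0
    have hcS : 2 ≤ cS d K := by
      unfold cS
      have : 0 ≤ 4 * (((d : ℝ) + 1) * (4 * K) ^ d * 2 * K) + 2 ^ d * (cA d K * K) := by positivity
      linarith only [this]
    have b0 : 0 ≤ cS d K * (ε + r) / ρ ^ (d + 1) := by
      have : 0 ≤ cS d K := by linarith only [hcS]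
      positivity
    have b1 : τ ≤ (4 * K) ^ (d + 1) * τ := by
      have : (1 : ℝ) ≤ (4 * K) ^ (d + 1) := one_le_pow₀ (by linarith only [hK])
      nlinarith only [hτ, this]
    refine ⟨hsp.1, fun j => ?_⟩
    refine fin3 (P := fun j => |X.e (X.pt ω) j - (![1, t k (X.wn ω), ζN k (X.wn ω)] :
      Fin 3 → ℝ) j| ≤ cS d K * (ε + r) / ρ ^ (d + 1) + (4 * K) ^ (d + 1) * τ) ?_ ?_ ?_ j
    · show |X.e (X.pt ω) 0 - 1| ≤ _
      have b2 : r / ρ ≤ cS d K * (ε + r) / ρ ^ (d + 1) := by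
        rw [div_le_div_iff₀ hρ (by positivity)]
        have b3 : ρ ^ (d + 1) ≤ ρ := by
          rw [pow_succ]
          have : ρ ^ d ≤ 1 := pow_le_one₀ hρ.le hρ1
          nlinarith only [hρ, this]
        have b4 : r ≤ cS d K * (ε + r) := by nlinarith only [hr0, hε0, hcS]
        exact mul_le_mul b4 b3 (by positivity) (by nlinarith only [hr0, b4])
      have : 0 ≤ (4 * K) ^ (d + 1) * τ := by positivity
      linarith only [hτ, f2, b1, b2]
    · show |X.e (X.pt ω) 1 - t k (X.wn ω)| ≤ _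
      linarith only [hk, b0, b1]
    · show |X.e (X.pt ω) 2 - ζN k (X.wn ω)| ≤ _
      rw [hζN k ω hsp.1]
      have g1 := gE_lip hK (h.Y ω hsp.1) (h.D ω hsp.1) (h.deg ω hsp.1) (X.e (X.pt ω) 1)
        (t k (X.wn ω))
      have g2 : |X.e (X.pt ω) 1 - t k (X.wn ω)| * ((4 * K) ^ d * l1 (X.L ω)) ≤
          (4 * K) ^ (d + 1) * τ := by
        have g3 : (4 * K) ^ d * l1 (X.L ω) ≤ (4 * K) ^ (d + 1) := by
          rw [pow_succ]
          refine mul_le_mul_of_nonneg_left ?_ (by positivity)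
          linarith only [hK, h, hsp, h.Lb ω hsp.1]
        calc _ ≤ τ * (4 * K) ^ (d + 1) :=
              mul_le_mul hk g3 (mul_nonneg (by positivity) (l1_nonneg _)) hτ.le
          _ = _ := mul_comm _ _
      have e1 : X.e (X.pt ω) 2 - gE (X.Y ω) (X.D ω) (t k (X.wn ω)) (X.L ω) =
          (X.e (X.pt ω) 2 - gE (X.Y ω) (X.D ω) (X.e (X.pt ω) 1) (X.L ω)) +
          (gE (X.Y ω) (X.D ω) (X.e (X.pt ω) 1) (X.L ω) -
            gE (X.Y ω) (X.D ω) (t k (X.wn ω)) (X.L ω)) := by ring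
      rw [e1]
      exact (abs_add_le _ _).trans (add_le_add f4 (g1.trans g2))
  · intro ω hω
    rcases hv ω hω with hsp | hnar
    swap
    · exact Or.inl hnar
    right
    have hS : X.Sp A ρ d ω := ⟨hω, hsp⟩
    rcases ht ω hS with ⟨z, hz, hsep⟩ | ⟨k, hk, hk2⟩
    swap
    · exact Or.inl ⟨k, hk, hS, hk2⟩
    right
    refine main_absorb hr ?_
    refine main_est (Y := X.Y ω) (D := X.D ω) (e := fun i => X.e (X.pt (z i)) 1) hK hτ hτ1 h.ε0
      h.r0 hρ hρ1 (h.Y ω hω) (h.D ω hω) (h.deg ω hω) (fun i hi => ?_) hsep (fun i hi => ?_)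
    · exact (h.pt_facts hρ hρ1 (hz i hi).1).2.2.1
    · have h1 := (h.pt_facts hρ hρ1 (hz i hi).1).1
      obtain ⟨w1, w2, w3⟩ := hW ω (z i) hω (hz i hi).1.1 (hz i hi).2
      rw [w1, w2, w3] at h1
      exact h1

end Ldp

end Pool.S6P
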