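import Mathlib

/-!
# Quadrics along lines

`F (s, y)` is a polynomial of degree at most two on `ℝ × ℝ³`; along a line `y = Y + s D` it is
`c₀ + c₁ s + c₂ s²`, and its gradient in `y` is `g + s g₁`. The minors of `(g, g₁)` do not depend
on the time. Two lines through one point on which `F` is small: relations between their
directions.
-/

set_option autoImplicit false

namespace Pool.S6D

open Finset

/-- A polynomial of degree at most two in the time and in three coordinates. -/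
structure QD where
  /-- coefficients of the powers of the time -/
  a : Fin 3 → ℝ
  /-- linear part -/
  b : Fin 3 → ℝ
  /-- linear part times the time -/
  c : Fin 3 → ℝ
  /-- Hessian -/
  H : Fin 3 → Fin 3 → ℝ
  sym : ∀ i j, H i j = H j i

namespace QD

variable (F : QD)

/-- Value at the base time. -/
noncomputable def c0 (Y : Fin 3 → ℝ) : ℝ :=
  F.a 0 + ∑ i, F.b i * Y i + (∑ i, ∑ j, F.H i j * Y i * Y j) / 2

/-- Coefficient of the time. -/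
noncomputable def c1 (Y D : Fin 3 → ℝ) : ℝ :=
  F.a 1 + ∑ i, F.b i * D i + ∑ i, F.c i * Y i + ∑ i, ∑ j, F.H i j * Y i * D j

/-- Coefficient of the square of the time. -/
noncomputable def c2 (D : Fin 3 → ℝ) : ℝ :=
  F.a 2 + ∑ i, F.c i * D i + (∑ i, ∑ j, F.H i j * D i * D j) / 2

/-- Gradient at the base time. -/
noncomputable def g (Y : Fin 3 → ℝ) (i : Fin 3) : ℝ := F.b i + ∑ j, F.H i j * Y j

/-- Derivative of the gradient along the line. -/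
noncomputable def g1 (D : Fin 3 → ℝ) (i : Fin 3) : ℝ := F.c i + ∑ j, F.H i j * D j

/-- Gradient at the time `s`. -/
noncomputable def gs (s : ℝ) (Y D : Fin 3 → ℝ) (i : Fin 3) : ℝ := F.g Y i + s * F.g1 D i

/-- The minors of the gradient and of its derivative with the last index. -/
noncomputable def mm (Y D : Fin 3 → ℝ) (i : Fin 3) : ℝ :=
  F.g1 D i * F.g Y 2 - F.g1 D 2 * F.g Y i

theorem pair_c2 (D D' : Fin 3 → ℝ) : F.c2 D' - F.c2 D =
    ∑ i, F.g1 D i * (D' i - D i) + (∑ i, ∑ j, F.H i j * (D' i - D i) * (D' j - D j)) / 2 := by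
  unfold c2 g1
  simp only [Fin.sum_univ_three]
  rw [F.sym 1 0, F.sym 2 0, F.sym 2 1]
  ring

theorem pair_c1 (s : ℝ) (Y D Y' D' : Fin 3 → ℝ) :
    (F.c1 Y' D' + 2 * s * F.c2 D') - (F.c1 Y D + 2 * s * F.c2 D) =
    ∑ i, F.gs s Y D i * (D' i - D i) +
      ∑ i, F.g1 D i * ((Y' i + s * D' i) - (Y i + s * D i)) +
      ∑ i, ∑ j, F.H i j * ((Y' i + s * D' i) - (Y i + s * D i)) * (D' j - D j) := by
  unfold c1 c2 gs g g1
  simp only [Fin.sum_univ_three]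
  rw [F.sym 1 0, F.sym 2 0, F.sym 2 1]
  ring

theorem g1_sub (D D' : Fin 3 → ℝ) (i : Fin 3) :
    F.g1 D' i - F.g1 D i = ∑ j, F.H i j * (D' j - D j) := by
  unfold g1
  simp only [Fin.sum_univ_three]
  ring

theorem gs_sub (s : ℝ) (Y D Y' D' : Fin 3 → ℝ) (i : Fin 3) :
    F.gs s Y' D' i - F.gs s Y D i = ∑ j, F.H i j * ((Y' j + s * D' j) - (Y j + s * D j)) := by
  unfold gs g g1
  simp only [Fin.sum_univ_three]
  ring

/-- The minors do not depend on the time. -/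
theorem mm_eq (s : ℝ) (Y D : Fin 3 → ℝ) (i : Fin 3) :
    F.mm Y D i = F.g1 D i * F.gs s Y D 2 - F.g1 D 2 * F.gs s Y D i := by
  unfold mm gs
  ring

/-- The third minor. -/
theorem mm3_eq (s : ℝ) (Y D : Fin 3 → ℝ) :
    F.g Y 0 * F.g1 D 1 - F.g Y 1 * F.g1 D 0 =
      F.gs s Y D 0 * F.g1 D 1 - F.gs s Y D 1 * F.g1 D 0 := by
  unfold gs
  ring

end QD

/-! ### Scalar estimates -/

/-- Data at a line: the gradient `p` at the time of the point, its derivative `g`, the Hessian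
`h` and the direction `e` of the fan. -/
structure Dat where
  /-- gradient -/
  p0 : ℝ
  /-- gradient -/
  p1 : ℝ
  /-- gradient -/
  p2 : ℝ
  /-- derivative -/
  g0 : ℝ
  /-- derivative -/
  g1 : ℝ
  /-- derivative -/
  g2 : ℝ
  /-- Hessian -/
  h00 : ℝ
  /-- Hessian -/
  h01 : ℝ
  /-- Hessian -/
  h02 : ℝ
  /-- Hessian -/
  h11 : ℝ
  /-- Hessian -/
  h12 : ℝ
  /-- Hessian -/
  h22 : ℝ
  /-- direction -/
  e : ℝ

namespace Dat

variable (X : Dat)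

/-- Last coordinate of the vector `(1, e, ·)` in the kernel of `p`. -/
noncomputable def EN : ℝ := -((X.p0 + X.e * X.p1) / X.p2)

/-- Last coordinate of the vector `(0, 1, ·)` in the kernel of `p`. -/
noncomputable def UN : ℝ := -(X.p1 / X.p2)

/-- `g (E)` -/
noncomputable def aE : ℝ := X.g0 + X.e * X.g1 + X.EN * X.g2

/-- `g (U)` -/
noncomputable def aU : ℝ := X.g1 + X.UN * X.g2

/-- `H (E, N)` -/
noncomputable def hEN : ℝ := X.h02 + X.e * X.h12 + X.EN * X.h22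

/-- `H (U, N)` -/
noncomputable def hUN : ℝ := X.h12 + X.UN * X.h22

/-- `H (E, E)` -/
noncomputable def A : ℝ := X.h00 + X.e * X.h01 + X.EN * X.h02 +
  X.e * (X.h01 + X.e * X.h11 + X.EN * X.h12) + X.EN * X.hEN

/-- `H (E, U)` -/
noncomputable def B : ℝ := X.h01 + X.e * X.h11 + X.EN * X.h12 + X.UN * X.hEN

/-- `H (U, U)` -/
noncomputable def G : ℝ := X.h11 + X.UN * X.h12 + X.UN * X.hUN

/-- All the data are bounded. -/
structure Bdd (K : ℝ) : Prop where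
  hK : 1 ≤ K
  p0 : |X.p0| ≤ K
  p1 : |X.p1| ≤ K
  p2 : 1 / 2 ≤ X.p2
  g0 : |X.g0| ≤ K
  g1 : |X.g1| ≤ K
  g2 : |X.g2| ≤ K
  h02 : |X.h02| ≤ K
  h12 : |X.h12| ≤ K
  h22 : |X.h22| ≤ K
  e : |X.e| ≤ K

theorem abs_div_le {x p K : ℝ} (hp : 1 / 2 ≤ p) (hx : |x| ≤ K) : |x / p| ≤ 2 * K := by
  have hp0 : 0 < p := by linarith
  rw [abs_div, abs_of_pos hp0, div_le_iff₀ hp0]
  nlinarith [abs_nonneg x]

theorem Bdd.UN_le {X : Dat} {K : ℝ} (h : X.Bdd K) : |X.UN| ≤ 2 * K := by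
  unfold UN
  rw [abs_neg]
  exact abs_div_le h.p2 h.p1

theorem Bdd.EN_le {X : Dat} {K : ℝ} (h : X.Bdd K) : |X.EN| ≤ 4 * K ^ 2 := by
  unfold EN
  rw [abs_neg]
  have hK := h.hK
  have h1 : |X.p0 + X.e * X.p1| ≤ 2 * K ^ 2 := by
    have h2 : |X.e * X.p1| ≤ K * K := by
      rw [abs_mul]
      exact mul_le_mul h.e h.p1 (abs_nonneg _) (by linarith)
    have h3 := abs_add_le X.p0 (X.e * X.p1)
    nlinarith [h.p0]
  have := abs_div_le h.p2 h1
  linarith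

theorem Bdd.hEN_le {X : Dat} {K : ℝ} (h : X.Bdd K) : |X.hEN| ≤ 6 * K ^ 3 := by
  have hK := h.hK
  unfold hEN
  have h2 : |X.e * X.h12| ≤ K * K := by
    rw [abs_mul]
    exact mul_le_mul h.e h.h12 (abs_nonneg _) (by linarith)
  have h3 : |X.EN * X.h22| ≤ 4 * K ^ 2 * K := by
    rw [abs_mul]
    exact mul_le_mul h.EN_le h.h22 (abs_nonneg _) (by positivity)
  have h4 := abs_add_le (X.h02 + X.e * X.h12) (X.EN * X.h22)
  have h5 := abs_add_le X.h02 (X.e * X.h12)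
  have h6 := h.h02
  have h7 : K ≤ K ^ 3 := by nlinarith [mul_pos (by linarith : (0 : ℝ) < K) (by linarith : (0 : ℝ) < K)]
  have h8 : K * K ≤ K ^ 3 := by nlinarith [mul_pos (by linarith : (0 : ℝ) < K) (by linarith : (0 : ℝ) < K)]
  nlinarith

theorem Bdd.hUN_le {X : Dat} {K : ℝ} (h : X.Bdd K) : |X.hUN| ≤ 3 * K ^ 2 := by
  have hK := h.hK
  unfold hUN
  have h3 : |X.UN * X.h22| ≤ 2 * K * K := by
    rw [abs_mul]
    exact mul_le_mul h.UN_le h.h22 (abs_nonneg _) (by positivity)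
  have h5 := abs_add_le X.h12 (X.UN * X.h22)
  have h6 := h.h12
  nlinarith

/-- The decomposition of a difference of directions. -/
theorem decomp {X : Dat} (hp : X.p2 ≠ 0) (d0 d1 d2 : ℝ) :
    d2 = X.EN * d0 + X.UN * (d1 - X.e * d0) +
      (X.p0 * d0 + X.p1 * d1 + X.p2 * d2) / X.p2 := by
  unfold EN UN
  field_simp
  ring

/-- The remainder. -/
theorem nu_le {X : Dat} {K ε d0 d1 d2 : ℝ} (h : X.Bdd K)
    (hd : |X.p0 * d0 + X.p1 * d1 + X.p2 * d2| ≤ ε) :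
    |d2 - X.EN * d0 - X.UN * (d1 - X.e * d0)| ≤ 2 * ε := by
  have hp : X.p2 ≠ 0 := by have := h.p2; intro h0; rw [h0] at this; norm_num at this
  have h1 := decomp hp d0 d1 d2
  have h2 : d2 - X.EN * d0 - X.UN * (d1 - X.e * d0) =
      (X.p0 * d0 + X.p1 * d1 + X.p2 * d2) / X.p2 := by linarith
  rw [h2]
  exact abs_div_le h.p2 hd

/-- Second order relation between two directions of a fan. -/
theorem rel2 {X : Dat} {K ε r d0 d1 d2 : ℝ} (h : X.Bdd K) (hε0 : 0 ≤ ε) (hε1 : ε ≤ 1)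
    (hr : r ≤ 1) (hd0 : |d0| ≤ K) (hβ : |d1 - X.e * d0| ≤ r)
    (hd : |X.p0 * d0 + X.p1 * d1 + X.p2 * d2| ≤ ε)
    (hq : |X.g0 * d0 + X.g1 * d1 + X.g2 * d2 +
      (X.h00 * d0 * d0 + X.h11 * d1 * d1 + X.h22 * d2 * d2 +
        2 * (X.h01 * d0 * d1 + X.h02 * d0 * d2 + X.h12 * d1 * d2)) / 2| ≤ ε) :
    |d0 * X.aE + (d1 - X.e * d0) * X.aU + (d0 ^ 2 * X.A + 2 * (d0 * (d1 - X.e * d0) * X.B) +
      (d1 - X.e * d0) ^ 2 * X.G) / 2| ≤ 23 * K ^ 4 * ε := by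
  obtain ⟨ν, hν⟩ : ∃ ν, ν = d2 - X.EN * d0 - X.UN * (d1 - X.e * d0) := ⟨_, rfl⟩
  obtain ⟨β, hβe⟩ : ∃ β, β = d1 - X.e * d0 := ⟨_, rfl⟩
  have hνle := nu_le h hd
  rw [← hν] at hνle
  rw [← hβe] at hβ hν ⊢
  have hd2 : d2 = X.EN * d0 + X.UN * β + ν := by rw [hν]; ring
  have hd1 : d1 = X.e * d0 + β := by rw [hβe]; ring
  have key : d0 * X.aE + β * X.aU + (d0 ^ 2 * X.A + 2 * (d0 * β * X.B) + β ^ 2 * X.G) / 2 =
      (X.g0 * d0 + X.g1 * d1 + X.g2 * d2 +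
      (X.h00 * d0 * d0 + X.h11 * d1 * d1 + X.h22 * d2 * d2 +
        2 * (X.h01 * d0 * d1 + X.h02 * d0 * d2 + X.h12 * d1 * d2)) / 2) -
      (ν * X.g2 + ν * (d0 * X.hEN + β * X.hUN) + ν * (ν * X.h22) / 2) := by
    rw [hd2, hd1]
    unfold aE aU A B G hEN hUN
    ring
  rw [key]
  have hK := h.hK
  have hK0 : 0 < K := by linarith
  have b1 : |ν * X.g2| ≤ 2 * ε * K := by
    rw [abs_mul]
    exact mul_le_mul hνle h.g2 (abs_nonneg _) (by positivity)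
  have b2 : |d0 * X.hEN| ≤ K * (6 * K ^ 3) := by
    rw [abs_mul]
    exact mul_le_mul hd0 h.hEN_le (abs_nonneg _) hK0.le
  have b3 : |β * X.hUN| ≤ 1 * (3 * K ^ 2) := by
    rw [abs_mul]
    exact mul_le_mul (hβ.trans hr) h.hUN_le (abs_nonneg _) zero_le_one
  have b4 : |ν * (d0 * X.hEN + β * X.hUN)| ≤ 2 * ε * (K * (6 * K ^ 3) + 1 * (3 * K ^ 2)) := by
    rw [abs_mul]
    exact mul_le_mul hνle ((abs_add_le _ _).trans (add_le_add b2 b3)) (abs_nonneg _)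
      (by positivity)
  have b5 : |ν * (ν * X.h22) / 2| ≤ 2 * ε * K := by
    rw [abs_div, abs_mul, abs_mul, abs_of_pos (by norm_num : (0 : ℝ) < 2)]
    have c1 : |ν| * |X.h22| ≤ 2 * K := by
      have : |ν| ≤ 2 := by linarith
      exact mul_le_mul this h.h22 (abs_nonneg _) (by norm_num)
    have c2 : |ν| * (|ν| * |X.h22|) ≤ 2 * ε * (2 * K) :=
      mul_le_mul hνle c1 (by positivity) (by positivity)
    linarith
  have b6 := abs_sub (X.g0 * d0 + X.g1 * d1 + X.g2 * d2 +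
      (X.h00 * d0 * d0 + X.h11 * d1 * d1 + X.h22 * d2 * d2 +
        2 * (X.h01 * d0 * d1 + X.h02 * d0 * d2 + X.h12 * d1 * d2)) / 2)
      (ν * X.g2 + ν * (d0 * X.hEN + β * X.hUN) + ν * (ν * X.h22) / 2)
  have b7 : |ν * X.g2 + ν * (d0 * X.hEN + β * X.hUN) + ν * (ν * X.h22) / 2| ≤
      |ν * X.g2| + |ν * (d0 * X.hEN + β * X.hUN)| + |ν * (ν * X.h22) / 2| :=
    (abs_add_le _ _).trans (add_le_add (abs_add_le _ _) le_rfl)
  have k1 : (1 : ℝ) ≤ K ^ 4 := one_le_pow₀ hK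
  have k2 : K ≤ K ^ 4 := by
    calc K = K * 1 := (mul_one _).symm
      _ ≤ K * K ^ 3 := mul_le_mul_of_nonneg_left (one_le_pow₀ hK) hK0.le
      _ = K ^ 4 := by ring
  have k3 : K ^ 2 ≤ K ^ 4 := by
    calc K ^ 2 = K ^ 2 * 1 := (mul_one _).symm
      _ ≤ K ^ 2 * K ^ 2 := mul_le_mul_of_nonneg_left (one_le_pow₀ hK) (by positivity)
      _ = K ^ 4 := by ring
  have m1 : ε ≤ K ^ 4 * ε := by
    calc ε = 1 * ε := (one_mul _).symm
      _ ≤ _ := mul_le_mul_of_nonneg_right k1 hε0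
  have m2 : K * ε ≤ K ^ 4 * ε := mul_le_mul_of_nonneg_right k2 hε0
  have m3 : K ^ 2 * ε ≤ K ^ 4 * ε := mul_le_mul_of_nonneg_right k3 hε0
  have e1 : 2 * ε * (K * (6 * K ^ 3) + 1 * (3 * K ^ 2)) = 12 * (K ^ 4 * ε) + 6 * (K ^ 2 * ε) := by
    ring
  rw [e1] at b4
  calc _ ≤ ε + (2 * ε * K + (12 * (K ^ 4 * ε) + 6 * (K ^ 2 * ε)) + 2 * ε * K) := by
        refine b6.trans (add_le_add hq (b7.trans (add_le_add (add_le_add b1 b4) b5)))
    _ ≤ 23 * K ^ 4 * ε := by nlinarith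

/-- The value of a covector on `E`. -/
theorem on_E {X : Dat} (hp : X.p2 ≠ 0) (g0 g1 g2 : ℝ) : g0 + X.e * g1 + X.EN * g2 =
    ((g0 * X.p2 - g2 * X.p0) + X.e * (g1 * X.p2 - g2 * X.p1)) / X.p2 := by
  unfold EN
  field_simp
  ring

/-- The value of a covector on `U`. -/
theorem on_U {X : Dat} (hp : X.p2 ≠ 0) (g1 g2 : ℝ) : g1 + X.UN * g2 =
    (g1 * X.p2 - g2 * X.p1) / X.p2 := by
  unfold UN
  field_simp
  ring

theorem Bdd.p2_ne {X : Dat} {K : ℝ} (h : X.Bdd K) : X.p2 ≠ 0 := by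
  have := h.p2
  intro h0
  rw [h0] at this
  norm_num at this

/-- First order relation: the derivatives of the gradients of two lines of a fan. -/
theorem rel1 {X : Dat} {K ε η d0 d1 d2 g1' g2' p1' p2' : ℝ} (h : X.Bdd K) (hε0 : 0 ≤ ε)
    (hd : |X.p0 * d0 + X.p1 * d1 + X.p2 * d2| ≤ ε)
    (hg1 : g1' - X.g1 = X.h01 * d0 + X.h11 * d1 + X.h12 * d2)
    (hg2 : g2' - X.g2 = X.h02 * d0 + X.h12 * d1 + X.h22 * d2)
    (hg1' : |g1'| ≤ K) (hg2' : |g2'| ≤ K) (hp1 : |p1' - X.p1| ≤ ε) (hp2 : |p2' - X.p2| ≤ ε)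
    (hm : |X.g1 * X.p2 - X.g2 * X.p1| ≤ η) (hm' : |g1' * p2' - g2' * p1'| ≤ η) :
    |d0 * X.B + (d1 - X.e * d0) * X.G| ≤ 4 * η + 10 * K ^ 2 * ε := by
  obtain ⟨ν, hν⟩ : ∃ ν, ν = d2 - X.EN * d0 - X.UN * (d1 - X.e * d0) := ⟨_, rfl⟩
  have hνle := nu_le h hd
  rw [← hν] at hνle
  have hK := h.hK
  have hK0 : 0 < K := by linarith
  have key : d0 * X.B + (d1 - X.e * d0) * X.G =
      (g1' + X.UN * g2') - (X.g1 + X.UN * X.g2) - ν * X.hUN := by
    have e1 : g1' = X.g1 + (X.h01 * d0 + X.h11 * d1 + X.h12 * d2) := by linarith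
    have e2 : g2' = X.g2 + (X.h02 * d0 + X.h12 * d1 + X.h22 * d2) := by linarith
    rw [e1, e2, hν]
    unfold B G hEN hUN
    ring
  have a1 : |X.g1 + X.UN * X.g2| ≤ 2 * η := by
    rw [on_U h.p2_ne]
    exact abs_div_le h.p2 hm
  have a2 : |g1' * X.p2 - g2' * X.p1| ≤ η + 2 * K * ε := by
    have e1 : g1' * X.p2 - g2' * X.p1 = (g1' * p2' - g2' * p1') -
        (g1' * (p2' - X.p2) - g2' * (p1' - X.p1)) := by ring
    rw [e1]
    have b1 : |g1' * (p2' - X.p2)| ≤ K * ε := by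
      rw [abs_mul]
      exact mul_le_mul hg1' hp2 (abs_nonneg _) hK0.le
    have b2 : |g2' * (p1' - X.p1)| ≤ K * ε := by
      rw [abs_mul]
      exact mul_le_mul hg2' hp1 (abs_nonneg _) hK0.le
    have b3 := abs_sub (g1' * p2' - g2' * p1') (g1' * (p2' - X.p2) - g2' * (p1' - X.p1))
    have b4 := abs_sub (g1' * (p2' - X.p2)) (g2' * (p1' - X.p1))
    linarith
  have a3 : |g1' + X.UN * g2'| ≤ 2 * (η + 2 * K * ε) := by
    rw [on_U h.p2_ne]
    exact abs_div_le h.p2 a2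
  have a4 : |ν * X.hUN| ≤ 2 * ε * (3 * K ^ 2) := by
    rw [abs_mul]
    exact mul_le_mul hνle h.hUN_le (abs_nonneg _) (by positivity)
  rw [key]
  have b1 := abs_sub ((g1' + X.UN * g2') - (X.g1 + X.UN * X.g2)) (ν * X.hUN)
  have b2 := abs_sub (g1' + X.UN * g2') (X.g1 + X.UN * X.g2)
  have b3 : K * ε ≤ K ^ 2 * ε := by
    refine mul_le_mul_of_nonneg_right ?_ hε0
    nlinarith
  nlinarith

end Dat

/-- Elimination: two mates which span the plane, two mates at a distance. -/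
theorem lemQ {A B G aE aU K κ η ε r ρ ρ' a1 b1 a2 b2 a3 b3 a4 b4 : ℝ} (hK : 1 ≤ K)
    (hρ : 0 < ρ) (hρ' : 0 < ρ') (hr : 0 < r)
    (ha1 : |a1| ≤ K) (hb1 : |b1| ≤ r) (ha2 : |a2| ≤ K) (hb2 : |b2| ≤ r)
    (ha3 : |a3| ≤ K) (hb3 : |b3| ≤ r) (ha4 : |a4| ≤ K) (hb4 : |b4| ≤ r)
    (h1 : |a1 * B + b1 * G| ≤ κ) (h2 : |a2 * B + b2 * G| ≤ κ)
    (h3 : |a3 * aE + b3 * aU + (a3 ^ 2 * A + 2 * (a3 * b3 * B) + b3 ^ 2 * G) / 2| ≤ ε)
    (h4 : |a4 * aE + b4 * aU + (a4 ^ 2 * A + 2 * (a4 * b4 * B) + b4 ^ 2 * G) / 2| ≤ ε)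
    (haU : |aU| ≤ 2 * η) (har : ρ' * r ≤ |a1 * b2 - a2 * b1|) (hs3 : ρ ≤ |a3|) (hs4 : ρ ≤ |a4|)
    (hs34 : ρ ≤ |a4 - a3|) :
    |aE| ≤ 2 * K / ρ ^ 2 * (ε + 2 * r * η + 3 * K * r * κ / ρ') := by
  have hK0 : 0 < K := by linarith
  have hpr : 0 < ρ' * r := by positivity
  -- the mixed term
  have hB : |B| ≤ 2 * κ / ρ' := by
    have e1 : B * (a1 * b2 - a2 * b1) = b2 * (a1 * B + b1 * G) - b1 * (a2 * B + b2 * G) := by ring
    have e2 : |B| * |a1 * b2 - a2 * b1| ≤ r * κ + r * κ := by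
      rw [← abs_mul, e1]
      refine (abs_sub _ _).trans (add_le_add ?_ ?_)
      · rw [abs_mul]; exact mul_le_mul hb2 h1 (abs_nonneg _) hr.le
      · rw [abs_mul]; exact mul_le_mul hb1 h2 (abs_nonneg _) hr.le
    rw [le_div_iff₀ hρ']
    have e3 : |B| * (ρ' * r) ≤ r * κ + r * κ :=
      (mul_le_mul_of_nonneg_left har (abs_nonneg _)).trans e2
    have e4 : (|B| * ρ') * r ≤ (2 * κ) * r := by nlinarith
    exact le_of_mul_le_mul_right e4 hr
  have hG : |G| * r ≤ 2 * K * κ / ρ' := by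
    have e1 : G * (a1 * b2 - a2 * b1) = a1 * (a2 * B + b2 * G) - a2 * (a1 * B + b1 * G) := by ring
    have e2 : |G| * |a1 * b2 - a2 * b1| ≤ K * κ + K * κ := by
      rw [← abs_mul, e1]
      refine (abs_sub _ _).trans (add_le_add ?_ ?_)
      · rw [abs_mul]; exact mul_le_mul ha1 h2 (abs_nonneg _) hK0.le
      · rw [abs_mul]; exact mul_le_mul ha2 h1 (abs_nonneg _) hK0.le
    rw [le_div_iff₀ hρ']
    have e3 : |G| * (ρ' * r) ≤ K * κ + K * κ :=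
      (mul_le_mul_of_nonneg_left har (abs_nonneg _)).trans e2
    nlinarith
  obtain ⟨E, hE⟩ : ∃ E, E = ε + 2 * r * η + 3 * K * r * κ / ρ' := ⟨_, rfl⟩
  rw [← hE]
  -- the relation in the direction `E`
  have rel : ∀ a b : ℝ, |a| ≤ K → |b| ≤ r →
      |a * aE + b * aU + (a ^ 2 * A + 2 * (a * b * B) + b ^ 2 * G) / 2| ≤ ε →
      |a * aE + a ^ 2 * A / 2| ≤ E := by
    intro a b ha hb hab
    have e1 : a * aE + a ^ 2 * A / 2 =
        (a * aE + b * aU + (a ^ 2 * A + 2 * (a * b * B) + b ^ 2 * G) / 2) -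
        (b * aU + a * b * B + b ^ 2 * G / 2) := by ring
    have c1 : |b * aU| ≤ r * (2 * η) := by
      rw [abs_mul]
      exact mul_le_mul hb haU (abs_nonneg _) hr.le
    have c2 : |a * b * B| ≤ K * r * (2 * κ / ρ') := by
      rw [abs_mul, abs_mul]
      exact mul_le_mul (mul_le_mul ha hb (abs_nonneg _) hK0.le) hB (abs_nonneg _) (by positivity)
    have c3 : |b ^ 2 * G / 2| ≤ r * (2 * K * κ / ρ') / 2 := by
      rw [abs_div, abs_mul, abs_pow, abs_of_pos (by norm_num : (0 : ℝ) < 2)]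
      refine div_le_div_of_nonneg_right ?_ (by norm_num)
      calc |b| ^ 2 * |G| = |b| * (|G| * |b|) := by ring
        _ ≤ |b| * (|G| * r) := mul_le_mul_of_nonneg_left
            (mul_le_mul_of_nonneg_left hb (abs_nonneg _)) (abs_nonneg _)
        _ ≤ r * (2 * K * κ / ρ') := mul_le_mul hb hG (by positivity) hr.le
    rw [e1]
    have c4 := abs_sub (a * aE + b * aU + (a ^ 2 * A + 2 * (a * b * B) + b ^ 2 * G) / 2)
      (b * aU + a * b * B + b ^ 2 * G / 2)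
    have c5 : |b * aU + a * b * B + b ^ 2 * G / 2| ≤ |b * aU| + |a * b * B| + |b ^ 2 * G / 2| :=
      (abs_add_le _ _).trans (add_le_add (abs_add_le _ _) le_rfl)
    have c6 : K * r * (2 * κ / ρ') + r * (2 * K * κ / ρ') / 2 = 3 * K * r * κ / ρ' := by
      field_simp
      ring
    rw [hE]
    linarith
  have r3 := rel a3 b3 ha3 hb3 h3
  have r4 := rel a4 b4 ha4 hb4 h4
  have hE0 : 0 ≤ E := (abs_nonneg _).trans r3
  -- elimination of `A`
  have e1 : aE * (a3 * a4 * (a4 - a3)) =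
      a4 ^ 2 * (a3 * aE + a3 ^ 2 * A / 2) - a3 ^ 2 * (a4 * aE + a4 ^ 2 * A / 2) := by ring
  have e2 : |aE| * (|a3| * |a4| * |a4 - a3|) ≤ |a4| ^ 2 * E + |a3| ^ 2 * E := by
    rw [← abs_mul, ← abs_mul, ← abs_mul, e1]
    refine (abs_sub _ _).trans (add_le_add ?_ ?_)
    · rw [abs_mul, abs_pow]; exact mul_le_mul_of_nonneg_left r3 (by positivity)
    · rw [abs_mul, abs_pow]; exact mul_le_mul_of_nonneg_left r4 (by positivity)
  have p3 : 0 < |a3| := hρ.trans_le hs3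
  have p4 : 0 < |a4| := hρ.trans_le hs4
  have p34 : 0 < |a4 - a3| := hρ.trans_le hs34
  -- division
  have e3 : |a4| ^ 2 * E + |a3| ^ 2 * E ≤ (|a3| * |a4| * |a4 - a3|) * (2 * K / ρ ^ 2 * E) := by
    have f1 : |a4| ^ 2 * ρ ^ 2 ≤ (|a3| * |a4| * |a4 - a3|) * K := by
      have : |a4| * (ρ * ρ) ≤ |a4| * (|a3| * |a4 - a3|) :=
        mul_le_mul_of_nonneg_left (mul_le_mul hs3 hs34 hρ.le p3.le) p4.le
      have f2 : |a4| ^ 2 * ρ ^ 2 = |a4| * (|a4| * (ρ * ρ)) := by ring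
      rw [f2]
      calc |a4| * (|a4| * (ρ * ρ)) ≤ K * (|a4| * (|a3| * |a4 - a3|)) :=
            mul_le_mul ha4 this (by positivity) hK0.le
        _ = _ := by ring
    have f3 : |a3| ^ 2 * ρ ^ 2 ≤ (|a3| * |a4| * |a4 - a3|) * K := by
      have : |a3| * (ρ * ρ) ≤ |a3| * (|a4| * |a4 - a3|) :=
        mul_le_mul_of_nonneg_left (mul_le_mul hs4 hs34 hρ.le p4.le) p3.le
      have f2 : |a3| ^ 2 * ρ ^ 2 = |a3| * (|a3| * (ρ * ρ)) := by ring
      rw [f2]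
      calc |a3| * (|a3| * (ρ * ρ)) ≤ K * (|a3| * (|a4| * |a4 - a3|)) :=
            mul_le_mul ha3 this (by positivity) hK0.le
        _ = _ := by ring
    have f4 : (|a4| ^ 2 + |a3| ^ 2) * ρ ^ 2 ≤ (|a3| * |a4| * |a4 - a3|) * (2 * K) := by nlinarith
    have f5 : |a4| ^ 2 + |a3| ^ 2 ≤ (|a3| * |a4| * |a4 - a3|) * (2 * K) / ρ ^ 2 := by
      rw [le_div_iff₀ (by positivity)]
      exact f4
    calc |a4| ^ 2 * E + |a3| ^ 2 * E = (|a4| ^ 2 + |a3| ^ 2) * E := by ring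
      _ ≤ (|a3| * |a4| * |a4 - a3|) * (2 * K) / ρ ^ 2 * E := mul_le_mul_of_nonneg_right f5 hE0
      _ = _ := by ring
  have e4 : |aE| * (|a3| * |a4| * |a4 - a3|) ≤
      (2 * K / ρ ^ 2 * E) * (|a3| * |a4| * |a4 - a3|) := by
    refine e2.trans (e3.trans (le_of_eq ?_))
    ring
  exact le_of_mul_le_mul_right e4 (by positivity)

end Pool.S6D
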