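import Pool.Agent.H26.DIC.Smp

/-!
# The two alternatives

If the derivative of the gradient (modulo the gradient) is large compared with the precision of
the label, then the directions of the fans are functions of the window. If it is small, then the
hyperplane tangent to the label is a label.
-/

set_option autoImplicit false

namespace Pool.S6D

open Finset

variable {Ω U V : Type}

namespace Ldt

variable {X : Ldt Ω U V} {A : Ω → Prop} {K ε r : ℝ}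

/-- The last slope of the kernel of the two covectors. -/
noncomputable def zN (X : Ldt Ω U V) (ω : Ω) : ℝ :=
  -(((X.L ω).g (X.Y ω) 0 * (X.L ω).g1 (X.D ω) 1 - (X.L ω).g (X.Y ω) 1 * (X.L ω).g1 (X.D ω) 0) /
    X.mu ω)

theorem Ok.EN_zN (h : X.Ok A K ε r) {ω : Ω} (hω : A ω) (hmu : X.mu ω ≠ 0) :
    (X.dat ω).EN - X.zN ω = (X.dat ω).UN * (X.e (X.pt ω) 1 + X.me ω / X.mu ω) := by
  have hp := (h.bdd hω).p2_ne
  have hp' : (X.L ω).gs (X.s ω) (X.Y ω) (X.D ω) 2 ≠ 0 := hp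
  have e1 : X.mu ω = (X.L ω).g1 (X.D ω) 1 * (X.L ω).gs (X.s ω) (X.Y ω) (X.D ω) 2 -
      (X.L ω).g1 (X.D ω) 2 * (X.L ω).gs (X.s ω) (X.Y ω) (X.D ω) 1 := by
    unfold mu
    exact (X.L ω).mm_eq _ _ _ _
  have e2 : X.me ω = (X.L ω).g1 (X.D ω) 0 * (X.L ω).gs (X.s ω) (X.Y ω) (X.D ω) 2 -
      (X.L ω).g1 (X.D ω) 2 * (X.L ω).gs (X.s ω) (X.Y ω) (X.D ω) 0 := by
    unfold me
    exact (X.L ω).mm_eq _ _ _ _
  unfold zN
  rw [(X.L ω).mm3_eq (X.s ω)]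
  unfold Dat.EN Dat.UN dat
  simp only
  rw [e2]
  field_simp
  rw [e1]
  ring

/-- **The large alternative.** -/
theorem Ok.rot (h : X.Ok A K ε r) (hW : X.Wn A) {η ρ ρ' Λ : ℝ} (hρ : 0 < ρ) (hρ' : 0 < ρ')
    (hrρ : r ≤ ρ') (hρ1 : ρ' ≤ 1) (hη : 0 < η)
    (hΛ : 106 * K ^ 6 / ρ ^ 2 * (ε + r / ρ' * η) ≤ Λ) (hΛη : Λ ≤ η / 8) {B : Ω → Prop}
    (hB : ∀ ω, B ω → A ω) (hmu : ∀ ω, B ω → |X.mu ω| ≤ η)
    (hmax : ∀ ω, B ω → η / 2 < |X.me ω| ∨ η / 2 < |X.mu ω|) :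
    ∃ ζ : V → Fin 3 → ℝ, ∀ ω, B ω → Sep X B ρ ω → Area X B (ρ' * r) ω → ∀ j,
      |X.e (X.pt ω) j - ζ (X.wn ω) j| ≤ (3 * K * r + 2 * ε) / ρ + 16 * K ^ 2 * Λ / η := by
  classical
  have hK := h.hK
  have hK0 : 0 < K := by linarith
  have hε := h.ε0
  have hr := h.r0
  have hΛ0 : 0 ≤ Λ := by
    refine le_trans ?_ hΛ
    positivity
  have key : ∀ v : V, ∃ z : Fin 3 → ℝ, ∀ ω, B ω → Sep X B ρ ω → Area X B (ρ' * r) ω →
      X.wn ω = v → ∀ j, |X.e (X.pt ω) j - z j| ≤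
        (3 * K * r + 2 * ε) / ρ + 16 * K ^ 2 * Λ / η := by
    intro v
    by_cases hv : ∃ ω, B ω ∧ X.wn ω = v
    swap
    · push Not at hv
      exact ⟨0, fun ω h1 _ _ h4 => absurd h4 (hv ω h1)⟩
    obtain ⟨ω₀, c1, c2⟩ := hv
    refine ⟨![1, -(X.me ω₀ / X.mu ω₀), X.zN ω₀], ?_⟩
    intro ω h1 h2 h3 h4 j
    obtain ⟨w1, w2, w3⟩ := hW ω₀ ω (hB _ c1) (hB _ h1) (h4.trans c2.symm)
    have eme : X.me ω₀ = X.me ω := by unfold me; rw [w1, w2, w3]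
    have emu : X.mu ω₀ = X.mu ω := by unfold mu; rw [w1, w2, w3]
    have ezN : X.zN ω₀ = X.zN ω := by unfold zN; rw [w1, w2, w3, emu]
    rw [eme, emu, ezN]
    obtain ⟨ω₃, ω₄, s1, s2, s3, s4, s5, s6, s7⟩ := h2
    obtain ⟨ω₁, ω₂, t1, t2, t3, t4, t5⟩ := h3
    have hkey := (h.key hρ hρ' hrρ hρ1 hη.le (hB _ h1) (hB _ t1) (hB _ t2) (hB _ s1) (hB _ s2)
      t3 t4 s3 s4 (hmu ω h1) (hmu _ t1) (hmu _ t2) t5 s5 s6 s7).trans hΛ
    have he := h.e ω (hB _ h1)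
    -- the second minor is large
    have hlow : η / (8 * K) ≤ |X.mu ω| := by
      by_contra hcon
      push Not at hcon
      have a1 : |X.e (X.pt ω) 1 * X.mu ω| ≤ K * (η / (8 * K)) := by
        rw [abs_mul]
        exact mul_le_mul he hcon.le (abs_nonneg _) hK0.le
      have a2 : K * (η / (8 * K)) = η / 8 := by field_simp
      have a3 : |X.me ω| ≤ η / 8 + η / 8 := by
        have : X.me ω = (X.me ω + X.e (X.pt ω) 1 * X.mu ω) - X.e (X.pt ω) 1 * X.mu ω := by ring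
        rw [this]
        refine (abs_sub _ _).trans ?_
        linarith
      have a4 : η / (8 * K) ≤ η / 8 := by
        rw [div_le_div_iff₀ (by positivity) (by norm_num)]
        nlinarith
      rcases hmax ω h1 with h5 | h5
      · linarith
      · linarith
    have hmu0 : 0 < |X.mu ω| := lt_of_lt_of_le (by positivity) hlow
    have hmune : X.mu ω ≠ 0 := abs_pos.1 hmu0
    have hE : |X.e (X.pt ω) 1 + X.me ω / X.mu ω| ≤ 8 * K * Λ / η := by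
      have e1 : X.e (X.pt ω) 1 + X.me ω / X.mu ω =
          (X.me ω + X.e (X.pt ω) 1 * X.mu ω) / X.mu ω := by field_simp; ring
      rw [e1, abs_div, div_le_iff₀ hmu0]
      have e2 : 8 * K * Λ / η * (η / (8 * K)) = Λ := by field_simp
      calc _ ≤ Λ := hkey
        _ = 8 * K * Λ / η * (η / (8 * K)) := e2.symm
        _ ≤ _ := mul_le_mul_of_nonneg_left hlow (by positivity)
    have b1 : 8 * K * Λ / η ≤ 16 * K ^ 2 * Λ / η := by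
      refine div_le_div_of_nonneg_right ?_ hη.le
      refine mul_le_mul_of_nonneg_right ?_ hΛ0
      nlinarith
    have b2 : 0 ≤ 16 * K ^ 2 * Λ / η := by positivity
    have b3 : 0 ≤ (3 * K * r + 2 * ε) / ρ := by positivity
    have h3p : 0 < |X.al ω ω₃| := hρ.trans_le s5
    have hj : ∀ j : Fin 3, j = 0 ∨ j = 1 ∨ j = 2 := by decide
    rcases hj j with rfl | rfl | rfl
    · -- the chart coordinate
      have l1 := h.line ω (hB _ h1) 0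
      have l2 := h.line ω₃ (hB _ s1) 0
      rw [s3] at l2
      have l3 : |(1 - X.e (X.pt ω) 0) * X.al ω ω₃| ≤ r := by
        unfold al
        rw [abs_le] at *
        constructor <;> nlinarith [l1.1, l1.2, l2.1, l2.2]
      have l4 : |X.e (X.pt ω) 0 - 1| ≤ r / ρ := by
        rw [abs_sub_comm, le_div_iff₀ hρ]
        rw [abs_mul] at l3
        have := mul_le_mul_of_nonneg_left s5 (abs_nonneg (1 - X.e (X.pt ω) 0))
        linarith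
      simp only [Matrix.cons_val_zero]
      have l5 : r / ρ ≤ (3 * K * r + 2 * ε) / ρ := by
        refine div_le_div_of_nonneg_right ?_ hρ.le
        nlinarith
      linarith
    · simp only [Matrix.cons_val_one, Matrix.cons_val_zero, sub_neg_eq_add]
      linarith
    · simp only [Matrix.cons_val]
      have l1 := h.line ω (hB _ h1) 2
      have l2 := h.line ω₃ (hB _ s1) 2
      rw [s3] at l2
      have l3 := h.last (hB _ h1) (hB _ s1) s3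
      have l4 : |(X.dat ω).UN * X.be ω ω₃| ≤ 2 * K * r := by
        rw [abs_mul]
        exact mul_le_mul (h.bdd (hB _ h1)).UN_le (h.be_le (hB _ h1) (hB _ s1) s3)
          (abs_nonneg _) (by positivity)
      have l5 : |(X.e (X.pt ω) 2 - (X.dat ω).EN) * X.al ω ω₃| ≤ 3 * K * r + 2 * ε := by
        have e1 : (X.e (X.pt ω) 2 - (X.dat ω).EN) * X.al ω ω₃ =
            ((X.D ω₃ 2 - X.D ω 2) - (X.dat ω).EN * X.al ω ω₃ -
              (X.dat ω).UN * X.be ω ω₃) + (X.dat ω).UN * X.be ω ω₃ -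
            ((X.D ω₃ 2 - X.e (X.pt ω) 2 * X.D ω₃ 0 - X.n (X.pt ω) 2) -
            (X.D ω 2 - X.e (X.pt ω) 2 * X.D ω 0 - X.n (X.pt ω) 2)) := by
          unfold al
          ring
        rw [e1]
        have m1 := abs_sub (((X.D ω₃ 2 - X.D ω 2) - (X.dat ω).EN * X.al ω ω₃ -
              (X.dat ω).UN * X.be ω ω₃) + (X.dat ω).UN * X.be ω ω₃)
            ((X.D ω₃ 2 - X.e (X.pt ω) 2 * X.D ω₃ 0 - X.n (X.pt ω) 2) -
            (X.D ω 2 - X.e (X.pt ω) 2 * X.D ω 0 - X.n (X.pt ω) 2))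
        have m2 := abs_add_le ((X.D ω₃ 2 - X.D ω 2) - (X.dat ω).EN * X.al ω ω₃ -
              (X.dat ω).UN * X.be ω ω₃) ((X.dat ω).UN * X.be ω ω₃)
        have m3 := abs_sub (X.D ω₃ 2 - X.e (X.pt ω) 2 * X.D ω₃ 0 - X.n (X.pt ω) 2)
            (X.D ω 2 - X.e (X.pt ω) 2 * X.D ω 0 - X.n (X.pt ω) 2)
        have m4 : r ≤ K * r := by nlinarith
        linarith
      have l6 : |X.e (X.pt ω) 2 - (X.dat ω).EN| ≤ (3 * K * r + 2 * ε) / ρ := by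
        rw [le_div_iff₀ hρ]
        rw [abs_mul] at l5
        have := mul_le_mul_of_nonneg_left s5 (abs_nonneg (X.e (X.pt ω) 2 - (X.dat ω).EN))
        linarith
      have l7 : |(X.dat ω).EN - X.zN ω| ≤ 16 * K ^ 2 * Λ / η := by
        rw [h.EN_zN (hB _ h1) hmune, abs_mul]
        have := mul_le_mul (h.bdd (hB _ h1)).UN_le hE (abs_nonneg _) (by positivity)
        refine this.trans (le_of_eq ?_)
        ring
      have e1 : X.e (X.pt ω) 2 - X.zN ω = (X.e (X.pt ω) 2 - (X.dat ω).EN) +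
        ((X.dat ω).EN - X.zN ω) := by ring
      rw [e1]
      exact (abs_add_le _ _).trans (add_le_add l6 l7)
  choose ζ hζ using key
  exact ⟨ζ, fun ω h1 h2 h3 j => hζ (X.wn ω) ω h1 h2 h3 rfl j⟩

/-! ### The small alternative -/

/-- Slopes of the hyperplane at the base time. -/
noncomputable def N (X : Ldt Ω U V) (ω : Ω) (i : Fin 3) : ℝ :=
  (X.L ω).g (X.Y ω) i / (X.L ω).g (X.Y ω) 2

/-- Slopes of the hyperplane at the time of the point. -/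
noncomputable def Ns (X : Ldt Ω U V) (ω : Ω) (i : Fin 3) : ℝ :=
  (X.L ω).gs (X.s ω) (X.Y ω) (X.D ω) i / (X.L ω).gs (X.s ω) (X.Y ω) (X.D ω) 2

theorem Ok.N_sub_Ns (h : X.Ok A K ε r) {η : ℝ} {ω : Ω} (hω : A ω) {i : Fin 3}
    (hm : |(X.L ω).mm (X.Y ω) (X.D ω) i| ≤ η) : |X.N ω i - X.Ns ω i| ≤ 4 * η := by
  have h1 := h.p2 ω hω
  have h2 := h.q2 ω hω
  have h3 := h.s1 ω hω
  have e : X.N ω i - X.Ns ω i = -(X.s ω * (X.L ω).mm (X.Y ω) (X.D ω) i) /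
      ((X.L ω).g (X.Y ω) 2 * (X.L ω).gs (X.s ω) (X.Y ω) (X.D ω) 2) := by
    have a1 : (X.L ω).g (X.Y ω) 2 ≠ 0 := by intro h0; rw [h0] at h2; norm_num at h2
    have a2 : (X.L ω).gs (X.s ω) (X.Y ω) (X.D ω) 2 ≠ 0 := by
      intro h0; rw [h0] at h1; norm_num at h1
    unfold N Ns QD.mm
    rw [div_sub_div _ _ a1 a2]
    congr 1
    unfold QD.gs
    ring
  have hpos : (1 : ℝ) / 4 ≤ (X.L ω).g (X.Y ω) 2 * (X.L ω).gs (X.s ω) (X.Y ω) (X.D ω) 2 := by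
    have := mul_le_mul h2 h1 (by norm_num) (by linarith)
    linarith
  rw [e, abs_div, abs_neg, abs_mul, abs_of_pos (by linarith : (0 : ℝ) <
    (X.L ω).g (X.Y ω) 2 * (X.L ω).gs (X.s ω) (X.Y ω) (X.D ω) 2), div_le_iff₀ (by linarith)]
  have h4 : |X.s ω| * |(X.L ω).mm (X.Y ω) (X.D ω) i| ≤ 1 * η :=
    mul_le_mul h3 hm (abs_nonneg _) zero_le_one
  have hη : 0 ≤ η := (abs_nonneg _).trans hm
  nlinarith

theorem Ok.N_le (h : X.Ok A K ε r) {ω : Ω} (hω : A ω) (i : Fin 3) : |X.N ω i| ≤ 2 * K :=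
  Dat.abs_div_le (h.q2 ω hω) (h.q ω hω i)

theorem Ok.Ns_sub (h : X.Ok A K ε r) {ω ω' : Ω} (hω : A ω) (hω' : A ω')
    (hp : X.pt ω' = X.pt ω) (i : Fin 3) : |X.Ns ω' i - X.Ns ω i| ≤ ε := by
  have hK := h.hK
  have hK0 : 0 < K := by linarith
  have hε := h.ε0
  have a1 := h.grad hω hω' hp i
  have a2 := h.grad hω hω' hp 2
  have b1 := h.p2 ω hω
  have b2 := h.p2 ω' hω'
  have b3 := h.p ω hω i
  have b4 := h.p ω hω 2
  unfold Ns
  obtain ⟨x, hx⟩ : ∃ x, x = (X.L ω).gs (X.s ω) (X.Y ω) (X.D ω) i := ⟨_, rfl⟩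
  obtain ⟨y, hy⟩ : ∃ y, y = (X.L ω).gs (X.s ω) (X.Y ω) (X.D ω) 2 := ⟨_, rfl⟩
  obtain ⟨x', hx'⟩ : ∃ x', x' = (X.L ω').gs (X.s ω') (X.Y ω') (X.D ω') i := ⟨_, rfl⟩
  obtain ⟨y', hy'⟩ : ∃ y', y' = (X.L ω').gs (X.s ω') (X.Y ω') (X.D ω') 2 := ⟨_, rfl⟩
  rw [← hx, ← hx'] at a1 ⊢
  rw [← hy, ← hy'] at a2
  rw [← hy, ← hy']
  rw [← hx] at b3
  rw [← hy] at b1 b4
  rw [← hy'] at b2
  have hy0 : 0 < y := by linarith
  have hy'0 : 0 < y' := by linarith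
  have e : x' / y' - x / y = (y * (x' - x) - x * (y' - y)) / (y' * y) := by
    field_simp
    ring
  have hpos : (1 : ℝ) / 4 ≤ y' * y := by
    have := mul_le_mul b2 b1 (by norm_num) (by linarith)
    linarith
  rw [e, abs_div, abs_of_pos (by positivity : 0 < y' * y), div_le_iff₀ (by positivity)]
  have c1 : |y * (x' - x)| ≤ K * (ε / (8 * K)) := by
    rw [abs_mul]
    exact mul_le_mul b4 a1 (abs_nonneg _) hK0.le
  have c2 : |x * (y' - y)| ≤ K * (ε / (8 * K)) := by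
    rw [abs_mul]
    exact mul_le_mul b3 a2 (abs_nonneg _) hK0.le
  have c3 : K * (ε / (8 * K)) = ε / 8 := by field_simp
  have c4 := abs_sub (y * (x' - x)) (x * (y' - y))
  nlinarith

theorem N_two {ω : Ω} (h2 : 1 / 2 ≤ (X.L ω).g (X.Y ω) 2) : X.N ω 2 = 1 := by
  unfold N
  exact div_self (by linarith)

theorem Ns_two {ω : Ω} (h2 : 1 / 2 ≤ (X.L ω).gs (X.s ω) (X.Y ω) (X.D ω) 2) : X.Ns ω 2 = 1 := by
  unfold Ns
  exact div_self (by linarith)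

/-- Velocity in the direction of the normal. -/
noncomputable def b1 (X : Ldt Ω U V) (ω : Ω) : ℝ :=
  X.D ω 2 + X.N ω 0 * X.D ω 0 + X.N ω 1 * X.D ω 1

/-- Position in the direction of the normal. -/
noncomputable def b0 (X : Ldt Ω U V) (ω : Ω) : ℝ :=
  X.Y ω 2 + X.N ω 0 * X.Y ω 0 + X.N ω 1 * X.Y ω 1

theorem Ok.N_vis (h : X.Ok A K ε r) {η : ℝ} {ω ω' : Ω} (hω : A ω) (hω' : A ω')
    (hp : X.pt ω' = X.pt ω) {i : Fin 3} (hm : |(X.L ω).mm (X.Y ω) (X.D ω) i| ≤ η)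
    (hm' : |(X.L ω').mm (X.Y ω') (X.D ω') i| ≤ η) :
    |X.N ω' i - X.N ω i| ≤ 8 * η + ε := by
  have a1 := h.N_sub_Ns hω hm
  have a2 := h.N_sub_Ns hω' hm'
  have a3 := h.Ns_sub hω hω' hp i
  rw [abs_le] at *
  constructor <;> linarith [a1.1, a1.2, a2.1, a2.2, a3.1, a3.2]

theorem Ok.b1_vis (h : X.Ok A K ε r) {η : ℝ} {ω ω' : Ω} (hω : A ω) (hω' : A ω')
    (hp : X.pt ω' = X.pt ω) (h0 : |X.me ω| ≤ η) (h1 : |X.mu ω| ≤ η) (h0' : |X.me ω'| ≤ η)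
    (h1' : |X.mu ω'| ≤ η) : |X.b1 ω' - X.b1 ω| ≤ 8 * K * η + 3 * K * ε := by
  have hK := h.hK
  have hK0 : 0 < K := by linarith
  have hε := h.ε0
  have hη : 0 ≤ η := (abs_nonneg _).trans h0
  -- comparison with the time of the point
  have key : ∀ ω, A ω → |X.me ω| ≤ η → |X.mu ω| ≤ η →
      |X.b1 ω - (X.D ω 2 + X.Ns ω 0 * X.D ω 0 + X.Ns ω 1 * X.D ω 1)| ≤ 4 * K * η := by
    intro ω hω m0 m1
    have e : X.b1 ω - (X.D ω 2 + X.Ns ω 0 * X.D ω 0 + X.Ns ω 1 * X.D ω 1) =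
        (X.N ω 0 - X.Ns ω 0) * X.D ω 0 + (X.N ω 1 - X.Ns ω 1) * X.D ω 1 := by
      unfold b1; ring
    rw [e]
    have c0 : |(X.N ω 0 - X.Ns ω 0) * X.D ω 0| ≤ 4 * η * (K / 2) := by
      rw [abs_mul]
      exact mul_le_mul (h.N_sub_Ns hω m0) (h.D ω hω 0) (abs_nonneg _) (by positivity)
    have c1 : |(X.N ω 1 - X.Ns ω 1) * X.D ω 1| ≤ 4 * η * (K / 2) := by
      rw [abs_mul]
      exact mul_le_mul (h.N_sub_Ns hω m1) (h.D ω hω 1) (abs_nonneg _) (by positivity)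
    refine (abs_add_le _ _).trans ?_
    linarith
  have k1 := key ω hω h0 h1
  have k2 := key ω' hω' h0' h1'
  -- the difference at the time of the point
  have k3 : |(X.D ω' 2 + X.Ns ω' 0 * X.D ω' 0 + X.Ns ω' 1 * X.D ω' 1) -
      (X.D ω 2 + X.Ns ω 0 * X.D ω 0 + X.Ns ω 1 * X.D ω 1)| ≤ 3 * K * ε := by
    have hd := h.dot hω hω' hp
    have hp2 := h.p2 ω hω
    have hp0 : (X.L ω).gs (X.s ω) (X.Y ω) (X.D ω) 2 ≠ 0 := by linarith
    have d1 : |((X.dat ω).p0 * (X.D ω' 0 - X.D ω 0) + (X.dat ω).p1 * (X.D ω' 1 - X.D ω 1) +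
      (X.dat ω).p2 * (X.D ω' 2 - X.D ω 2)) / (X.L ω).gs (X.s ω) (X.Y ω) (X.D ω) 2| ≤ 2 * ε :=
      Dat.abs_div_le hp2 hd
    have e : (X.D ω' 2 + X.Ns ω' 0 * X.D ω' 0 + X.Ns ω' 1 * X.D ω' 1) -
        (X.D ω 2 + X.Ns ω 0 * X.D ω 0 + X.Ns ω 1 * X.D ω 1) =
        ((X.dat ω).p0 * (X.D ω' 0 - X.D ω 0) + (X.dat ω).p1 * (X.D ω' 1 - X.D ω 1) +
          (X.dat ω).p2 * (X.D ω' 2 - X.D ω 2)) / (X.L ω).gs (X.s ω) (X.Y ω) (X.D ω) 2 +
        ((X.Ns ω' 0 - X.Ns ω 0) * X.D ω' 0 + (X.Ns ω' 1 - X.Ns ω 1) * X.D ω' 1) := by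
      show _ = ((X.L ω).gs (X.s ω) (X.Y ω) (X.D ω) 0 * _ +
        (X.L ω).gs (X.s ω) (X.Y ω) (X.D ω) 1 * _ +
        (X.L ω).gs (X.s ω) (X.Y ω) (X.D ω) 2 * _) / _ + _
      unfold Ns
      field_simp
      ring
    rw [e]
    have c0 : |(X.Ns ω' 0 - X.Ns ω 0) * X.D ω' 0| ≤ ε * (K / 2) := by
      rw [abs_mul]
      exact mul_le_mul (h.Ns_sub hω hω' hp 0) (h.D ω' hω' 0) (abs_nonneg _) hε
    have c1 : |(X.Ns ω' 1 - X.Ns ω 1) * X.D ω' 1| ≤ ε * (K / 2) := by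
      rw [abs_mul]
      exact mul_le_mul (h.Ns_sub hω hω' hp 1) (h.D ω' hω' 1) (abs_nonneg _) hε
    have c2 := abs_add_le ((X.Ns ω' 0 - X.Ns ω 0) * X.D ω' 0)
      ((X.Ns ω' 1 - X.Ns ω 1) * X.D ω' 1)
    have c3 : ε ≤ K * ε := by nlinarith
    refine (abs_add_le _ _).trans ?_
    linarith
  rw [abs_le] at *
  constructor <;> linarith [k1.1, k1.2, k2.1, k2.2, k3.1, k3.2]

theorem Ok.b0_vis (h : X.Ok A K ε r) {η : ℝ} {ω ω' : Ω} (hω : A ω) (hω' : A ω')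
    (hp : X.pt ω' = X.pt ω) (h0 : |X.me ω| ≤ η) (h1 : |X.mu ω| ≤ η) (h0' : |X.me ω'| ≤ η)
    (h1' : |X.mu ω'| ≤ η) : |X.b0 ω' - X.b0 ω| ≤ 24 * K * η + 6 * K * ε := by
  have hK := h.hK
  have hK0 : 0 < K := by linarith
  have hε := h.ε0
  have hη : 0 ≤ η := (abs_nonneg _).trans h0
  have v0 := h.N_vis hω hω' hp (i := 0) h0 h0'
  have v1 := h.N_vis hω hω' hp (i := 1) h1 h1'
  have vb := h.b1_vis hω hω' hp h0 h1 h0' h1'
  have hs := h.s1 ω hω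
  have hz := fun i => h.z_small hω hω' hp i
  have hbd : ∀ i, |X.Y ω' i + X.s ω * X.D ω' i| ≤ K := by
    intro i
    have a1 := h.Y ω' hω' i
    have a2 : |X.s ω * X.D ω' i| ≤ 1 * (K / 2) := by
      rw [abs_mul]
      exact mul_le_mul hs (h.D ω' hω' i) (abs_nonneg _) zero_le_one
    refine (abs_add_le _ _).trans ?_
    linarith
  have e : X.b0 ω' - X.b0 ω =
      ((X.Y ω' 2 + X.s ω * X.D ω' 2) - (X.Y ω 2 + X.s ω * X.D ω 2)) +
      X.N ω 0 * ((X.Y ω' 0 + X.s ω * X.D ω' 0) - (X.Y ω 0 + X.s ω * X.D ω 0)) +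
      X.N ω 1 * ((X.Y ω' 1 + X.s ω * X.D ω' 1) - (X.Y ω 1 + X.s ω * X.D ω 1)) +
      (X.N ω' 0 - X.N ω 0) * (X.Y ω' 0 + X.s ω * X.D ω' 0) +
      (X.N ω' 1 - X.N ω 1) * (X.Y ω' 1 + X.s ω * X.D ω' 1) -
      X.s ω * (X.b1 ω' - X.b1 ω) := by
    unfold b0 b1
    ring
  rw [e]
  have c2 := hz 2
  have c0 : |X.N ω 0 * ((X.Y ω' 0 + X.s ω * X.D ω' 0) - (X.Y ω 0 + X.s ω * X.D ω 0))| ≤
      2 * K * (ε / (24 * K ^ 2)) := by
    rw [abs_mul]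
    exact mul_le_mul (h.N_le hω 0) (hz 0) (abs_nonneg _) (by positivity)
  have c1 : |X.N ω 1 * ((X.Y ω' 1 + X.s ω * X.D ω' 1) - (X.Y ω 1 + X.s ω * X.D ω 1))| ≤
      2 * K * (ε / (24 * K ^ 2)) := by
    rw [abs_mul]
    exact mul_le_mul (h.N_le hω 1) (hz 1) (abs_nonneg _) (by positivity)
  have c3 : |(X.N ω' 0 - X.N ω 0) * (X.Y ω' 0 + X.s ω * X.D ω' 0)| ≤ (8 * η + ε) * K := by
    rw [abs_mul]
    exact mul_le_mul v0 (hbd 0) (abs_nonneg _) (by positivity)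
  have c4 : |(X.N ω' 1 - X.N ω 1) * (X.Y ω' 1 + X.s ω * X.D ω' 1)| ≤ (8 * η + ε) * K := by
    rw [abs_mul]
    exact mul_le_mul v1 (hbd 1) (abs_nonneg _) (by positivity)
  have c5 : |X.s ω * (X.b1 ω' - X.b1 ω)| ≤ 1 * (8 * K * η + 3 * K * ε) := by
    rw [abs_mul]
    exact mul_le_mul hs vb (abs_nonneg _) zero_le_one
  have d1 : ε / (24 * K ^ 2) ≤ K * ε / 24 := by
    rw [div_le_div_iff₀ (by positivity) (by norm_num)]
    have : (1 : ℝ) ≤ K * K ^ 2 := by nlinarith [one_le_pow₀ (n := 2) hK, one_le_pow₀ (n := 3) hK]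
    nlinarith
  have d2 : 2 * K * (ε / (24 * K ^ 2)) ≤ K * ε / 12 := by
    have : 2 * K * (ε / (24 * K ^ 2)) = ε / (12 * K) := by field_simp; ring
    rw [this, div_le_div_iff₀ (by positivity) (by norm_num)]
    nlinarith [one_le_pow₀ (n := 2) hK]
  refine (abs_sub _ _).trans ?_
  have f1 := abs_add_le (((X.Y ω' 2 + X.s ω * X.D ω' 2) - (X.Y ω 2 + X.s ω * X.D ω 2)) +
      X.N ω 0 * ((X.Y ω' 0 + X.s ω * X.D ω' 0) - (X.Y ω 0 + X.s ω * X.D ω 0)) +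
      X.N ω 1 * ((X.Y ω' 1 + X.s ω * X.D ω' 1) - (X.Y ω 1 + X.s ω * X.D ω 1)) +
      (X.N ω' 0 - X.N ω 0) * (X.Y ω' 0 + X.s ω * X.D ω' 0))
      ((X.N ω' 1 - X.N ω 1) * (X.Y ω' 1 + X.s ω * X.D ω' 1))
  have f2 := abs_add_le (((X.Y ω' 2 + X.s ω * X.D ω' 2) - (X.Y ω 2 + X.s ω * X.D ω 2)) +
      X.N ω 0 * ((X.Y ω' 0 + X.s ω * X.D ω' 0) - (X.Y ω 0 + X.s ω * X.D ω 0)) +
      X.N ω 1 * ((X.Y ω' 1 + X.s ω * X.D ω' 1) - (X.Y ω 1 + X.s ω * X.D ω 1)))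
      ((X.N ω' 0 - X.N ω 0) * (X.Y ω' 0 + X.s ω * X.D ω' 0))
  have f3 := abs_add_le (((X.Y ω' 2 + X.s ω * X.D ω' 2) - (X.Y ω 2 + X.s ω * X.D ω 2)) +
      X.N ω 0 * ((X.Y ω' 0 + X.s ω * X.D ω' 0) - (X.Y ω 0 + X.s ω * X.D ω 0)))
      (X.N ω 1 * ((X.Y ω' 1 + X.s ω * X.D ω' 1) - (X.Y ω 1 + X.s ω * X.D ω 1)))
  have f4 := abs_add_le ((X.Y ω' 2 + X.s ω * X.D ω' 2) - (X.Y ω 2 + X.s ω * X.D ω 2))
      (X.N ω 0 * ((X.Y ω' 0 + X.s ω * X.D ω' 0) - (X.Y ω 0 + X.s ω * X.D ω 0)))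
  have : 0 ≤ K * ε := by positivity
  linarith

/-- Floors of close numbers. -/
theorem floor_close {x y c : ℝ} (hc : 0 < c) (h : |x - y| ≤ c) : |⌊x / c⌋ - ⌊y / c⌋| ≤ 1 := by
  have h1 : |x / c - y / c| ≤ 1 := by
    rw [← sub_div, abs_div, abs_of_pos hc, div_le_one hc]
    exact h
  have a1 := Int.floor_le (x / c)
  have a2 := Int.lt_floor_add_one (x / c)
  have a3 := Int.floor_le (y / c)
  have a4 := Int.lt_floor_add_one (y / c)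
  rw [abs_le] at h1
  have b1 : ((⌊x / c⌋ - ⌊y / c⌋ : ℤ) : ℝ) < 2 := by push_cast; linarith
  have b2 : (-2 : ℝ) < ((⌊x / c⌋ - ⌊y / c⌋ : ℤ) : ℝ) := by push_cast; linarith
  have b3 : ⌊x / c⌋ - ⌊y / c⌋ < 2 := by exact_mod_cast b1
  have b4 : -2 < ⌊x / c⌋ - ⌊y / c⌋ := by exact_mod_cast b2
  rw [abs_le]
  constructor <;> omega

theorem floor_near {x c : ℝ} (hc : 0 < c) : |x - c * ⌊x / c⌋| ≤ c := by
  have a1 := Int.floor_le (x / c)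
  have a2 := Int.lt_floor_add_one (x / c)
  have e : x = c * (x / c) := by field_simp
  have b : |x / c - ⌊x / c⌋| ≤ 1 := by
    rw [abs_le]
    constructor <;> linarith
  calc |x - c * ⌊x / c⌋| = |c * (x / c - ⌊x / c⌋)| := by
        congr 1
        rw [mul_sub, ← e]
    _ = c * |x / c - ⌊x / c⌋| := by rw [abs_mul, abs_of_pos hc]
    _ ≤ c * 1 := mul_le_mul_of_nonneg_left b hc.le
    _ = c := mul_one c

/-- **The small alternative**: the tangent hyperplane is a label. -/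
theorem Ok.small (h : X.Ok A K ε r) (hW : X.Wn A) {η c : ℝ} (hme : ∀ ω, A ω → |X.me ω| ≤ η)
    (hmu : ∀ ω, A ω → |X.mu ω| ≤ η) (hc0 : 0 < c) (hc : 24 * K * (η + ε) ≤ c) :
    ∃ f : Ω → Fin 4 → ℤ,
      (∀ ω ω', A ω → A ω' → X.pt ω' = X.pt ω → ∀ i, |f ω' i - f ω i| ≤ 1) ∧
      (∀ ω ω', A ω → A ω' → X.wn ω' = X.wn ω → f ω' = f ω) ∧
      ∀ ω, A ω → |c * f ω 0 - X.N ω 0| ≤ c ∧ |c * f ω 1 - X.N ω 1| ≤ c ∧
        |X.Y ω 2 + c * f ω 0 * X.Y ω 0 + c * f ω 1 * X.Y ω 1 - c * f ω 2| ≤ (K + 1) * c ∧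
        |X.D ω 2 + c * f ω 0 * X.D ω 0 + c * f ω 1 * X.D ω 1 - c * f ω 3| ≤ (K + 1) * c := by
  have hK := h.hK
  have hK0 : 0 < K := by linarith
  have hε := h.ε0
  refine ⟨fun ω => ![⌊X.N ω 0 / c⌋, ⌊X.N ω 1 / c⌋, ⌊X.b0 ω / c⌋, ⌊X.b1 ω / c⌋], ?_, ?_, ?_⟩
  · intro ω ω' hω hω' hp i
    have hη : 0 ≤ η := (abs_nonneg _).trans (hme ω hω)
    have n1 : 0 ≤ K * η := by positivity
    have n2 : 0 ≤ K * ε := by positivity
    have n3 : η ≤ K * η := by nlinarith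
    have n4 : ε ≤ K * ε := by nlinarith
    have v0 := (h.N_vis hω hω' hp (i := 0) (hme ω hω) (hme ω' hω')).trans
      (show 8 * η + ε ≤ c by nlinarith)
    have v1 := (h.N_vis hω hω' hp (i := 1) (hmu ω hω) (hmu ω' hω')).trans
      (show 8 * η + ε ≤ c by nlinarith)
    have v2 := (h.b0_vis hω hω' hp (hme ω hω) (hmu ω hω) (hme ω' hω') (hmu ω' hω')).trans
      (show 24 * K * η + 6 * K * ε ≤ c by nlinarith)
    have v3 := (h.b1_vis hω hω' hp (hme ω hω) (hmu ω hω) (hme ω' hω') (hmu ω' hω')).trans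
      (show 8 * K * η + 3 * K * ε ≤ c by nlinarith)
    have hj : ∀ j : Fin 4, j = 0 ∨ j = 1 ∨ j = 2 ∨ j = 3 := by decide
    rcases hj i with rfl | rfl | rfl | rfl
    · exact floor_close hc0 v0
    · exact floor_close hc0 v1
    · exact floor_close hc0 v2
    · exact floor_close hc0 v3
  · intro ω ω' hω hω' hp
    obtain ⟨w1, w2, w3⟩ := hW ω ω' hω hω' hp
    have e1 : ∀ i, X.N ω' i = X.N ω i := by intro i; unfold N; rw [w1, w3]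
    have e2 : X.b0 ω' = X.b0 ω := by unfold b0; rw [e1, e1, w1]
    have e3 : X.b1 ω' = X.b1 ω := by unfold b1; rw [e1, e1, w2]
    simp only [e1, e2, e3]
  · intro ω hω
    have m0 := floor_near (x := X.N ω 0) hc0
    have m1 := floor_near (x := X.N ω 1) hc0
    have m2 := floor_near (x := X.b0 ω) hc0
    have m3 := floor_near (x := X.b1 ω) hc0
    simp only [Matrix.cons_val_zero, Matrix.cons_val_one, Matrix.cons_val]
    refine ⟨by rw [abs_sub_comm]; exact m0, by rw [abs_sub_comm]; exact m1, ?_, ?_⟩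
    · have e : X.Y ω 2 + c * ⌊X.N ω 0 / c⌋ * X.Y ω 0 + c * ⌊X.N ω 1 / c⌋ * X.Y ω 1 -
          c * ⌊X.b0 ω / c⌋ = (X.b0 ω - c * ⌊X.b0 ω / c⌋) -
          (X.N ω 0 - c * ⌊X.N ω 0 / c⌋) * X.Y ω 0 -
          (X.N ω 1 - c * ⌊X.N ω 1 / c⌋) * X.Y ω 1 := by unfold b0; ring
      rw [e]
      have c0 : |(X.N ω 0 - c * ⌊X.N ω 0 / c⌋) * X.Y ω 0| ≤ c * (K / 2) := by
        rw [abs_mul]
        exact mul_le_mul m0 (h.Y ω hω 0) (abs_nonneg _) hc0.le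
      have c1 : |(X.N ω 1 - c * ⌊X.N ω 1 / c⌋) * X.Y ω 1| ≤ c * (K / 2) := by
        rw [abs_mul]
        exact mul_le_mul m1 (h.Y ω hω 1) (abs_nonneg _) hc0.le
      refine (abs_sub _ _).trans ?_
      have := abs_sub (X.b0 ω - c * ⌊X.b0 ω / c⌋) ((X.N ω 0 - c * ⌊X.N ω 0 / c⌋) * X.Y ω 0)
      linarith
    · have e : X.D ω 2 + c * ⌊X.N ω 0 / c⌋ * X.D ω 0 + c * ⌊X.N ω 1 / c⌋ * X.D ω 1 -
          c * ⌊X.b1 ω / c⌋ = (X.b1 ω - c * ⌊X.b1 ω / c⌋) -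
          (X.N ω 0 - c * ⌊X.N ω 0 / c⌋) * X.D ω 0 -
          (X.N ω 1 - c * ⌊X.N ω 1 / c⌋) * X.D ω 1 := by unfold b1; ring
      rw [e]
      have c0 : |(X.N ω 0 - c * ⌊X.N ω 0 / c⌋) * X.D ω 0| ≤ c * (K / 2) := by
        rw [abs_mul]
        exact mul_le_mul m0 (h.D ω hω 0) (abs_nonneg _) hc0.le
      have c1 : |(X.N ω 1 - c * ⌊X.N ω 1 / c⌋) * X.D ω 1| ≤ c * (K / 2) := by
        rw [abs_mul]
        exact mul_le_mul m1 (h.D ω hω 1) (abs_nonneg _) hc0.le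
      refine (abs_sub _ _).trans ?_
      have := abs_sub (X.b1 ω - c * ⌊X.b1 ω / c⌋) ((X.N ω 0 - c * ⌊X.N ω 0 / c⌋) * X.D ω 0)
      linarith

end Ldt

end Pool.S6D
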