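import Mathlib

/-!
# The numbers of the dichotomy in a class
-/

set_option autoImplicit false

namespace Pool.S6P

/-- A number smaller than finitely many positive numbers. -/
theorem exists_small (l : List ℝ) (hl : ∀ x ∈ l, 0 < x) {B : ℝ} (hB : 0 < B) :
    ∃ u : ℝ, 0 < u ∧ ∀ x ∈ l, B * u ≤ x := by
  induction l with
  | nil => exact ⟨1, one_pos, by simp⟩
  | cons a l ih =>
    obtain ⟨u, hu, h⟩ := ih fun x hx => hl x (List.mem_cons_of_mem _ hx)
    have ha : 0 < a := hl a List.mem_cons_self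
    refine ⟨min u (a / B), lt_min hu (by positivity), fun x hx => ?_⟩
    rcases List.mem_cons.1 hx with rfl | hx
    · have : B * min u (x / B) ≤ B * (x / B) :=
        mul_le_mul_of_nonneg_left (min_le_right _ _) hB.le
      refine this.trans (le_of_eq ?_)
      field_simp
    · exact (mul_le_mul_of_nonneg_left (min_le_left _ _) hB.le).trans (h x hx)

section nums

variable {K q wn lam Pn Sn Pc Qt k P' : ℕ} {U W V T X Y p : ℝ}

/-- The inequalities of the first case: `X` is the straightness, `Y` the row. -/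
theorem nums_A (hU : 64 * ((K : ℝ) + 1) ≤ U) (hV : 0 ≤ V) (q1 : U ≤ q) (q2 : (q : ℝ) < U + 1)
    (w1 : (wn : ℝ) ≤ W) (w2 : W < wn + 1) (l1 : (lam : ℝ) ≤ max (V - U) 0)
    (l2 : V - U < lam + 1) (P1 : (Pn : ℝ) ≤ T - U) (P2 : T - U < Pn + 1) (S2 : X - U < Sn + 1)
    (c2 : p < Pc + 1) (Q2 : Y < Qt + 1) (k1 : (k : ℝ) ≤ V + U) (P3 : (P' : ℝ) ≤ T + U)
    (g1 : 64 * ((K : ℝ) + 1) * U ≤ W + V + p - T) (g2 : 64 * ((K : ℝ) + 1) * U ≤ X - V)
    (g3 : 64 * ((K : ℝ) + 1) * U ≤ T - W - V) (g4 : W + V + p ≤ Y) :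
    K * (q + 1 + 3 * q + 3 * q + 1) + Pn ≤ wn + lam + Pc ∧
    K * (q + 1 + 3 * q + 3 * q + 1) + Pn ≤ Qt ∧
    K * (q + 1 + 3 * q + 3 * q + 1) + lam ≤ Sn ∧ k + 3 ≤ lam + 3 * q ∧
    q + 1 + wn + k + 4 ≤ Pn ∧ q + 1 + k + 6 ≤ Sn ∧ P' ≤ Pn + 3 * q ∧ wn + lam ≤ Pn := by
  have hK : (0 : ℝ) ≤ K := Nat.cast_nonneg K
  have hU1 : 1 ≤ U := by nlinarith only [hU]
  obtain ⟨KU, hKU⟩ : ∃ KU : ℝ, KU = K * U := ⟨_, rfl⟩
  have hKU0 : 0 ≤ KU := by rw [hKU]; positivity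
  have e1 : 64 * ((K : ℝ) + 1) * U = 64 * KU + 64 * U := by rw [hKU]; ring
  rw [e1] at g1 g2 g3
  have hKq : (K : ℝ) * q ≤ KU + K := by
    have := mul_le_mul_of_nonneg_left q2.le hK
    rw [hKU]
    linarith only [this]
  have l3 : (lam : ℝ) + U ≤ V + U := by
    have h1 : max (V - U) 0 ≤ V := max_le (by linarith only [hU]) hV
    linarith only [l1, h1]
  have l4 : (lam : ℝ) + U ≤ max V U := by
    have h1 : max (V - U) 0 + U = max V U := by
      rw [← max_add_add_right]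
      congr 1 <;> ring
    linarith only [l1, h1]
  have l5 : max V U ≤ V + U := max_le (by linarith only [hU]) (by linarith only [hV])
  refine ⟨?_, ?_, ?_, ?_, ?_, ?_, ?_, ?_⟩ <;>
  · have goal : ∀ a b : ℕ, (a : ℝ) < b + 1 → a ≤ b := fun a b h => by
      have h' : a < b + 1 := by exact_mod_cast h
      omega
    apply goal
    push_cast
    nlinarith

/-- The inequalities of the second case. -/
theorem nums_B (hU : 64 * ((K : ℝ) + 1) ≤ U) (hV : 0 ≤ V) (q1 : U ≤ q) (q2 : (q : ℝ) < U + 1)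
    (w1 : (wn : ℝ) ≤ W) (w2 : W < wn + 1) (l1 : (lam : ℝ) ≤ max (V - U) 0)
    (l2 : V - U < lam + 1) (S2 : X - U < Sn + 1)
    (c2 : p < Pc + 1) (Q2 : Y < Qt + 1) (k1 : (k : ℝ) ≤ V + U) (P3 : (P' : ℝ) ≤ T + U)
    (g1 : 64 * ((K : ℝ) + 1) * U ≤ p) (g2 : 64 * ((K : ℝ) + 1) * U ≤ X - V)
    (g3 : T ≤ W + V) (g4 : W + V + p ≤ Y) :
    K * (q + 1 + 3 * q + 3 * q + 1) ≤ Pc ∧
    K * (q + 1 + 3 * q + 3 * q + 1) + (wn + lam) ≤ Qt ∧
    K * (q + 1 + 3 * q + 3 * q + 1) + lam ≤ Sn ∧ k ≤ lam + 3 * q ∧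
    P' ≤ wn + lam + 3 * q := by
  have hK : (0 : ℝ) ≤ K := Nat.cast_nonneg K
  have hU1 : 1 ≤ U := by nlinarith only [hU]
  obtain ⟨KU, hKU⟩ : ∃ KU : ℝ, KU = K * U := ⟨_, rfl⟩
  have hKU0 : 0 ≤ KU := by rw [hKU]; positivity
  have e1 : 64 * ((K : ℝ) + 1) * U = 64 * KU + 64 * U := by rw [hKU]; ring
  rw [e1] at g1 g2
  have hKq : (K : ℝ) * q ≤ KU + K := by
    have := mul_le_mul_of_nonneg_left q2.le hK
    rw [hKU]
    linarith only [this]
  have l3 : (lam : ℝ) + U ≤ V + U := by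
    have h1 : max (V - U) 0 ≤ V := max_le (by linarith only [hU]) hV
    linarith
  have l4 : (lam : ℝ) + U ≤ max V U := by
    have h1 : max (V - U) 0 + U = max V U := by
      rw [← max_add_add_right]
      congr 1 <;> ring
    linarith only [l1, h1]
  have l5 : max V U ≤ V + U := max_le (by linarith only [hU]) (by linarith)
  refine ⟨?_, ?_, ?_, ?_, ?_⟩ <;>
  · have goal : ∀ a b : ℕ, (a : ℝ) < b + 1 → a ≤ b := fun a b h => by
      have h' : a < b + 1 := by exact_mod_cast h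
      omega
    apply goal
    push_cast
    nlinarith

end nums

end Pool.S6P
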