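import Pool.Agent.H26.DIC.Fam11
import Pool.Agent.H26.DIC.Num

/-!
# The dichotomy in a class: exclusions, and the starting event
-/

set_option autoImplicit false

namespace Pool.S6C

open Finset Real
open Pool.Agent.H49.Ent Pool.Agent.H32.Dense Pool.STK Pool.KA Pool.KSAT Pool.K2S Pool.PB Pool.KS6

theorem ciq_sub {J : ℕ} {F : Fam 3 J} {Qt : ℕ} {i₀ : Fin 3} {w lam J' D P : ℕ}
    {A B : F.Ω → Prop} (hB : Sub B A) (h : CIQ F Qt i₀ w lam J' D P A) :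
    CIQ F Qt i₀ w lam J' D P B := by
  obtain ⟨hJ, g, n, h1, ⟨φ, h2⟩, h3, ⟨φ', h4⟩, i₁, h5⟩ := h
  exact ⟨hJ, g, n, fun ω hω => h1 ω (hB ω hω), ⟨φ, fun ω hω => h2 ω (hB ω hω)⟩, h3,
    ⟨φ', fun ω hω => h4 ω (hB ω hω)⟩, i₁,
    ClG.hered (Fam.zm F w J' hJ (Box.plkC lam i₀) g) _ _ _ _ _ A B hB h5⟩

theorem qThk_hered (i₀ : Fin 3) (Q w s : ℝ) (J : ℕ) (F : Fam 3 J) : Hered (qTh i₀ Q w s J F) := by
  rintro A B hB ⟨iu, iN, hi, h⟩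
  exact ⟨iu, iN, hi, LABq.hered _ _ _ _ _ _ _ _ _ A B hB h⟩

/-- Slopes of the frames and mates on a spread event. -/
theorem slope_bd {J : ℕ} {F : Fam 3 J} {Qt S h q : ℕ} {i₀ : Fin 3} {A B : F.Ω → Prop}
    {E N : (Fin 3 → ℤ) × (ℕ × F.ζ) → Fin 3 → ℝ} {eb nb : (Fin 3 → ℤ) × (ℕ × F.ζ) → Fin 3 → ℝ}
    (hQ : Qt ≤ J) (hb : IsFrame i₀ (1 / 2 ^ h) (Fam.pt F) F.d A eb nb)
    (hfr : OnL i₀ (1 / 2 ^ S) (Pool.KS6.ptq F Qt) F.d A E N) (hB : Sub B A)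
    (hBs : ∀ ω, B ω → ∃ ω' ω'', B ω' ∧ B ω'' ∧ Fam.pt F ω' = Fam.pt F ω ∧
      Fam.pt F ω'' = Fam.pt F ω ∧ 1 / 2 ^ (q + 1) ≤ |F.d ω' i₀ - F.d ω'' i₀|)
    (h1 : q + 5 ≤ h) (h2 : q + 5 ≤ S) :
    (∀ ω, B ω → ∀ j, |E (Pool.KS6.ptq F Qt ω) j| ≤ 3 / 2) ∧
      ∀ ω, B ω → Pool.S6P.Mts F Qt i₀ B (q + 1) ω := by
  refine ⟨fun ω hω j => ?_, fun ω hω => ?_⟩
  · obtain ⟨ω', ω'', b1, b2, b3, b4, b5⟩ := hBs ω hω
    have a1 := hb.line ω' (hB _ b1) j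
    have a2 := hb.line ω'' (hB _ b2) j
    have a3 := hfr ω' (hB _ b1) j
    have a4 := hfr ω'' (hB _ b2) j
    rw [b3] at a1
    rw [b4] at a2
    rw [ptq_of_pt F hQ b3] at a3
    rw [ptq_of_pt F hQ b4] at a4
    have hcl := frame_close (U := ℕ) (d := F.d) a1 a2 a3 a4 (by positivity) b5
    have hb' := hb.bound ω (hB _ hω) j
    have k1 : (1 : ℝ) / 2 ^ h ≤ 1 / 2 ^ (q + 5) := inv_mono h1
    have k2 : (1 : ℝ) / 2 ^ S ≤ 1 / 2 ^ (q + 5) := inv_mono h2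
    have t1 : (2 * (1 / 2 ^ h) + 2 * (1 / 2 ^ S)) / (1 / 2 ^ (q + 1)) ≤ (1 / 2 : ℝ) := by
      rw [div_le_iff₀ (by positivity)]
      have : (1 : ℝ) / 2 ^ (q + 5) = 1 / 2 ^ (q + 1) / 16 := by
        rw [show q + 5 = q + 1 + 4 by ring, pow_add 2 (q + 1) 4]
        field_simp
        norm_num
      have h0 : (0 : ℝ) < 1 / 2 ^ (q + 1) := by positivity
      rw [this] at k1 k2
      linarith
    have := abs_sub_abs_le_abs_sub (E (Pool.KS6.ptq F Qt ω) j) (eb (Fam.pt F ω) j)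
    linarith
  · obtain ⟨ω', ω'', b1, b2, b3, b4, b5⟩ := hBs ω hω
    exact ⟨ω', ω'', b1, b2, ptq_of_pt F hQ b3, ptq_of_pt F hQ b4, b5⟩

/-- The starting event: straight fans at the row, bounded slopes, mates, implicit labels. -/
def Bse (i₀ : Fin 3) (Q w v s u : ℝ) (D' : ℕ) (p : ℝ) : Stat 3 := fun J F B =>
  ∃ E N : (Fin 3 → ℤ) × (ℕ × F.ζ) → Fin 3 → ℝ,
    OnL i₀ (1 / 2 ^ ⌊s * J⌋₊) (Pool.KS6.ptq F ⌊Q * J⌋₊) F.d B E N ∧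
    (∀ ω, B ω → ∀ j, |E (Pool.KS6.ptq F ⌊Q * J⌋₊ ω) j| ≤ 3 / 2) ∧
    (∀ ω, B ω → Pool.S6P.Mts F ⌊Q * J⌋₊ i₀ B (⌈u * J⌉₊ + 1) ω) ∧
    CIQ F ⌊Q * J⌋₊ i₀ ⌊w * J⌋₊ ⌊v * J⌋₊ (⌊Q * J⌋₊ - ⌊w * J⌋₊ - ⌊v * J⌋₊) D' ⌊p * J⌋₊ B

section cls

variable {S : PCl 3} {a R h₁ : ℝ} {i₀ : Fin 3} {c s₂ : ℝ} {r : ℝ → ℝ} {D : Set ℝ}
  {σ : ℝ → Row}

/-- The starting event has arbitrarily small cost. -/
theorem bse_claim (hC : Cs S a R h₁ i₀ c s₂ r D σ) {Q : ℝ} (hQ1 : Q ≤ 1) {ρ : Row}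
    (hρ : Rw S i₀ Q ρ) {w v p u : ℝ} {D' : ℕ} (hu : 0 < u) (hπ : 4 * u ≤ ρ.pi)
    (hu1 : 4 * u ≤ h₁) (hu2 : 4 * u ≤ 1)
    (hCI : ∀ δ : ℝ, 0 < δ → Clp S (fun J F A => ∃ B : F.Ω → Prop, Sub B A ∧
      Real.exp (-(δ * J)) * Pe F.p A ≤ Pe F.p B ∧
      CIQ F ⌊Q * J⌋₊ i₀ ⌊w * J⌋₊ ⌊v * J⌋₊ (⌊Q * J⌋₊ - ⌊w * J⌋₊ - ⌊v * J⌋₊) D' ⌊p * J⌋₊ B))
    {δ : ℝ} (hδ : 0 < δ) :
    Clp S (fun J F A => ∃ B : F.Ω → Prop, Sub B A ∧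
      Real.exp (-(δ * J)) * Pe F.p A ≤ Pe F.p B ∧ Bse i₀ Q w v (ρ.pi - u) u D' p J F B) := by
  classical
  obtain ⟨τ, hτ, J₁, hsp⟩ := spread_part hC.a1 hC.R0 hC.ub hC.st hC.lb hu
  obtain ⟨J₂, hJ₂⟩ := Pool.S6K.exp_small (κ := δ / 2) (C := 2) (by linarith) (by norm_num)
  obtain ⟨J₃, hJ₃⟩ := exists_nat_gt (32 / u)
  obtain ⟨δ', hδ'⟩ : ∃ δ', δ' = min (δ / 2) (τ / 2) := ⟨_, rfl⟩
  have hδ'0 : 0 < δ' := by rw [hδ']; exact lt_min (by linarith) (by linarith)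
  have hδ1 : δ' ≤ δ / 2 := by rw [hδ']; exact min_le_left _ _
  have hδ2 : δ' ≤ τ / 2 := by rw [hδ']; exact min_le_right _ _
  have c1 := hρ.pi.1 u hu
  have c2 := hCI δ' hδ'0
  have c3 : Clp S (fun J F A => S.St (τ / 2) J F A) :=
    Clp.base (τ / 2) (by linarith) 0 fun J _ F A h => h
  refine Clp.mono (J₂ := max J₁ (max J₂ J₃)) ((c1.and c2).and c3) ?_
  rintro J hJ F A ⟨⟨d1, B₁, hB₁, hP₁, hq⟩, hSt⟩
  have hJ1 : J₁ ≤ J := (le_max_left _ _).trans hJ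
  have hJ2 : J₂ ≤ J := (le_max_left _ _).trans ((le_max_right _ _).trans hJ)
  have hJ3 : J₃ ≤ J := (le_max_right _ _).trans ((le_max_right _ _).trans hJ)
  have hJu : 32 < J * u := by
    have : 32 / u < J := hJ₃.trans_le (by exact_mod_cast hJ3)
    rwa [div_lt_iff₀ hu] at this
  have hJ0 : (0 : ℝ) ≤ J := Nat.cast_nonneg J
  obtain ⟨q, hq0⟩ : ∃ q, q = ⌈u * J⌉₊ := ⟨_, rfl⟩
  have hq1 : u * J ≤ q := by rw [hq0]; exact Nat.le_ceil _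
  have hq2 : (q : ℝ) < u * J + 1 := by rw [hq0]; exact Nat.ceil_lt_add_one (by positivity)
  have hqJ : q ≤ J := by
    have e1 : 4 * u * J ≤ 1 * J := mul_le_mul_of_nonneg_right hu2 hJ0
    have : (q : ℝ) ≤ J := by linarith
    exact_mod_cast this
  have hqh : q + 5 ≤ ⌊h₁ * J⌋₊ := by
    refine Nat.le_floor ?_
    push_cast
    have e1 : 4 * u * J ≤ h₁ * J := mul_le_mul_of_nonneg_right hu1 hJ0
    linarith
  have hqS : q + 5 ≤ ⌊(ρ.pi - u) * J⌋₊ := by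
    refine Nat.le_floor ?_
    push_cast
    have e1 : 4 * u * J ≤ ρ.pi * J := mul_le_mul_of_nonneg_right hπ hJ0
    linarith
  have hQJ : ⌊Q * J⌋₊ ≤ J := by
    have : Q * J ≤ 1 * J := mul_le_mul_of_nonneg_right hQ1 hJ0
    rw [one_mul] at this
    exact (Nat.floor_le_floor this).trans (Nat.floor_natCast J).le
  have hSt₁ : S.St τ J F B₁ := by
    have h1 := S.res (τ' := τ / 2) (by linarith) hSt hB₁ (by
      refine le_trans ?_ hP₁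
      refine mul_le_mul_of_nonneg_right (Real.exp_le_exp.2 ?_) (Pe_nonneg F.isLaw A)
      have : δ' * J ≤ τ / 2 * J := mul_le_mul_of_nonneg_right hδ2 hJ0
      linarith)
    rwa [add_halves] at h1
  obtain ⟨eb, nb, hfrb⟩ := hC.lb _ _ _ _ hSt
  obtain ⟨B₂, hB₂, hP₂, hBs⟩ := hsp J hJ1 F B₁ hSt₁ q hqJ hq1 (by omega)
  rcases d1 with d1 | ⟨-, E, N, hfr⟩
  · linarith
  obtain ⟨s1, s2⟩ := slope_bd hQJ hfrb hfr (hB₂.trans hB₁) hBs hqh hqS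
  refine ⟨B₂, hB₂.trans hB₁, ?_, E, N, hfr.sub (hB₂.trans hB₁), s1, ?_, ciq_sub hB₂ hq⟩
  · have e1 : Real.exp (-Real.log 2) = 1 / 2 := by
      rw [Real.exp_neg, Real.exp_log (by norm_num)]
      norm_num
    rw [e1] at hP₂
    have e2 := hJ₂ J hJ2
    have e3 : Real.exp (-(δ * J)) ≤ 1 / 2 * Real.exp (-(δ' * J)) := by
      have e4 : Real.exp (-(δ * J)) = Real.exp (-(δ / 2 * J)) * Real.exp (-(δ / 2 * J)) := by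
        rw [← Real.exp_add]
        congr 1
        ring
      rw [e4]
      refine mul_le_mul e2 (Real.exp_le_exp.2 ?_) (Real.exp_pos _).le (by norm_num)
      have : δ' * J ≤ δ / 2 * J := mul_le_mul_of_nonneg_right hδ1 hJ0
      linarith
    calc Real.exp (-(δ * J)) * Pe F.p A ≤ 1 / 2 * Real.exp (-(δ' * J)) * Pe F.p A :=
          mul_le_mul_of_nonneg_right e3 (Pe_nonneg F.isLaw A)
      _ = 1 / 2 * (Real.exp (-(δ' * J)) * Pe F.p A) := by ring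
      _ ≤ 1 / 2 * Pe F.p B₁ := mul_le_mul_of_nonneg_left hP₁ (by norm_num)
      _ ≤ Pe F.p B₂ := hP₂
  · rw [← hq0]
    exact s2

/-- The exclusions. -/
theorem bad_excl (hC : Cs S a R h₁ i₀ c s₂ r D σ) {Q : ℝ} {ρ : Row} (hρ : Rw S i₀ Q ρ) (w : ℚ)
    (hw0 : 0 ≤ w) (hw1 : w ≤ 1) {u : ℝ} (hu : 0 < u) (h1 : ρ.rot w + u ≤ 1)
    (h2 : ρ.th w + u ≤ Q) :
    ∃ c > 0, ∃ J₁ : ℕ, ∀ J ≥ J₁, ∀ (F : Fam 3 J) (A : F.Ω → Prop), S.St c J F A →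
      ∀ q : ℕ, ⌊(w : ℝ) * J⌋₊ + q ≤ J → u * J ≤ q →
      ¬ Pool.S6P.Bad F ⌊Q * J⌋₊ ⌊(w : ℝ) * J⌋₊ i₀ q ⌊(ρ.rot w + u) * J⌋₊
        ⌊(ρ.th w + u) * J⌋₊ A := by
  obtain ⟨c₁, hc₁, J₁, n1⟩ := Clp.neg_base (Q := capS 1 (qRot i₀ Q w) (ρ.rot w + u))
    (fun J F => capS_hered (fun s J F => qRot_hered _ _ _ _ _ _) _ J F)
    ((hρ.rot w hw0 hw1).2 u hu)
  obtain ⟨c₂, hc₂, J₂, n2⟩ := Clp.neg_base (Q := capS Q (qTh i₀ Q w) (ρ.th w + u))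
    (fun J F => capS_hered (fun s J F => qThk_hered _ _ _ _ _ _) _ J F)
    ((hρ.th w hw0 hw1).2 u hu)
  obtain ⟨c₃, hc₃, J₃, n3⟩ := Pool.S6P.time_claim (m := 3) (R := R) hC.a1.le hu
  obtain ⟨c₄, hc₄, J₄, n4⟩ := Pool.S6K.ball_claim hC.a1.le hC.R0 hC.ub hu
  refine ⟨min (min c₁ c₂) (min c₃ c₄), lt_min (lt_min hc₁ hc₂) (lt_min hc₃ hc₄),
    max (max J₁ J₂) (max J₃ J₄), fun J hJ F A hSt q hq hq' => ?_⟩
  have j1 : J₁ ≤ J := ((le_max_left _ _).trans (le_max_left _ _)).trans hJ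
  have j2 : J₂ ≤ J := ((le_max_right _ _).trans (le_max_left _ _)).trans hJ
  have j3 : J₃ ≤ J := ((le_max_left _ _).trans (le_max_right _ _)).trans hJ
  have j4 : J₄ ≤ J := ((le_max_right _ _).trans (le_max_right _ _)).trans hJ
  have s1 := S.mono ((min_le_left _ _).trans (min_le_left _ _)) hSt
  have s2 := S.mono ((min_le_left _ _).trans (min_le_right _ _)) hSt
  have s3 := hC.st _ _ _ _ (S.mono ((min_le_right _ _).trans (min_le_left _ _)) hSt)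
  have s4 := hC.st _ _ _ _ (S.mono ((min_le_right _ _).trans (min_le_right _ _)) hSt)
  rintro (hB | hB | hB | ⟨ju, jN, hj, hB⟩)
  · exact n3 J j3 F A s3 _ q hq hq' hB
  · exact n4 J j4 F A s4 q (by omega) hq' hB
  · exact n1 J j1 F A s1 (Or.inr ⟨h1, hB⟩)
  · exact n2 J j2 F A s2 (Or.inr ⟨h2, ju, jN, hj, hB⟩)

/-- Excluded events are not found in arbitrarily small cost. -/
theorem bad_false (hC : Cs S a R h₁ i₀ c s₂ r D σ) {Q : ℝ} {ρ : Row} (hρ : Rw S i₀ Q ρ) (w : ℚ)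
    (hw0 : 0 ≤ w) (hw1 : w ≤ 1) {u : ℝ} (hu : 0 < u) (h1 : ρ.rot w + u ≤ 1)
    (h2 : ρ.th w + u ≤ Q) (h3 : (w : ℝ) + 4 * u ≤ 1)
    (h : ∀ δ : ℝ, 0 < δ → Clp S (fun J F A => ∃ B : F.Ω → Prop, Sub B A ∧
      Real.exp (-(δ * J)) * Pe F.p A ≤ Pe F.p B ∧
      Pool.S6P.Bad F ⌊Q * J⌋₊ ⌊(w : ℝ) * J⌋₊ i₀ ⌈u * J⌉₊ ⌊(ρ.rot w + u) * J⌋₊
        ⌊(ρ.th w + u) * J⌋₊ B)) : False := by
  obtain ⟨c, hc, J₁, hex⟩ := bad_excl hC hρ w hw0 hw1 hu h1 h2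
  obtain ⟨J₃, hJ₃⟩ := exists_nat_gt (32 / u)
  obtain ⟨J, hJ, F, A, hSt, B, hB, hP, hBad⟩ := (h (c / 2) (half_pos hc)).real hC.ne
    (half_pos hc) (max J₁ J₃)
  have hSt' : S.St c J F B := by
    have := S.res (half_pos hc).le hSt hB hP
    rwa [add_halves] at this
  have hJu : 32 < J * u := by
    have : 32 / u < J := hJ₃.trans_le (by exact_mod_cast (le_max_right _ _).trans hJ)
    rwa [div_lt_iff₀ hu] at this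
  have hJ0 : (0 : ℝ) ≤ J := Nat.cast_nonneg J
  have hw0' : (0 : ℝ) ≤ w := by exact_mod_cast hw0
  have hq2 : (⌈u * J⌉₊ : ℝ) < u * J + 1 := Nat.ceil_lt_add_one (by positivity)
  have hw2 : (⌊(w : ℝ) * J⌋₊ : ℝ) ≤ w * J := Nat.floor_le (by positivity)
  refine hex J ((le_max_left _ _).trans hJ) F B hSt' _ ?_ (Nat.le_ceil _) hBad
  have e1 : ((w : ℝ) + 4 * u) * J ≤ 1 * J := mul_le_mul_of_nonneg_right h3 hJ0
  have e2 : ((⌊(w : ℝ) * J⌋₊ + ⌈u * J⌉₊ : ℕ) : ℝ) ≤ J := by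
    push_cast
    linarith
  exact_mod_cast e2

end cls

end Pool.S6C
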