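import Pool.Agent.H26.DIC.Bse
import Pool.Agent.H42.S6C.Row

/-!
# The dichotomy: if the directions turn in the box, an implicit label gives a plank
-/

set_option autoImplicit false

namespace Pool.S6C

open Finset Real
open Pool.Agent.H49.Ent Pool.Agent.H32.Dense Pool.STK Pool.KA Pool.KSAT Pool.K2S Pool.PB Pool.KS6

theorem floor_le_max (x : ℝ) : (⌊x⌋₊ : ℝ) ≤ max x 0 := by
  rcases le_total 0 x with h | h
  · exact (Nat.floor_le h).trans (le_max_left _ _)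
  · rw [Nat.floor_of_nonpos h]
    simp

theorem floor_rat (w : ℚ) (J : ℕ) : ⌊w * J⌋₊ = ⌊(w : ℝ) * J⌋₊ := by
  have h : (w : ℝ) * J = ((w * J : ℚ) : ℝ) := by push_cast; rfl
  rw [← Int.floor_toNat, ← Int.floor_toNat, h, Rat.floor_cast]

theorem thk_nn {S : PCl 3} {i₀ : Fin 3} {Q : ℝ} {ρ : Row} (hS : S.Ne) (h : Rw S i₀ Q ρ) {w : ℚ}
    (h0 : 0 ≤ w) (h1 : w ≤ 1) : 0 ≤ ρ.th w := by
  by_contra hcon
  push Not at hcon
  have h2 := (h.th w h0 h1).2 (-ρ.th w / 2) (by linarith)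
  refine Clp.not_false hS (Clp.mono (J₂ := 0) h2 fun J _ F A h3 => ?_)
  exact h3 (Or.inl (by linarith))

/-- The cost of the last event. -/
theorem cost_end {J : ℕ} {F : Fam 3 J} {A B B' : F.Ω → Prop} {δ C : ℝ} (hC : 1 ≤ C)
    (h1 : Real.exp (-(δ / 2 * J)) ≤ 1 / C)
    (h2 : Real.exp (-(δ / 2 * J)) * Pe F.p A ≤ Pe F.p B) (h3 : Pe F.p B ≤ C * Pe F.p B') :
    Real.exp (-(δ * J)) * Pe F.p A ≤ Pe F.p B' := by
  have e4 : Real.exp (-(δ * J)) = Real.exp (-(δ / 2 * J)) * Real.exp (-(δ / 2 * J)) := by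
    rw [← Real.exp_add]
    congr 1
    ring
  have hC0 : 0 < C := by linarith
  calc Real.exp (-(δ * J)) * Pe F.p A
      = Real.exp (-(δ / 2 * J)) * (Real.exp (-(δ / 2 * J)) * Pe F.p A) := by rw [e4]; ring
    _ ≤ 1 / C * Pe F.p B := mul_le_mul h1 h2 (mul_nonneg (Real.exp_pos _).le
        (Pe_nonneg F.isLaw A)) (by positivity)
    _ ≤ 1 / C * (C * Pe F.p B') := mul_le_mul_of_nonneg_left h3 (by positivity)
    _ = Pe F.p B' := by field_simp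

section cls

variable {S : PCl 3} {a R h₁ : ℝ} {i₀ : Fin 3} {c s₂ : ℝ} {r : ℝ → ℝ} {D : Set ℝ}
  {σ : ℝ → Row}

/-- First case: planks which are thinner than the trivial ones. -/
theorem dic_caseA (hC : Cs S a R h₁ i₀ c s₂ r D σ) {Q : ℝ} (hQ1 : Q ≤ 1) {ρ : Row}
    (hρ : Rw S i₀ Q ρ) (w : ℚ) (hw0 : 0 < w) (hw1 : w < 1) {p : ℝ} {D' : ℕ}
    (hV : ρ.rot w < ρ.pi) (hp : 0 < p) (hsum : (w : ℝ) + ρ.rot w + p ≤ Q)
    (hCI : CI S i₀ Q w (ρ.rot w) D' p) (hcon : ρ.th w < (w : ℝ) + ρ.rot w + p)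
    (hT : (w : ℝ) + ρ.rot w < ρ.th w) : False := by
  obtain ⟨z₀, hz₀, hCI⟩ := hCI
  have hw0' : (0 : ℝ) < w := by exact_mod_cast hw0
  have hV0 : 0 ≤ ρ.rot w := hρ.rot_nn hC.ne hw0.le hw1.le
  obtain ⟨K, C, hC1, hdic⟩ := Pool.S6P.dic_A (D := D' + 1) (by omega)
  have hK : (0 : ℝ) ≤ K := Nat.cast_nonneg K
  obtain ⟨u, hu, hl⟩ := Pool.S6P.exists_small
    [(w : ℝ) + ρ.rot w + p - ρ.th w, ρ.pi - ρ.rot w, ρ.th w - w - ρ.rot w, p, h₁, z₀, 1] (by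
      intro x hx
      simp only [List.mem_cons, List.not_mem_nil, or_false] at hx
      have := hC.h₁0
      rcases hx with rfl | rfl | rfl | rfl | rfl | rfl | rfl <;> linarith)
    (B := 64 * ((K : ℝ) + 1)) (by positivity)
  have g1 := hl _ (by simp : (w : ℝ) + ρ.rot w + p - ρ.th w ∈ _)
  have g2 := hl _ (by simp : ρ.pi - ρ.rot w ∈ _)
  have g3 := hl _ (by simp : ρ.th w - w - ρ.rot w ∈ _)
  have g4 := hl _ (by simp : p ∈ _)
  have g5 := hl _ (by simp : h₁ ∈ _)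
  have g6 := hl _ (by simp : z₀ ∈ _)
  have g7 := hl _ (by simp : (1 : ℝ) ∈ _)
  have hKu : 64 * u ≤ 64 * ((K : ℝ) + 1) * u := by nlinarith
  refine bad_false hC hρ w hw0.le hw1.le hu (by linarith) (by linarith) (by linarith)
    fun δ hδ => ?_
  have c1 := glu hC hQ1 hρ w hw0.le hw1.le (v := ρ.rot w - u) (s := ρ.th w - u) (by linarith)
    (by linarith) (by linarith) (by linarith) (by linarith)
  have c2 := bse_claim hC hQ1 hρ (w := w) (v := ρ.rot w - u) (p := p) (u := u) (D' := D') hu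
    (by linarith) (by linarith) (by linarith)
    (fun δ hδ => by
      have h := hCI u δ hu (by linarith) hδ
      simp only [floor_rat] at h
      exact h) (half_pos hδ)
  obtain ⟨J₂, hJ₂⟩ := Pool.S6K.exp_small (κ := δ / 2) (C := C) (half_pos hδ) hC1
  obtain ⟨J₃, hJ₃⟩ := exists_nat_gt (64 * ((K : ℝ) + 1) / u)
  refine Clp.mono (J₂ := max J₂ J₃) (c1.and c2) ?_
  rintro J hJ F A ⟨⟨iu, iN, hi, hL⟩, B, hB, hP, E, N, hfr, hE, hM, hq⟩
  have hJ0 : (0 : ℝ) ≤ J := Nat.cast_nonneg J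
  have hU : 64 * ((K : ℝ) + 1) ≤ u * J := by
    have : 64 * ((K : ℝ) + 1) / u < J :=
      hJ₃.trans_le (by exact_mod_cast (le_max_right _ _).trans hJ)
    rw [div_lt_iff₀ hu] at this
    linarith
  have hQJ : ⌊Q * J⌋₊ ≤ J := by
    have : Q * J ≤ 1 * J := mul_le_mul_of_nonneg_right hQ1 hJ0
    rw [one_mul] at this
    exact (Nat.floor_le_floor this).trans (Nat.floor_natCast J).le
  obtain ⟨n1, n2, n3, n4, n5, n6, n7, n8⟩ := Pool.S6P.nums_A (K := K) (q := ⌈u * J⌉₊)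
    (wn := ⌊(w : ℝ) * J⌋₊) (lam := ⌊(ρ.rot w - u) * J⌋₊) (Pn := ⌊(ρ.th w - u) * J⌋₊)
    (Sn := ⌊(ρ.pi - u) * J⌋₊) (Pc := ⌊p * J⌋₊) (Qt := ⌊Q * J⌋₊)
    (k := ⌊(ρ.rot w + u) * J⌋₊) (P' := ⌊(ρ.th w + u) * J⌋₊) (U := u * J) (W := w * J)
    (V := ρ.rot w * J) (T := ρ.th w * J) (X := ρ.pi * J) (Y := Q * J) (p := p * J) hU
    (by positivity) (Nat.le_ceil _) (Nat.ceil_lt_add_one (by positivity))
    (Nat.floor_le (by positivity)) (Nat.lt_floor_add_one _)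
    (by rw [← sub_mul]; exact floor_le_max _) (by rw [← sub_mul]; exact Nat.lt_floor_add_one _)
    (by
      rw [← sub_mul]
      exact Nat.floor_le (mul_nonneg (by linarith) hJ0))
    (by rw [← sub_mul]; exact Nat.lt_floor_add_one _)
    (by rw [← sub_mul]; exact Nat.lt_floor_add_one _) (Nat.lt_floor_add_one _)
    (Nat.lt_floor_add_one _)
    (by rw [← add_mul]; exact Nat.floor_le (mul_nonneg (by linarith) hJ0))
    (by rw [← add_mul]; exact Nat.floor_le (mul_nonneg (by linarith) hJ0))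
    (by
      have := mul_le_mul_of_nonneg_right g1 hJ0
      linarith)
    (by
      have := mul_le_mul_of_nonneg_right g2 hJ0
      linarith)
    (by
      have := mul_le_mul_of_nonneg_right g3 hJ0
      linarith)
    (by
      have := mul_le_mul_of_nonneg_right hsum hJ0
      linarith)
  obtain ⟨hJ', g, n, i1, x, V', z, R', hCd⟩ := Pool.S6P.ciq_cdt hq
  obtain ⟨y, y1, ⟨φ, y2⟩, ψ, y3⟩ := LABq.hered _ _ _ _ _ _ _ _ _ A B hB hL
  have hPdt : Pool.S6P.Pdt F ⌊Q * J⌋₊ ⌊(w : ℝ) * J⌋₊ ⌊(ρ.rot w - u) * J⌋₊ ⌊(ρ.th w - u) * J⌋₊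
      ⌊(ρ.pi - u) * J⌋₊ i₀ iu iN B y φ ψ E N :=
    ⟨hi, n8, by omega, hQJ, y1, y2, y3, hfr⟩
  obtain ⟨B', hB', hP', hBad⟩ := hdic hPdt (hCd.deg_mono (Nat.le_succ D')) hE ⌈u * J⌉₊
    (3 * ⌈u * J⌉₊) (3 * ⌈u * J⌉₊) ⌊(ρ.rot w + u) * J⌋₊ ⌊(ρ.th w + u) * J⌋₊ hM n1 (by omega) n3 n2
    n4 n5 n6 n7
  exact ⟨B', hB'.trans hB, cost_end hC1 (hJ₂ J ((le_max_left _ _).trans hJ)) hP hP', hBad⟩

/-- Second case: the trivial planks. -/
theorem dic_caseB (hC : Cs S a R h₁ i₀ c s₂ r D σ) {Q : ℝ} (hQ1 : Q ≤ 1) {ρ : Row}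
    (hρ : Rw S i₀ Q ρ) (w : ℚ) (hw0 : 0 < w) (hw1 : w < 1) {p : ℝ} {D' : ℕ}
    (hV : ρ.rot w < ρ.pi) (hp : 0 < p) (hsum : (w : ℝ) + ρ.rot w + p ≤ Q)
    (hCI : CI S i₀ Q w (ρ.rot w) D' p) (hT : ρ.th w ≤ (w : ℝ) + ρ.rot w) : False := by
  obtain ⟨z₀, hz₀, hCI⟩ := hCI
  have hw0' : (0 : ℝ) < w := by exact_mod_cast hw0
  have hV0 : 0 ≤ ρ.rot w := hρ.rot_nn hC.ne hw0.le hw1.le
  obtain ⟨K, C, hC1, hdic⟩ := Pool.S6P.dic_B (D := D' + 1) (by omega)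
  have hK : (0 : ℝ) ≤ K := Nat.cast_nonneg K
  obtain ⟨u, hu, hl⟩ := Pool.S6P.exists_small
    [p, ρ.pi - ρ.rot w, h₁, z₀, 1, if ρ.rot w = 0 then 1 else ρ.rot w] (by
      intro x hx
      simp only [List.mem_cons, List.not_mem_nil, or_false] at hx
      have := hC.h₁0
      rcases hx with rfl | rfl | rfl | rfl | rfl | rfl
      · linarith
      · linarith
      · linarith
      · linarith
      · linarith
      · split_ifs with h
        · exact one_pos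
        · exact lt_of_le_of_ne hV0 (Ne.symm h))
    (B := 64 * ((K : ℝ) + 1)) (by positivity)
  have g1 := hl _ (by simp : p ∈ _)
  have g2 := hl _ (by simp : ρ.pi - ρ.rot w ∈ _)
  have g5 := hl _ (by simp : h₁ ∈ _)
  have g6 := hl _ (by simp : z₀ ∈ _)
  have g7 := hl _ (by simp : (1 : ℝ) ∈ _)
  have g8 := hl _ (by simp : (if ρ.rot w = 0 then 1 else ρ.rot w) ∈ _)
  have hKu : 64 * u ≤ 64 * ((K : ℝ) + 1) * u := by nlinarith
  have hi : ∀ i : Fin 3, ∃ iu iN : Fin 3, ∀ j : Fin 3, j = i ∨ j = iu ∨ j = iN := by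
    decide
  obtain ⟨iu, iN, hi⟩ := hi i₀
  have hTh : ρ.th w + u ≤ Q := by linarith
  have hTn : 0 ≤ ρ.th w + u := by
    have := thk_nn hC.ne hρ hw0.le hw1.le
    linarith
  refine bad_false hC hρ w hw0.le hw1.le hu (by linarith) hTh (by linarith)
    fun δ hδ => ?_
  have c2 := bse_claim hC hQ1 hρ (w := w) (v := ρ.rot w - u) (p := p) (u := u) (D' := D') hu
    (by linarith) (by linarith) (by linarith)
    (fun δ hδ => by
      have h := hCI u δ hu (by linarith) hδ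
      simp only [floor_rat] at h
      exact h) (half_pos hδ)
  obtain ⟨J₂, hJ₂⟩ := Pool.S6K.exp_small (κ := δ / 2) (C := C) (half_pos hδ) hC1
  obtain ⟨J₃, hJ₃⟩ := exists_nat_gt (64 * ((K : ℝ) + 1) / u)
  refine Clp.mono (J₂ := max J₂ J₃) c2 ?_
  rintro J hJ F A ⟨B, hB, hP, E, N, hfr, hE, hM, hq⟩
  have hJ0 : (0 : ℝ) ≤ J := Nat.cast_nonneg J
  have hU : 64 * ((K : ℝ) + 1) ≤ u * J := by
    have : 64 * ((K : ℝ) + 1) / u < J :=
      hJ₃.trans_le (by exact_mod_cast (le_max_right _ _).trans hJ)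
    rw [div_lt_iff₀ hu] at this
    linarith
  have hQJ : ⌊Q * J⌋₊ ≤ J := by
    have : Q * J ≤ 1 * J := mul_le_mul_of_nonneg_right hQ1 hJ0
    rw [one_mul] at this
    exact (Nat.floor_le_floor this).trans (Nat.floor_natCast J).le
  obtain ⟨n1, n2, n3, n4, n5⟩ := Pool.S6P.nums_B (K := K) (q := ⌈u * J⌉₊)
    (wn := ⌊(w : ℝ) * J⌋₊) (lam := ⌊(ρ.rot w - u) * J⌋₊)
    (Sn := ⌊(ρ.pi - u) * J⌋₊) (Pc := ⌊p * J⌋₊) (Qt := ⌊Q * J⌋₊)
    (k := ⌊(ρ.rot w + u) * J⌋₊) (P' := ⌊(ρ.th w + u) * J⌋₊) (U := u * J) (W := w * J)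
    (V := ρ.rot w * J) (T := ρ.th w * J) (X := ρ.pi * J) (Y := Q * J) (p := p * J) hU
    (by positivity) (Nat.le_ceil _) (Nat.ceil_lt_add_one (by positivity))
    (Nat.floor_le (by positivity)) (Nat.lt_floor_add_one _)
    (by rw [← sub_mul]; exact floor_le_max _) (by rw [← sub_mul]; exact Nat.lt_floor_add_one _)
    (by rw [← sub_mul]; exact Nat.lt_floor_add_one _) (Nat.lt_floor_add_one _)
    (Nat.lt_floor_add_one _)
    (by rw [← add_mul]; exact Nat.floor_le (mul_nonneg (by linarith) hJ0))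
    (by rw [← add_mul]; exact Nat.floor_le (mul_nonneg hTn hJ0))
    (by
      have := mul_le_mul_of_nonneg_right g1 hJ0
      linarith)
    (by
      have := mul_le_mul_of_nonneg_right g2 hJ0
      linarith)
    (by
      have := mul_le_mul_of_nonneg_right hT hJ0
      linarith)
    (by
      have := mul_le_mul_of_nonneg_right hsum hJ0
      linarith)
  obtain ⟨hJ', g, n, i1, x, V', z, R', hCd⟩ := Pool.S6P.ciq_cdt hq
  have hlam : ⌊(ρ.rot w - u) * J⌋₊ = 0 ∨ ⌈u * J⌉₊ + 7 ≤ ⌊(ρ.rot w - u) * J⌋₊ := by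
    by_cases hV00 : ρ.rot w = 0
    · refine Or.inl (Nat.floor_of_nonpos ?_)
      exact mul_nonpos_of_nonpos_of_nonneg (by linarith) hJ0
    · rw [if_neg hV00] at g8
      refine Or.inr (Nat.le_floor ?_)
      push_cast
      have e1 := mul_le_mul_of_nonneg_right g8 hJ0
      have e2 : (⌈u * J⌉₊ : ℝ) < u * J + 1 := Nat.ceil_lt_add_one (by positivity)
      have e3 := mul_le_mul_of_nonneg_right hKu hJ0
      have e4 : (64 : ℝ) ≤ u * J := by nlinarith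
      linarith
  obtain ⟨B', hB', hP', hBad⟩ := hdic hi hQJ hfr (hCd.deg_mono (Nat.le_succ D')) hE ⌈u * J⌉₊
    (3 * ⌈u * J⌉₊) (3 * ⌈u * J⌉₊) ⌊(ρ.rot w + u) * J⌋₊ ⌊(ρ.th w + u) * J⌋₊ hM hlam n1 (by omega)
    n3 n2 n4 n5
  exact ⟨B', hB'.trans hB, cost_end hC1 (hJ₂ J ((le_max_left _ _).trans hJ)) hP hP', hBad⟩

end cls

/-- **(DIC)** If the directions turn in the box, an implicit label gives a plank. -/
theorem dic_thm : DICStmt := by
  intro D' S a R h₁ i₀ c s₂ r D σ hC Q hQ hQ1 hQD w p hw0 hw1 hV hp hsum hCI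
  have hρ : Rw S i₀ Q (σ Q) := hC.row Q (by linarith) hQ1 hQD
  by_contra hcon
  push Not at hcon
  rcases lt_or_ge ((w : ℝ) + (σ Q).rot w) ((σ Q).th w) with hT | hT
  · exact dic_caseA hC hQ1 hρ w hw0 hw1 hV hp hsum hCI hcon hT
  · exact dic_caseB hC hQ1 hρ w hw0 hw1 hV hp hsum hCI hT

end Pool.S6C
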