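import Pool.Agent.H26.DIC.Imp9

/-!
# Affine changes of variables between boxes and planks

The label is a polynomial in the coordinates of the box; one space coordinate of the box is the
variable `none`, the variable `some i1` is the time. The variables of the plank are `0`: normal
coordinate, `1`: time, `2`, `3`: base.
-/

set_option autoImplicit false

namespace Pool.S6P

open MvPolynomial Finset

/-- The chain rule. -/
theorem chain {ι : Type} [Fintype ι] [DecidableEq ι] (σ : ι → P4) (F : MvPolynomial ι ℝ)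
    (i : Fin 4) :
    pderiv i (aeval σ F) = ∑ o, aeval σ (pderiv o F) * pderiv i (σ o) := by
  induction F using MvPolynomial.induction_on with
  | C a =>
    rw [aeval_C]
    simp
  | add p q hp hq =>
    simp only [map_add, hp, hq, add_mul, Finset.sum_add_distrib]
  | mul_X p j hp =>
    rw [map_mul, aeval_X, Derivation.leibniz, hp, smul_eq_mul, smul_eq_mul, Finset.mul_sum]
    have e : ∀ o, aeval σ (pderiv o (p * X j)) * pderiv i (σ o) =
        σ j * (aeval σ (pderiv o p) * pderiv i (σ o)) +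
          (if o = j then aeval σ p * pderiv i (σ j) else 0) := by
      intro o
      rw [Derivation.leibniz, smul_eq_mul, smul_eq_mul, map_add, map_mul, map_mul, aeval_X]
      by_cases h : o = j
      · subst h
        rw [pderiv_X_self, map_one, if_pos rfl]
        ring
      · rw [pderiv_X_of_ne (Ne.symm h), map_zero, if_neg h]
        ring
    rw [Finset.sum_congr rfl fun o _ => e o, Finset.sum_add_distrib, Finset.sum_ite_eq' univ j,
      if_pos (Finset.mem_univ j)]
    ring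

theorem eval_sub4 {ι : Type} (σ : ι → P4) (F : MvPolynomial ι ℝ) (b : Fin 4 → ℝ) :
    eval b (aeval σ F) = eval (fun o => eval b (σ o)) F := by
  induction F using MvPolynomial.induction_on with
  | C a => rw [aeval_C, eval_C]; exact eval_C a
  | add p q hp hq => rw [map_add, map_add, map_add, hp, hq]
  | mul_X p i hp => rw [map_mul, map_mul, map_mul, hp, aeval_X, eval_X]

theorem td_sub4 {ι : Type} [Fintype ι] {σ : ι → P4} (hσ : ∀ o, (σ o).totalDegree ≤ 1)
    {F : MvPolynomial ι ℝ} {d : ℕ} (hF : F.totalDegree ≤ d) : (aeval σ F).totalDegree ≤ d := by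
  rw [MvPolynomial.aeval_def, eval₂_eq']
  refine totalDegree_finsetSum_le fun μ hμ => ?_
  refine (totalDegree_mul _ _).trans ?_
  have e0 : (algebraMap ℝ P4 (F.coeff μ)).totalDegree = 0 := totalDegree_C _
  rw [e0, zero_add]
  refine (totalDegree_finsetProd _ _).trans ?_
  have h1 : ∀ i ∈ (Finset.univ : Finset ι), (σ i ^ μ i).totalDegree ≤ μ i := fun i _ => by
    refine (totalDegree_pow _ _).trans ?_
    calc μ i * (σ i).totalDegree ≤ μ i * 1 := Nat.mul_le_mul_left _ (hσ i)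
      _ = μ i := mul_one _
  refine (Finset.sum_le_sum h1).trans ?_
  have h2 := le_totalDegree hμ
  rw [Finsupp.sum_fintype _ _ (fun _ => rfl)] at h2
  exact h2.trans hF

theorem cq_C_mul (c : ℝ) (R : P4) (j : ℕ) : cq (C c * R) j = C c * cq R j := by
  unfold cq
  rw [map_mul]
  have e : (finSuccEquiv ℝ 3) (C c) = Polynomial.C (C c) := by
    rw [← algebraMap_eq, AlgEquiv.commutes]
    rfl
  rw [e, Polynomial.coeff_C_mul]

theorem nP_C_mul (d : ℕ) (c : ℝ) (R : P4) : nP d (C c * R) = |c| * nP d R := by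
  unfold nP
  rw [Finset.mul_sum]
  refine Finset.sum_congr rfl fun j _ => ?_
  rw [cq_C_mul, l1_C_mul]

theorem nP_nonneg (d : ℕ) (R : P4) : 0 ≤ nP d R := Finset.sum_nonneg fun _ _ => l1_nonneg _

/-- The normalised polynomial. -/
noncomputable def nz (d : ℕ) (R : P4) : P4 := C (nP d R)⁻¹ * R

theorem nP_nz {d : ℕ} {R : P4} (h : 0 < nP d R) : nP d (nz d R) = 1 := by
  unfold nz
  rw [nP_C_mul, abs_of_pos (inv_pos.2 h), inv_mul_cancel₀ h.ne']

theorem td_nz {d : ℕ} {R : P4} (h : R.totalDegree ≤ d) : (nz d R).totalDegree ≤ d := by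
  unfold nz
  refine (totalDegree_mul _ _).trans ?_
  rw [totalDegree_C, zero_add]
  exact h

theorem eval_nz {d : ℕ} {R : P4} (b : Fin 4 → ℝ) : eval b (nz d R) = (nP d R)⁻¹ * eval b R := by
  unfold nz
  rw [eval_mul, eval_C]

/-- The variables of the box. -/
theorem sum_opt (g : Option (Fin 3) → ℝ) (i : Fin 3) :
    ∑ o, g o = g (some i) + ∑ j, g (if j = i then none else some j) := by
  rw [Fintype.sum_option, Fin.sum_univ_three, Fin.sum_univ_three]
  have hi : i = 0 ∨ i = 1 ∨ i = 2 := by revert i; decide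
  rcases hi with rfl | rfl | rfl
  · simp
    ring
  · simp
    ring
  · simp
    ring

theorem sum_three {i0 iu iN : Fin 3} (hi : ∀ j : Fin 3, j = i0 ∨ j = iu ∨ j = iN)
    (g : Fin 3 → ℝ) : ∑ j, g j = g i0 + g iu + g iN := by
  have h : ∀ i0 iu iN : Fin 3, (∀ j : Fin 3, j = i0 ∨ j = iu ∨ j = iN) →
      (Finset.univ : Finset (Fin 3)) = {i0, iu, iN} ∧ i0 ≠ iu ∧ i0 ≠ iN ∧ iu ≠ iN := by
    decide
  obtain ⟨h1, h2, h3, h4⟩ := h i0 iu iN hi
  rw [h1, Finset.sum_insert (by simp [h2, h3]), Finset.sum_insert (by simp [h4]),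
    Finset.sum_singleton]
  ring

/-- Affine changes of variables. -/
structure Afc : Type where
  /-- thickness of the plank in units of the box -/
  m : ℝ
  /-- difference of the slopes in the base -/
  ku : ℝ
  /-- difference of the slopes in the normal direction -/
  kN : ℝ
  /-- the coefficient of the normal form -/
  sy : ℝ
  /-- velocities -/
  a : Fin 3 → ℝ
  /-- positions -/
  β : Fin 3 → ℝ

namespace Afc

variable (f : Afc) (i0 iu : Fin 3)

/-- The space coordinates of the box in the coordinates of the plank. -/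
noncomputable def sp (j : Fin 3) : P4 :=
  if j = i0 then X 2 + C (f.a j) * X 1 + C (f.β j)
  else if j = iu then X 3 + C f.ku * X 2 + C (f.a j) * X 1 + C (f.β j)
  else C f.m * X 0 + C (-f.kN) * X 2 + C (-f.sy) * X 3 + C (f.a j) * X 1 + C (f.β j)

/-- The variables of the label in the coordinates of the plank. -/
noncomputable def sg (i1 : Fin 3) (o : Option (Fin 3)) : P4 :=
  if o = some i1 then X 1 else f.sp i0 iu (o.elim i1 id)

theorem td_add4 {p q : P4} {d : ℕ} (hp : p.totalDegree ≤ d) (hq : q.totalDegree ≤ d) :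
    (p + q).totalDegree ≤ d := (totalDegree_add _ _).trans (max_le hp hq)

theorem td_CX (c : ℝ) (i : Fin 4) : (C c * X i : P4).totalDegree ≤ 1 := by
  refine (totalDegree_mul _ _).trans ?_
  rw [totalDegree_C, totalDegree_X]

theorem td_C1 (c : ℝ) : (C c : P4).totalDegree ≤ 1 := by
  rw [totalDegree_C]
  exact Nat.zero_le _

theorem td_X1 (i : Fin 4) : (X i : P4).totalDegree ≤ 1 := by rw [totalDegree_X]

theorem td_sp (j : Fin 3) : (f.sp i0 iu j).totalDegree ≤ 1 := by
  unfold sp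
  split_ifs
  · exact td_add4 (td_add4 (td_X1 _) (td_CX _ _)) (td_C1 _)
  · exact td_add4 (td_add4 (td_add4 (td_X1 _) (td_CX _ _)) (td_CX _ _)) (td_C1 _)
  · exact td_add4 (td_add4 (td_add4 (td_add4 (td_CX _ _) (td_CX _ _)) (td_CX _ _)) (td_CX _ _))
      (td_C1 _)

theorem td_sg (i1 : Fin 3) (o : Option (Fin 3)) : (f.sg i0 iu i1 o).totalDegree ≤ 1 := by
  unfold sg
  split_ifs
  · exact td_X1 _
  · exact f.td_sp _ _ _

theorem sg_time (i1 : Fin 3) : f.sg i0 iu i1 (some i1) = X 1 := if_pos rfl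

theorem sg_space (i1 j : Fin 3) :
    f.sg i0 iu i1 (if j = i1 then none else some j) = f.sp i0 iu j := by
  unfold sg
  by_cases h : j = i1
  · subst h
    rw [if_pos rfl, if_neg (by simp)]
    rfl
  · rw [if_neg h, if_neg (by simpa using h)]
    rfl

variable {f i0 iu} {iN : Fin 3}

theorem sp_0 : f.sp i0 iu i0 = X 2 + C (f.a i0) * X 1 + C (f.β i0) := by
  unfold sp
  rw [if_pos rfl]

theorem sp_u (h : iu ≠ i0) :
    f.sp i0 iu iu = X 3 + C f.ku * X 2 + C (f.a iu) * X 1 + C (f.β iu) := by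
  unfold sp
  rw [if_neg h, if_pos rfl]

theorem sp_N (h : iN ≠ i0) (h' : iN ≠ iu) :
    f.sp i0 iu iN = C f.m * X 0 + C (-f.kN) * X 2 + C (-f.sy) * X 3 + C (f.a iN) * X 1 +
      C (f.β iN) := by
  unfold sp
  rw [if_neg h, if_neg h']

theorem dX (i j : Fin 4) (b : Fin 4 → ℝ) : eval b (pderiv i (X j : P4)) = if i = j then 1 else 0 := by
  by_cases h : i = j
  · subst h
    rw [pderiv_X_self, if_pos rfl, map_one]
  · rw [pderiv_X_of_ne (Ne.symm h), if_neg h, map_zero]

theorem dCX (c : ℝ) (i j : Fin 4) (b : Fin 4 → ℝ) :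
    eval b (pderiv i (C c * X j : P4)) = c * if i = j then 1 else 0 := by
  rw [pderiv_C_mul, eval_mul, eval_C, dX]

theorem dC (c : ℝ) (i : Fin 4) (b : Fin 4 → ℝ) : eval b (pderiv i (C c : P4)) = 0 := by
  rw [pderiv_C, map_zero]

/-- The derivatives in the plank. -/
theorem der_sg (hi : ∀ j : Fin 3, j = i0 ∨ j = iu ∨ j = iN) (i1 : Fin 3)
    (R : MvPolynomial (Option (Fin 3)) ℝ) (b : Fin 4 → ℝ) :
    ∃ G : Fin 3 → ℝ, (∀ j, G j = eval (fun o => eval b (f.sg i0 iu i1 o))
      (pderiv (if j = i1 then none else some j) R)) ∧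
      eval b (pderiv 0 (aeval (f.sg i0 iu i1) R)) = G iN * f.m ∧
      eval b (pderiv 3 (aeval (f.sg i0 iu i1) R)) = G iu - G iN * f.sy ∧
      eval b (pderiv 2 (aeval (f.sg i0 iu i1) R)) = G i0 + G iu * f.ku - G iN * f.kN := by
  classical
  obtain ⟨n1, n2, n3⟩ : iu ≠ i0 ∧ iN ≠ i0 ∧ iN ≠ iu := by
    revert hi
    revert i0 iu iN
    decide
  refine ⟨fun j => eval (fun o => eval b (f.sg i0 iu i1 o))
      (pderiv (if j = i1 then none else some j) R), fun _ => rfl, ?_⟩
  have key : ∀ i : Fin 4, i ≠ 1 → eval b (pderiv i (aeval (f.sg i0 iu i1) R)) =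
      ∑ j, eval (fun o => eval b (f.sg i0 iu i1 o)) (pderiv (if j = i1 then none else some j) R) *
        eval b (pderiv i (f.sp i0 iu j)) := by
    intro i hi1
    rw [chain, map_sum, sum_opt _ i1, eval_mul, sg_time, dX, if_neg hi1, mul_zero, zero_add]
    refine Finset.sum_congr rfl fun j _ => ?_
    rw [eval_mul, sg_space, eval_sub4]
  refine ⟨?_, ?_, ?_⟩
  · rw [key 0 (by decide), sum_three hi, sp_0, sp_u n1, sp_N n2 n3]
    simp only [map_add, dX, dCX, dC]
    simp
  · rw [key 3 (by decide), sum_three hi, sp_0, sp_u n1, sp_N n2 n3]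
    simp only [map_add, dX, dCX, dC]
    simp
    ring
  · rw [key 2 (by decide), sum_three hi, sp_0, sp_u n1, sp_N n2 n3]
    simp only [map_add, dX, dCX, dC]
    simp
    ring

theorem eval_sp0 (b : Fin 4 → ℝ) :
    eval b (f.sp i0 iu i0) = b 2 + f.a i0 * b 1 + f.β i0 := by
  rw [sp_0]
  simp

theorem eval_spu (h : iu ≠ i0) (b : Fin 4 → ℝ) :
    eval b (f.sp i0 iu iu) = b 3 + f.ku * b 2 + f.a iu * b 1 + f.β iu := by
  rw [sp_u h]
  simp

theorem eval_spN (h : iN ≠ i0) (h' : iN ≠ iu) (b : Fin 4 → ℝ) :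
    eval b (f.sp i0 iu iN) = f.m * b 0 - f.kN * b 2 - f.sy * b 3 + f.a iN * b 1 + f.β iN := by
  rw [sp_N h h']
  simp
  ring

/-- **Points of the box in the coordinates of the plank.** -/
theorem invert (hi : ∀ j : Fin 3, j = i0 ∨ j = iu ∨ j = iN) (i1 : Fin 3) {L υ : ℝ} (hL : 1 ≤ L)
    (hm0 : 0 < f.m) (hm1 : f.m ≤ 1) (hku : |f.ku| ≤ L) (hkN : |f.kN| ≤ L) (hsy : |f.sy| ≤ 4)
    (ha : ∀ j, |f.a j| ≤ L) {b : Fin 4 → ℝ} {x : Option (Fin 3) → ℝ}
    (ht : |x (some i1) - b 1| ≤ υ)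
    (hx : ∀ j, |x (if j = i1 then none else some j) - eval b (f.sp i0 iu j)| ≤ 3 * υ) :
    ∃ b' : Fin 4 → ℝ, (∀ o, eval b' (f.sg i0 iu i1 o) = x o) ∧
      ∀ i, |b' i - b i| ≤ 40 * L ^ 2 * υ / f.m := by
  obtain ⟨n1, n2, n3⟩ : iu ≠ i0 ∧ iN ≠ i0 ∧ iN ≠ iu := by
    revert hi
    clear hx
    revert i0 iu iN
    decide
  have hυ : 0 ≤ υ := (abs_nonneg _).trans ht
  obtain ⟨z, hz⟩ : ∃ z : Fin 3 → ℝ, z = fun j => x (if j = i1 then none else some j) := ⟨_, rfl⟩
  obtain ⟨b1, hb1⟩ : ∃ b1, b1 = x (some i1) := ⟨_, rfl⟩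
  obtain ⟨b2, hb2⟩ : ∃ b2, b2 = z i0 - f.a i0 * b1 - f.β i0 := ⟨_, rfl⟩
  obtain ⟨b3, hb3⟩ : ∃ b3, b3 = z iu - f.ku * b2 - f.a iu * b1 - f.β iu := ⟨_, rfl⟩
  obtain ⟨b0, hb0⟩ : ∃ b0, b0 = (z iN + f.kN * b2 + f.sy * b3 - f.a iN * b1 - f.β iN) / f.m :=
    ⟨_, rfl⟩
  have hmb0 : f.m * b0 = z iN + f.kN * b2 + f.sy * b3 - f.a iN * b1 - f.β iN := by
    rw [hb0]
    field_simp
  have hsp : ∀ j, eval ![b0, b1, b2, b3] (f.sp i0 iu j) = z j := by
    intro j
    rcases hi j with rfl | rfl | rfl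
    · rw [eval_sp0]
      change b2 + f.a j * b1 + f.β j = z j
      rw [hb2]
      ring
    · rw [eval_spu n1]
      change b3 + f.ku * b2 + f.a j * b1 + f.β j = z j
      rw [hb3]
      ring
    · rw [eval_spN n2 n3]
      change f.m * b0 - f.kN * b2 - f.sy * b3 + f.a j * b1 + f.β j = z j
      rw [hmb0]
      ring
  exact by
   refine ⟨![b0, b1, b2, b3], fun o => ?_, ?_⟩
   · by_cases ho : o = some i1
     · rw [ho, sg_time, eval_X, ← hb1]
       rfl
     · obtain ⟨j, hj⟩ : ∃ j, o = if j = i1 then none else some j := by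
         rcases o with _ | j
         · exact ⟨i1, by rw [if_pos rfl]⟩
         · refine ⟨j, ?_⟩
           rw [if_neg]
           intro h
           exact ho (by rw [h])
       rw [hj, sg_space, hsp, hz]
   · have d0 := hx i0
     have du := hx iu
     have dN := hx iN
     rw [eval_sp0] at d0
     rw [eval_spu n1] at du
     rw [eval_spN n2 n3] at dN
     have hz' : ∀ j, x (if j = i1 then none else some j) = z j := fun j => by rw [hz]
     rw [hz'] at d0 du dN
     rw [← hb1] at ht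
     have hLυ : 0 ≤ L * υ := by positivity
     have hυL : υ ≤ L * υ := by nlinarith only [hL, hυ]
     have hL2 : L * υ ≤ L ^ 2 * υ := by nlinarith only [hL, hLυ]
     have aτ : ∀ j, |f.a j * (b1 - b 1)| ≤ L * υ := fun j => by
       rw [abs_mul]
       exact mul_le_mul (ha j) ht (abs_nonneg _) (by linarith only [hL])
     have e2 : |b2 - b 2| ≤ 4 * (L * υ) := by
       have e : b2 - b 2 = (z i0 - (b 2 + f.a i0 * b 1 + f.β i0)) - f.a i0 * (b1 - b 1) := by
         rw [hb2]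
         ring
       rw [e]
       refine (abs_sub _ _).trans ?_
       linarith only [d0, hυL, aτ, aτ i0]
     have e3 : |b3 - b 3| ≤ 8 * (L ^ 2 * υ) := by
       have e : b3 - b 3 = (z iu - (b 3 + f.ku * b 2 + f.a iu * b 1 + f.β iu)) -
           f.ku * (b2 - b 2) - f.a iu * (b1 - b 1) := by
         rw [hb3]
         ring
       rw [e]
       have h1 : |f.ku * (b2 - b 2)| ≤ L * (4 * (L * υ)) := by
         rw [abs_mul]
         exact mul_le_mul hku e2 (abs_nonneg _) (by linarith only [hL])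
       have h2 := abs_sub ((z iu - (b 3 + f.ku * b 2 + f.a iu * b 1 + f.β iu)) -
           f.ku * (b2 - b 2)) (f.a iu * (b1 - b 1))
       have h3 := abs_sub (z iu - (b 3 + f.ku * b 2 + f.a iu * b 1 + f.β iu)) (f.ku * (b2 - b 2))
       have h4 : L * (4 * (L * υ)) = 4 * (L ^ 2 * υ) := by ring
       linarith only [du, hυL, hL2, h1, h2, h3, aτ, aτ iu]
     have e0 : |f.m * (b0 - b 0)| ≤ 40 * (L ^ 2 * υ) := by
       have e : f.m * (b0 - b 0) = (z iN - (f.m * b 0 - f.kN * b 2 - f.sy * b 3 +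
           f.a iN * b 1 + f.β iN)) + f.kN * (b2 - b 2) + f.sy * (b3 - b 3) -
           f.a iN * (b1 - b 1) := by
         rw [mul_sub, hmb0]
         ring
       rw [e]
       have h1 : |f.kN * (b2 - b 2)| ≤ L * (4 * (L * υ)) := by
         rw [abs_mul]
         exact mul_le_mul hkN e2 (abs_nonneg _) (by linarith only [hL])
       have h2 : |f.sy * (b3 - b 3)| ≤ 4 * (8 * (L ^ 2 * υ)) := by
         rw [abs_mul]
         exact mul_le_mul hsy e3 (abs_nonneg _) (by norm_num)
       obtain ⟨q1, hq1⟩ : ∃ q1, q1 = z iN - (f.m * b 0 - f.kN * b 2 - f.sy * b 3 +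
           f.a iN * b 1 + f.β iN) := ⟨_, rfl⟩
       obtain ⟨q2, hq2⟩ : ∃ q2, q2 = f.kN * (b2 - b 2) := ⟨_, rfl⟩
       obtain ⟨q3, hq3⟩ : ∃ q3, q3 = f.sy * (b3 - b 3) := ⟨_, rfl⟩
       obtain ⟨q4, hq4⟩ : ∃ q4, q4 = f.a iN * (b1 - b 1) := ⟨_, rfl⟩
       have h5 := aτ iN
       rw [← hq1, ← hq2, ← hq3, ← hq4]
       rw [← hq1] at dN
       rw [← hq2] at h1
       rw [← hq3] at h2
       rw [← hq4] at h5
       have h6 := abs_sub (q1 + q2 + q3) q4
       have h7 := abs_add_three q1 q2 q3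
       have h4 : L * (4 * (L * υ)) = 4 * (L ^ 2 * υ) := by ring
       linarith only [hυL, hL2, dN, h1, h2, h5, h6, h7]
     have hfin : ∀ z : ℝ, |z| ≤ 40 * (L ^ 2 * υ) → |z| ≤ 40 * L ^ 2 * υ / f.m := by
       intro z h
       rw [le_div_iff₀ hm0]
       have h0 := abs_nonneg z
       nlinarith only [hm0, h, hm1, hLυ, hL2]
     intro i
     have hi' : i = 0 ∨ i = 1 ∨ i = 2 ∨ i = 3 := by revert i; decide
     rcases hi' with rfl | rfl | rfl | rfl
     · change |b0 - b 0| ≤ _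
       rw [abs_mul, abs_of_pos hm0] at e0
       rw [le_div_iff₀ hm0]
       linarith only [e0]
     · change |b1 - b 1| ≤ _
       refine hfin _ (ht.trans ?_)
       linarith only [hLυ, hυL, hL2]
     · change |b2 - b 2| ≤ _
       refine hfin _ (e2.trans ?_)
       linarith only [hLυ, hL2]
     · change |b3 - b 3| ≤ _
       refine hfin _ (e3.trans ?_)
       have : 0 ≤ L ^ 2 * υ := by positivity
       linarith only [hLυ, hL2]

/-- **The label in the coordinates of the plank.** -/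
theorem main (hi : ∀ j : Fin 3, j = i0 ∨ j = iu ∨ j = iN) (i1 : Fin 3) {d : ℕ} (hd : 1 ≤ d)
    {L M δ : ℝ} (hL : 1 ≤ L) (hm0 : 0 < f.m) (hm1 : f.m ≤ 1) (hku : |f.ku| ≤ L)
    (hkN : |f.kN| ≤ L) (hsy : |f.sy| ≤ 4) (hM : 1 ≤ M) {b : Fin 4 → ℝ} (hb : ∀ i, |b i| ≤ M)
    {R : MvPolynomial (Option (Fin 3)) ℝ} (hR : R.totalDegree ≤ d) {x : Option (Fin 3) → ℝ}
    (hx : ∀ o, eval b (f.sg i0 iu i1 o) = x o) (hδ : 0 ≤ δ) (hne : eval x (pderiv none R) ≠ 0)
    (hs : |eval x R| ≤ δ * |eval x (pderiv none R)|) :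
    (aeval (f.sg i0 iu i1) R).totalDegree ≤ d ∧ 0 < nP d (aeval (f.sg i0 iu i1) R) ∧
      |eval b (nz d (aeval (f.sg i0 iu i1) R))| ≤ δ * (10 * L / f.m * (cV d * M ^ (2 * d))) := by
  obtain ⟨R', hR'⟩ : ∃ R', R' = aeval (f.sg i0 iu i1) R := ⟨_, rfl⟩
  have hxx : (fun o => eval b (f.sg i0 iu i1 o)) = x := funext hx
  have hdeg : R'.totalDegree ≤ d := by
    rw [hR']
    exact td_sub4 (fun o => f.td_sg i0 iu i1 o) hR
  obtain ⟨G, hG, g0, g3, g2⟩ := der_sg (f := f) hi i1 R b
  rw [← hR'] at g0 g2 g3 ⊢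
  rw [hxx] at hG
  have hval : eval b R' = eval x R := by rw [hR', eval_sub4, hxx]
  obtain ⟨N, hN⟩ : ∃ N, N = nP d R' := ⟨_, rfl⟩
  obtain ⟨Z, hZ⟩ : ∃ Z, Z = cV d * N * M ^ (2 * d) := ⟨_, rfl⟩
  have hbd : ∀ i, |eval b (pderiv i R')| ≤ Z := fun i => by
    have h1 := ((Bd_nP hdeg).pderiv hd i).2 M hM b hb
    rw [← hN, ← hZ] at h1
    exact h1
  have hZ0 : 0 ≤ Z := (abs_nonneg _).trans (hbd 0)
  have hm2 : 1 ≤ 1 / f.m := by
    rw [le_div_iff₀ hm0, one_mul]
    exact hm1
  obtain ⟨T, hT⟩ : ∃ T, T = Z / f.m := ⟨_, rfl⟩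
  have hT0 : 0 ≤ T := by rw [hT]; positivity
  have hZT : Z ≤ T := by
    rw [hT, le_div_iff₀ hm0]
    nlinarith only [hm1, hZ0]
  have b0 := hbd 0
  have b2 := hbd 2
  have b3 := hbd 3
  rw [g0] at b0
  rw [g2] at b2
  rw [g3] at b3
  exact by
   have k0 : |G iN| ≤ T := by
     rw [hT, le_div_iff₀ hm0]
     rwa [abs_mul, abs_of_pos hm0] at b0
   have k1 : |G iu| ≤ 5 * T := by
     have e : G iu = (G iu - G iN * f.sy) + G iN * f.sy := by ring
     rw [e]
     refine (abs_add_le _ _).trans ?_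
     have : |G iN * f.sy| ≤ T * 4 := by
       rw [abs_mul]
       exact mul_le_mul k0 hsy (abs_nonneg _) hT0
     linarith only [hZT, b3, this]
   have k2 : |G i0| ≤ 7 * L * T := by
     have e : G i0 = (G i0 + G iu * f.ku - G iN * f.kN) - G iu * f.ku + G iN * f.kN := by ring
     rw [e]
     have h1 : |G iu * f.ku| ≤ 5 * T * L := by
       rw [abs_mul]
       exact mul_le_mul k1 hku (abs_nonneg _) (by positivity)
     have h2 : |G iN * f.kN| ≤ T * L := by
       rw [abs_mul]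
       exact mul_le_mul k0 hkN (abs_nonneg _) hT0
     refine (abs_add_le _ _).trans ?_
     have h3 := abs_sub (G i0 + G iu * f.ku - G iN * f.kN) (G iu * f.ku)
     nlinarith only [hZT, b2, h1, h2, h3, hL, hT0]
   have kall : ∀ j, |G j| ≤ 10 * L * T := by
     intro j
     have h1 : 0 ≤ L * T := by positivity
     have h2 : T ≤ L * T := by nlinarith only [hL, hT0]
     rcases hi j with rfl | rfl | rfl
     · linarith only [h1, k2]
     · linarith only [h1, h2, k1]
     · linarith only [h1, h2, k0]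
   exact by
    have hnone : |eval x (pderiv none R)| ≤ 10 * L * T := by
      have h1 := kall i1
      rw [hG i1, if_pos rfl] at h1
      exact h1
    have hN0 : 0 < N := by
      rcases (nP_nonneg d R').eq_or_lt with h | h
      · exfalso
        rw [← hN] at h
        rw [← h] at hZ
        have : T = 0 := by rw [hT, hZ]; simp
        rw [this, mul_zero] at hnone
        exact hne (abs_nonpos_iff.1 hnone)
      · rwa [← hN] at h
    refine ⟨hdeg, by rw [← hN]; exact hN0, ?_⟩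
    rw [eval_nz, ← hN, hval, abs_mul, abs_of_pos (inv_pos.2 hN0), inv_mul_le_iff₀ hN0]
    refine hs.trans ?_
    have h1 := mul_le_mul_of_nonneg_left hnone hδ
    refine h1.trans (le_of_eq ?_)
    rw [hT, hZ]
    field_simp

end Afc

end Pool.S6P
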