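import Pool.Agent.H26.DIC.Fam9

/-!
# The exclusions: balls, constant directions; the two forms of the dichotomy
-/

set_option autoImplicit false

namespace Pool.S6P

open MvPolynomial Finset Pool.K2S Pool.STK Pool.KA Pool.KSAT Pool.KS6

variable {J : ℕ}

/-- The conclusions which are excluded in the class. -/
def Bad (F : Fam 3 J) (Qt w : ℕ) (i0 : Fin 3) (q k P' : ℕ) (B : F.Ω → Prop) : Prop :=
  (∃ tt : ((Fin 3 → ℝ) × (Fin 3 → ℝ)) × F.ζ × ℕ → ℝ, ∀ ω, B ω →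
    |(2 ^ w * F.t ω - F.T1 w ω) - tt (slam F w ω)| ≤ 1 / 2 ^ q) ∨
  Ball (1 / 2 ^ q) (Fam.pt F) F.d B ∨
  RotU i0 (1 / 2 ^ k) (1 / 2 ^ k) (Pool.KS6.ptq F Qt) (slam F w) F.d B ∨
  ∃ ju jN : Fin 3, (∀ j : Fin 3, j = i0 ∨ j = ju ∨ j = jN) ∧
    LABq F Qt i0 ju jN w 0 P' 2 B

section one

variable {F : Fam 3 J} {Qt w lam P S : ℕ} {i0 iu iN : Fin 3} {A : F.Ω → Prop}
  {E N : (Fin 3 → ℤ) × (ℕ × F.ζ) → Fin 3 → ℝ}

/-- If the velocity in the chart is known from the point, the fan is a ball. -/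
theorem vel_ball (hQ : Qt ≤ J) (hfr : OnL i0 (1 / 2 ^ S) (Pool.KS6.ptq F Qt) F.d A E N)
    (hE : ∀ ω, A ω → ∀ j, |E (Pool.KS6.ptq F Qt ω) j| ≤ 3 / 2) {q : ℕ} (hq : q + 2 ≤ S)
    {v : (Fin 3 → ℤ) × (ℕ × F.ζ) → ℝ}
    (hv : ∀ ω, A ω → |F.d ω i0 - v (Pool.KS6.ptq F Qt ω)| ≤ 1 / 2 ^ (q + 1)) :
    Ball (1 / 2 ^ q) (Fam.pt F) F.d A := by
  obtain ⟨φ, hφ⟩ := Pool.PB.ptr_coarse F hQ
  refine ⟨fun u j => E (φ u) j * v (φ u) + N (φ u) j, fun ω hω j => ?_⟩
  have h1 : Pool.KS6.ptq F Qt ω = φ (Fam.pt F ω) := hφ ω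
  simp only
  rw [← h1]
  have a1 := hfr ω hω j
  have a2 := hv ω hω
  have a3 := hE ω hω j
  have e1 : F.d ω j - (E (Pool.KS6.ptq F Qt ω) j * v (Pool.KS6.ptq F Qt ω) +
      N (Pool.KS6.ptq F Qt ω) j) = (F.d ω j - E (Pool.KS6.ptq F Qt ω) j * F.d ω i0 -
      N (Pool.KS6.ptq F Qt ω) j) + E (Pool.KS6.ptq F Qt ω) j *
      (F.d ω i0 - v (Pool.KS6.ptq F Qt ω)) := by ring
  rw [e1]
  refine (abs_add_le _ _).trans ?_
  rw [abs_mul]
  have a4 : |E (Pool.KS6.ptq F Qt ω) j| * |F.d ω i0 - v (Pool.KS6.ptq F Qt ω)| ≤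
      3 / 2 * (1 / 2 ^ (q + 1)) := mul_le_mul a3 a2 (abs_nonneg _) (by norm_num)
  have a5 : (1 : ℝ) / 2 ^ S ≤ 1 / 2 ^ (q + 2) := Pool.PB.inv_mono hq
  have e2 : (1 : ℝ) / 2 ^ (q + 2) = 1 / 2 ^ q / 4 := by rw [pow_add]; field_simp; norm_num
  have e3 : (1 : ℝ) / 2 ^ (q + 1) = 1 / 2 ^ q / 2 := by rw [pow_add]; field_simp
  rw [e2] at a5
  rw [e3] at a4
  linarith

/-- The slopes at a point agree with the slopes of another frame. -/
theorem slope_near {q : ℕ} {ω : F.Ω} (hM : Mts F Qt i0 A q ω)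
    (hfr : OnL i0 (1 / 2 ^ S) (Pool.KS6.ptq F Qt) F.d A E N) {g n : F.Ω → Fin 3 → ℝ} {r : ℝ}
    (hg : ∀ ω, A ω → ∀ j, |F.d ω j - n ω j - g ω j * F.d ω i0| ≤ r)
    (hv : ∀ ω', A ω' → Pool.KS6.ptq F Qt ω' = Pool.KS6.ptq F Qt ω → g ω' = g ω ∧ n ω' = n ω)
    (j : Fin 3) : |g ω j - E (Pool.KS6.ptq F Qt ω) j| ≤ (2 * r + 2 / 2 ^ S) * 2 ^ q := by
  obtain ⟨ω', ω'', h1, h2, h3, h4, h5⟩ := hM
  refine div_sep h5 ?_
  have a1 := hfr ω' h1 j
  have a2 := hfr ω'' h2 j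
  have a3 := hg ω' h1 j
  have a4 := hg ω'' h2 j
  rw [h3] at a1
  rw [h4] at a2
  rw [(hv ω' h1 h3).1, (hv ω' h1 h3).2] at a3
  rw [(hv ω'' h2 h4).1, (hv ω'' h2 h4).2] at a4
  obtain ⟨u, hu⟩ : ∃ u, u = Pool.KS6.ptq F Qt ω := ⟨_, rfl⟩
  rw [← hu] at a1 a2 ⊢
  have e1 : (g ω j - E u j) * (F.d ω' i0 - F.d ω'' i0) =
      ((F.d ω' j - E u j * F.d ω' i0 - N u j) - (F.d ω'' j - E u j * F.d ω'' i0 - N u j)) -
      ((F.d ω' j - n ω j - g ω j * F.d ω' i0) - (F.d ω'' j - n ω j - g ω j * F.d ω'' i0)) := by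
    ring
  rw [e1]
  have b1 := abs_sub (F.d ω' j - E u j * F.d ω' i0 - N u j)
    (F.d ω'' j - E u j * F.d ω'' i0 - N u j)
  have b2 := abs_sub (F.d ω' j - n ω j - g ω j * F.d ω' i0)
    (F.d ω'' j - n ω j - g ω j * F.d ω'' i0)
  refine (abs_sub _ _).trans ?_
  have e2 : (2 : ℝ) / 2 ^ S = 1 / 2 ^ S + 1 / 2 ^ S := by ring
  linarith

/-- **All directions are constant if one of them is constant**, by the plank. -/
theorem Pdt.full {y : F.Ω → Pln} {φ : (Fin 3 → ℤ) × (ℕ × F.ζ) → Pln}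
    {ψ : ((Fin 3 → ℝ) × (Fin 3 → ℝ)) × F.ζ × ℕ → Pln}
    (h : Pdt F Qt w lam P S i0 iu iN A y φ ψ E N) {B : F.Ω → Prop} (hB : Sub B A) {q l k : ℕ}
    (hM : ∀ ω, B ω → Mts F Qt i0 A q ω) {ζ : ((Fin 3 → ℝ) × (Fin 3 → ℝ)) × F.ζ × ℕ → ℝ}
    (hζ : ∀ ω, B ω → |E (Pool.KS6.ptq F Qt ω) iu - ζ (slam F w ω)| ≤ 1 / 2 ^ l)
    (k1 : k + 3 ≤ l) (k2 : q + w + k + 4 ≤ P) (k3 : q + k + 6 ≤ S) :
    RotU i0 (1 / 2 ^ k) (1 / 2 ^ k) (Pool.KS6.ptq F Qt) (slam F w) F.d B := by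
  obtain ⟨n1, n2, n3⟩ := three h.hi
  have p0 : (0 : ℝ) < 1 / 2 ^ k := by positivity
  refine ⟨fun u j => if j = i0 then 1 else E u j, fun u j => if j = i0 then 0 else N u j,
    fun v j => if j = i0 then 1 else if j = iu then ζ v else
      -(ψ v).c - (ψ v).s * ζ v, fun ω hω j => ?_, fun ω hω j => ?_⟩
  · simp only
    by_cases hj : j = i0
    · rw [if_pos hj, if_pos hj, hj, one_mul, sub_self, sub_self, abs_zero]
      exact p0.le
    · rw [if_neg hj, if_neg hj]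
      exact (h.fr ω (hB ω hω) j).trans (Pool.PB.inv_mono (by omega))
  · simp only
    by_cases hj : j = i0
    · rw [if_pos hj, if_pos hj, sub_self, abs_zero]
      exact p0.le
    · rw [if_neg hj, if_neg hj]
      by_cases hj' : j = iu
      · rw [if_pos hj', hj']
        exact (hζ ω hω).trans (Pool.PB.inv_mono (by omega))
      · rw [if_neg hj']
        have hjN : j = iN := by
          rcases h.hi j with h1 | h1 | h1
          · exact absurd h1 hj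
          · exact absurd h1 hj'
          · exact h1
        rw [hjN]
        obtain ⟨ω', ω'', m1, m2, m3, m4, m5⟩ := hM ω hω
        have hy : y ω = ψ (slam F w ω) := h.con ω (hB ω hω)
        have y1 : y ω' = y ω := by rw [h.vis _ m1, h.vis _ (hB ω hω), m3]
        have y2 : y ω'' = y ω := by rw [h.vis _ m2, h.vis _ (hB ω hω), m4]
        have v1 := (h.inc ω' m1).vn
        have v2 := (h.inc ω'' m2).vn
        have hs := (h.inc ω (hB ω hω)).s_le
        have f1 := h.fr ω' m1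
        have f2 := h.fr ω'' m2
        have z1 := hζ ω hω
        rw [y1] at v1
        rw [y2] at v2
        obtain ⟨u, hu⟩ : ∃ u, u = Pool.KS6.ptq F Qt ω := ⟨_, rfl⟩
        rw [m3, ← hu] at f1
        rw [m4, ← hu] at f2
        rw [← hu] at z1 ⊢
        rw [← hy]
        obtain ⟨c, hc⟩ : ∃ c, c = (y ω).c := ⟨_, rfl⟩
        obtain ⟨s, hs'⟩ : ∃ s, s = (y ω).s := ⟨_, rfl⟩
        obtain ⟨z, hz⟩ : ∃ z, z = ζ (slam F w ω) := ⟨_, rfl⟩
        rw [← hc, ← hs'] at v1 v2 ⊢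
        rw [← hs'] at hs
        rw [← hz] at z1 ⊢
        have key : |c + s * E u iu + E u iN| ≤ (4 * 2 ^ w / 2 ^ P + 10 / 2 ^ S) * 2 ^ q := by
          refine div_sep m5 ?_
          have e1 : (c + s * E u iu + E u iN) * (F.d ω' i0 - F.d ω'' i0) =
              ((fn i0 iu iN c s (F.d ω') - fn i0 iu iN c s (y ω).db) -
                (fn i0 iu iN c s (F.d ω'') - fn i0 iu iN c s (y ω).db)) -
              (s * ((F.d ω' iu - E u iu * F.d ω' i0 - N u iu) -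
                (F.d ω'' iu - E u iu * F.d ω'' i0 - N u iu)) +
                ((F.d ω' iN - E u iN * F.d ω' i0 - N u iN) -
                (F.d ω'' iN - E u iN * F.d ω'' i0 - N u iN))) := by
            unfold fn
            ring
          rw [e1]
          have b1 := abs_sub (fn i0 iu iN c s (F.d ω') - fn i0 iu iN c s (y ω).db)
            (fn i0 iu iN c s (F.d ω'') - fn i0 iu iN c s (y ω).db)
          have b2 := abs_sub (F.d ω' iu - E u iu * F.d ω' i0 - N u iu)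
            (F.d ω'' iu - E u iu * F.d ω'' i0 - N u iu)
          have b3 := abs_sub (F.d ω' iN - E u iN * F.d ω' i0 - N u iN)
            (F.d ω'' iN - E u iN * F.d ω'' i0 - N u iN)
          have c1 := f1 iu
          have c2 := f2 iu
          have c3 := f1 iN
          have c4 := f2 iN
          have b4 : |s * ((F.d ω' iu - E u iu * F.d ω' i0 - N u iu) -
              (F.d ω'' iu - E u iu * F.d ω'' i0 - N u iu))| ≤ 4 * (2 / 2 ^ S) := by
            rw [abs_mul]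
            refine mul_le_mul hs ?_ (abs_nonneg _) (by norm_num)
            have e2 : (2 : ℝ) / 2 ^ S = 1 / 2 ^ S + 1 / 2 ^ S := by ring
            linarith
          refine (abs_sub _ _).trans ?_
          have b5 := abs_add_le (s * ((F.d ω' iu - E u iu * F.d ω' i0 - N u iu) -
              (F.d ω'' iu - E u iu * F.d ω'' i0 - N u iu)))
              ((F.d ω' iN - E u iN * F.d ω' i0 - N u iN) -
                (F.d ω'' iN - E u iN * F.d ω'' i0 - N u iN))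
          have e3 : (4 : ℝ) * 2 ^ w / 2 ^ P = 2 * 2 ^ w / 2 ^ P + 2 * 2 ^ w / 2 ^ P := by ring
          have e4 : (10 : ℝ) / 2 ^ S = 4 * (2 / 2 ^ S) + (1 / 2 ^ S + 1 / 2 ^ S) := by ring
          linarith
        have e1 : E u iN - (-c - s * z) = (c + s * E u iu + E u iN) - s * (E u iu - z) := by ring
        rw [e1]
        refine (abs_sub _ _).trans ?_
        have g1 : |s * (E u iu - z)| ≤ 4 * (1 / 2 ^ l) := by
          rw [abs_mul]
          exact mul_le_mul hs z1 (abs_nonneg _) (by norm_num)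
        have g2 : (1 : ℝ) / 2 ^ l ≤ 1 / 2 ^ (k + 3) := Pool.PB.inv_mono k1
        have g3 : (1 : ℝ) / 2 ^ (k + 3) = 1 / 2 ^ k / 8 := by
          rw [pow_add]
          field_simp
          norm_num
        have g4 : (2 : ℝ) ^ w / 2 ^ P * 2 ^ q ≤ 1 / 2 ^ k / 16 := by
          have g5 : (2 : ℝ) ^ (q + w + k + 4) ≤ 2 ^ P := pow_le_pow_right₀ (by norm_num) k2
          have g6 : (2 : ℝ) ^ (q + w + k + 4) = 2 ^ q * 2 ^ w * 2 ^ k * 16 := by
            rw [pow_add, pow_add, pow_add]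
            norm_num
          rw [g6] at g5
          rw [div_mul_eq_mul_div, div_div, div_le_div_iff₀ (by positivity) (by positivity)]
          linarith
        have g7 : (1 : ℝ) / 2 ^ S * 2 ^ q ≤ 1 / 2 ^ k / 64 := by
          have g5 : (2 : ℝ) ^ (q + k + 6) ≤ 2 ^ S := pow_le_pow_right₀ (by norm_num) k3
          have g6 : (2 : ℝ) ^ (q + k + 6) = 2 ^ q * 2 ^ k * 64 := by
            rw [pow_add, pow_add]
            norm_num
          rw [g6] at g5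
          rw [div_mul_eq_mul_div, div_div, div_le_div_iff₀ (by positivity) (by positivity)]
          linarith
        have e5 : ((4 : ℝ) * 2 ^ w / 2 ^ P + 10 / 2 ^ S) * 2 ^ q =
            4 * (2 ^ w / 2 ^ P * 2 ^ q) + 10 * (1 / 2 ^ S * 2 ^ q) := by ring
        rw [e5] at key
        rw [g3] at g2
        linarith

end one

end Pool.S6P
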