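import Pool.Agent.H26.DIC.Fam10

/-!
# The two forms of the dichotomy for a family
-/

set_option autoImplicit false

namespace Pool.S6P

open MvPolynomial Finset Pool.K2S Pool.STK Pool.KA Pool.KSAT Pool.KS6

variable {J : ℕ}

theorem Cdt.deg_mono {F : Fam 3 J} {Qt w lam J' D Pc : ℕ} {i0 : Fin 3} {A : F.Ω → Prop}
    {hJ : w + J' ≤ J} {g n : F.Ω → Fin 3 → ℝ} {i1 : Fin 3} {x : F.Ω → Option (Fin 3) → ℝ}
    {V : Type} {z : F.Ω → V} {R : V → MvPolynomial (Option (Fin 3)) ℝ}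
    (h : Cdt F Qt w lam J' D Pc i0 A hJ g n i1 x z R) {D₁ : ℕ} (hD : D ≤ D₁) :
    Cdt F Qt w lam J' D₁ Pc i0 A hJ g n i1 x z R where
  fr := h.fr
  gvis := h.gvis
  gcon := h.gcon
  bvis := h.bvis
  zvis := h.zvis
  zcon := h.zcon
  deg := fun v => (h.deg v).trans hD
  near := h.near
  ne := h.ne
  sm := h.sm

/-- Three of the four alternatives are excluded in the class. -/
theorem Alt.bad {F : Fam 3 J} {Qt w lam P S : ℕ} {i0 iu : Fin 3} {A B : F.Ω → Prop}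
    {E N : (Fin 3 → ℤ) × (ℕ × F.ζ) → Fin 3 → ℝ} {q h g₀ k P' : ℕ}
    (hO : Alt F Qt w lam P i0 iu E (q + 1) h g₀ B) (hB : Sub B A) (hQ : Qt ≤ J)
    (hfr : OnL i0 (1 / 2 ^ S) (Pool.KS6.ptq F Qt) F.d A E N)
    (hE : ∀ ω, A ω → ∀ j, |E (Pool.KS6.ptq F Qt ω) j| ≤ 3 / 2) (hq : q + 2 ≤ S)
    (hP' : P' ≤ P + g₀) :
    Bad F Qt w i0 q k P' B ∨
      ∃ ζ : ((Fin 3 → ℝ) × (Fin 3 → ℝ)) × F.ζ × ℕ → ℝ, ∀ ω, B ω →
        |E (Pool.KS6.ptq F Qt ω) iu - ζ (slam F w ω)| ≤ 1 / 2 ^ (lam + h) := by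
  rcases hO with ⟨tt, h1⟩ | ⟨v, h1⟩ | h1 | ⟨ju, jN, hj, h1⟩
  · refine Or.inl (Or.inl ⟨tt, fun ω hω => (h1 ω hω).trans (Pool.PB.inv_mono (by omega))⟩)
  · exact Or.inl (Or.inr (Or.inl (vel_ball hQ (hfr.sub hB) (fun ω hω => hE ω (hB ω hω)) hq h1)))
  · exact Or.inr h1
  · exact Or.inl (Or.inr (Or.inr (Or.inr ⟨ju, jN, hj,
      Pool.S6C.lab_thin (by norm_num) h1 hP'⟩)))

/-- **First form**: planks which are thinner than the trivial ones. -/
theorem dic_A {D : ℕ} (hD : 1 ≤ D) : ∃ (K : ℕ) (C : ℝ), 1 ≤ C ∧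
    ∀ {J : ℕ} {F : Fam 3 J} {Qt w lam P S J' Pc : ℕ} {i0 iu iN i1 : Fin 3}
      {A : F.Ω → Prop} {y : F.Ω → Pln} {φ : (Fin 3 → ℤ) × (ℕ × F.ζ) → Pln}
      {ψ : ((Fin 3 → ℝ) × (Fin 3 → ℝ)) × F.ζ × ℕ → Pln}
      {E N : (Fin 3 → ℤ) × (ℕ × F.ζ) → Fin 3 → ℝ} {hJ : w + J' ≤ J} {g n : F.Ω → Fin 3 → ℝ}
      {xg : F.Ω → Option (Fin 3) → ℝ} {V : Type} {z : F.Ω → V}
      {R : V → MvPolynomial (Option (Fin 3)) ℝ},
      Pdt F Qt w lam P S i0 iu iN A y φ ψ E N → Cdt F Qt w lam J' D Pc i0 A hJ g n i1 xg z R →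
      (∀ ω, A ω → ∀ j, |E (Pool.KS6.ptq F Qt ω) j| ≤ 3 / 2) → ∀ q h g₀ k P' : ℕ,
      (∀ ω, A ω → Mts F Qt i0 A (q + 1) ω) →
      K * (q + 1 + h + g₀ + 1) + P ≤ w + lam + Pc →
      K * (q + 1 + h + g₀ + 1) + P ≤ w + lam + J' →
      K * (q + 1 + h + g₀ + 1) + lam ≤ S → K * (q + 1 + h + g₀ + 1) + P ≤ Qt →
      k + 3 ≤ lam + h → q + 1 + w + k + 4 ≤ P → q + 1 + k + 6 ≤ S → P' ≤ P + g₀ →
      Big F.p C A (Bad F Qt w i0 q k P') := by
  obtain ⟨K, C, hC, hone⟩ := dic_one hD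
  refine ⟨K, C, hC, ?_⟩
  intro J F Qt w lam P S J' Pc i0 iu iN i1 A y φ ψ E N hJ g n xg V z R hP hCd hE q h g₀ k P' hM
    k1 k2 k3 k4 k5 k6 k7 k8
  refine (hone hP hCd hE (q + 1) h g₀ k1 k2 k3 k4).imp fun B hB hO => ?_
  rcases hO.bad hB hP.QJ hP.fr hE (by omega) (k := k) k8 with h1 | ⟨ζ, h1⟩
  · exact h1
  · exact Or.inr (Or.inr (Or.inl (hP.full hB (fun ω hω => hM ω (hB ω hω)) h1 k5 k6 k7)))

section triv

variable {F : Fam 3 J} {Qt w lam J' D Pc S : ℕ} {i0 i1 : Fin 3} {A : F.Ω → Prop}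
  {hJ : w + J' ≤ J} {g n : F.Ω → Fin 3 → ℝ} {x : F.Ω → Option (Fin 3) → ℝ}
  {V : Type} {z : F.Ω → V} {R : V → MvPolynomial (Option (Fin 3)) ℝ}
  {E N : (Fin 3 → ℤ) × (ℕ × F.ζ) → Fin 3 → ℝ}

/-- **The trivial planks** of the frames. -/
theorem Cdt.triv (h : Cdt F Qt w lam J' D Pc i0 A hJ g n i1 x z R)
    (hfr : OnL i0 (1 / 2 ^ S) (Pool.KS6.ptq F Qt) F.d A E N)
    (hE : ∀ ω, A ω → ∀ j, |E (Pool.KS6.ptq F Qt ω) j| ≤ 3 / 2) {q : ℕ}
    (hM : ∀ ω, A ω → Mts F Qt i0 A q ω) (hl : lam = 0 ∨ (q + 6 ≤ lam ∧ q + 5 ≤ S))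
    {ju jN : Fin 3} (hi : ∀ j : Fin 3, j = i0 ∨ j = ju ∨ j = jN) (hw : w + lam ≤ Qt)
    (hQ : Qt ≤ J) {B : F.Ω → Prop} (hB : Sub B A) :
    Big F.p cLab B (LABq F Qt i0 ju jN w lam (w + lam) 2) := by
  rcases hl with hl | ⟨hl, hS⟩
  · subst hl
    refine mk_plank_e hi le_rfl hw hQ (fun _ => 0) (fun _ => 0) (fun _ => 0) (fun _ => 0)
      (fun _ => 0) (fun _ _ _ _ _ => ⟨rfl, rfl, rfl, rfl, rfl⟩) (fun _ _ _ _ _ => ⟨rfl, rfl, rfl⟩)
      (fun _ _ => by norm_num) (fun _ _ => by norm_num) (fun _ _ => by norm_num)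
      (fun ω _ => ?_) (fun ω _ => ?_)
    · have := F.dir ω ju
      unfold fu
      rw [zero_mul, sub_zero, sub_zero, pow_zero]
      linarith
    · have := F.dir ω jN
      unfold fn
      have e : (20 : ℝ) * 2 ^ w / 2 ^ (w + 0) = 20 := by
        rw [add_zero]
        field_simp
      rw [zero_mul, zero_mul, add_zero, zero_add, sub_zero, e]
      linarith
  · have hgE : ∀ ω, A ω → ∀ j, |g ω j| ≤ 2 := by
      intro ω hω j
      have h1 := slope_near (hM ω hω) hfr (g := g) (n := n) (r := 6 / 2 ^ lam)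
        (fun ω hω j => (h.fr ω hω j).2) (fun ω' hω' hp => h.gvis ω ω' hω hω' hp) j
      have h2 : (1 : ℝ) / 2 ^ lam * 2 ^ q ≤ 1 / 64 := by
        have g5 : (2 : ℝ) ^ (q + 6) ≤ 2 ^ lam := pow_le_pow_right₀ (by norm_num) hl
        rw [pow_add] at g5
        norm_num at g5
        rw [div_mul_eq_mul_div, div_le_div_iff₀ (by positivity) (by norm_num)]
        linarith
      have h3 : (1 : ℝ) / 2 ^ S * 2 ^ q ≤ 1 / 32 := by
        have g5 : (2 : ℝ) ^ (q + 5) ≤ 2 ^ S := pow_le_pow_right₀ (by norm_num) hS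
        rw [pow_add] at g5
        norm_num at g5
        rw [div_mul_eq_mul_div, div_le_div_iff₀ (by positivity) (by norm_num)]
        linarith
      have e1 : (2 * (6 / 2 ^ lam) + 2 / 2 ^ S) * (2 : ℝ) ^ q =
          12 * (1 / 2 ^ lam * 2 ^ q) + 2 * (1 / 2 ^ S * 2 ^ q) := by ring
      rw [e1] at h1
      have h4 := hE ω hω j
      have h5 := abs_sub_abs_le_abs_sub (g ω j) (E (Pool.KS6.ptq F Qt ω) j)
      linarith
    refine mk_plank_e hi le_rfl hw hQ (fun ω => g ω ju) (fun ω => -g ω jN) (fun _ => 0)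
      (fun ω => n ω ju) (fun ω => n ω jN) (fun ω ω' h1 h2 hp => ?_) (fun ω ω' _ _ hs => ?_)
      (fun ω hω => hgE ω (hB ω hω) ju) (fun ω hω => ?_) (fun _ _ => by norm_num)
      (fun ω hω => ?_) (fun ω hω => ?_)
    · obtain ⟨a1, a2⟩ := h.gvis ω ω' (hB ω h1) (hB ω' h2) hp
      exact ⟨congrFun a1 ju, congrArg (fun v : ℝ => -v) (congrFun a1 jN), rfl, congrFun a2 ju,
        congrFun a2 jN⟩
    · have a1 := h.gcon ω ω' hs
      exact ⟨congrFun a1 ju, congrArg (fun v : ℝ => -v) (congrFun a1 jN), rfl⟩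
    · rw [abs_neg]
      exact (hgE ω (hB ω hω) jN).trans (by norm_num)
    · have h1 := (h.fr ω (hB ω hω) ju).2
      have e1 : fu i0 ju (g ω ju) (F.d ω) - n ω ju =
          F.d ω ju - n ω ju - g ω ju * F.d ω i0 := by
        unfold fu
        ring
      rw [e1]
      refine h1.trans ?_
      exact div_le_div_of_nonneg_right (by norm_num) (by positivity)
    · have h1 := (h.fr ω (hB ω hω) jN).2
      have e1 : fn i0 ju jN (-g ω jN) 0 (F.d ω) - n ω jN =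
          F.d ω jN - n ω jN - g ω jN * F.d ω i0 := by
        unfold fn
        ring
      rw [e1]
      have e2 : (20 : ℝ) * 2 ^ w / 2 ^ (w + lam) = 20 / 2 ^ lam := by
        rw [pow_add]
        field_simp
      rw [e2]
      refine h1.trans ?_
      exact div_le_div_of_nonneg_right (by norm_num) (by positivity)

end triv

/-- **Second form**: the trivial planks. -/
theorem dic_B {D : ℕ} (hD : 1 ≤ D) : ∃ (K : ℕ) (C : ℝ), 1 ≤ C ∧
    ∀ {J : ℕ} {F : Fam 3 J} {Qt w lam S J' Pc : ℕ} {i0 iu iN i1 : Fin 3}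
      {A : F.Ω → Prop}
      {E N : (Fin 3 → ℤ) × (ℕ × F.ζ) → Fin 3 → ℝ} {hJ : w + J' ≤ J} {g n : F.Ω → Fin 3 → ℝ}
      {xg : F.Ω → Option (Fin 3) → ℝ} {V : Type} {z : F.Ω → V}
      {R : V → MvPolynomial (Option (Fin 3)) ℝ},
      (∀ j : Fin 3, j = i0 ∨ j = iu ∨ j = iN) → Qt ≤ J →
      OnL i0 (1 / 2 ^ S) (Pool.KS6.ptq F Qt) F.d A E N →
      Cdt F Qt w lam J' D Pc i0 A hJ g n i1 xg z R →
      (∀ ω, A ω → ∀ j, |E (Pool.KS6.ptq F Qt ω) j| ≤ 3 / 2) → ∀ q h g₀ k P' : ℕ,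
      (∀ ω, A ω → Mts F Qt i0 A (q + 1) ω) → (lam = 0 ∨ q + 7 ≤ lam) →
      K * (q + 1 + h + g₀ + 1) ≤ Pc → K * (q + 1 + h + g₀ + 1) ≤ J' →
      K * (q + 1 + h + g₀ + 1) + lam ≤ S → K * (q + 1 + h + g₀ + 1) + (w + lam) ≤ Qt →
      k ≤ lam + h → P' ≤ w + lam + g₀ →
      Big F.p C A (Bad F Qt w i0 q k P') := by
  obtain ⟨K, C, hC, hone⟩ := dic_one hD
  have hcL := cLab_pos
  have hC1 : 1 ≤ 1 + cLab * C := by nlinarith
  refine ⟨K + 1, (1 + cLab * C) * (1 + cLab * C), by nlinarith, ?_⟩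
  intro J F Qt w lam S J' Pc i0 iu iN i1 A E N hJ g n xg V z R hi hQ hfr hCd hE q h g₀ k P' hM
    hl k1 k2 k3 k4 k5 k6
  obtain ⟨n1, n2, n3⟩ := three hi
  obtain ⟨M, hM'⟩ : ∃ M, M = q + 1 + h + g₀ + 1 := ⟨_, rfl⟩
  rw [← hM'] at k1 k2 k3 k4
  have eK : (K + 1) * M = K * M + M := by ring
  rw [eK] at k1 k2 k3 k4
  have step : ∀ ju jN : Fin 3, (∀ j : Fin 3, j = i0 ∨ j = ju ∨ j = jN) → ∀ B : F.Ω → Prop,
      Sub B A → Big F.p (1 + cLab * C) B (fun B' => Bad F Qt w i0 q k P' B' ∨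
        ∃ ζ : ((Fin 3 → ℝ) × (Fin 3 → ℝ)) × F.ζ × ℕ → ℝ, ∀ ω, B' ω →
        |E (Pool.KS6.ptq F Qt ω) ju - ζ (slam F w ω)| ≤ 1 / 2 ^ (lam + h)) := by
    intro ju jN hj B hB
    have h1 := hCd.triv hfr hE hM (by omega) hj (by omega) hQ hB
    refine Big.mono F.isLaw (C := cLab * C) (by linarith) (h1.bind hcL.le fun B₁ hB₁ hL => ?_)
    obtain ⟨y, y1, ⟨φ, y2⟩, ψ, y3⟩ := hL
    have hB₁A : Sub B₁ A := hB₁.trans hB
    have hP : Pdt F Qt w lam (w + lam) S i0 ju jN B₁ y φ ψ E N :=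
      ⟨hj, le_rfl, by omega, hQ, y1, y2, y3, hfr.sub hB₁A⟩
    refine (hone hP (hCd.sub hB₁A) (fun ω hω => hE ω (hB₁A ω hω)) (q + 1) h g₀ (by
      rw [← hM']; omega) (by rw [← hM']; omega) (by rw [← hM']; omega) (by
      rw [← hM']; omega)).imp fun B₂ hB₂ hO => ?_
    exact hO.bad (hB₂.trans hB₁A) hQ hfr hE (by omega) k6
  refine (step iu iN hi A (fun _ h => h)).bind (by linarith) fun B hB hO => ?_
  rcases hO with hO | ⟨ζ, hζ⟩
  · exact Big.mono F.isLaw hC1 (Big.self hO)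
  · refine (step iN iu (fun j => by rcases hi j with h | h | h <;> simp [h]) B hB).imp
      fun B' hB' hO => ?_
    rcases hO with hO | ⟨ζ', hζ'⟩
    · exact hO
    · have p0 : (0 : ℝ) < 1 / 2 ^ k := by positivity
      refine Or.inr (Or.inr (Or.inl ⟨fun u j => if j = i0 then 1 else E u j,
        fun u j => if j = i0 then 0 else N u j,
        fun v j => if j = i0 then 1 else if j = iu then ζ v else ζ' v,
        fun ω hω j => ?_, fun ω hω j => ?_⟩))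
      · simp only
        by_cases hj : j = i0
        · rw [if_pos hj, if_pos hj, hj, one_mul, sub_self, sub_self, abs_zero]
          exact p0.le
        · rw [if_neg hj, if_neg hj]
          exact (hfr ω (hB ω (hB' ω hω)) j).trans (Pool.PB.inv_mono (by omega))
      · simp only
        by_cases hj : j = i0
        · rw [if_pos hj, if_pos hj, sub_self, abs_zero]
          exact p0.le
        · rw [if_neg hj, if_neg hj]
          by_cases hj' : j = iu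
          · rw [if_pos hj', hj']
            exact (hζ ω (hB' ω hω)).trans (Pool.PB.inv_mono k5)
          · rw [if_neg hj']
            have hjN : j = iN := by
              rcases hi j with h1 | h1 | h1
              · exact absurd h1 hj
              · exact absurd h1 hj'
              · exact h1
            rw [hjN]
            exact (hζ' ω hω).trans (Pool.PB.inv_mono k5)

end Pool.S6P
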