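import Pool.Agent.H26.DIC.Fam1
import Pool.Agent.H35.ZCL.Vis
import Pool.Agent.H77.S6.LAB4

/-!
# The samples of a family in the coordinates of a plank
-/

set_option autoImplicit false

namespace Pool.S6P

open MvPolynomial Finset Pool.K2S Pool.STK Pool.KA Pool.KSAT Pool.KS6

variable {J : ℕ}

/-- The base of the plank at the beginning of the window. -/
noncomputable def pbs (F : Fam 3 J) (w : ℕ) (y : Pln) (ω : F.Ω) (i : Fin 3) : ℝ :=
  y.xb i + (F.T1 w ω : ℝ) / 2 ^ w * y.db i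

/-- Linear functions along the line and along the base. -/
theorem lin_plank (F : Fam 3 J) (w : ℕ) (ω : F.Ω) (y : Pln) (f : (Fin 3 → ℝ) → ℝ)
    (hf : ∀ (a b : Fin 3 → ℝ) (r : ℝ), f (fun i => a i + r * b i) = f a + r * f b) :
    f (F.x ω) - f (fun i => y.xb i + F.t ω * y.db i) =
      (f (F.x1 w ω) - f (pbs F w y ω)) +
        ((2 ^ w * F.t ω - F.T1 w ω) / 2 ^ w) * (f (F.d ω) - f y.db) := by
  have e1 : F.x ω = fun j => F.x1 w ω j + ((2 ^ w * F.t ω - F.T1 w ω) / 2 ^ w) * F.d ω j :=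
    funext fun j => Pool.S6K.x1_eq F w ω j
  have e2 : (fun i => y.xb i + F.t ω * y.db i) = fun i => pbs F w y ω i +
      ((2 ^ w * F.t ω - F.T1 w ω) / 2 ^ w) * y.db i := by
    funext i
    unfold pbs
    have : (2 : ℝ) ^ w ≠ 0 := by positivity
    field_simp
    ring
  rw [e1, e2, hf, hf]
  ring

/-- Points, windows and coordinates of the plank. -/
noncomputable def fdp (F : Fam 3 J) (Qt w lam P : ℕ) (i0 iu iN : Fin 3) (y : F.Ω → Pln)
    (φ : (Fin 3 → ℤ) × (ℕ × F.ζ) → Pln) (E N : (Fin 3 → ℤ) × (ℕ × F.ζ) → Fin 3 → ℝ) :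
    Idp F.Ω ((Fin 3 → ℤ) × (ℕ × F.ζ)) (((Fin 3 → ℝ) × (Fin 3 → ℝ)) × F.ζ × ℕ) where
  pt := Pool.KS6.ptq F Qt
  wn := slam F w
  s := fun ω => 2 ^ w * F.t ω - F.T1 w ω
  Y := fun ω => ![2 ^ w * (F.x1 w ω i0 - pbs F w (y ω) ω i0),
    2 ^ (w + lam) * (fu i0 iu (y ω).e (F.x1 w ω) - fu i0 iu (y ω).e (pbs F w (y ω) ω)),
    2 ^ P * (fn i0 iu iN (y ω).c (y ω).s (F.x1 w ω) -
      fn i0 iu iN (y ω).c (y ω).s (pbs F w (y ω) ω))]
  D := fun ω => ![F.d ω i0 - (y ω).db i0,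
    2 ^ lam * (fu i0 iu (y ω).e (F.d ω) - fu i0 iu (y ω).e (y ω).db),
    2 ^ P / 2 ^ w * (fn i0 iu iN (y ω).c (y ω).s (F.d ω) -
      fn i0 iu iN (y ω).c (y ω).s (y ω).db)]
  e := fun u => 2 ^ lam * (E u iu - (φ u).e)
  n := fun u => 2 ^ lam * ((E u iu - (φ u).e) * (φ u).db i0 + N u iu - fu i0 iu (φ u).e (φ u).db)

/-- A plank label with frames. -/
structure Pdt (F : Fam 3 J) (Qt w lam P S : ℕ) (i0 iu iN : Fin 3) (A : F.Ω → Prop)
    (y : F.Ω → Pln) (φ : (Fin 3 → ℤ) × (ℕ × F.ζ) → Pln)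
    (ψ : ((Fin 3 → ℝ) × (Fin 3 → ℝ)) × F.ζ × ℕ → Pln)
    (E N : (Fin 3 → ℤ) × (ℕ × F.ζ) → Fin 3 → ℝ) : Prop where
  hi : ∀ j : Fin 3, j = i0 ∨ j = iu ∨ j = iN
  wl : w + lam ≤ P
  PQ : P ≤ Qt
  QJ : Qt ≤ J
  inc : ∀ ω, A ω → Inc i0 iu iN w lam P 2 (y ω) (F.t ω) (F.x ω) (F.d ω)
  vis : ∀ ω, A ω → y ω = φ (Pool.KS6.ptq F Qt ω)
  con : ∀ ω, A ω → y ω = ψ (slam F w ω)
  fr : OnL i0 (1 / 2 ^ S) (Pool.KS6.ptq F Qt) F.d A E N

section geo

variable {F : Fam 3 J} {Qt w lam P S : ℕ} {i0 iu iN : Fin 3} {A : F.Ω → Prop} {y : F.Ω → Pln}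
  {φ : (Fin 3 → ℤ) × (ℕ × F.ζ) → Pln} {ψ : ((Fin 3 → ℝ) × (Fin 3 → ℝ)) × F.ζ × ℕ → Pln}
  {E N : (Fin 3 → ℤ) × (ℕ × F.ζ) → Fin 3 → ℝ}

theorem Pdt.sub (h : Pdt F Qt w lam P S i0 iu iN A y φ ψ E N) {B : F.Ω → Prop}
    (hB : Sub B A) : Pdt F Qt w lam P S i0 iu iN B y φ ψ E N where
  hi := h.hi
  wl := h.wl
  PQ := h.PQ
  QJ := h.QJ
  inc := fun ω hω => h.inc ω (hB ω hω)
  vis := fun ω hω => h.vis ω (hB ω hω)
  con := fun ω hω => h.con ω (hB ω hω)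
  fr := h.fr.sub hB

theorem fdp_x0 (ω : F.Ω) : (fdp F Qt w lam P i0 iu iN y φ E N).x ω 0 =
    2 ^ w * (F.x ω i0 - ((y ω).xb i0 + F.t ω * (y ω).db i0)) := by
  have h := lin_plank F w ω (y ω) (fun x => x i0) (fun _ _ _ => rfl)
  simp only at h
  rw [h]
  change 2 ^ w * (F.x1 w ω i0 - pbs F w (y ω) ω i0) + (2 ^ w * F.t ω - F.T1 w ω) *
    (F.d ω i0 - (y ω).db i0) = _
  have : (2 : ℝ) ^ w ≠ 0 := by positivity
  field_simp

theorem fdp_x1 (ω : F.Ω) : (fdp F Qt w lam P i0 iu iN y φ E N).x ω 1 =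
    2 ^ (w + lam) * (fu i0 iu (y ω).e (F.x ω) -
      fu i0 iu (y ω).e (fun i => (y ω).xb i + F.t ω * (y ω).db i)) := by
  rw [lin_plank F w ω (y ω) (fu i0 iu (y ω).e) (fu_lin i0 iu _)]
  change 2 ^ (w + lam) * (fu i0 iu (y ω).e (F.x1 w ω) - fu i0 iu (y ω).e (pbs F w (y ω) ω)) +
    (2 ^ w * F.t ω - F.T1 w ω) *
    (2 ^ lam * (fu i0 iu (y ω).e (F.d ω) - fu i0 iu (y ω).e (y ω).db)) = _
  have : (2 : ℝ) ^ w ≠ 0 := by positivity
  rw [pow_add]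
  field_simp

theorem fdp_x2 (ω : F.Ω) : (fdp F Qt w lam P i0 iu iN y φ E N).x ω 2 =
    2 ^ P * (fn i0 iu iN (y ω).c (y ω).s (F.x ω) -
      fn i0 iu iN (y ω).c (y ω).s (fun i => (y ω).xb i + F.t ω * (y ω).db i)) := by
  rw [lin_plank F w ω (y ω) (fn i0 iu iN (y ω).c (y ω).s) (fn_lin i0 iu iN _ _)]
  change 2 ^ P * (fn i0 iu iN (y ω).c (y ω).s (F.x1 w ω) -
      fn i0 iu iN (y ω).c (y ω).s (pbs F w (y ω) ω)) +
    (2 ^ w * F.t ω - F.T1 w ω) *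
    (2 ^ P / 2 ^ w * (fn i0 iu iN (y ω).c (y ω).s (F.d ω) -
      fn i0 iu iN (y ω).c (y ω).s (y ω).db)) = _
  have : (2 : ℝ) ^ w ≠ 0 := by positivity
  field_simp

theorem Pdt.x_le (h : Pdt F Qt w lam P S i0 iu iN A y φ ψ E N) {ω : F.Ω} (hω : A ω)
    (i : Fin 3) : |(fdp F Qt w lam P i0 iu iN y φ E N).x ω i| ≤ 2 := by
  have hI := h.inc ω hω
  have sc : ∀ (q a : ℝ), 0 < q → |a| ≤ 2 / q → |q * a| ≤ 2 := by
    intro q a hq ha
    rw [abs_mul, abs_of_pos hq]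
    rw [le_div_iff₀ hq] at ha
    linarith
  have hi : i = 0 ∨ i = 1 ∨ i = 2 := by revert i; decide
  rcases hi with rfl | rfl | rfl
  · rw [fdp_x0]
    exact sc _ _ (by positivity) hI.pe
  · rw [fdp_x1]
    exact sc _ _ (by positivity) hI.pu
  · rw [fdp_x2]
    exact sc _ _ (by positivity) hI.pn

theorem Pdt.D_le (h : Pdt F Qt w lam P S i0 iu iN A y φ ψ E N) {ω : F.Ω} (hω : A ω)
    (i : Fin 3) : |(fdp F Qt w lam P i0 iu iN y φ E N).D ω i| ≤ 2 := by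
  have hI := h.inc ω hω
  have hi : i = 0 ∨ i = 1 ∨ i = 2 := by revert i; decide
  rcases hi with rfl | rfl | rfl
  · exact hI.ve
  · change |2 ^ lam * (fu i0 iu (y ω).e (F.d ω) - fu i0 iu (y ω).e (y ω).db)| ≤ 2
    have h1 := hI.vu
    have p : (0 : ℝ) < 2 ^ lam := by positivity
    rw [le_div_iff₀ p] at h1
    rw [abs_mul, abs_of_pos p]
    linarith
  · change |2 ^ P / 2 ^ w * (fn i0 iu iN (y ω).c (y ω).s (F.d ω) -
      fn i0 iu iN (y ω).c (y ω).s (y ω).db)| ≤ 2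
    have h1 := hI.vn
    have p : (0 : ℝ) < 2 ^ P / 2 ^ w := by positivity
    rw [abs_mul, abs_of_pos p]
    have h2 := mul_le_mul_of_nonneg_left h1 p.le
    refine h2.trans (le_of_eq ?_)
    field_simp

/-- **Geometry of the coordinates of the plank.** -/
theorem Pdt.geo (h : Pdt F Qt w lam P S i0 iu iN A y φ ψ E N) {r : ℝ}
    (hr : 9 * (2 ^ P / 2 ^ Qt) + 2 ^ lam / 2 ^ S ≤ r) (hr1 : r ≤ 1) :
    (fdp F Qt w lam P i0 iu iN y φ E N).Geo A 4 r := by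
  obtain ⟨n1, n2, n3⟩ := three h.hi
  have hwP : w ≤ P := (Nat.le_add_right _ _).trans h.wl
  have hwJ : w ≤ J := (hwP.trans h.PQ).trans h.QJ
  have p1 : (0 : ℝ) < 2 ^ P / 2 ^ Qt := by positivity
  have p2 : (0 : ℝ) < 2 ^ lam / 2 ^ S := by positivity
  refine ⟨by norm_num, by linarith, hr1, ?_, ?_, ?_, ?_, ?_, ?_, ?_⟩
  · intro ω ω' _ _ hp
    have hT : F.T ω' = F.T ω := (Prod.ext_iff.1 (Prod.ext_iff.1 hp).2).1
    change 2 ^ w * F.t ω' - F.T1 w ω' = 2 ^ w * F.t ω - F.T1 w ω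
    unfold Fam.t Fam.T1
    rw [hT]
  · intro ω ω' hω hω' hp i
    have hX : F.X Qt ω' = F.X Qt ω := (Prod.ext_iff.1 hp).1
    have hT : F.T ω' = F.T ω := (Prod.ext_iff.1 (Prod.ext_iff.1 hp).2).1
    have ht : F.t ω' = F.t ω := by unfold Fam.t; rw [hT]
    have hy : y ω' = y ω := by
      rw [h.vis ω hω, h.vis ω' hω']
      exact congrArg φ hp
    have hx : ∀ j, |F.x ω' j - F.x ω j| ≤ 1 / 2 ^ Qt := fun j => floor_close (congrFun hX j)
    have hI := h.inc ω hω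
    have g1 : (2 : ℝ) ^ w ≤ 2 ^ P := pow_le_pow_right₀ (by norm_num) hwP
    have g2 : (2 : ℝ) ^ (w + lam) ≤ 2 ^ P := pow_le_pow_right₀ (by norm_num) h.wl
    have sc : ∀ (q a k : ℝ), 0 ≤ q → q ≤ 2 ^ P → 0 ≤ k → k ≤ 9 → |a| ≤ k * (1 / 2 ^ Qt) →
        |q * a| ≤ r := by
      intro q a k hq hq' hk hk' ha
      rw [abs_mul, abs_of_nonneg hq]
      have h1 : q * |a| ≤ 2 ^ P * (9 * (1 / 2 ^ Qt)) := by
        refine mul_le_mul hq' (ha.trans ?_) (abs_nonneg _) (by positivity)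
        exact mul_le_mul_of_nonneg_right hk' (by positivity)
      have e : (2 : ℝ) ^ P * (9 * (1 / 2 ^ Qt)) = 9 * (2 ^ P / 2 ^ Qt) := by ring
      linarith
    have hi : i = 0 ∨ i = 1 ∨ i = 2 := by revert i; decide
    rcases hi with rfl | rfl | rfl
    · rw [fdp_x0, fdp_x0, hy, ht, ← mul_sub]
      refine sc _ _ 1 (by positivity) g1 zero_le_one (by norm_num) ?_
      have e : F.x ω' i0 - ((y ω).xb i0 + F.t ω * (y ω).db i0) -
          (F.x ω i0 - ((y ω).xb i0 + F.t ω * (y ω).db i0)) = F.x ω' i0 - F.x ω i0 := by ring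
      rw [e, one_mul]
      exact hx i0
    · rw [fdp_x1, fdp_x1, hy, ht, ← mul_sub]
      refine sc _ _ 3 (by positivity) g2 (by norm_num) (by norm_num) ?_
      have e : fu i0 iu (y ω).e (F.x ω') -
            fu i0 iu (y ω).e (fun i => (y ω).xb i + F.t ω * (y ω).db i) -
          (fu i0 iu (y ω).e (F.x ω) -
            fu i0 iu (y ω).e (fun i => (y ω).xb i + F.t ω * (y ω).db i)) =
          (F.x ω' iu - F.x ω iu) - (y ω).e * (F.x ω' i0 - F.x ω i0) := by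
        unfold fu
        ring
      rw [e]
      refine (abs_sub _ _).trans ?_
      rw [abs_mul]
      have h1 : |(y ω).e| * |F.x ω' i0 - F.x ω i0| ≤ 2 * (1 / 2 ^ Qt) :=
        mul_le_mul hI.e_le (hx i0) (abs_nonneg _) (by norm_num)
      linarith [hx iu]
    · rw [fdp_x2, fdp_x2, hy, ht, ← mul_sub]
      refine sc _ _ 9 (by positivity) le_rfl (by norm_num) le_rfl ?_
      have e : fn i0 iu iN (y ω).c (y ω).s (F.x ω') -
            fn i0 iu iN (y ω).c (y ω).s (fun i => (y ω).xb i + F.t ω * (y ω).db i) -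
          (fn i0 iu iN (y ω).c (y ω).s (F.x ω) -
            fn i0 iu iN (y ω).c (y ω).s (fun i => (y ω).xb i + F.t ω * (y ω).db i)) =
          (y ω).c * (F.x ω' i0 - F.x ω i0) + (y ω).s * (F.x ω' iu - F.x ω iu) +
            (F.x ω' iN - F.x ω iN) := by
        unfold fn
        ring
      rw [e]
      refine (abs_add_three _ _ _).trans ?_
      rw [abs_mul, abs_mul]
      have h1 : |(y ω).c| * |F.x ω' i0 - F.x ω i0| ≤ 4 * (1 / 2 ^ Qt) :=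
        mul_le_mul hI.c_le (hx i0) (abs_nonneg _) (by norm_num)
      have h2 : |(y ω).s| * |F.x ω' iu - F.x ω iu| ≤ 4 * (1 / 2 ^ Qt) :=
        mul_le_mul hI.s_le (hx iu) (abs_nonneg _) (by norm_num)
      linarith [hx iN]
  · intro ω ω' hω hω' hs
    have hy : y ω' = y ω := by
      rw [h.con ω hω, h.con ω' hω']
      exact congrArg ψ hs
    have hs' : slam F w ω' = slam F w ω := hs
    simp only [slam, Prod.mk.injEq, Fam.l] at hs'
    obtain ⟨⟨b1, b2⟩, -, b3⟩ := hs'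
    have b4 : F.x1 w ω' = F.x1 w ω := by
      funext i
      unfold Fam.x1
      rw [b1, b2, b3]
    have b5 : pbs F w (y ω') ω' = pbs F w (y ω) ω := by
      funext i
      unfold pbs
      rw [hy, b3]
    constructor
    · unfold fdp
      simp only
      rw [b4, b5, hy]
    · unfold fdp
      simp only
      rw [b2, hy]
  · intro ω _
    have h1 := T1_real F hwJ ω
    change |2 ^ w * F.t ω - F.T1 w ω| ≤ 1
    rw [abs_of_nonneg h1.1]
    exact h1.2.le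
  · intro ω hω i
    have h1 := h.x_le hω i
    have h2 := h.D_le hω i
    have h3 := T1_real F hwJ ω
    have e : (fdp F Qt w lam P i0 iu iN y φ E N).Y ω i =
        (fdp F Qt w lam P i0 iu iN y φ E N).x ω i -
          (2 ^ w * F.t ω - F.T1 w ω) * (fdp F Qt w lam P i0 iu iN y φ E N).D ω i := by
      unfold Idp.x
      change _ = _ + (2 ^ w * F.t ω - F.T1 w ω) * _ - _
      ring
    rw [e]
    refine (abs_sub _ _).trans ?_
    rw [abs_mul, abs_of_nonneg h3.1]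
    have h4 := mul_le_mul h3.2.le h2 (abs_nonneg _) zero_le_one
    linarith
  · intro ω hω i
    exact (h.D_le hω i).trans (by norm_num)
  · intro ω hω
    have hy := h.vis ω hω
    have h1 := h.fr ω hω iu
    change |2 ^ lam * (fu i0 iu (y ω).e (F.d ω) - fu i0 iu (y ω).e (y ω).db) -
      2 ^ lam * (E (Pool.KS6.ptq F Qt ω) iu - (φ (Pool.KS6.ptq F Qt ω)).e) *
        (F.d ω i0 - (y ω).db i0) -
      2 ^ lam * ((E (Pool.KS6.ptq F Qt ω) iu - (φ (Pool.KS6.ptq F Qt ω)).e) *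
        (φ (Pool.KS6.ptq F Qt ω)).db i0 + N (Pool.KS6.ptq F Qt ω) iu -
        fu i0 iu (φ (Pool.KS6.ptq F Qt ω)).e (φ (Pool.KS6.ptq F Qt ω)).db)| ≤ r
    rw [← hy]
    have e : 2 ^ lam * (fu i0 iu (y ω).e (F.d ω) - fu i0 iu (y ω).e (y ω).db) -
      2 ^ lam * (E (Pool.KS6.ptq F Qt ω) iu - (y ω).e) * (F.d ω i0 - (y ω).db i0) -
      2 ^ lam * ((E (Pool.KS6.ptq F Qt ω) iu - (y ω).e) * (y ω).db i0 +
        N (Pool.KS6.ptq F Qt ω) iu - fu i0 iu (y ω).e (y ω).db) =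
      2 ^ lam * (F.d ω iu - E (Pool.KS6.ptq F Qt ω) iu * F.d ω i0 -
        N (Pool.KS6.ptq F Qt ω) iu) := by
      unfold fu
      ring
    rw [e, abs_mul, abs_of_pos (by positivity)]
    have h2 : (2 : ℝ) ^ lam * |F.d ω iu - E (Pool.KS6.ptq F Qt ω) iu * F.d ω i0 -
        N (Pool.KS6.ptq F Qt ω) iu| ≤ 2 ^ lam * (1 / 2 ^ S) :=
      mul_le_mul_of_nonneg_left h1 (by positivity)
    have e2 : (2 : ℝ) ^ lam * (1 / 2 ^ S) = 2 ^ lam / 2 ^ S := by ring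
    linarith

end geo

end Pool.S6P
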