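import Pool.Agent.H26.DIC.Fam2

/-!
# The implicit label of the boxes in the coordinates of a plank
-/

set_option autoImplicit false

namespace Pool.S6P

open MvPolynomial Finset Pool.K2S Pool.STK Pool.KA Pool.KSAT Pool.KS6

variable {J : ℕ}

/-- The space-time point of a sample: `none` is the passive coordinate, the variable `some i1` is
the time. -/
noncomputable def txq {m K : ℕ} (G : Fam m K) (i1 : Fin m) (ω : G.Ω) (o : Option (Fin m)) : ℝ :=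
  o.elim (G.x ω i1) (fun j => if j = i1 then G.t ω else G.x ω j)

/-- The label of the boxes, as a function of the sample. -/
structure Cdt (F : Fam 3 J) (Qt w lam J' D Pc : ℕ) (i0 : Fin 3) (A : F.Ω → Prop)
    (hJ : w + J' ≤ J) (g n : F.Ω → Fin 3 → ℝ) (i1 : Fin 3) (x : F.Ω → Option (Fin 3) → ℝ)
    {V : Type} (z : F.Ω → V) (R : V → MvPolynomial (Option (Fin 3)) ℝ) : Prop where
  fr : ∀ ω, A ω → ∀ j, |g ω j| ≤ 4 ∧ |F.d ω j - n ω j - g ω j * F.d ω i0| ≤ 6 / 2 ^ lam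
  gvis : ∀ ω ω', A ω → A ω' → Pool.KS6.ptq F Qt ω' = Pool.KS6.ptq F Qt ω →
    g ω' = g ω ∧ n ω' = n ω
  gcon : ∀ ω ω', slam F w ω' = slam F w ω → g ω' = g ω
  bvis : ∀ ω ω', A ω → A ω' → Pool.KS6.ptq F Qt ω' = Pool.KS6.ptq F Qt ω →
    F.bcl w (Box.plkC lam i0) g ω' = F.bcl w (Box.plkC lam i0) g ω ∧
      F.bvl (Box.plkC lam i0) g ω' = F.bvl (Box.plkC lam i0) g ω
  zvis : ∀ ω ω', A ω → A ω' → Pool.KS6.ptq F Qt ω' = Pool.KS6.ptq F Qt ω → z ω' = z ω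
  zcon : ∀ ω ω', A ω → A ω' → slam F w ω' = slam F w ω → z ω' = z ω
  deg : ∀ v, (R v).totalDegree ≤ D
  near : ∀ ω, A ω → ∀ o, |x ω o -
    txq (Fam.zm F w J' hJ (Box.plkC lam i0) g) i1 ω o| ≤ 1 / 2 ^ Pc
  ne : ∀ ω, A ω → eval (x ω) (pderiv none (R (z ω))) ≠ 0
  sm : ∀ ω, A ω → |eval (x ω) (R (z ω))| ≤ 1 / 2 ^ Pc * |eval (x ω) (pderiv none (R (z ω)))|

theorem Cdt.sub {F : Fam 3 J} {Qt w lam J' D Pc : ℕ} {i0 : Fin 3} {A B : F.Ω → Prop}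
    {hJ : w + J' ≤ J} {g n : F.Ω → Fin 3 → ℝ} {i1 : Fin 3} {x : F.Ω → Option (Fin 3) → ℝ}
    {V : Type} {z : F.Ω → V} {R : V → MvPolynomial (Option (Fin 3)) ℝ}
    (h : Cdt F Qt w lam J' D Pc i0 A hJ g n i1 x z R) (hB : Sub B A) :
    Cdt F Qt w lam J' D Pc i0 B hJ g n i1 x z R where
  fr := fun ω hω => h.fr ω (hB ω hω)
  gvis := fun ω ω' h1 h2 => h.gvis ω ω' (hB ω h1) (hB ω' h2)
  gcon := h.gcon
  bvis := fun ω ω' h1 h2 => h.bvis ω ω' (hB ω h1) (hB ω' h2)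
  zvis := fun ω ω' h1 h2 => h.zvis ω ω' (hB ω h1) (hB ω' h2)
  zcon := fun ω ω' h1 h2 => h.zcon ω ω' (hB ω h1) (hB ω' h2)
  deg := h.deg
  near := fun ω hω => h.near ω (hB ω hω)
  ne := fun ω hω => h.ne ω (hB ω hω)
  sm := fun ω hω => h.sm ω (hB ω hω)

/-- Boxes of one line and window. -/
theorem box_con (F : Fam 3 J) {w lam : ℕ} {i0 : Fin 3} {g : F.Ω → Fin 3 → ℝ} {ω ω' : F.Ω}
    (hs : slam F w ω' = slam F w ω) (hg : g ω' = g ω) :
    F.bcl w (Box.plkC lam i0) g ω' = F.bcl w (Box.plkC lam i0) g ω ∧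
      F.bvl (Box.plkC lam i0) g ω' = F.bvl (Box.plkC lam i0) g ω ∧
      (F.box w (Box.plkC lam i0) g).u ω' = (F.box w (Box.plkC lam i0) g).u ω ∧
      (F.box w (Box.plkC lam i0) g).d ω' = (F.box w (Box.plkC lam i0) g).d ω ∧
      F.blab w (Box.plkC lam i0) g ω' = F.blab w (Box.plkC lam i0) g ω := by
  have e1 : F.l ω' = F.l ω := (Prod.ext_iff.1 hs).1
  have e2 : F.Z ω' = F.Z ω := (Prod.ext_iff.1 (Prod.ext_iff.1 hs).2).1
  have e3 : F.T1 w ω' = F.T1 w ω := (Prod.ext_iff.1 (Prod.ext_iff.1 hs).2).2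
  obtain ⟨h1, h2⟩ := Box.blab_det F (C := Box.plkC lam i0) e1 e3 hg e2
  have h3 := (Prod.ext_iff.1 (Prod.ext_iff.1 h1).1).2
  exact ⟨(Prod.ext_iff.1 h3).1, (Prod.ext_iff.1 h3).2, (Prod.ext_iff.1 h2).1,
    (Prod.ext_iff.1 h2).2, h1⟩

/-- The time in the box. -/
theorem box_time (F : Fam 3 J) {w : ℕ} (hw : w ≤ J) (lam : ℕ) (i0 : Fin 3)
    (g : F.Ω → Fin 3 → ℝ) (ω : F.Ω) :
    (F.box w (Box.plkC lam i0) g).t ω = 2 ^ w * F.t ω - F.T1 w ω := by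
  have h := Box.box_t F hw (Box.plkC lam i0) g ω
  have : (2 : ℝ) ^ w ≠ 0 := by positivity
  rw [h]
  field_simp
  ring

/-- The time of the zoom. -/
theorem zm_t (F : Fam 3 J) {w J' : ℕ} (h : w + J' ≤ J) (lam : ℕ) (i0 : Fin 3)
    (g : F.Ω → Fin 3 → ℝ) (ω : F.Ω) :
    |(Fam.zm F w J' h (Box.plkC lam i0) g).t ω - (2 ^ w * F.t ω - F.T1 w ω)| ≤ 1 / 2 ^ J' := by
  rw [← box_time F (by omega : w ≤ J) lam i0 g ω]
  have p0 : (0 : ℝ) < 2 ^ J' := by positivity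
  obtain ⟨t, ht⟩ : ∃ t, t = (F.box w (Box.plkC lam i0) g).t ω := ⟨_, rfl⟩
  obtain ⟨t', ht'⟩ : ∃ t', t' = (Fam.zm F w J' h (Box.plkC lam i0) g).t ω := ⟨_, rfl⟩
  have hzt : (Fam.zm F w J' h (Box.plkC lam i0) g).t ω =
    ((((F.box w (Box.plkC lam i0) g).T ω / 2 ^ (J - w - J') : ℕ) : ℝ)) / 2 ^ J' := rfl
  have h2 := Pool.KSAT.T1_real (F.box w (Box.plkC lam i0) g) (g := J') (by omega) ω
  have h3 : ((F.box w (Box.plkC lam i0) g).T1 J' ω : ℝ) =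
    (((F.box w (Box.plkC lam i0) g).T ω / 2 ^ (J - w - J') : ℕ) : ℝ) := rfl
  rw [← ht, h3] at h2
  have h4 : ((((F.box w (Box.plkC lam i0) g).T ω / 2 ^ (J - w - J') : ℕ) : ℝ)) =
      t' * 2 ^ J' := by
    rw [ht', hzt]
    field_simp
  rw [h4] at h2
  rw [← ht, ← ht', abs_le, neg_le, neg_sub]
  constructor
  · rw [le_div_iff₀ p0]
    linarith [h2.2]
  · have h5 : 0 ≤ 2 ^ J' * (t - t') := by linarith [h2.1]
    have h6 : 0 ≤ t - t' := nonneg_of_mul_nonneg_right h5 p0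
    have h7 : (0 : ℝ) < 1 / 2 ^ J' := by positivity
    linarith

/-- The affine change of variables of a sample. -/
noncomputable def afc (F : Fam 3 J) (w lam P : ℕ) (i0 iu iN : Fin 3) (y : F.Ω → Pln)
    (g : F.Ω → Fin 3 → ℝ) (ω : F.Ω) : Afc where
  m := 2 ^ (w + lam) / 2 ^ P
  ku := 2 ^ lam * ((y ω).e - g ω iu)
  kN := 2 ^ lam * ((y ω).c + (y ω).s * (y ω).e + g ω iN)
  sy := (y ω).s
  a := fun j => pco lam i0 (g ω) (y ω).db j - F.bvl (Box.plkC lam i0) g ω j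
  β := fun j => 2 ^ w * pco lam i0 (g ω) (pbs F w (y ω) ω) j -
    F.bcl w (Box.plkC lam i0) g ω j

theorem pco_lin (lam : ℕ) (i0 : Fin 3) (g : Fin 3 → ℝ) (j : Fin 3) (a b : Fin 3 → ℝ) (r : ℝ) :
    pco lam i0 g (fun i => a i + r * b i) j = pco lam i0 g a j + r * pco lam i0 g b j :=
  Plk.pco_add_mul lam i0 g a b r j

/-- **The coordinates of the box in the coordinates of the plank.** -/
theorem sp_pp (F : Fam 3 J) {Qt w lam P : ℕ} {i0 iu iN : Fin 3}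
    (hi : ∀ j : Fin 3, j = i0 ∨ j = iu ∨ j = iN) (y : F.Ω → Pln)
    (φ : (Fin 3 → ℤ) × (ℕ × F.ζ) → Pln) (E N : (Fin 3 → ℤ) × (ℕ × F.ζ) → Fin 3 → ℝ)
    (g : F.Ω → Fin 3 → ℝ) (ω : F.Ω) (j : Fin 3) :
    eval ((fdp F Qt w lam P i0 iu iN y φ E N).pp ω) ((afc F w lam P i0 iu iN y g ω).sp i0 iu j) =
      2 ^ w * pco lam i0 (g ω) (F.x ω) j - F.bcl w (Box.plkC lam i0) g ω j -
        (2 ^ w * F.t ω - F.T1 w ω) * F.bvl (Box.plkC lam i0) g ω j := by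
  obtain ⟨n1, n2, n3⟩ := three hi
  have p0 : (2 : ℝ) ^ w ≠ 0 := by positivity
  have p1 : (2 : ℝ) ^ P ≠ 0 := by positivity
  obtain ⟨X0, hX0⟩ : ∃ X0, X0 = (fdp F Qt w lam P i0 iu iN y φ E N).x ω 0 := ⟨_, rfl⟩
  obtain ⟨X1, hX1⟩ : ∃ X1, X1 = (fdp F Qt w lam P i0 iu iN y φ E N).x ω 1 := ⟨_, rfl⟩
  obtain ⟨X2, hX2⟩ : ∃ X2, X2 = (fdp F Qt w lam P i0 iu iN y φ E N).x ω 2 := ⟨_, rfl⟩
  obtain ⟨s, hs⟩ : ∃ s, s = 2 ^ w * F.t ω - F.T1 w ω := ⟨_, rfl⟩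
  have hpp : (fdp F Qt w lam P i0 iu iN y φ E N).pp ω = ![X2, s, X0, X1] := by
    rw [hX0, hX1, hX2, hs]
    rfl
  have hl := lin_plank F w ω (y ω) (fun x => pco lam i0 (g ω) x j)
    (fun a b r => pco_lin lam i0 (g ω) j a b r)
  have hb := pco_lin lam i0 (g ω) j (y ω).xb (y ω).db (F.t ω)
  rw [fdp_x0] at hX0
  rw [fdp_x1] at hX1
  rw [fdp_x2] at hX2
  rw [hpp, ← hs]
  obtain ⟨b, hb'⟩ : ∃ b : Fin 3 → ℝ, b = fun i => (y ω).xb i + F.t ω * (y ω).db i := ⟨_, rfl⟩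
  have hb0 : (y ω).xb i0 + F.t ω * (y ω).db i0 = b i0 := by rw [hb']
  rw [← hb'] at hX1 hX2 hl hb
  rw [hb0] at hX0
  rw [← hs] at hl
  -- the position of the base
  have hbase : 2 ^ w * pco lam i0 (g ω) b j =
      2 ^ w * pco lam i0 (g ω) (pbs F w (y ω) ω) j + s * pco lam i0 (g ω) (y ω).db j := by
    have h1 : b = fun i => pbs F w (y ω) ω i + (s / 2 ^ w) * (y ω).db i := by
      rw [hb', hs]
      funext i
      unfold pbs
      field_simp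
      ring
    rw [h1, pco_lin]
    field_simp
  have key : ∀ q : ℝ, q = 2 ^ w * (pco lam i0 (g ω) (F.x ω) j - pco lam i0 (g ω) b j) →
      q + s * (pco lam i0 (g ω) (y ω).db j - F.bvl (Box.plkC lam i0) g ω j) +
        (2 ^ w * pco lam i0 (g ω) (pbs F w (y ω) ω) j - F.bcl w (Box.plkC lam i0) g ω j) =
      2 ^ w * pco lam i0 (g ω) (F.x ω) j - F.bcl w (Box.plkC lam i0) g ω j -
        s * F.bvl (Box.plkC lam i0) g ω j := by
    intro q hq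
    rw [hq, mul_sub, hbase]
    ring
  rcases hi j with rfl | rfl | rfl
  · rw [Afc.eval_sp0, ← key X0 (by rw [hX0]; unfold pco; rw [if_pos rfl, if_pos rfl])]
    change X0 + (pco lam j (g ω) (y ω).db j - F.bvl (Box.plkC lam j) g ω j) * s +
      (2 ^ w * pco lam j (g ω) (pbs F w (y ω) ω) j - F.bcl w (Box.plkC lam j) g ω j) = _
    ring
  · rw [Afc.eval_spu n1, ← key (X1 + 2 ^ lam * ((y ω).e - g ω j) * X0) (by
      rw [hX0, hX1, pow_add]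
      unfold pco fu
      rw [if_neg n1, if_neg n1]
      ring)]
    change X1 + 2 ^ lam * ((y ω).e - g ω j) * X0 +
      (pco lam i0 (g ω) (y ω).db j - F.bvl (Box.plkC lam i0) g ω j) * s +
      (2 ^ w * pco lam i0 (g ω) (pbs F w (y ω) ω) j - F.bcl w (Box.plkC lam i0) g ω j) = _
    ring
  · rw [Afc.eval_spN n2 n3, ← key (2 ^ (w + lam) / 2 ^ P * X2 -
      2 ^ lam * ((y ω).c + (y ω).s * (y ω).e + g ω j) * X0 - (y ω).s * X1) (by
      rw [hX0, hX1, hX2, pow_add]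
      unfold pco fu fn
      rw [if_neg n2, if_neg n2]
      field_simp
      ring)]
    change 2 ^ (w + lam) / 2 ^ P * X2 -
      2 ^ lam * ((y ω).c + (y ω).s * (y ω).e + g ω j) * X0 - (y ω).s * X1 +
      (pco lam i0 (g ω) (y ω).db j - F.bvl (Box.plkC lam i0) g ω j) * s +
      (2 ^ w * pco lam i0 (g ω) (pbs F w (y ω) ω) j - F.bcl w (Box.plkC lam i0) g ω j) = _
    ring

section bounds

variable {F : Fam 3 J} {Qt w lam P S J' D Pc : ℕ} {i0 iu iN i1 : Fin 3} {A : F.Ω → Prop}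
  {y : F.Ω → Pln} {φ : (Fin 3 → ℤ) × (ℕ × F.ζ) → Pln}
  {ψ : ((Fin 3 → ℝ) × (Fin 3 → ℝ)) × F.ζ × ℕ → Pln}
  {E N : (Fin 3 → ℤ) × (ℕ × F.ζ) → Fin 3 → ℝ} {hJ : w + J' ≤ J} {g n : F.Ω → Fin 3 → ℝ}
  {xg : F.Ω → Option (Fin 3) → ℝ} {V : Type} {z : F.Ω → V}
  {R : V → MvPolynomial (Option (Fin 3)) ℝ}

/-- Separated samples at one point. -/
def Mts (F : Fam 3 J) (Qt : ℕ) (i0 : Fin 3) (A : F.Ω → Prop) (q : ℕ) (ω : F.Ω) : Prop :=
  ∃ ω' ω'', A ω' ∧ A ω'' ∧ Pool.KS6.ptq F Qt ω' = Pool.KS6.ptq F Qt ω ∧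
    Pool.KS6.ptq F Qt ω'' = Pool.KS6.ptq F Qt ω ∧ 1 / 2 ^ q ≤ |F.d ω' i0 - F.d ω'' i0|

theorem div_sep {q : ℕ} {a Δ b : ℝ} (hΔ : 1 / 2 ^ q ≤ |Δ|) (h : |a * Δ| ≤ b) :
    |a| ≤ b * 2 ^ q := by
  have p : (0 : ℝ) < 2 ^ q := by positivity
  rw [abs_mul] at h
  have h1 : |a| * (1 / 2 ^ q) ≤ b := (mul_le_mul_of_nonneg_left hΔ (abs_nonneg _)).trans h
  rw [mul_one_div, div_le_iff₀ p] at h1
  exact h1

theorem afc_bd (h : Pdt F Qt w lam P S i0 iu iN A y φ ψ E N)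
    (hc : Cdt F Qt w lam J' D Pc i0 A hJ g n i1 xg z R) {q : ℕ} {ω : F.Ω} (hω : A ω)
    (hm : Mts F Qt i0 A q ω) :
    |(afc F w lam P i0 iu iN y g ω).ku| ≤ 100 * 2 ^ q ∧
      |(afc F w lam P i0 iu iN y g ω).kN| ≤ 100 * 2 ^ q ∧
      |(afc F w lam P i0 iu iN y g ω).sy| ≤ 4 ∧
      (∀ j, |(afc F w lam P i0 iu iN y g ω).a j| ≤ 100 * 2 ^ q) ∧
      0 < (afc F w lam P i0 iu iN y g ω).m ∧ (afc F w lam P i0 iu iN y g ω).m ≤ 1 := by
  obtain ⟨n1, n2, n3⟩ := three h.hi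
  obtain ⟨ω', ω'', hω', hω'', hp', hp'', hΔ⟩ := hm
  have hy' : y ω' = y ω := by rw [h.vis ω hω, h.vis ω' hω', hp']
  have hy'' : y ω'' = y ω := by rw [h.vis ω hω, h.vis ω'' hω'', hp'']
  have hg' := hc.gvis ω ω' hω hω' hp'
  have hg'' := hc.gvis ω ω'' hω hω'' hp''
  have hI' := h.inc ω' hω'
  have hI'' := h.inc ω'' hω''
  have hI := h.inc ω hω
  rw [hy'] at hI'
  rw [hy''] at hI''
  have c' := hc.fr ω' hω'
  have c'' := hc.fr ω'' hω''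
  rw [hg'.1, hg'.2] at c'
  rw [hg''.1, hg''.2] at c''
  obtain ⟨e, he⟩ : ∃ e, e = (y ω).e := ⟨_, rfl⟩
  obtain ⟨c, hcc⟩ : ∃ c, c = (y ω).c := ⟨_, rfl⟩
  obtain ⟨s, hss⟩ : ∃ s, s = (y ω).s := ⟨_, rfl⟩
  obtain ⟨Δ, hΔ'⟩ : ∃ Δ : Fin 3 → ℝ, Δ = fun j => F.d ω' j - F.d ω'' j := ⟨_, rfl⟩
  have hΔ0 : F.d ω' i0 - F.d ω'' i0 = Δ i0 := by rw [hΔ']
  rw [hΔ0] at hΔ
  have p0 : (0 : ℝ) < 2 ^ lam := by positivity
  have hlam : (1 : ℝ) * 2 ^ w / 2 ^ P ≤ 1 / 2 ^ lam := by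
    rw [one_mul, div_le_div_iff₀ (by positivity) p0, one_mul, ← pow_add]
    exact pow_le_pow_right₀ (by norm_num) h.wl
  -- differences
  have hgj : ∀ j, |Δ j - g ω j * Δ i0| ≤ 12 / 2 ^ lam := by
    intro j
    have a1 := (c' j).2
    have a2 := (c'' j).2
    have e1 : Δ j - g ω j * Δ i0 = (F.d ω' j - n ω j - g ω j * F.d ω' i0) -
        (F.d ω'' j - n ω j - g ω j * F.d ω'' i0) := by rw [hΔ']; ring
    rw [e1]
    refine (abs_sub _ _).trans ?_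
    have e2 : (12 : ℝ) / 2 ^ lam = 6 / 2 ^ lam + 6 / 2 ^ lam := by ring
    linarith
  have hfu : |Δ iu - e * Δ i0| ≤ 4 / 2 ^ lam := by
    have a1 := hI'.vu
    have a2 := hI''.vu
    have e1 : Δ iu - e * Δ i0 = (fu i0 iu (y ω).e (F.d ω') - fu i0 iu (y ω).e (y ω).db) -
        (fu i0 iu (y ω).e (F.d ω'') - fu i0 iu (y ω).e (y ω).db) := by
      rw [hΔ', he]
      unfold fu
      ring
    rw [e1]
    refine (abs_sub _ _).trans ?_
    have e2 : (4 : ℝ) / 2 ^ lam = 2 / 2 ^ lam + 2 / 2 ^ lam := by ring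
    linarith
  have hfn : |c * Δ i0 + s * Δ iu + Δ iN| ≤ 4 / 2 ^ lam := by
    have a1 := hI'.vn
    have a2 := hI''.vn
    have e1 : c * Δ i0 + s * Δ iu + Δ iN =
        (fn i0 iu iN (y ω).c (y ω).s (F.d ω') - fn i0 iu iN (y ω).c (y ω).s (y ω).db) -
        (fn i0 iu iN (y ω).c (y ω).s (F.d ω'') - fn i0 iu iN (y ω).c (y ω).s (y ω).db) := by
      rw [hΔ', hcc, hss]
      unfold fn
      ring
    rw [e1]
    refine (abs_sub _ _).trans ?_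
    have e2 : (4 : ℝ) / 2 ^ lam = 4 * (1 / 2 ^ lam) := by ring
    have e3 : (2 : ℝ) * 2 ^ w / 2 ^ P = 2 * (1 * 2 ^ w / 2 ^ P) := by ring
    rw [e2]
    rw [e3] at a1 a2
    linarith
  have hs4 : |s| ≤ 4 := by rw [hss]; exact hI.s_le
  have kud : |(e - g ω iu) * Δ i0| ≤ 16 / 2 ^ lam := by
    have e1 : (e - g ω iu) * Δ i0 = (Δ iu - g ω iu * Δ i0) - (Δ iu - e * Δ i0) := by ring
    rw [e1]
    refine (abs_sub _ _).trans ?_
    have e2 : (16 : ℝ) / 2 ^ lam = 12 / 2 ^ lam + 4 / 2 ^ lam := by ring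
    linarith [hgj iu]
  have kNd : |(c + s * e + g ω iN) * Δ i0| ≤ 32 / 2 ^ lam := by
    have e1 : (c + s * e + g ω iN) * Δ i0 = (c * Δ i0 + s * Δ iu + Δ iN) -
        s * (Δ iu - e * Δ i0) - (Δ iN - g ω iN * Δ i0) := by ring
    rw [e1]
    have h1 : |s * (Δ iu - e * Δ i0)| ≤ 4 * (4 / 2 ^ lam) := by
      rw [abs_mul]
      exact mul_le_mul hs4 hfu (abs_nonneg _) (by norm_num)
    refine (abs_sub _ _).trans ?_
    have h2 := abs_sub (c * Δ i0 + s * Δ iu + Δ iN) (s * (Δ iu - e * Δ i0))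
    have e2 : (32 : ℝ) / 2 ^ lam = 4 / 2 ^ lam + 4 * (4 / 2 ^ lam) + 12 / 2 ^ lam := by ring
    linarith [hgj iN]
  have sc : ∀ (a b : ℝ), |a * Δ i0| ≤ b / 2 ^ lam → |2 ^ lam * a| ≤ b * 2 ^ q := by
    intro a b hab
    refine div_sep hΔ ?_
    rw [mul_assoc, abs_mul, abs_of_pos p0]
    rw [le_div_iff₀ p0] at hab
    linarith
  have hku : |(afc F w lam P i0 iu iN y g ω).ku| ≤ 16 * 2 ^ q := by
    change |2 ^ lam * ((y ω).e - g ω iu)| ≤ _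
    rw [← he]
    exact sc _ _ kud
  have hkN : |(afc F w lam P i0 iu iN y g ω).kN| ≤ 32 * 2 ^ q := by
    change |2 ^ lam * ((y ω).c + (y ω).s * (y ω).e + g ω iN)| ≤ _
    rw [← he, ← hcc, ← hss]
    exact sc _ _ kNd
  have hq1 : (1 : ℝ) ≤ 2 ^ q := one_le_pow₀ (by norm_num)
  refine ⟨hku.trans (by linarith), hkN.trans (by linarith), hI.s_le, fun j => ?_,
    by change (0 : ℝ) < 2 ^ (w + lam) / 2 ^ P; positivity, ?_⟩
  · -- velocities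
    change |pco lam i0 (g ω) (y ω).db j - F.bvl (Box.plkC lam i0) g ω j| ≤ _
    have hb := Box.bvl_eq F w (Box.plkC lam i0) g ω j
    have hm := Box.d_mem F w (Box.plkC lam i0) g ω j
    have hb' : pco lam i0 (g ω) (F.d ω) j = F.bvl (Box.plkC lam i0) g ω j +
      (F.box w (Box.plkC lam i0) g).d ω j := hb
    obtain ⟨v, hv⟩ : ∃ v, v = (F.box w (Box.plkC lam i0) g).d ω j := ⟨_, rfl⟩
    rw [← hv] at hb' hm
    have D0 := h.D_le hω 0
    have D1 := h.D_le hω 1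
    have D2 := h.D_le hω 2
    obtain ⟨x0, hx0⟩ : ∃ x0, x0 = (fdp F Qt w lam P i0 iu iN y φ E N).D ω 0 := ⟨_, rfl⟩
    obtain ⟨x1, hx1⟩ : ∃ x1, x1 = (fdp F Qt w lam P i0 iu iN y φ E N).D ω 1 := ⟨_, rfl⟩
    obtain ⟨x2, hx2⟩ : ∃ x2, x2 = (fdp F Qt w lam P i0 iu iN y φ E N).D ω 2 := ⟨_, rfl⟩
    rw [← hx0] at D0
    rw [← hx1] at D1
    rw [← hx2] at D2
    have hx0' : x0 = F.d ω i0 - (y ω).db i0 := hx0
    have hx1' : x1 = 2 ^ lam * (fu i0 iu (y ω).e (F.d ω) - fu i0 iu (y ω).e (y ω).db) := hx1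
    have hx2' : x2 = 2 ^ P / 2 ^ w * (fn i0 iu iN (y ω).c (y ω).s (F.d ω) -
      fn i0 iu iN (y ω).c (y ω).s (y ω).db) := hx2
    have hdif : |pco lam i0 (g ω) (F.d ω) j - pco lam i0 (g ω) (y ω).db j| ≤ 74 * 2 ^ q := by
      rcases h.hi j with rfl | rfl | rfl
      · have e1 : pco lam j (g ω) (F.d ω) j - pco lam j (g ω) (y ω).db j = x0 := by
          rw [hx0']
          unfold pco
          rw [if_pos rfl, if_pos rfl]
        rw [e1]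
        linarith
      · have e1 : pco lam i0 (g ω) (F.d ω) j - pco lam i0 (g ω) (y ω).db j =
            x1 + (afc F w lam P i0 j iN y g ω).ku * x0 := by
          rw [hx0', hx1']
          change _ = 2 ^ lam * (fu i0 j (y ω).e (F.d ω) - fu i0 j (y ω).e (y ω).db) +
            2 ^ lam * ((y ω).e - g ω j) * (F.d ω i0 - (y ω).db i0)
          unfold pco fu
          rw [if_neg n1, if_neg n1]
          ring
        rw [e1]
        have h1 : |(afc F w lam P i0 j iN y g ω).ku * x0| ≤ 16 * 2 ^ q * 2 := by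
          rw [abs_mul]
          exact mul_le_mul hku D0 (abs_nonneg _) (by positivity)
        refine (abs_add_le _ _).trans ?_
        linarith
      · have hm' : (0 : ℝ) ≤ 2 ^ (w + lam) / 2 ^ P ∧ (2 : ℝ) ^ (w + lam) / 2 ^ P ≤ 1 := by
          refine ⟨by positivity, ?_⟩
          rw [div_le_one (by positivity)]
          exact pow_le_pow_right₀ (by norm_num) h.wl
        have e1 : pco lam i0 (g ω) (F.d ω) j - pco lam i0 (g ω) (y ω).db j =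
            2 ^ (w + lam) / 2 ^ P * x2 - (afc F w lam P i0 iu j y g ω).kN * x0 - s * x1 := by
          rw [hx0', hx1', hx2', hss]
          change _ = 2 ^ (w + lam) / 2 ^ P * (2 ^ P / 2 ^ w * (fn i0 iu j (y ω).c (y ω).s (F.d ω) -
            fn i0 iu j (y ω).c (y ω).s (y ω).db)) -
            2 ^ lam * ((y ω).c + (y ω).s * (y ω).e + g ω j) * (F.d ω i0 - (y ω).db i0) -
            (y ω).s * (2 ^ lam * (fu i0 iu (y ω).e (F.d ω) - fu i0 iu (y ω).e (y ω).db))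
          unfold pco fu fn
          rw [if_neg n2, if_neg n2, pow_add]
          have q1 : (2 : ℝ) ^ w ≠ 0 := by positivity
          have q2 : (2 : ℝ) ^ P ≠ 0 := by positivity
          field_simp
          ring
        rw [e1]
        have h1 : |(afc F w lam P i0 iu j y g ω).kN * x0| ≤ 32 * 2 ^ q * 2 := by
          rw [abs_mul]
          exact mul_le_mul hkN D0 (abs_nonneg _) (by positivity)
        have h2 : |s * x1| ≤ 4 * 2 := by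
          rw [abs_mul]
          exact mul_le_mul hs4 D1 (abs_nonneg _) (by norm_num)
        have h3 : |2 ^ (w + lam) / 2 ^ P * x2| ≤ 1 * 2 := by
          rw [abs_mul, abs_of_nonneg hm'.1]
          exact mul_le_mul hm'.2 D2 (abs_nonneg _) zero_le_one
        refine (abs_sub _ _).trans ?_
        have h4 := abs_sub (2 ^ (w + lam) / 2 ^ P * x2) ((afc F w lam P i0 iu j y g ω).kN * x0)
        linarith
    have e1 : pco lam i0 (g ω) (y ω).db j - F.bvl (Box.plkC lam i0) g ω j =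
        v - (pco lam i0 (g ω) (F.d ω) j - pco lam i0 (g ω) (y ω).db j) := by
      rw [hb']
      ring
    rw [e1]
    refine (abs_sub _ _).trans ?_
    rw [abs_of_nonneg hm.1]
    linarith [hm.2]
  · change (2 : ℝ) ^ (w + lam) / 2 ^ P ≤ 1
    rw [div_le_one (by positivity)]
    exact pow_le_pow_right₀ (by norm_num) h.wl

end bounds

end Pool.S6P
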