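import Pool.Agent.H26.DIC.Fam3

/-!
# The implicit label of the boxes is an implicit label in the coordinates of the plank
-/

set_option autoImplicit false

namespace Pool.S6P

open MvPolynomial Finset Pool.K2S Pool.STK Pool.KA Pool.KSAT Pool.KS6

variable {J : ℕ} {F : Fam 3 J} {Qt w lam P S J' D Pc : ℕ} {i0 iu iN i1 : Fin 3}
  {A : F.Ω → Prop} {y : F.Ω → Pln} {φ : (Fin 3 → ℤ) × (ℕ × F.ζ) → Pln}
  {ψ : ((Fin 3 → ℝ) × (Fin 3 → ℝ)) × F.ζ × ℕ → Pln}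
  {E N : (Fin 3 → ℤ) × (ℕ × F.ζ) → Fin 3 → ℝ} {hJ : w + J' ≤ J} {g n : F.Ω → Fin 3 → ℝ}
  {xg : F.Ω → Option (Fin 3) → ℝ} {V : Type} {z : F.Ω → V}
  {R : V → MvPolynomial (Option (Fin 3)) ℝ}

/-- The polynomial of a sample. -/
noncomputable def lbp (F : Fam 3 J) (w lam P D : ℕ) (i0 iu iN i1 : Fin 3) (y : F.Ω → Pln)
    (g : F.Ω → Fin 3 → ℝ) {V : Type} (z : F.Ω → V)
    (R : V → MvPolynomial (Option (Fin 3)) ℝ) (ω : F.Ω) : P4 :=
  nz D (aeval ((afc F w lam P i0 iu iN y g ω).sg i0 iu i1) (R (z ω)))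

theorem lbp_congr {ω ω' : F.Ω} (hy : y ω' = y ω) (hg : g ω' = g ω)
    (hT : F.T1 w ω' = F.T1 w ω)
    (hc : F.bcl w (Box.plkC lam i0) g ω' = F.bcl w (Box.plkC lam i0) g ω)
    (hv : F.bvl (Box.plkC lam i0) g ω' = F.bvl (Box.plkC lam i0) g ω) (hz : z ω' = z ω) :
    lbp F w lam P D i0 iu iN i1 y g z R ω' = lbp F w lam P D i0 iu iN i1 y g z R ω := by
  have hb : pbs F w (y ω') ω' = pbs F w (y ω) ω := by
    funext i
    unfold pbs
    rw [hy, hT]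
  have ha : afc F w lam P i0 iu iN y g ω' = afc F w lam P i0 iu iN y g ω := by
    unfold afc
    rw [hb, hy, hg, hc, hv]
  unfold lbp
  rw [ha, hz]

theorem txq_time {m K : ℕ} (G : Fam m K) (i1 : Fin m) (ω : G.Ω) :
    txq G i1 ω (some i1) = G.t ω := by
  unfold txq
  simp

theorem txq_space {m K : ℕ} (G : Fam m K) (i1 j : Fin m) (ω : G.Ω) :
    txq G i1 ω (if j = i1 then none else some j) = G.x ω j := by
  unfold txq
  by_cases h : j = i1
  · subst h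
    rw [if_pos rfl]
    rfl
  · rw [if_neg h]
    simp [h]

/-- **The label in the coordinates of the plank.** -/
theorem Pdt.imp (h : Pdt F Qt w lam P S i0 iu iN A y φ ψ E N)
    (hc : Cdt F Qt w lam J' D Pc i0 A hJ g n i1 xg z R) (hD : 1 ≤ D)
    {r : ℝ} (hG : (fdp F Qt w lam P i0 iu iN y φ E N).Geo A 4 r) {A₁ : F.Ω → Prop}
    (hA : Sub A₁ A) {q : ℕ} (hm : ∀ ω, A₁ ω → Mts F Qt i0 A q ω) {η ε : ℝ}
    (hη : 40 * (100 * 2 ^ q) ^ 2 * (1 / 2 ^ Pc + 1 / 2 ^ J') * (2 ^ P / 2 ^ (w + lam)) ≤ η)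
    (hη1 : η ≤ 1)
    (hε : 1 / 2 ^ Pc * (10 * (100 * 2 ^ q) * (2 ^ P / 2 ^ (w + lam)) * (cV D * 9 ^ (2 * D))) +
      D * (cV D * 9 ^ (2 * D)) * η ≤ ε) :
    (fdp F Qt w lam P i0 iu iN y φ E N).Imp A₁ (lbp F w lam P D i0 iu iN i1 y g z R) D ε := by
  have hcV := cV_pos hD
  have hη0 : 0 ≤ η := le_trans (by positivity) hη
  have hwJ : w ≤ J := by omega
  have main : ∀ ω, A₁ ω → (aeval ((afc F w lam P i0 iu iN y g ω).sg i0 iu i1)
      (R (z ω))).totalDegree ≤ D ∧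
      0 < nP D (aeval ((afc F w lam P i0 iu iN y g ω).sg i0 iu i1) (R (z ω))) ∧
      |eval ((fdp F Qt w lam P i0 iu iN y φ E N).pp ω)
        (lbp F w lam P D i0 iu iN i1 y g z R ω)| ≤ ε := by
    intro ω hω
    have hωA := hA ω hω
    obtain ⟨b1, b2, b3, b4, b5, b6⟩ := afc_bd h hc hωA (hm ω hω)
    obtain ⟨f, hf⟩ : ∃ f, f = afc F w lam P i0 iu iN y g ω := ⟨_, rfl⟩
    have hfm : f.m = 2 ^ (w + lam) / 2 ^ P := by rw [hf]; rfl
    rw [← hf] at b1 b2 b3 b4 b5 b6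
    have hL : (1 : ℝ) ≤ 100 * 2 ^ q := by
      have : (1 : ℝ) ≤ 2 ^ q := one_le_pow₀ (by norm_num)
      linarith
    obtain ⟨L, hLe⟩ : ∃ L : ℝ, L = 100 * 2 ^ q := ⟨_, rfl⟩
    rw [← hLe] at b1 b2 b4 hL hη hε
    obtain ⟨pp, hpp⟩ : ∃ pp, pp = (fdp F Qt w lam P i0 iu iN y φ E N).pp ω := ⟨_, rfl⟩
    obtain ⟨x, hx⟩ : ∃ x, x = xg ω := ⟨_, rfl⟩
    have p1 : (0 : ℝ) < 1 / 2 ^ Pc := by positivity
    have p2 : (0 : ℝ) < 1 / 2 ^ J' := by positivity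
    have ht : |x (some i1) - pp 1| ≤ 1 / 2 ^ Pc + 1 / 2 ^ J' := by
      have a1 := hc.near ω hωA (some i1)
      rw [txq_time, ← hx] at a1
      have a2 := zm_t F hJ lam i0 g ω
      have a3 : pp 1 = 2 ^ w * F.t ω - F.T1 w ω := by rw [hpp]; rfl
      rw [a3]
      exact (abs_sub_le _ _ _).trans (add_le_add a1 a2)
    have hxj : ∀ j, |x (if j = i1 then none else some j) - eval pp (f.sp i0 iu j)| ≤
        3 * (1 / 2 ^ Pc + 1 / 2 ^ J') := by
      intro j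
      have a1 := hc.near ω hωA (if j = i1 then none else some j)
      rw [txq_space, ← hx] at a1
      rw [hpp, hf, sp_pp F h.hi]
      have h1 := Pool.ZCL.zm_x F hJ (Box.plkC lam i0) g ω j
      rw [box_time F hwJ] at h1
      have e : (3 : ℝ) / 2 ^ J' = 3 * (1 / 2 ^ J') := by ring
      rw [e] at h1
      refine (abs_sub_le _ _ _).trans ((add_le_add a1 h1).trans ?_)
      linarith
    obtain ⟨b, hb, hbb⟩ := Afc.invert (f := f) h.hi i1 hL b5 b6 b1 b2 b3 b4 ht hxj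
    have hυ : 40 * L ^ 2 * (1 / 2 ^ Pc + 1 / 2 ^ J') / f.m =
        40 * L ^ 2 * (1 / 2 ^ Pc + 1 / 2 ^ J') * (2 ^ P / 2 ^ (w + lam)) := by
      rw [hfm]
      obtain ⟨u, hu⟩ : ∃ u : ℝ, u = 1 / 2 ^ Pc + 1 / 2 ^ J' := ⟨_, rfl⟩
      rw [← hu]
      field_simp
    have hbb' : ∀ i, |b i - pp i| ≤ η := fun i => by
      have := hbb i
      rw [hυ] at this
      exact this.trans hη
    have hppb : ∀ i, |pp i| ≤ 8 := fun i => by
      have := hG.pp_le hωA i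
      rw [← hpp] at this
      linarith
    have hb9 : ∀ i, |b i| ≤ 9 := fun i => by
      have e : b i = (b i - pp i) + pp i := by ring
      rw [e]
      refine (abs_add_le _ _).trans ?_
      linarith [hbb' i, hppb i]
    have hne := hc.ne ω hωA
    have hsm := hc.sm ω hωA
    rw [← hx] at hne hsm
    obtain ⟨m1, m2, m3⟩ := Afc.main (f := f) h.hi i1 hD hL b5 b6 b1 b2 b3 (M := 9) (by norm_num)
      hb9 (hc.deg (z ω)) hb (by positivity : (0 : ℝ) ≤ 1 / 2 ^ Pc) hne hsm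
    have hbd : Bd (nz D (aeval (f.sg i0 iu i1) (R (z ω)))) D 1 := by
      have := Bd_nP (td_nz m1)
      rwa [nP_nz m2] at this
    have hlip := hbd.lip hD (M := 9) (δ := η) (by norm_num) hη1 (b := b) (b' := pp) hb9
      (fun i => by rw [abs_sub_comm]; exact hbb' i)
    rw [mul_one] at hlip
    rw [← hf]
    refine ⟨m1, m2, ?_⟩
    have e1 : lbp F w lam P D i0 iu iN i1 y g z R ω =
        nz D (aeval (f.sg i0 iu i1) (R (z ω))) := by
      unfold lbp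
      rw [← hf]
    rw [e1]
    obtain ⟨T, hT⟩ : ∃ T, T = nz D (aeval (f.sg i0 iu i1) (R (z ω))) := ⟨_, rfl⟩
    rw [← hT] at m3 hlip ⊢
    rw [← hpp]
    have e2 : 10 * L / f.m = 10 * L * (2 ^ P / 2 ^ (w + lam)) := by
      rw [hfm]
      field_simp
    rw [e2] at m3
    have e3 : eval pp T = (eval pp T - eval b T) + eval b T := by ring
    rw [e3]
    refine (abs_add_le _ _).trans ?_
    linarith
  refine ⟨hD, ?_, ?_, ?_, ?_, ?_, ?_⟩
  · refine le_trans ?_ hε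
    positivity
  · intro ω ω' hω hω' hp
    have hp' : Pool.KS6.ptq F Qt ω' = Pool.KS6.ptq F Qt ω := hp
    have hT : F.T ω' = F.T ω := (Prod.ext_iff.1 (Prod.ext_iff.1 hp').2).1
    have h1 := hc.gvis ω ω' (hA ω hω) (hA ω' hω') hp'
    have h2 := hc.bvis ω ω' (hA ω hω) (hA ω' hω') hp'
    refine lbp_congr ?_ h1.1 ?_ h2.1 h2.2 (hc.zvis ω ω' (hA ω hω) (hA ω' hω') hp')
    · rw [h.vis ω (hA ω hω), h.vis ω' (hA ω' hω'), hp']
    · unfold Fam.T1
      rw [hT]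
  · intro ω ω' hω hω' hs
    have hs' : slam F w ω' = slam F w ω := hs
    have hg := hc.gcon ω ω' hs'
    obtain ⟨b1, b2, -, -, -⟩ := box_con F (lam := lam) (i0 := i0) hs' hg
    refine lbp_congr ?_ hg (Prod.ext_iff.1 (Prod.ext_iff.1 hs').2).2 b1 b2
      (hc.zcon ω ω' (hA ω hω) (hA ω' hω') hs')
    rw [h.con ω (hA ω hω), h.con ω' (hA ω' hω'), hs']
  · intro ω hω
    exact td_nz (main ω hω).1
  · intro ω hω
    exact nP_nz (main ω hω).2.1
  · intro ω hω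
    exact (main ω hω).2.2

end Pool.S6P
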