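import Pool.Agent.H26.DIC.Fam4

/-!
# New planks
-/

set_option autoImplicit false

namespace Pool.S6P

open MvPolynomial Finset Pool.K2S Pool.STK Pool.KA Pool.KSAT Pool.KS6

/-- Exact functions. -/
theorem exists_fn {Ω U T : Type} [Inhabited T] (B : Ω → Prop) (u : Ω → U) (f : Ω → T)
    (h : ∀ ω ω', B ω → B ω' → u ω' = u ω → f ω' = f ω) :
    ∃ φ : U → T, ∀ ω, B ω → f ω = φ (u ω) := by
  classical
  refine ⟨fun x => if hx : ∃ ω, B ω ∧ u ω = x then f hx.choose else default, fun ω hω => ?_⟩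
  have hx : ∃ ω', B ω' ∧ u ω' = u ω := ⟨ω, hω, rfl⟩
  simp only [dif_pos hx]
  exact (h ω hx.choose hω hx.choose_spec.1 hx.choose_spec.2).symm

/-- The constant of the production of labels. -/
noncomputable def cLab : ℝ :=
  2 * Real.exp (8 * (3 * Real.log 15 + 6 * Real.log (16 * 20 + 21)))

theorem cLab_pos : 0 < cLab := by unfold cLab; positivity

variable {J : ℕ} {F : Fam 3 J} {Qt w lam P S : ℕ} {i0 iu iN : Fin 3}

theorem lab_false {ju jN : Fin 3} {P' : ℕ} {C : ℝ} :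
    LABq F Qt i0 ju jN w lam P' C (fun _ => False) :=
  ⟨fun _ => default, fun _ h => h.elim, ⟨fun _ => default, fun _ h => h.elim⟩,
    ⟨fun _ => default, fun _ h => h.elim⟩⟩

/-- **A plank with a given normal form.** -/
theorem mk_plank {B : F.Ω → Prop} {ju jN : Fin 3} (hi : ∀ j : Fin 3, j = i0 ∨ j = ju ∨ j = jN)
    {P' : ℕ} (hw : w ≤ P') (hP : P' ≤ Qt) (hQ : Qt ≤ J) (c s ν : F.Ω → ℝ)
    (h1 : ∀ ω ω', B ω → B ω' → Pool.KS6.ptq F Qt ω' = Pool.KS6.ptq F Qt ω →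
      c ω' = c ω ∧ s ω' = s ω ∧ ν ω' = ν ω)
    (h2 : ∀ ω ω', B ω → B ω' → slam F w ω' = slam F w ω → c ω' = c ω ∧ s ω' = s ω)
    (hc : ∀ ω, B ω → |c ω| ≤ 4) (hs : ∀ ω, B ω → |s ω| ≤ 4)
    (hν : ∀ ω, B ω → |fn i0 ju jN (c ω) (s ω) (F.d ω) - ν ω| ≤ 20 * 2 ^ w / 2 ^ P') :
    Big F.p cLab B (LABq F Qt i0 ju jN w 0 P' 2) := by
  classical
  obtain ⟨n1, n2, n3⟩ := three hi
  rcases (Pe_nonneg F.isLaw B).eq_or_lt with h0 | h0
  · refine ⟨fun _ => False, fun _ h => h.elim, ?_, lab_false⟩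
    rw [← h0]
    exact mul_nonneg cLab_pos.le (Pe_nonneg F.isLaw _)
  obtain ⟨yf, hyf⟩ : ∃ yf : F.Ω → Pln, yf = fun ω =>
      { e := 0, c := c ω, s := s ω
        xb := fun i => (F.X Qt ω i : ℝ) / 2 ^ Qt - F.t ω *
          Pool.KS6.bp i0 ju 0 (c ω) (s ω) 0 0 (ν ω) i
        db := Pool.KS6.bp i0 ju 0 (c ω) (s ω) 0 0 (ν ω) } := ⟨_, rfl⟩
  obtain ⟨zf, hzf⟩ : ∃ zf : F.Ω → Pln, zf = fun ω =>
      { e := 0, c := c ω, s := s ω, xb := fun _ => 0, db := fun _ => 0 } := ⟨_, rfl⟩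
  obtain ⟨φ, hφ⟩ := exists_fn B (Pool.KS6.ptq F Qt) yf (fun ω ω' hω hω' hp => by
    obtain ⟨a1, a2, a3⟩ := h1 ω ω' hω hω' hp
    have hX : F.X Qt ω' = F.X Qt ω := (Prod.ext_iff.1 hp).1
    have hT : F.T ω' = F.T ω := (Prod.ext_iff.1 (Prod.ext_iff.1 hp).2).1
    rw [hyf]
    simp only
    unfold Fam.t
    rw [a1, a2, a3, hX, hT])
  obtain ⟨ζ, hζ⟩ := exists_fn B (slam F w) zf (fun ω ω' hω hω' hp => by
    obtain ⟨a1, a2⟩ := h2 ω ω' hω hω' hp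
    rw [hzf]
    simp only
    rw [a1, a2])
  have hI : ∀ ω, B ω → Inc i0 ju jN w 0 P' 20 (yf ω) (F.t ω) (F.x ω) (F.d ω) := by
    intro ω hω
    have ye : (yf ω).e = 0 := by rw [hyf]
    have yc : (yf ω).c = c ω := by rw [hyf]
    have ys : (yf ω).s = s ω := by rw [hyf]
    have yd : (yf ω).db = Pool.KS6.bp i0 ju 0 (c ω) (s ω) 0 0 (ν ω) := by rw [hyf]
    have hx : ∀ i, |F.x ω i - (F.X Qt ω i : ℝ) / 2 ^ Qt| ≤ 1 / 2 ^ Qt := fun i =>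
      floor_near Qt (F.x ω i)
    have hmv : ∀ i, (yf ω).xb i + F.t ω * (yf ω).db i = (F.X Qt ω i : ℝ) / 2 ^ Qt := by
      intro i
      rw [hyf]
      change (_ : ℝ) - F.t ω * _ + F.t ω * _ = _
      ring
    have hmv' : (fun i => (yf ω).xb i + F.t ω * (yf ω).db i) =
        fun i => (F.X Qt ω i : ℝ) / 2 ^ Qt := funext hmv
    have i1 : (1 : ℝ) / 2 ^ Qt ≤ 1 / 2 ^ P' := Pool.PB.inv_mono hP
    have i2 : (1 : ℝ) / 2 ^ Qt ≤ 1 / 2 ^ w := Pool.PB.inv_mono (hw.trans hP)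
    refine ⟨?_, ?_, ?_, ?_, ?_, ?_, ?_, ?_, ?_⟩
    · rw [ye, abs_zero]; norm_num
    · rw [yc]; exact hc ω hω
    · rw [ys]; exact hs ω hω
    · rw [hmv]
      refine (hx i0).trans (i2.trans ?_)
      exact div_le_div_of_nonneg_right (by norm_num) (by positivity)
    · rw [hmv', ye]
      have e1 : fu i0 ju 0 (F.x ω) - fu i0 ju 0 (fun i => (F.X Qt ω i : ℝ) / 2 ^ Qt) =
          F.x ω ju - (F.X Qt ω ju : ℝ) / 2 ^ Qt := by
        unfold fu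
        ring
      rw [e1, add_zero]
      refine (hx ju).trans (i2.trans ?_)
      exact div_le_div_of_nonneg_right (by norm_num) (by positivity)
    · rw [hmv', yc, ys]
      have e1 : fn i0 ju jN (c ω) (s ω) (F.x ω) -
          fn i0 ju jN (c ω) (s ω) (fun i => (F.X Qt ω i : ℝ) / 2 ^ Qt) =
          c ω * (F.x ω i0 - (F.X Qt ω i0 : ℝ) / 2 ^ Qt) +
            s ω * (F.x ω ju - (F.X Qt ω ju : ℝ) / 2 ^ Qt) +
            (F.x ω jN - (F.X Qt ω jN : ℝ) / 2 ^ Qt) := by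
        unfold fn
        ring
      rw [e1]
      have e2 : |c ω * (F.x ω i0 - (F.X Qt ω i0 : ℝ) / 2 ^ Qt)| ≤ 4 * (1 / 2 ^ Qt) := by
        rw [abs_mul]
        exact mul_le_mul (hc ω hω) (hx i0) (abs_nonneg _) (by norm_num)
      have e3 : |s ω * (F.x ω ju - (F.X Qt ω ju : ℝ) / 2 ^ Qt)| ≤ 4 * (1 / 2 ^ Qt) := by
        rw [abs_mul]
        exact mul_le_mul (hs ω hω) (hx ju) (abs_nonneg _) (by norm_num)
      refine (abs_add_three _ _ _).trans ?_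
      have e4 : (20 : ℝ) / 2 ^ P' = 20 * (1 / 2 ^ P') := by ring
      rw [e4]
      have := hx jN
      have : (0 : ℝ) < 1 / 2 ^ P' := by positivity
      linarith
    · rw [yd, bp_i0, sub_zero]
      exact (F.dir ω i0).trans (by norm_num)
    · rw [ye, yd, bp_fu n1, sub_zero]
      unfold fu
      rw [zero_mul, sub_zero, pow_zero, div_one]
      exact (F.dir ω ju).trans (by norm_num)
    · rw [yc, ys, yd, bp_fn n1 n2 n3]
      exact hν ω hω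
  obtain ⟨B', b1, b2, b3⟩ := lab_prod F hQ hi (C := 20) (v := w) (l2 := 0) (sg := P')
    (ag := P') (P2 := P') (by norm_num) h0 hI hφ (ζ := ζ) (fun ω hω => by
      rw [← hζ ω hω]
      have ye : (yf ω).e = 0 := by rw [hyf]
      have yc : (yf ω).c = c ω := by rw [hyf]
      have ys : (yf ω).s = s ω := by rw [hyf]
      have ze : (zf ω).e = 0 := by rw [hzf]
      have zc : (zf ω).c = c ω := by rw [hzf]
      have zs : (zf ω).s = s ω := by rw [hzf]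
      rw [ye, yc, ys, ze, zc, zs]
      unfold Ae
      rw [sub_self, sub_self, sub_self, zero_mul, add_zero, abs_zero]
      refine ⟨by positivity, by positivity, by positivity⟩) le_rfl (by omega) (by omega)
      (by omega) le_rfl hP
  refine ⟨B', b1, ?_, b3⟩
  unfold cLab
  have e1 : Real.exp (8 * (3 * Real.log 15 + 6 * Real.log (16 * 20 + 21))) *
      Real.exp (-(8 * (3 * Real.log 15 + 6 * Real.log (16 * 20 + 21)))) = 1 := by
    rw [← Real.exp_add, add_neg_cancel, Real.exp_zero]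
  obtain ⟨X, hX⟩ : ∃ X, X = Real.exp (8 * (3 * Real.log 15 + 6 * Real.log (16 * 20 + 21))) :=
    ⟨_, rfl⟩
  obtain ⟨Y, hY⟩ : ∃ Y, Y = Real.exp (-(8 * (3 * Real.log 15 + 6 * Real.log (16 * 20 + 21)))) :=
    ⟨_, rfl⟩
  rw [← hX, ← hY] at e1
  rw [← hY] at b2
  rw [← hX]
  have hX0 : 0 < X := by rw [hX]; positivity
  have h3 := mul_le_mul_of_nonneg_left b2 hX0.le
  have e2 : X * (Y / 2 * Pe F.p B) = X * Y * Pe F.p B / 2 := by ring
  rw [e2, e1] at h3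
  linarith only [h3]

section gain

variable {A A₁ B : F.Ω → Prop} {y : F.Ω → Pln} {φ : (Fin 3 → ℤ) × (ℕ × F.ζ) → Pln}
  {ψ : ((Fin 3 → ℝ) × (Fin 3 → ℝ)) × F.ζ × ℕ → Pln}
  {E N : (Fin 3 → ℤ) × (ℕ × F.ζ) → Fin 3 → ℝ}

theorem near_half {c s a b : ℝ} (ha : |a| ≤ 3 / 2) (hb : |b| ≤ 3 / 2) (hs : |s| ≤ 1)
    (h : |c + s * a + b| ≤ 1 / 2) : |c| ≤ 4 := by
  have h1 : |s * a| ≤ 1 * (3 / 2) := by
    rw [abs_mul]
    exact mul_le_mul hs ha (abs_nonneg _) zero_le_one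
  have e : c = (c + s * a + b) - s * a - b := by ring
  rw [e]
  refine (abs_sub _ _).trans ?_
  have := abs_sub (c + s * a + b) (s * a)
  linarith only [hb, h, h1, this]

/-- **The gain.** -/
theorem Pdt.gain (h : Pdt F Qt w lam P S i0 iu iN A y φ ψ E N) (hA : Sub B A) {ρ δ Λ : ℝ}
    (hPl : (fdp F Qt w lam P i0 iu iN y φ E N).Pl A₁ 4 ρ δ Λ B) (hδ0 : 0 < δ) {g q : ℕ}
    (hg : P + g ≤ Qt) (hδ : δ ≤ 1 / 2 ^ g) (hq : 18 * δ * 2 ^ q ≤ 1 / 4)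
    (hS : (4 : ℝ) / 2 ^ S * 2 ^ q ≤ 1 / 4) (hE : ∀ ω, A ω → ∀ j, |E (Pool.KS6.ptq F Qt ω) j| ≤ 3 / 2)
    {B₁ : F.Ω → Prop} (hB : Sub B₁ B) (hm : ∀ ω, B₁ ω → Mts F Qt i0 B q ω) :
    Big F.p (cLab + cLab) B₁ (fun B' => ∃ ju jN : Fin 3, (∀ j : Fin 3, j = i0 ∨ j = ju ∨ j = jN) ∧
      LABq F Qt i0 ju jN w 0 (P + g) 2 B') := by
  classical
  obtain ⟨f, f1, f2, f3⟩ := hPl
  obtain ⟨n1, n2, n3⟩ := three h.hi
  have hwP : w ≤ P := (Nat.le_add_right _ _).trans h.wl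
  obtain ⟨W, hW⟩ : ∃ W : ℝ, W = 2 ^ w / 2 ^ P := ⟨_, rfl⟩
  have hW0 : 0 < W := by rw [hW]; positivity
  have hW1 : W ≤ 1 := by
    rw [hW, div_le_one (by positivity)]
    exact pow_le_pow_right₀ (by norm_num) hwP
  obtain ⟨A2, hA2⟩ : ∃ A2 : F.Ω → ℝ, A2 = fun ω => W * (δ * f ω 2) := ⟨_, rfl⟩
  obtain ⟨A3, hA3⟩ : ∃ A3 : F.Ω → ℝ, A3 = fun ω => W * 2 ^ lam * (δ * f ω 3) := ⟨_, rfl⟩
  obtain ⟨c1, hc1⟩ : ∃ c1 : F.Ω → ℝ, c1 = fun ω => (y ω).c - A2 ω + A3 ω * (y ω).e := ⟨_, rfl⟩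
  obtain ⟨s1, hs1⟩ : ∃ s1 : F.Ω → ℝ, s1 = fun ω => (y ω).s - A3 ω := ⟨_, rfl⟩
  obtain ⟨ν, hν⟩ : ∃ ν : F.Ω → ℝ, ν = fun ω => fn i0 iu iN (c1 ω) (s1 ω) (y ω).db +
      W * (δ * f ω 1) := ⟨_, rfl⟩
  -- the new normal form
  have key : ∀ ω, B ω → |fn i0 iu iN (c1 ω) (s1 ω) (F.d ω) - ν ω| ≤ 9 * δ * W := by
    intro ω hω
    have h1 := (f3 ω hω).2.2.2.2
    change |2 ^ P / 2 ^ w * (fn i0 iu iN (y ω).c (y ω).s (F.d ω) -
      fn i0 iu iN (y ω).c (y ω).s (y ω).db) - δ * f ω 1 -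
      δ * f ω 2 * (F.d ω i0 - (y ω).db i0) -
      δ * f ω 3 * (2 ^ lam * (fu i0 iu (y ω).e (F.d ω) - fu i0 iu (y ω).e (y ω).db))| ≤
      (1 + 2 * 4) * δ at h1
    have e1 : fn i0 iu iN (c1 ω) (s1 ω) (F.d ω) - ν ω = W *
        (2 ^ P / 2 ^ w * (fn i0 iu iN (y ω).c (y ω).s (F.d ω) -
      fn i0 iu iN (y ω).c (y ω).s (y ω).db) - δ * f ω 1 -
      δ * f ω 2 * (F.d ω i0 - (y ω).db i0) -
      δ * f ω 3 * (2 ^ lam * (fu i0 iu (y ω).e (F.d ω) - fu i0 iu (y ω).e (y ω).db))) := by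
      have e2 : W * (2 ^ P / 2 ^ w) = 1 := by
        rw [hW]
        field_simp
      have e3 : W * (2 ^ P / 2 ^ w * (fn i0 iu iN (y ω).c (y ω).s (F.d ω) -
          fn i0 iu iN (y ω).c (y ω).s (y ω).db)) = fn i0 iu iN (y ω).c (y ω).s (F.d ω) -
          fn i0 iu iN (y ω).c (y ω).s (y ω).db := by
        rw [← mul_assoc, e2, one_mul]
      rw [mul_sub, mul_sub, mul_sub, e3, hν, hc1, hs1, hA2, hA3]
      unfold fn fu
      ring
    rw [e1, abs_mul, abs_of_pos hW0]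
    have := mul_le_mul_of_nonneg_left h1 hW0.le
    linarith only [this]
  -- exactness
  have ex1 : ∀ ω ω', B ω → B ω' → Pool.KS6.ptq F Qt ω' = Pool.KS6.ptq F Qt ω →
      c1 ω' = c1 ω ∧ s1 ω' = s1 ω ∧ ν ω' = ν ω := by
    intro ω ω' hω hω' hp
    have hy : y ω' = y ω := by rw [h.vis ω (hA ω hω), h.vis ω' (hA ω' hω'), hp]
    have hf := f1 ω ω' hω hω' hp
    have a2 : A2 ω' = A2 ω := by rw [hA2]; simp only; rw [hf]
    have a3 : A3 ω' = A3 ω := by rw [hA3]; simp only; rw [hf]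
    have b1 : c1 ω' = c1 ω := by rw [hc1]; simp only; rw [hy, a2, a3]
    have b2 : s1 ω' = s1 ω := by rw [hs1]; simp only; rw [hy, a3]
    refine ⟨b1, b2, ?_⟩
    rw [hν]
    simp only
    rw [b1, b2, hy, hf]
  have ex2 : ∀ ω ω', B ω → B ω' → slam F w ω' = slam F w ω → c1 ω' = c1 ω ∧ s1 ω' = s1 ω := by
    intro ω ω' hω hω' hp
    have hy : y ω' = y ω := by rw [h.con ω (hA ω hω), h.con ω' (hA ω' hω'), hp]
    have hf := f2 ω ω' hω hω' hp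
    have a2 : A2 ω' = A2 ω := by rw [hA2]; simp only; rw [hf]
    have a3 : A3 ω' = A3 ω := by rw [hA3]; simp only; rw [hf]
    refine ⟨?_, ?_⟩
    · rw [hc1]; simp only; rw [hy, a2, a3]
    · rw [hs1]; simp only; rw [hy, a3]
  -- the slopes
  have near : ∀ ω, B₁ ω → ∀ t : ℝ, 0 < t → t ≤ 1 → t * |s1 ω| ≤ 1 →
      |t * c1 ω + t * s1 ω * E (Pool.KS6.ptq F Qt ω) iu + t * E (Pool.KS6.ptq F Qt ω) iN| ≤
        1 / 2 := by
    intro ω hω t ht ht1 hts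
    obtain ⟨ω', ω'', hω', hω'', hp', hp'', hΔ⟩ := hm ω hω
    obtain ⟨a1, a2, a3⟩ := ex1 ω ω' (hB ω hω) hω' hp'
    obtain ⟨b1, b2, b3⟩ := ex1 ω ω'' (hB ω hω) hω'' hp''
    have k1 := key ω' hω'
    have k2 := key ω'' hω''
    rw [a1, a2, a3] at k1
    rw [b1, b2, b3] at k2
    obtain ⟨u, hu⟩ : ∃ u, u = Pool.KS6.ptq F Qt ω := ⟨_, rfl⟩
    obtain ⟨Δ, hΔ'⟩ : ∃ Δ : Fin 3 → ℝ, Δ = fun j => F.d ω' j - F.d ω'' j := ⟨_, rfl⟩
    have hΔ0 : F.d ω' i0 - F.d ω'' i0 = Δ i0 := by rw [hΔ']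
    rw [hΔ0] at hΔ
    have fr : ∀ j, |Δ j - E u j * Δ i0| ≤ 2 / 2 ^ S := by
      intro j
      have c1 := h.fr ω' (hA ω' hω') j
      have c2 := h.fr ω'' (hA ω'' hω'') j
      rw [hp', ← hu] at c1
      rw [hp'', ← hu] at c2
      have e1 : Δ j - E u j * Δ i0 = (F.d ω' j - E u j * F.d ω' i0 - N u j) -
          (F.d ω'' j - E u j * F.d ω'' i0 - N u j) := by rw [hΔ']; ring
      rw [e1]
      refine (abs_sub _ _).trans ?_
      have e2 : (2 : ℝ) / 2 ^ S = 1 / 2 ^ S + 1 / 2 ^ S := by ring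
      linarith only [c1, c2, e2]
    have kk : |c1 ω * Δ i0 + s1 ω * Δ iu + Δ iN| ≤ 18 * δ * W := by
      have e1 : c1 ω * Δ i0 + s1 ω * Δ iu + Δ iN =
          (fn i0 iu iN (c1 ω) (s1 ω) (F.d ω') - ν ω) -
          (fn i0 iu iN (c1 ω) (s1 ω) (F.d ω'') - ν ω) := by
        rw [hΔ']
        unfold fn
        ring
      rw [e1]
      refine (abs_sub _ _).trans ?_
      linarith only [k1, k2]
    rw [← hu]
    have e1 : (t * c1 ω + t * s1 ω * E u iu + t * E u iN) * Δ i0 =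
        t * (c1 ω * Δ i0 + s1 ω * Δ iu + Δ iN) - t * s1 ω * (Δ iu - E u iu * Δ i0) -
        t * (Δ iN - E u iN * Δ i0) := by ring
    have h1 : |t * (c1 ω * Δ i0 + s1 ω * Δ iu + Δ iN)| ≤ 1 * (18 * δ * W) := by
      rw [abs_mul, abs_of_pos ht]
      exact mul_le_mul ht1 kk (abs_nonneg _) zero_le_one
    have h2 : |t * s1 ω * (Δ iu - E u iu * Δ i0)| ≤ 1 * (2 / 2 ^ S) := by
      rw [abs_mul, abs_mul, abs_of_pos ht]
      exact mul_le_mul hts (fr iu) (abs_nonneg _) zero_le_one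
    have h3 : |t * (Δ iN - E u iN * Δ i0)| ≤ 1 * (2 / 2 ^ S) := by
      rw [abs_mul, abs_of_pos ht]
      exact mul_le_mul ht1 (fr iN) (abs_nonneg _) zero_le_one
    have h4 : |(t * c1 ω + t * s1 ω * E u iu + t * E u iN) * Δ i0| ≤
        18 * δ + 4 / 2 ^ S := by
      rw [e1]
      refine (abs_sub _ _).trans ?_
      have h5 := abs_sub (t * (c1 ω * Δ i0 + s1 ω * Δ iu + Δ iN))
        (t * s1 ω * (Δ iu - E u iu * Δ i0))
      have h6 : 18 * δ * W ≤ 18 * δ := by nlinarith only [hδ0, hW1]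
      have e2 : (4 : ℝ) / 2 ^ S = 2 / 2 ^ S + 2 / 2 ^ S := by ring
      linarith only [h1, h2, h3, h5, h6, e2]
    have h7 := div_sep hΔ h4
    refine h7.trans ?_
    rw [add_mul]
    linarith only [hq, hS]
  have hδg : 9 * δ * W ≤ 20 * 2 ^ w / 2 ^ (P + g) := by
    have e1 : (20 : ℝ) * 2 ^ w / 2 ^ (P + g) = 20 * (1 / 2 ^ g) * W := by
      rw [hW, pow_add]
      field_simp
    rw [e1]
    have : 9 * δ ≤ 20 * (1 / 2 ^ g) := by linarith only [hδ0, hδ]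
    exact mul_le_mul_of_nonneg_right this hW0.le
  -- the small coefficients
  have b1 : Big F.p cLab (fun ω => B₁ ω ∧ |s1 ω| ≤ 1)
      (LABq F Qt i0 iu iN w 0 (P + g) 2) := by
    refine mk_plank h.hi (by omega) hg h.QJ c1 s1 ν ?_ ?_ ?_ ?_ ?_
    · exact fun ω ω' h1 h2 hp => ex1 ω ω' (hB _ h1.1) (hB _ h2.1) hp
    · exact fun ω ω' h1 h2 hp => ex2 ω ω' (hB _ h1.1) (hB _ h2.1) hp
    · intro ω hω
      have h1 := near ω hω.1 1 one_pos le_rfl (by rw [one_mul]; exact hω.2)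
      simp only [one_mul] at h1
      have hωA := hA ω (hB ω hω.1)
      exact near_half (hE ω hωA iu) (hE ω hωA iN) hω.2 h1
    · intro ω hω
      exact hω.2.trans (by norm_num)
    · intro ω hω
      exact (key ω (hB ω hω.1)).trans hδg
  -- the large coefficients
  have hi' : ∀ j : Fin 3, j = i0 ∨ j = iN ∨ j = iu := fun j => by
    rcases h.hi j with h1 | h1 | h1
    · exact Or.inl h1
    · exact Or.inr (Or.inr h1)
    · exact Or.inr (Or.inl h1)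
  have b2 : Big F.p cLab (fun ω => B₁ ω ∧ 1 < |s1 ω|)
      (LABq F Qt i0 iN iu w 0 (P + g) 2) := by
    have hs0 : ∀ ω, 1 < |s1 ω| → s1 ω ≠ 0 := fun ω hω h0 => by
      rw [h0, abs_zero] at hω
      linarith only [hω]
    have hinv : ∀ ω, 1 < |s1 ω| → |(s1 ω)⁻¹| ≤ 1 := fun ω hω => by
      rw [abs_inv]
      exact inv_le_one_of_one_le₀ hω.le
    refine mk_plank hi' (by omega) hg h.QJ (fun ω => (s1 ω)⁻¹ * c1 ω) (fun ω => (s1 ω)⁻¹)
      (fun ω => (s1 ω)⁻¹ * ν ω) ?_ ?_ ?_ ?_ ?_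
    · intro ω ω' h1 h2 hp
      obtain ⟨a1, a2, a3⟩ := ex1 ω ω' (hB _ h1.1) (hB _ h2.1) hp
      rw [a1, a2, a3]
      exact ⟨rfl, rfl, rfl⟩
    · intro ω ω' h1 h2 hp
      obtain ⟨a1, a2⟩ := ex2 ω ω' (hB _ h1.1) (hB _ h2.1) hp
      rw [a1, a2]
      exact ⟨rfl, rfl⟩
    · intro ω hω
      have hωA := hA ω (hB ω hω.1)
      have hs := hs0 ω hω.2
      have ht : 0 < |(s1 ω)⁻¹| := abs_pos.2 (inv_ne_zero hs)
      have h1 := near ω hω.1 |(s1 ω)⁻¹| ht (hinv ω hω.2) (by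
        rw [← abs_mul, inv_mul_cancel₀ hs, abs_one])
      have h2 : |(s1 ω)⁻¹ * c1 ω + (s1 ω)⁻¹ * E (Pool.KS6.ptq F Qt ω) iN +
          E (Pool.KS6.ptq F Qt ω) iu| ≤ 1 / 2 := by
        obtain ⟨t, ht'⟩ : ∃ t, t = (s1 ω)⁻¹ := ⟨_, rfl⟩
        have hts : t * s1 ω = 1 := by rw [ht', inv_mul_cancel₀ hs]
        rw [← ht'] at h1 ⊢
        have e1 : |t| * c1 ω + |t| * s1 ω * E (Pool.KS6.ptq F Qt ω) iu +
            |t| * E (Pool.KS6.ptq F Qt ω) iN = |t| * (c1 ω +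
              s1 ω * E (Pool.KS6.ptq F Qt ω) iu + E (Pool.KS6.ptq F Qt ω) iN) := by ring
        have e2 : t * c1 ω + t * E (Pool.KS6.ptq F Qt ω) iN + E (Pool.KS6.ptq F Qt ω) iu =
            t * (c1 ω + s1 ω * E (Pool.KS6.ptq F Qt ω) iu + E (Pool.KS6.ptq F Qt ω) iN) := by
          have : E (Pool.KS6.ptq F Qt ω) iu = t * s1 ω * E (Pool.KS6.ptq F Qt ω) iu := by
            rw [hts, one_mul]
          linear_combination this
        rw [e2, abs_mul]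
        rw [e1, abs_mul, abs_abs] at h1
        exact h1
      exact near_half (hE ω hωA iN) (hE ω hωA iu) (hinv ω hω.2) h2
    · intro ω hω
      exact (hinv ω hω.2).trans (by norm_num)
    · intro ω hω
      have hs := hs0 ω hω.2
      have e1 : fn i0 iN iu ((s1 ω)⁻¹ * c1 ω) (s1 ω)⁻¹ (F.d ω) - (s1 ω)⁻¹ * ν ω =
          (s1 ω)⁻¹ * (fn i0 iu iN (c1 ω) (s1 ω) (F.d ω) - ν ω) := by
        unfold fn
        have : F.d ω iu = (s1 ω)⁻¹ * s1 ω * F.d ω iu := by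
          rw [inv_mul_cancel₀ hs, one_mul]
        linear_combination this
      rw [e1, abs_mul]
      have h1 := mul_le_mul (hinv ω hω.2) (key ω (hB ω hω.1)) (abs_nonneg _) zero_le_one
      rw [one_mul] at h1
      exact h1.trans hδg
  refine Big.or F.isLaw (A₁ := fun ω => B₁ ω ∧ |s1 ω| ≤ 1) (A₂ := fun ω => B₁ ω ∧ 1 < |s1 ω|)
    (fun ω hω => ?_) (fun ω hω => hω.1) (fun ω hω => hω.1) cLab_pos.le cLab_pos.le
    (b1.imp fun B' _ h' => ⟨iu, iN, h.hi, h'⟩) (b2.imp fun B' _ h' => ⟨iN, iu, hi', h'⟩)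
  rcases le_or_gt |s1 ω| 1 with h1 | h1
  · exact Or.inl ⟨hω, h1⟩
  · exact Or.inr ⟨hω, h1⟩

end gain

end Pool.S6P
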