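import Pool.Agent.H26.DIC.Fam5

/-!
# The dichotomy for a family
-/

set_option autoImplicit false

namespace Pool.S6P

open MvPolynomial Finset Pool.K2S Pool.STK Pool.KA Pool.KSAT Pool.KS6

variable {J : ℕ}

/-- The alternatives: the time is known from the line and the window; the velocity in the chart is
known from the point; the slope `iu` is known from the line and the window to a better precision;
there are thinner planks. -/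
def Alt (F : Fam 3 J) (Qt w lam P : ℕ) (i0 iu : Fin 3)
    (E : (Fin 3 → ℤ) × (ℕ × F.ζ) → Fin 3 → ℝ) (x h g : ℕ) (B : F.Ω → Prop) : Prop :=
  (∃ tt : ((Fin 3 → ℝ) × (Fin 3 → ℝ)) × F.ζ × ℕ → ℝ, ∀ ω, B ω →
    |(2 ^ w * F.t ω - F.T1 w ω) - tt (slam F w ω)| ≤ 1 / 2 ^ x) ∨
  (∃ v : (Fin 3 → ℤ) × (ℕ × F.ζ) → ℝ, ∀ ω, B ω →
    |F.d ω i0 - v (Pool.KS6.ptq F Qt ω)| ≤ 1 / 2 ^ x) ∨
  (∃ ζ : ((Fin 3 → ℝ) × (Fin 3 → ℝ)) × F.ζ × ℕ → ℝ, ∀ ω, B ω →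
    |E (Pool.KS6.ptq F Qt ω) iu - ζ (slam F w ω)| ≤ 1 / 2 ^ (lam + h)) ∨
  ∃ ju jN : Fin 3, (∀ j : Fin 3, j = i0 ∨ j = ju ∨ j = jN) ∧
    LABq F Qt i0 ju jN w 0 (P + g) 2 B

/-- The numbers. -/
theorem nums {D : ℕ} {C C₁ : ℝ} (hC : 1 ≤ C) (hC₁ : 1 ≤ C₁) : ∃ K : ℕ,
    ∀ x h g M : ℕ, M = x + h + g + 1 →
      ∀ κ : ℝ, κ = (1 / 2 ^ x * (1 / 2 ^ h) * (1 / 2 ^ x)) ^ (2 * (D + 2)) *
        (1 / 2 ^ (g + x + 9)) / C →
      0 < κ ∧ ∀ θ : ℝ, 0 ≤ θ → θ * 2 ^ (K * M) ≤ 1 →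
        C₁ * (2 ^ 20 * (2 ^ x) ^ 2 * θ) ≤ κ ^ (2 ^ (D + 1)) := by
  obtain ⟨c₀, hc₀⟩ : ∃ c₀ : ℕ, C ≤ 2 ^ c₀ := by
    obtain ⟨n, hn⟩ := pow_unbounded_of_one_lt C (by norm_num : (1 : ℝ) < 2)
    exact ⟨n, hn.le⟩
  obtain ⟨c₁, hc₁⟩ : ∃ c₁ : ℕ, C₁ ≤ 2 ^ c₁ := by
    obtain ⟨n, hn⟩ := pow_unbounded_of_one_lt C₁ (by norm_num : (1 : ℝ) < 2)
    exact ⟨n, hn.le⟩
  refine ⟨(6 * (D + 2) + 10 + c₀) * 2 ^ (D + 1) + (22 + c₁), ?_⟩
  intro x h g M hM κ hκ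
  have hκ0 : 0 < κ := by rw [hκ]; positivity
  refine ⟨hκ0, fun θ hθ0 hθ => ?_⟩
  obtain ⟨t, ht⟩ : ∃ t : ℝ, t = 1 / 2 ^ M := ⟨_, rfl⟩
  have ht0 : 0 < t := by rw [ht]; positivity
  have hpM : ∀ a : ℕ, a ≤ M → t ≤ 1 / 2 ^ a := fun a ha => by
    rw [ht]
    exact one_div_le_one_div_of_le (by positivity) (pow_le_pow_right₀ (by norm_num) ha)
  have ht2 : t ≤ 1 / 2 := by
    have := hpM 1 (by omega)
    rwa [pow_one] at this
  have ht1 : t ≤ 1 := by linarith only [ht0, ht2]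
  have hpow : ∀ a : ℕ, t ^ a ≤ 1 / 2 ^ a := fun a => by
    have := pow_le_pow_left₀ ht0.le ht2 a
    rwa [one_div, inv_pow, ← one_div] at this
  -- the lower bound of `κ`
  have hκt : t ^ (6 * (D + 2) + 10 + c₀) ≤ κ := by
    have e1 : t ^ (6 * (D + 2) + 10 + c₀) = (t * t * t) ^ (2 * (D + 2)) * (t ^ 9 * t) * t ^ c₀ := by
      ring
    have e2 : κ = (1 / 2 ^ x * (1 / 2 ^ h) * (1 / 2 ^ x)) ^ (2 * (D + 2)) *
        (1 / 2 ^ 9 * (1 / 2 ^ (g + x))) * (1 / C) := by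
      rw [hκ, pow_add 2 (g + x) 9]
      field_simp
    rw [e1, e2]
    have a1 : (t * t * t) ^ (2 * (D + 2)) ≤
        (1 / 2 ^ x * (1 / 2 ^ h) * (1 / 2 ^ x)) ^ (2 * (D + 2)) := by
      refine pow_le_pow_left₀ (by positivity) ?_ _
      exact mul_le_mul (mul_le_mul (hpM x (by omega)) (hpM h (by omega)) ht0.le (by positivity))
        (hpM x (by omega)) ht0.le (by positivity)
    have a2 : t ^ 9 * t ≤ 1 / 2 ^ 9 * (1 / 2 ^ (g + x)) :=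
      mul_le_mul (hpow 9) (hpM (g + x) (by omega)) ht0.le (by positivity)
    have a3 : t ^ c₀ ≤ 1 / C := (hpow c₀).trans (one_div_le_one_div_of_le (by linarith only [hC, ht0, ht2]) hc₀)
    exact mul_le_mul (mul_le_mul a1 a2 (by positivity) (by positivity)) a3 (by positivity)
      (by positivity)
  have hκt2 : t ^ ((6 * (D + 2) + 10 + c₀) * 2 ^ (D + 1)) ≤ κ ^ (2 ^ (D + 1)) := by
    rw [pow_mul]
    exact pow_le_pow_left₀ (by positivity) hκt _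
  refine le_trans ?_ hκt2
  obtain ⟨a, ha⟩ : ∃ a, a = (6 * (D + 2) + 10 + c₀) * 2 ^ (D + 1) := ⟨_, rfl⟩
  rw [← ha] at hθ ⊢
  have htM : t * 2 ^ M = 1 := by rw [ht]; field_simp
  have hθt : θ ≤ t ^ (a + (22 + c₁)) := by
    have e1 : (2 : ℝ) ^ ((a + (22 + c₁)) * M) = (2 ^ M) ^ (a + (22 + c₁)) := by
      rw [← pow_mul, mul_comm]
    rw [e1] at hθ
    have e2 : t ^ (a + (22 + c₁)) * (2 ^ M) ^ (a + (22 + c₁)) = 1 := by
      rw [← mul_pow, htM, one_pow]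
    have p : (0 : ℝ) < (2 ^ M) ^ (a + (22 + c₁)) := by positivity
    rw [← e2] at hθ
    exact le_of_mul_le_mul_right hθ p
  have e3 : t ^ (a + (22 + c₁)) = t ^ a * (t ^ 20 * (t ^ 2 * t ^ c₁)) := by ring
  rw [e3] at hθt
  have hx2 : (2 ^ x) ^ 2 * t ^ 2 ≤ 1 := by
    rw [← mul_pow]
    refine pow_le_one₀ (by positivity) ?_
    have := hpM x (by omega)
    rw [le_div_iff₀ (by positivity)] at this
    linarith only [this]
  have h20 : (2 : ℝ) ^ 20 * t ^ 20 ≤ 1 := by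
    rw [← mul_pow]
    exact pow_le_one₀ (by positivity) (by linarith only [ht2])
  have hc1t : C₁ * t ^ c₁ ≤ 1 := by
    have h1 : C₁ * t ^ c₁ ≤ 2 ^ c₁ * t ^ c₁ := mul_le_mul_of_nonneg_right hc₁ (by positivity)
    refine h1.trans ?_
    rw [← mul_pow]
    exact pow_le_one₀ (by positivity) (by linarith only [ht2])
  calc C₁ * (2 ^ 20 * (2 ^ x) ^ 2 * θ)
      ≤ C₁ * (2 ^ 20 * (2 ^ x) ^ 2 * (t ^ a * (t ^ 20 * (t ^ 2 * t ^ c₁)))) :=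
        mul_le_mul_of_nonneg_left (mul_le_mul_of_nonneg_left hθt (by positivity)) (by linarith only [hC₁, ht0, ht2])
    _ = t ^ a * ((2 ^ 20 * t ^ 20) * (((2 ^ x) ^ 2 * t ^ 2) * (C₁ * t ^ c₁))) := by ring
    _ ≤ t ^ a * (1 * (1 * 1)) := by
        refine mul_le_mul_of_nonneg_left ?_ (by positivity)
        have hC0 : 0 ≤ C₁ * t ^ c₁ := by positivity
        exact mul_le_mul h20 (mul_le_mul hx2 hc1t hC0 zero_le_one) (by positivity) zero_le_one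
    _ = t ^ a := by ring

/-- **The dichotomy for a family.** -/
theorem dic_one {D : ℕ} (hD : 1 ≤ D) : ∃ (K : ℕ) (C : ℝ), 1 ≤ C ∧
    ∀ {J : ℕ} {F : Fam 3 J} {Qt w lam P S J' Pc : ℕ} {i0 iu iN i1 : Fin 3}
      {A : F.Ω → Prop} {y : F.Ω → Pln} {φ : (Fin 3 → ℤ) × (ℕ × F.ζ) → Pln}
      {ψ : ((Fin 3 → ℝ) × (Fin 3 → ℝ)) × F.ζ × ℕ → Pln}
      {E N : (Fin 3 → ℤ) × (ℕ × F.ζ) → Fin 3 → ℝ} {hJ : w + J' ≤ J} {g n : F.Ω → Fin 3 → ℝ}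
      {xg : F.Ω → Option (Fin 3) → ℝ} {V : Type} {z : F.Ω → V}
      {R : V → MvPolynomial (Option (Fin 3)) ℝ},
      Pdt F Qt w lam P S i0 iu iN A y φ ψ E N → Cdt F Qt w lam J' D Pc i0 A hJ g n i1 xg z R →
      (∀ ω, A ω → ∀ j, |E (Pool.KS6.ptq F Qt ω) j| ≤ 3 / 2) → ∀ x h g₀ : ℕ,
      K * (x + h + g₀ + 1) + P ≤ w + lam + Pc → K * (x + h + g₀ + 1) + P ≤ w + lam + J' →
      K * (x + h + g₀ + 1) + lam ≤ S → K * (x + h + g₀ + 1) + P ≤ Qt →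
      Big F.p C A (Alt F Qt w lam P i0 iu E x h g₀) := by
  obtain ⟨Cm, hCm, hmain⟩ := Idp.Imp.main hD (K := 4) (by norm_num)
  have hcV := cV_pos hD
  obtain ⟨c₂, hc₂⟩ : ∃ c₂, c₂ = cV D * 9 ^ (2 * D) := ⟨_, rfl⟩
  have hc₂1 : 1 ≤ c₂ := by
    rw [hc₂]
    have : (1 : ℝ) ≤ 9 ^ (2 * D) := one_le_pow₀ (by norm_num)
    nlinarith only [hcV, this]
  obtain ⟨C₁, hC₁⟩ : ∃ C₁, C₁ = (D + 1) * c₂ := ⟨_, rfl⟩
  have hD0 : (1 : ℝ) ≤ D := by exact_mod_cast hD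
  have hC₁1 : 1 ≤ C₁ := by
    rw [hC₁]
    nlinarith only [hc₂1, hD0]
  obtain ⟨K₀, hK₀⟩ := nums (D := D) hCm hC₁1
  have hcL := cLab_pos
  refine ⟨K₀ + 9, 1 + Cm * (1 + (cLab + cLab)), by nlinarith only [hCm, hcL], ?_⟩
  intro J F Qt w lam P S J' Pc i0 iu iN i1 A y φ ψ E N hJ g n xg V z R hP hC hE x h g₀ k1 k2 k3 k4
  obtain ⟨M, hM⟩ : ∃ M, M = x + h + g₀ + 1 := ⟨_, rfl⟩
  rw [← hM] at k1 k2 k3 k4
  have hKM : K₀ * M + 9 ≤ (K₀ + 9) * M := by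
    have : 1 ≤ M := by omega
    nlinarith only [hM]
  have hxM : x ≤ M := by omega
  have hgM : g₀ ≤ M := by omega
  have h9M : 9 * M ≤ (K₀ + 9) * M := Nat.mul_le_mul_right _ (by omega)
  obtain ⟨θ, hθ⟩ : ∃ θ : ℝ, θ = 1 / 2 ^ (K₀ * M) := ⟨_, rfl⟩
  have hθ0 : 0 < θ := by rw [hθ]; positivity
  have hθ1 : θ * 2 ^ (K₀ * M) ≤ 1 := by
    rw [hθ]
    have : (2 : ℝ) ^ (K₀ * M) ≠ 0 := by positivity
    field_simp
    exact le_rfl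
  have frac : ∀ a b : ℕ, K₀ * M + a ≤ b → (2 : ℝ) ^ a / 2 ^ b ≤ θ := by
    intro a b hab
    rw [hθ, div_le_div_iff₀ (by positivity) (by positivity), one_mul, ← pow_add]
    exact pow_le_pow_right₀ (by norm_num) (by omega)
  obtain ⟨κ, hκ⟩ : ∃ κ : ℝ, κ = (1 / 2 ^ x * (1 / 2 ^ h) * (1 / 2 ^ x)) ^ (2 * (D + 2)) *
        (1 / 2 ^ (g₀ + x + 9)) / Cm := ⟨_, rfl⟩
  obtain ⟨hκ0, hκθ⟩ := hK₀ x h g₀ M hM κ hκ
  have hκθ' := hκθ θ hθ0.le hθ1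
  have inv1 : ∀ a : ℕ, (1 : ℝ) / 2 ^ a ≤ 1 := fun a => by
    rw [div_le_one (by positivity)]
    exact one_le_pow₀ (by norm_num)
  have hκ1 : κ ≤ 1 := by
    rw [hκ, div_le_one (by linarith only [hCm])]
    have h1 : (1 / 2 ^ x * (1 / 2 ^ h) * (1 / 2 ^ x) : ℝ) ≤ 1 := by
      have a1 := inv1 x
      have a2 := inv1 h
      have b1 : (0 : ℝ) < 1 / 2 ^ x := by positivity
      have b2 : (0 : ℝ) < 1 / 2 ^ h := by positivity
      calc (1 / 2 ^ x * (1 / 2 ^ h) * (1 / 2 ^ x) : ℝ) ≤ 1 * 1 * 1 :=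
            mul_le_mul (mul_le_mul a1 a2 b2.le zero_le_one) a1 b1.le (by norm_num)
        _ = 1 := by norm_num
    have h2 : (1 / 2 ^ x * (1 / 2 ^ h) * (1 / 2 ^ x) : ℝ) ^ (2 * (D + 2)) ≤ 1 :=
      pow_le_one₀ (by positivity) h1
    calc _ ≤ (1 : ℝ) * 1 := mul_le_mul h2 (inv1 _) (by positivity) zero_le_one
      _ ≤ Cm := by linarith only [hCm]
  obtain ⟨η, hη⟩ : ∃ η : ℝ, η = 2 ^ 20 * (2 ^ x) ^ 2 * θ := ⟨_, rfl⟩
  rw [← hη] at hκθ'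
  have hη0 : 0 < η := by rw [hη]; positivity
  have hκp : κ ^ (2 ^ (D + 1)) ≤ 1 := pow_le_one₀ hκ0.le hκ1
  have hη1 : η ≤ 1 := by nlinarith only [hκθ', hκp, hC₁1, hη0]
  have hx1 : (1 : ℝ) ≤ 2 ^ x := one_le_pow₀ (by norm_num)
  have hx2 : (2 : ℝ) ^ x ≤ (2 ^ x) ^ 2 := by nlinarith only [hx1]
  -- the geometry
  obtain ⟨r, hr⟩ : ∃ r : ℝ, r = 9 * (2 ^ P / 2 ^ Qt) + 2 ^ lam / 2 ^ S := ⟨_, rfl⟩
  have hrθ : r ≤ 10 * θ := by
    have h1 := frac P Qt (by omega)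
    have h2 := frac lam S (by omega)
    rw [hr]
    linarith only [h1, h2]
  have hrη : r ≤ η := by
    refine hrθ.trans ?_
    rw [hη]
    refine mul_le_mul_of_nonneg_right ?_ hθ0.le
    have : (1 : ℝ) ≤ (2 ^ x) ^ 2 := by nlinarith only [hx1, hx2]
    nlinarith only [hx1, hx2]
  have hG := hP.geo (r := r) hr.ge (hrη.trans hη1)
  -- the label
  have fPc : (1 : ℝ) / 2 ^ Pc * (2 ^ P / 2 ^ (w + lam)) ≤ θ := by
    have h1 := frac P (w + lam + Pc) (by omega)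
    have e : (1 : ℝ) / 2 ^ Pc * (2 ^ P / 2 ^ (w + lam)) = 2 ^ P / 2 ^ (w + lam + Pc) := by
      rw [pow_add 2 (w + lam) Pc]
      field_simp
    rw [e]
    exact h1
  have fJ' : (1 : ℝ) / 2 ^ J' * (2 ^ P / 2 ^ (w + lam)) ≤ θ := by
    have h1 := frac P (w + lam + J') (by omega)
    have e : (1 : ℝ) / 2 ^ J' * (2 ^ P / 2 ^ (w + lam)) = 2 ^ P / 2 ^ (w + lam + J') := by
      rw [pow_add 2 (w + lam) J']
      field_simp
    rw [e]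
    exact h1
  obtain ⟨X, hX⟩ : ∃ X, X = fdp F Qt w lam P i0 iu iN y φ E N := ⟨_, rfl⟩
  obtain ⟨t, ht⟩ := cover X.pt (fun ω => X.D ω 0) A (1 / 2 ^ x) 1
  have cov : ∀ {B : F.Ω → Prop} {ω : F.Ω},
      SepF X.pt (fun ω => X.D ω 0) B (1 / 2 ^ x) 1 ω → Sub B A → A ω → Mts F Qt i0 B x ω := by
    intro B ω hs hB hω
    rw [hX] at hs
    obtain ⟨z, hz, hs⟩ := hs
    have z0 := hz 0 (by norm_num)
    have z1 := hz 1 le_rfl
    have hsep := hs 0 (by norm_num) 1 le_rfl (by norm_num)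
    have p0 : Pool.KS6.ptq F Qt (z 0) = Pool.KS6.ptq F Qt ω := z0.2
    have p1 : Pool.KS6.ptq F Qt (z 1) = Pool.KS6.ptq F Qt ω := z1.2
    refine ⟨z 0, z 1, z0.1, z1.1, p0, p1, ?_⟩
    have y0 : y (z 0) = y ω := by rw [hP.vis _ (hB _ z0.1), hP.vis _ hω, p0]
    have y1 : y (z 1) = y ω := by rw [hP.vis _ (hB _ z1.1), hP.vis _ hω, p1]
    have e : (fdp F Qt w lam P i0 iu iN y φ E N).D (z 0) 0 -
        (fdp F Qt w lam P i0 iu iN y φ E N).D (z 1) 0 = F.d (z 0) i0 - F.d (z 1) i0 := by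
      change (F.d (z 0) i0 - (y (z 0)).db i0) - (F.d (z 1) i0 - (y (z 1)).db i0) = _
      rw [y0, y1]
      ring
    simp only at hsep
    rw [e] at hsep
    exact hsep
  have ball : ∀ {B : F.Ω → Prop} (v : (Fin 3 → ℤ) × (ℕ × F.ζ) → ℝ), Sub B A →
      (∀ ω, B ω → |X.D ω 0 - v (X.pt ω)| ≤ 1 / 2 ^ x) →
      Alt F Qt w lam P i0 iu E x h g₀ B := by
    intro B v hB hv
    refine Or.inr (Or.inl ⟨fun u => v u + (φ u).db i0, fun ω hω => ?_⟩)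
    have h1 := hv ω hω
    rw [hX] at h1
    have h2 : |(F.d ω i0 - (y ω).db i0) - v (Pool.KS6.ptq F Qt ω)| ≤ 1 / 2 ^ x := h1
    have e : F.d ω i0 - (v (Pool.KS6.ptq F Qt ω) + (φ (Pool.KS6.ptq F Qt ω)).db i0) =
        (F.d ω i0 - (y ω).db i0) - v (Pool.KS6.ptq F Qt ω) := by
      rw [← hP.vis ω (hB ω hω)]
      ring
    simp only
    rw [e]
    exact h2
  -- the separated samples
  obtain ⟨A₁, hA₁⟩ : ∃ A₁ : F.Ω → Prop, A₁ = fun ω => A ω ∧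
      SepF X.pt (fun ω => X.D ω 0) A (1 / 2 ^ x) 1 ω := ⟨_, rfl⟩
  have hA₁A : Sub A₁ A := fun ω hω => by rw [hA₁] at hω; exact hω.1
  have hmts : ∀ ω, A₁ ω → Mts F Qt i0 A x ω := fun ω hω => by
    rw [hA₁] at hω
    exact cov hω.2 (fun _ h => h) hω.1
  have hI := hP.imp hC hD hG hA₁A hmts (η := η) (ε := C₁ * η) (by
    have e1 : 40 * (100 * 2 ^ x) ^ 2 * (1 / 2 ^ Pc + 1 / 2 ^ J') * (2 ^ P / 2 ^ (w + lam)) =
        400000 * (2 ^ x) ^ 2 * (1 / 2 ^ Pc * (2 ^ P / 2 ^ (w + lam)) +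
          1 / 2 ^ J' * (2 ^ P / 2 ^ (w + lam)) : ℝ) := by ring
    rw [e1, hη]
    have h1 : (400000 : ℝ) * (2 ^ x) ^ 2 * (1 / 2 ^ Pc * (2 ^ P / 2 ^ (w + lam)) +
          1 / 2 ^ J' * (2 ^ P / 2 ^ (w + lam)) : ℝ) ≤ 400000 * (2 ^ x) ^ 2 * (θ + θ) :=
      mul_le_mul_of_nonneg_left (add_le_add fPc fJ') (by positivity)
    refine h1.trans ?_
    have h2 : (0 : ℝ) ≤ (2 ^ x) ^ 2 * θ := by positivity
    nlinarith only [hη, hη0]) hη1 (by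
    rw [← hc₂, hC₁]
    have e1 : (1 : ℝ) / 2 ^ Pc * (10 * (100 * 2 ^ x) * (2 ^ P / 2 ^ (w + lam)) * c₂) =
        1000 * 2 ^ x * (1 / 2 ^ Pc * (2 ^ P / 2 ^ (w + lam))) * c₂ := by ring
    rw [e1]
    have h1 : 1000 * 2 ^ x * (1 / 2 ^ Pc * (2 ^ P / 2 ^ (w + lam))) ≤ η := by
      have h2 : 1000 * 2 ^ x * (1 / 2 ^ Pc * (2 ^ P / 2 ^ (w + lam))) ≤ 1000 * 2 ^ x * θ :=
        mul_le_mul_of_nonneg_left fPc (by positivity)
      refine h2.trans ?_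
      rw [hη]
      refine mul_le_mul_of_nonneg_right ?_ hθ0.le
      nlinarith only [hx1, hx2]
    have h3 := mul_le_mul_of_nonneg_right h1 (by linarith only [hc₂1] : 0 ≤ c₂)
    have e2 : ((D : ℝ) + 1) * c₂ * η = η * c₂ + D * c₂ * η := by ring
    rw [e2]
    linarith only [h3])
  have hG₁ := hG.sub (B := A₁) hA₁A
  rw [← hX] at hI hG₁
  have hδq : (18 : ℝ) * (1 / 2 ^ (g₀ + x + 9)) * 2 ^ x ≤ 1 / 4 := by
    have e : (18 : ℝ) * (1 / 2 ^ (g₀ + x + 9)) * 2 ^ x = 18 / 512 * (1 / 2 ^ g₀) := by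
      rw [pow_add, pow_add]
      field_simp
      norm_num
    rw [e]
    have := inv1 g₀
    linarith only [this]
  have hSq : (4 : ℝ) / 2 ^ S * 2 ^ x ≤ 1 / 4 := by
    have h1 : M + 4 ≤ S := by omega
    have h2 : (2 : ℝ) ^ (x + 4) ≤ 2 ^ S := pow_le_pow_right₀ (by norm_num) (by omega)
    rw [div_mul_eq_mul_div, div_le_iff₀ (by positivity)]
    rw [pow_add] at h2
    norm_num at h2
    linarith only [h2]
  have hδg : (1 : ℝ) / 2 ^ (g₀ + x + 9) ≤ 1 / 2 ^ g₀ :=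
    one_div_le_one_div_of_le (by positivity) (pow_le_pow_right₀ (by norm_num) (by omega))
  have hmn := hmain F.isLaw (X := X) (A := A₁) (ρ := 1 / 2 ^ x) (τ := 1 / 2 ^ h)
    (ρt := 1 / 2 ^ x) (δ := 1 / 2 ^ (g₀ + x + 9)) (κ := κ) (by positivity) (inv1 x)
    (by positivity) (inv1 h) (by positivity) (inv1 x) (by positivity) (inv1 _) hκ hG₁ hI hκθ'
    (by
      refine le_trans ?_ hκθ'
      nlinarith only [hrη, hC₁1, hη0])
  have hAlt : Big F.p (Cm * (1 + (cLab + cLab))) A₁ (Alt F Qt w lam P i0 iu E x h g₀) := by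
    refine hmn.bind (by linarith only [hCm]) fun B hB hO => ?_
    have hBA : Sub B A := hB.trans hA₁A
    have one : (1 : ℝ) ≤ 1 + (cLab + cLab) := by linarith only [hcL]
    rcases hO with ⟨tt, hO⟩ | ⟨v, hO⟩ | ⟨ζ, hO⟩ | hO
    · refine Big.mono F.isLaw one (Big.self (Or.inl ⟨tt, fun ω hω => ?_⟩))
      have h1 := hO ω hω
      rw [hX] at h1
      exact h1
    · exact Big.mono F.isLaw one (Big.self (ball v hBA hO))
    · refine Big.mono F.isLaw one (Big.self (Or.inr (Or.inr (Or.inl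
        ⟨fun v => (ψ v).e + ζ v / 2 ^ lam, fun ω hω => ?_⟩))))
      have h1 := hO ω hω
      rw [hX] at h1
      have h2 : |2 ^ lam * (E (Pool.KS6.ptq F Qt ω) iu - (φ (Pool.KS6.ptq F Qt ω)).e) -
        ζ (slam F w ω)| ≤ 1 / 2 ^ h := h1
      rw [← hP.vis ω (hBA ω hω)] at h2
      have p : (0 : ℝ) < 2 ^ lam := by positivity
      have e : E (Pool.KS6.ptq F Qt ω) iu - ((ψ (slam F w ω)).e + ζ (slam F w ω) / 2 ^ lam) =
          (2 ^ lam * (E (Pool.KS6.ptq F Qt ω) iu - (y ω).e) - ζ (slam F w ω)) / 2 ^ lam := by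
        rw [← hP.con ω (hBA ω hω)]
        field_simp
        ring
      simp only
      rw [e, abs_div, abs_of_pos p, div_le_iff₀ p, pow_add]
      refine h2.trans (le_of_eq ?_)
      field_simp
    · obtain ⟨t', ht'⟩ := cover X.pt (fun ω => X.D ω 0) B (1 / 2 ^ x) 1
      rw [hX] at hO
      have hgain := hP.gain hBA hO (by positivity) (g := g₀) (q := x) (by omega) hδg hδq hSq hE
        (B₁ := fun ω => B ω ∧ SepF X.pt (fun ω => X.D ω 0) B (1 / 2 ^ x) 1 ω)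
        (fun ω hω => hω.1) (fun ω hω => cov hω.2 hBA (hBA ω hω.1))
      refine Big.or F.isLaw (A₁ := fun ω => B ω ∧ |X.D ω 0 - t' 0 (X.pt ω)| ≤ 1 / 2 ^ x)
        (A₂ := fun ω => B ω ∧ SepF X.pt (fun ω => X.D ω 0) B (1 / 2 ^ x) 1 ω)
        (fun ω hω => ?_) (fun ω hω => hω.1) (fun ω hω => hω.1) zero_le_one
        (by linarith only [hcL]) (Big.self (ball (t' 0) (fun ω hω => hBA ω hω.1) fun ω hω => hω.2))
        (hgain.imp fun B' _ h' => Or.inr (Or.inr (Or.inr h')))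
      rcases ht' ω hω with h1 | ⟨k, hk, h1⟩
      · exact Or.inr ⟨hω, h1⟩
      · have : k = 0 := by omega
        rw [this] at h1
        exact Or.inl ⟨hω, h1⟩
  refine Big.or F.isLaw (A₁ := fun ω => A ω ∧ |X.D ω 0 - t 0 (X.pt ω)| ≤ 1 / 2 ^ x)
    (A₂ := A₁) (fun ω hω => ?_) (fun ω hω => hω.1) hA₁A zero_le_one (by nlinarith only [hCm, hcL])
    (Big.self (ball (t 0) (fun ω hω => hω.1) fun ω hω => hω.2)) hAlt
  rcases ht ω hω with h1 | ⟨k, hk, h1⟩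
  · rw [hA₁]
    exact Or.inr ⟨hω, h1⟩
  · have : k = 0 := by omega
    rw [this] at h1
    exact Or.inl ⟨hω, h1⟩

end Pool.S6P
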