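import Pool.Agent.H26.DIC.Fam6
import Pool.Agent.H42.S6C.Defs
import Pool.Agent.H75.S6C.Glu

/-!
# The dichotomy for the implicit labels of the boxes
-/

set_option autoImplicit false

namespace Pool.S6P

open MvPolynomial Finset Pool.K2S Pool.STK Pool.KA Pool.KSAT Pool.KS6

variable {J : ℕ}

/-- Implicit labels in the boxes of the frames. -/
theorem ciq_cdt {F : Fam 3 J} {Qt w lam J' D Pc : ℕ} {i0 : Fin 3} {A : F.Ω → Prop}
    (h : Pool.S6C.CIQ F Qt i0 w lam J' D Pc A) :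
    ∃ (hJ : w + J' ≤ J) (g n : F.Ω → Fin 3 → ℝ) (i1 : Fin 3) (x : F.Ω → Option (Fin 3) → ℝ)
      (V : Type) (z : F.Ω → V) (R : V → MvPolynomial (Option (Fin 3)) ℝ),
      Cdt F Qt w lam J' D Pc i0 A hJ g n i1 x z R := by
  obtain ⟨hJ, g, n, h1, ⟨φg, h2⟩, ⟨ψg, h3⟩, ⟨φp, h4⟩, i1, P₁, V, z, z', R, hP1, hP2, h5, h6⟩ := h
  refine ⟨hJ, g, n, i1, Pool.PB.txg (Fam.zm F w J' hJ (Box.plkC lam i0) g) i1 P₁, V,
    fun ω => z (Pool.PB.ptr (Fam.zm F w J' hJ (Box.plkC lam i0) g) J' ω),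
    R, h1, ?_, ?_, ?_, ?_, ?_, h5, fun ω hω o => ?_, fun ω hω => (h6 ω hω).2.1,
    fun ω hω => (h6 ω hω).2.2⟩
  · intro ω ω' hω hω' hp
    have e := (h2 ω' hω').trans ((congrArg φg hp).trans (h2 ω hω).symm)
    exact ⟨(Prod.ext_iff.1 e).1, (Prod.ext_iff.1 e).2⟩
  · intro ω ω' hs
    rw [h3, h3 ω, hs]
  · intro ω ω' hω hω' hp
    have e := (h4 ω' hω').trans ((congrArg φp hp).trans (h4 ω hω).symm)
    have e1 : F.blab w (Box.plkC lam i0) g ω' = F.blab w (Box.plkC lam i0) g ω :=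
      (Prod.ext_iff.1 (Prod.ext_iff.1 e).2).2
    have e2 := (Prod.ext_iff.1 (Prod.ext_iff.1 e1).1).2
    exact ⟨(Prod.ext_iff.1 e2).1, (Prod.ext_iff.1 e2).2⟩
  · intro ω ω' hω hω' hp
    have e := (h4 ω' hω').trans ((congrArg φp hp).trans (h4 ω hω).symm)
    exact congrArg z e
  · intro ω ω' hω hω' hs
    rw [(h6 ω hω).1, (h6 ω' hω').1]
    refine congrArg z' ?_
    have hg : g ω' = g ω := by rw [h3, h3 ω, hs]
    obtain ⟨b1, b2, b3, b4, b5⟩ := box_con F (lam := lam) (i0 := i0) hs hg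
    have e1 : (Fam.zm F w J' hJ (Box.plkC lam i0) g).l ω' =
        (Fam.zm F w J' hJ (Box.plkC lam i0) g).l ω := by
      refine Prod.ext ?_ ?_
      · funext i
        change (⌊(2 : ℝ) ^ J' * (F.box w (Box.plkC lam i0) g).u ω' i⌋ : ℝ) / 2 ^ J' =
          (⌊(2 : ℝ) ^ J' * (F.box w (Box.plkC lam i0) g).u ω i⌋ : ℝ) / 2 ^ J'
        rw [b3]
      · funext i
        change (⌊(2 : ℝ) ^ J' * (F.box w (Box.plkC lam i0) g).d ω' i⌋ : ℝ) / 2 ^ J' =
          (⌊(2 : ℝ) ^ J' * (F.box w (Box.plkC lam i0) g).d ω i⌋ : ℝ) / 2 ^ J'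
        rw [b4]
    have e2 : ∀ ω, (Fam.zm F w J' hJ (Box.plkC lam i0) g).T1 0 ω = 0 := by
      intro ω
      unfold Fam.T1
      rw [Nat.sub_zero]
      exact Nat.div_eq_of_lt ((Fam.zm F w J' hJ (Box.plkC lam i0) g).tim ω)
    refine Prod.ext e1 (Prod.ext b5 ?_)
    change (Fam.zm F w J' hJ (Box.plkC lam i0) g).T1 0 ω' =
      (Fam.zm F w J' hJ (Box.plkC lam i0) g).T1 0 ω
    rw [e2, e2]
  · obtain ⟨G, hG⟩ : ∃ G, G = Fam.zm F w J' hJ (Box.plkC lam i0) g := ⟨_, rfl⟩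
    have hle : (1 : ℝ) / 2 ^ P₁ ≤ 1 / 2 ^ Pc := Pool.PB.inv_mono hP1
    refine le_trans ?_ hle
    have fl1 : ∀ a : ℝ, |(⌊(2 : ℝ) ^ P₁ * a⌋ : ℝ) / 2 ^ P₁ - a| ≤ 1 / 2 ^ P₁ := fun a => by
      rw [abs_sub_comm]
      exact floor_near P₁ a
    rcases o with _ | j
    · exact fl1 _
    · unfold Pool.PB.txg txq
      simp only [Option.elim_some]
      by_cases hj : j = i1
      · rw [if_pos hj, if_pos hj]
        have h7 := T1_real (Fam.zm F w J' hJ (Box.plkC lam i0) g) (g := P₁) hP2 ω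
        have p : (0 : ℝ) < 2 ^ P₁ := by positivity
        rw [abs_sub_comm, abs_le]
        constructor
        · have h8 : (0 : ℝ) ≤ 1 / 2 ^ P₁ := by positivity
          have h9 : ((Fam.zm F w J' hJ (Box.plkC lam i0) g).T1 P₁ ω : ℝ) / 2 ^ P₁ ≤
              (Fam.zm F w J' hJ (Box.plkC lam i0) g).t ω := by
            rw [div_le_iff₀ p]
            linarith [h7.1]
          linarith
        · rw [le_div_iff₀ p, sub_mul, div_mul_cancel₀ _ p.ne']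
          linarith [h7.2]
      · rw [if_neg hj, if_neg hj]
        exact fl1 _

end Pool.S6P
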