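import Pool.Agent.H26.DIC.Fam7

/-!
# Exclusion of the alternatives: times, turning directions; planks from frames
-/

set_option autoImplicit false

namespace Pool.S6P

open Finset Real
open Pool.Agent.H49.Ent Pool.Agent.H32.Dense Pool.STK Pool.KA Pool.KSAT Pool.K2S Pool.KS6

/-! ### Times -/

/-- The time in the window is not a function of the line and the window. -/
theorem time_thin {m J : ℕ} (G : Fam m J) {w x : ℕ} (hwx : w + x ≤ J) {e : ℝ} (he : G.Tm e)
    (tt : ((Fin m → ℝ) × (Fin m → ℝ)) × G.ζ × ℕ → ℝ)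
    (h : ∀ ω, 0 < G.p ω → |(2 ^ w * G.t ω - G.T1 w ω) - tt (slam G w ω)| ≤ 1 / 2 ^ x) :
    x * Real.log 2 ≤ e + Real.log 5 := by
  have h0 := G.isLaw.nonneg
  unfold Fam.Tm at he
  have c1 := CH_le_add h0 G.T (G.T1 w) (fun ω => (G.l ω, G.Z ω))
  have d1 : CH G.p (G.T1 w) (fun ω => (G.l ω, G.Z ω)) ≤ w * Real.log 2 := by
    refine (CH_le_card h0 G.isLaw.sum_one (G.T1 w) _ (fun _ => Finset.range (2 ^ w)) ?_).trans ?_
    · intro ω _
      rw [Finset.mem_range]
      unfold Fam.T1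
      rw [Nat.div_lt_iff_lt_mul (by positivity), ← pow_add]
      have h1 := G.tim ω
      have e1 : w + (J - w) = J := by omega
      rwa [e1]
    · rw [Finset.card_range]
      push_cast
      rw [Ex_const G.isLaw.sum_one, Real.log_pow]
  have d2 : CH G.p G.T (fun ω => (G.T1 w ω, (G.l ω, G.Z ω))) ≤
      Real.log (2 * (2 * 2 ^ (J - w - x)) + 1) := by
    have e1 : CH G.p G.T (fun ω => (G.T1 w ω, (G.l ω, G.Z ω))) ≤
        CH G.p (fun ω => (fun _ : Fin 1 => (G.T ω : ℤ)))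
          (fun ω => (G.T1 w ω, (G.l ω, G.Z ω))) := by
      refine CH_mono_left h0 fun ω ω' _ _ h1 => ?_
      have h2 := congrFun (Prod.ext_iff.1 h1).1 0
      simp only at h2
      exact_mod_cast h2
    have e2 := CH_le_vec (d := 1) h0 G.isLaw.sum_one (fun ω => (fun _ : Fin 1 => (G.T ω : ℤ)))
      (fun ω => (G.T1 w ω, (G.l ω, G.Z ω))) (fun _ => 2 * 2 ^ (J - w - x)) (by
        intro ω ω' hω hω' hs k
        have s1 : G.T1 w ω = G.T1 w ω' := (Prod.ext_iff.1 hs).1
        have s2 := Prod.ext_iff.1 (Prod.ext_iff.1 hs).2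
        have s3 : slam G w ω = slam G w ω' := Prod.ext s2.1 (Prod.ext s2.2 s1)
        have a1 := h ω hω
        have a2 := h ω' hω'
        rw [← s3, ← s1] at a2
        obtain ⟨q, hq⟩ : ∃ q : ℝ, q = 2 ^ (J - w - x) := ⟨_, rfl⟩
        have hq0 : 0 < q := by rw [hq]; positivity
        have ex : (2 : ℝ) ^ J = 2 ^ w * (2 ^ x * q) := by
          rw [hq, ← pow_add, ← pow_add]
          congr 1
          omega
        have b1 : |2 ^ w * G.t ω - 2 ^ w * G.t ω'| ≤ 2 / 2 ^ x := by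
          have e3 : (2 : ℝ) ^ w * G.t ω - 2 ^ w * G.t ω' =
              ((2 ^ w * G.t ω - G.T1 w ω) - tt (slam G w ω)) -
              ((2 ^ w * G.t ω' - G.T1 w ω) - tt (slam G w ω)) := by ring
          rw [e3]
          refine (abs_sub _ _).trans ?_
          have e4 : (2 : ℝ) / 2 ^ x = 1 / 2 ^ x + 1 / 2 ^ x := by ring
          linarith
        have b2 : ((G.T ω : ℝ) - G.T ω') = (2 ^ w * G.t ω - 2 ^ w * G.t ω') * (2 ^ x * q) := by
          unfold Fam.t
          rw [ex]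
          have p1 : (2 : ℝ) ^ w ≠ 0 := by positivity
          have p2 : (2 : ℝ) ^ x ≠ 0 := by positivity
          field_simp
        push_cast
        rw [b2, abs_mul, abs_of_pos (by positivity : (0 : ℝ) < 2 ^ x * q)]
        have b3 := mul_le_mul_of_nonneg_right b1 (by positivity : (0 : ℝ) ≤ 2 ^ x * q)
        refine b3.trans (le_of_eq ?_)
        rw [← hq]
        field_simp)
    rw [Ex_const G.isLaw.sum_one] at e2
    push_cast at e2
    rw [one_mul] at e2
    exact e1.trans e2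
  have d3 : Real.log (2 * (2 * 2 ^ (J - w - x)) + 1) ≤
      Real.log 5 + ((J - w - x : ℕ) : ℝ) * Real.log 2 := by
    rw [← Real.log_pow, ← Real.log_mul (by norm_num) (by positivity)]
    refine Real.log_le_log (by positivity) ?_
    have : (1 : ℝ) ≤ 2 ^ (J - w - x) := one_le_pow₀ (by norm_num)
    linarith
  have d4 : ((J - w - x : ℕ) : ℝ) = (J : ℝ) - w - x := by
    rw [Nat.sub_sub, Nat.cast_sub hwx]
    push_cast
    ring
  rw [d4] at d3
  have e5 : ((J : ℝ) - w - x) * Real.log 2 = J * Real.log 2 - w * Real.log 2 -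
      x * Real.log 2 := by ring
  rw [e5] at d3
  linarith

/-- The time in the window is not a function of the line and the window (claim). -/
theorem time_claim {m : ℕ} {a R : ℝ} (ha : 1 ≤ a) {ξ : ℝ} (hξ : 0 < ξ) :
    ∃ τ > 0, ∃ J₁ : ℕ, ∀ J ≥ J₁, ∀ (F : Fam m J) (A : F.Ω → Prop), Fam.Stt F a R τ A →
      ∀ w x : ℕ, w + x ≤ J → ξ * J ≤ x →
      ¬ ∃ tt : ((Fin m → ℝ) × (Fin m → ℝ)) × F.ζ × ℕ → ℝ, ∀ ω, A ω →
        |(2 ^ w * F.t ω - F.T1 w ω) - tt (slam F w ω)| ≤ 1 / 2 ^ x := by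
  have l2 : 0 < Real.log 2 := Real.log_pos (by norm_num)
  obtain ⟨τ, hτ⟩ : ∃ τ, τ = ξ * Real.log 2 / (12 * (1 + a)) := ⟨_, rfl⟩
  have hτ0 : 0 < τ := by rw [hτ]; positivity
  obtain ⟨J₁, hJ₁⟩ := exists_nat_gt (2 * Real.log 5 / (ξ * Real.log 2))
  refine ⟨τ, hτ0, J₁, fun J hJ F A hS w x hwx hx => ?_⟩
  rintro ⟨tt, htt⟩
  obtain ⟨hlaw, -, hMx, -⟩ := hS.res ha hτ0.le
  have hTm : (F.res A True hlaw).Tm ((1 + a) * (6 * τ) * J) := hMx.1
  have hJr : 2 * Real.log 5 / (ξ * Real.log 2) < J := hJ₁.trans_le (by exact_mod_cast hJ)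
  rw [div_lt_iff₀ (by positivity)] at hJr
  have key := time_thin (F.res A True hlaw) hwx hTm tt (fun ω hω => by
    have hω' : 0 < Pool.Agent.H49.Ent.cond F.p A True ω := hω
    have hωA := ((cond_pos_iff F.isLaw.nonneg A True ω).1 hω').2
    have hA' : A ω := by simpa using hωA
    exact htt ω hA')
  have e1 : (1 + a) * (6 * τ) * J = ξ * Real.log 2 / 2 * J := by
    rw [hτ]
    field_simp
    ring
  rw [e1] at key
  have h3 : ξ * J * Real.log 2 ≤ x * Real.log 2 := mul_le_mul_of_nonneg_right hx l2.le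
  nlinarith

end Pool.S6P
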