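import Pool.Agent.H26.DIC.Fam8

/-!
# Planks with given frames; the trivial planks; constancy of all directions
-/

set_option autoImplicit false

namespace Pool.S6P

open MvPolynomial Finset Pool.K2S Pool.STK Pool.KA Pool.KSAT Pool.KS6

variable {J : ℕ} {F : Fam 3 J} {Qt w lam P S : ℕ} {i0 iu iN : Fin 3}

/-- **A plank with given frame and normal form.** -/
theorem mk_plank_e {B : F.Ω → Prop} {ju jN : Fin 3} (hi : ∀ j : Fin 3, j = i0 ∨ j = ju ∨ j = jN)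
    {P' l : ℕ} (hw : w + l ≤ P') (hP : P' ≤ Qt) (hQ : Qt ≤ J) (e c s μ ν : F.Ω → ℝ)
    (h1 : ∀ ω ω', B ω → B ω' → Pool.KS6.ptq F Qt ω' = Pool.KS6.ptq F Qt ω →
      e ω' = e ω ∧ c ω' = c ω ∧ s ω' = s ω ∧ μ ω' = μ ω ∧ ν ω' = ν ω)
    (h2 : ∀ ω ω', B ω → B ω' → slam F w ω' = slam F w ω →
      e ω' = e ω ∧ c ω' = c ω ∧ s ω' = s ω)
    (he : ∀ ω, B ω → |e ω| ≤ 2) (hc : ∀ ω, B ω → |c ω| ≤ 4) (hs : ∀ ω, B ω → |s ω| ≤ 4)
    (hμ : ∀ ω, B ω → |fu i0 ju (e ω) (F.d ω) - μ ω| ≤ 20 / 2 ^ l)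
    (hν : ∀ ω, B ω → |fn i0 ju jN (c ω) (s ω) (F.d ω) - ν ω| ≤ 20 * 2 ^ w / 2 ^ P') :
    Big F.p cLab B (LABq F Qt i0 ju jN w l P' 2) := by
  classical
  obtain ⟨n1, n2, n3⟩ := three hi
  rcases (Pe_nonneg F.isLaw B).eq_or_lt with h0 | h0
  · refine ⟨fun _ => False, fun _ h => h.elim, ?_, lab_false⟩
    rw [← h0]
    exact mul_nonneg cLab_pos.le (Pe_nonneg F.isLaw _)
  obtain ⟨yf, hyf⟩ : ∃ yf : F.Ω → Pln, yf = fun ω =>
      { e := e ω, c := c ω, s := s ω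
        xb := fun i => (F.X Qt ω i : ℝ) / 2 ^ Qt - F.t ω *
          Pool.KS6.bp i0 ju (e ω) (c ω) (s ω) 0 (μ ω) (ν ω) i
        db := Pool.KS6.bp i0 ju (e ω) (c ω) (s ω) 0 (μ ω) (ν ω) } := ⟨_, rfl⟩
  obtain ⟨zf, hzf⟩ : ∃ zf : F.Ω → Pln, zf = fun ω =>
      { e := e ω, c := c ω, s := s ω, xb := fun _ => 0, db := fun _ => 0 } := ⟨_, rfl⟩
  obtain ⟨φ, hφ⟩ := exists_fn B (Pool.KS6.ptq F Qt) yf (fun ω ω' hω hω' hp => by
    obtain ⟨a1, a2, a3, a4, a5⟩ := h1 ω ω' hω hω' hp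
    have hX : F.X Qt ω' = F.X Qt ω := (Prod.ext_iff.1 hp).1
    have hT : F.T ω' = F.T ω := (Prod.ext_iff.1 (Prod.ext_iff.1 hp).2).1
    rw [hyf]
    simp only
    unfold Fam.t
    rw [a1, a2, a3, a4, a5, hX, hT])
  obtain ⟨ζ, hζ⟩ := exists_fn B (slam F w) zf (fun ω ω' hω hω' hp => by
    obtain ⟨a1, a2, a3⟩ := h2 ω ω' hω hω' hp
    rw [hzf]
    simp only
    rw [a1, a2, a3])
  have hI : ∀ ω, B ω → Inc i0 ju jN w l P' 20 (yf ω) (F.t ω) (F.x ω) (F.d ω) := by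
    intro ω hω
    have ye : (yf ω).e = e ω := by rw [hyf]
    have yc : (yf ω).c = c ω := by rw [hyf]
    have ys : (yf ω).s = s ω := by rw [hyf]
    have yd : (yf ω).db = Pool.KS6.bp i0 ju (e ω) (c ω) (s ω) 0 (μ ω) (ν ω) := by rw [hyf]
    have hx : ∀ i, |F.x ω i - (F.X Qt ω i : ℝ) / 2 ^ Qt| ≤ 1 / 2 ^ Qt := fun i =>
      floor_near Qt (F.x ω i)
    have hmv : ∀ i, (yf ω).xb i + F.t ω * (yf ω).db i = (F.X Qt ω i : ℝ) / 2 ^ Qt := by
      intro i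
      rw [hyf]
      change (_ : ℝ) - F.t ω * _ + F.t ω * _ = _
      ring
    have hmv' : (fun i => (yf ω).xb i + F.t ω * (yf ω).db i) =
        fun i => (F.X Qt ω i : ℝ) / 2 ^ Qt := funext hmv
    have i1 : (1 : ℝ) / 2 ^ Qt ≤ 1 / 2 ^ P' := Pool.PB.inv_mono hP
    have i2 : (1 : ℝ) / 2 ^ Qt ≤ 1 / 2 ^ w := Pool.PB.inv_mono (by omega)
    have i3 : (1 : ℝ) / 2 ^ Qt ≤ 1 / 2 ^ (w + l) := Pool.PB.inv_mono (hw.trans hP)
    refine ⟨?_, ?_, ?_, ?_, ?_, ?_, ?_, ?_, ?_⟩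
    · rw [ye]; exact he ω hω
    · rw [yc]; exact hc ω hω
    · rw [ys]; exact hs ω hω
    · rw [hmv]
      refine (hx i0).trans (i2.trans ?_)
      exact div_le_div_of_nonneg_right (by norm_num) (by positivity)
    · rw [hmv', ye]
      have e1 : fu i0 ju (e ω) (F.x ω) - fu i0 ju (e ω) (fun i => (F.X Qt ω i : ℝ) / 2 ^ Qt) =
          (F.x ω ju - (F.X Qt ω ju : ℝ) / 2 ^ Qt) -
            e ω * (F.x ω i0 - (F.X Qt ω i0 : ℝ) / 2 ^ Qt) := by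
        unfold fu
        ring
      rw [e1]
      have e2 : |e ω * (F.x ω i0 - (F.X Qt ω i0 : ℝ) / 2 ^ Qt)| ≤ 2 * (1 / 2 ^ Qt) := by
        rw [abs_mul]
        exact mul_le_mul (he ω hω) (hx i0) (abs_nonneg _) (by norm_num)
      refine (abs_sub _ _).trans ?_
      have e4 : (20 : ℝ) / 2 ^ (w + l) = 20 * (1 / 2 ^ (w + l)) := by ring
      rw [e4]
      have := hx ju
      have : (0 : ℝ) < 1 / 2 ^ (w + l) := by positivity
      linarith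
    · rw [hmv', yc, ys]
      have e1 : fn i0 ju jN (c ω) (s ω) (F.x ω) -
          fn i0 ju jN (c ω) (s ω) (fun i => (F.X Qt ω i : ℝ) / 2 ^ Qt) =
          c ω * (F.x ω i0 - (F.X Qt ω i0 : ℝ) / 2 ^ Qt) +
            s ω * (F.x ω ju - (F.X Qt ω ju : ℝ) / 2 ^ Qt) +
            (F.x ω jN - (F.X Qt ω jN : ℝ) / 2 ^ Qt) := by
        unfold fn
        ring
      rw [e1]
      have e2 : |c ω * (F.x ω i0 - (F.X Qt ω i0 : ℝ) / 2 ^ Qt)| ≤ 4 * (1 / 2 ^ Qt) := by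
        rw [abs_mul]
        exact mul_le_mul (hc ω hω) (hx i0) (abs_nonneg _) (by norm_num)
      have e3 : |s ω * (F.x ω ju - (F.X Qt ω ju : ℝ) / 2 ^ Qt)| ≤ 4 * (1 / 2 ^ Qt) := by
        rw [abs_mul]
        exact mul_le_mul (hs ω hω) (hx ju) (abs_nonneg _) (by norm_num)
      refine (abs_add_three _ _ _).trans ?_
      have e4 : (20 : ℝ) / 2 ^ P' = 20 * (1 / 2 ^ P') := by ring
      rw [e4]
      have := hx jN
      have : (0 : ℝ) < 1 / 2 ^ P' := by positivity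
      linarith
    · rw [yd, bp_i0, sub_zero]
      exact (F.dir ω i0).trans (by norm_num)
    · rw [ye, yd, bp_fu n1]
      exact hμ ω hω
    · rw [yc, ys, yd, bp_fn n1 n2 n3]
      exact hν ω hω
  obtain ⟨B', b1, b2, b3⟩ := lab_prod F hQ hi (C := 20) (v := w) (l2 := l) (sg := P')
    (ag := P') (P2 := P') (by norm_num) h0 hI hφ (ζ := ζ) (fun ω hω => by
      rw [← hζ ω hω]
      have ye : (yf ω).e = e ω := by rw [hyf]
      have yc : (yf ω).c = c ω := by rw [hyf]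
      have ys : (yf ω).s = s ω := by rw [hyf]
      have ze : (zf ω).e = e ω := by rw [hzf]
      have zc : (zf ω).c = c ω := by rw [hzf]
      have zs : (zf ω).s = s ω := by rw [hzf]
      rw [ye, yc, ys, ze, zc, zs]
      unfold Ae
      rw [sub_self, sub_self, sub_self, zero_mul, add_zero, abs_zero]
      refine ⟨by positivity, by positivity, by positivity⟩) le_rfl (by omega) (by omega)
      (by omega) le_rfl hP
  refine ⟨B', b1, ?_, b3⟩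
  unfold cLab
  have e1 : Real.exp (8 * (3 * Real.log 15 + 6 * Real.log (16 * 20 + 21))) *
      Real.exp (-(8 * (3 * Real.log 15 + 6 * Real.log (16 * 20 + 21)))) = 1 := by
    rw [← Real.exp_add, add_neg_cancel, Real.exp_zero]
  obtain ⟨X, hX⟩ : ∃ X, X = Real.exp (8 * (3 * Real.log 15 + 6 * Real.log (16 * 20 + 21))) :=
    ⟨_, rfl⟩
  obtain ⟨Y, hY⟩ : ∃ Y, Y = Real.exp (-(8 * (3 * Real.log 15 + 6 * Real.log (16 * 20 + 21)))) :=
    ⟨_, rfl⟩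
  rw [← hX, ← hY] at e1
  rw [← hY] at b2
  rw [← hX]
  have hX0 : 0 < X := by rw [hX]; positivity
  have h3 := mul_le_mul_of_nonneg_left b2 hX0.le
  have e2 : X * (Y / 2 * Pe F.p B) = X * Y * Pe F.p B / 2 := by ring
  rw [e2, e1] at h3
  linarith


end Pool.S6P
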