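import Pool.Agent.H26.DIC.Pol4

/-!
# Polynomials in four variables: restrictions to lines, gradients, bounds

The variables are `0`: normal coordinate, `1`: time, `2`, `3`: the two coordinates of the base.
`Bd F d B`: the degree of `F` is at most `d` and `|F| ≤ B * M ^ (2 * d)` on the cubes of size `M`.
-/

set_option autoImplicit false

namespace Pool.S6P

open MvPolynomial Finset

/-- Polynomials in four variables. -/
abbrev P4 : Type := MvPolynomial (Fin 4) ℝ

/-! ### One variable -/

theorem eval_le_of_coeff {p : Polynomial ℝ} {d : ℕ} (hp : p.natDegree ≤ d) {ε Z z : ℝ}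
    (hZ : 1 ≤ Z) (hε : 0 ≤ ε) (hc : ∀ m, |p.coeff m| ≤ ε) (hz : |z| ≤ Z) :
    |p.eval z| ≤ (d + 1) * Z ^ d * ε := by
  rw [Polynomial.eval_eq_sum_range' (Nat.lt_succ_of_le hp)]
  refine (Finset.abs_sum_le_sum_abs _ _).trans ?_
  calc ∑ i ∈ range (d + 1), |p.coeff i * z ^ i| ≤ ∑ _i ∈ range (d + 1), ε * Z ^ d := by
        refine Finset.sum_le_sum fun i hi => ?_
        rw [abs_mul, abs_pow]
        have h1 : |z| ^ i ≤ Z ^ i := pow_le_pow_left₀ (abs_nonneg _) hz i
        have h2 : Z ^ i ≤ Z ^ d := pow_le_pow_right₀ hZ (by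
          have := Finset.mem_range.1 hi; omega)
        exact mul_le_mul (hc i) (h1.trans h2) (by positivity) hε
    _ = (d + 1) * Z ^ d * ε := by
        rw [Finset.sum_const, card_range, nsmul_eq_mul]
        push_cast
        ring

theorem eval_sub_zero_le {p : Polynomial ℝ} {d : ℕ} (hp : p.natDegree ≤ d) {ε z : ℝ}
    (hε : 0 ≤ ε) (hc : ∀ m, |p.coeff m| ≤ ε) (hz : |z| ≤ 1) :
    |p.eval z - p.eval 0| ≤ d * ε * |z| := by
  rw [Polynomial.eval_eq_sum_range' (Nat.lt_succ_of_le hp) z,
    Polynomial.eval_eq_sum_range' (Nat.lt_succ_of_le hp) 0, Finset.sum_range_succ',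
    Finset.sum_range_succ']
  have e1 : ∑ k ∈ range d, p.coeff (k + 1) * (0 : ℝ) ^ (k + 1) = 0 :=
    Finset.sum_eq_zero fun k _ => by simp
  rw [e1]
  have e2 : ∑ k ∈ range d, p.coeff (k + 1) * z ^ (k + 1) + p.coeff 0 * z ^ 0 -
      (0 + p.coeff 0 * 0 ^ 0) = ∑ k ∈ range d, p.coeff (k + 1) * z ^ (k + 1) := by
    simp
  rw [e2]
  refine (Finset.abs_sum_le_sum_abs _ _).trans ?_
  calc ∑ i ∈ range d, |p.coeff (i + 1) * z ^ (i + 1)| ≤ ∑ _i ∈ range d, ε * |z| := by
        refine Finset.sum_le_sum fun i _ => ?_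
        rw [abs_mul, abs_pow]
        refine mul_le_mul (hc _) ?_ (by positivity) hε
        rw [pow_succ]
        have : |z| ^ i ≤ 1 := pow_le_one₀ (abs_nonneg _) hz
        nlinarith [abs_nonneg z]
    _ = d * ε * |z| := by
        rw [Finset.sum_const, card_range, nsmul_eq_mul]
        ring

/-! ### Restrictions to lines -/

/-- A line in the four dimensional space. -/
noncomputable def lz (b c : Fin 4 → ℝ) (i : Fin 4) : Polynomial ℝ :=
  Polynomial.C (b i) + Polynomial.C (c i) * Polynomial.X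

theorem eval_lz (b c : Fin 4 → ℝ) (F : P4) (z : ℝ) :
    (aeval (lz b c) F).eval z = eval (fun i => b i + z * c i) F := by
  have h := comp_aeval_apply (R := ℝ) (lz b c) (Polynomial.aeval z) F
  rw [Polynomial.coe_aeval_eq_eval] at h
  rw [h, MvPolynomial.aeval_def]
  change eval₂ (RingHom.id ℝ) _ F = _
  rw [eval₂_id]
  have e : (fun i => Polynomial.eval z (lz b c i)) = fun i => b i + z * c i := by
    funext i
    unfold lz
    simp only [Polynomial.eval_add, Polynomial.eval_C, Polynomial.eval_mul, Polynomial.eval_X]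
    ring
  rw [e]

theorem natDegree_lz (b c : Fin 4 → ℝ) {F : P4} {d : ℕ} (hF : F.totalDegree ≤ d) :
    (aeval (lz b c) F).natDegree ≤ d := by
  have hf : ∀ i, (lz b c i).natDegree ≤ 1 := fun i => by
    unfold lz
    refine (Polynomial.natDegree_add_le _ _).trans (max_le ?_ ?_)
    · rw [Polynomial.natDegree_C]; exact Nat.zero_le _
    · exact (Polynomial.natDegree_C_mul_le _ _).trans Polynomial.natDegree_X_le
  rw [MvPolynomial.aeval_def, eval₂_eq']
  refine Polynomial.natDegree_sum_le_of_forall_le _ _ fun μ hμ => ?_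
  refine (Polynomial.natDegree_C_mul_le _ _).trans ?_
  refine (Polynomial.natDegree_prod_le _ _).trans ?_
  have h1 : ∀ i ∈ (Finset.univ : Finset (Fin 4)), (lz b c i ^ μ i).natDegree ≤ μ i := fun i _ => by
    refine (Polynomial.natDegree_pow_le).trans ?_
    calc μ i * (lz b c i).natDegree ≤ μ i * 1 := Nat.mul_le_mul_left _ (hf i)
      _ = μ i := mul_one _
  refine (Finset.sum_le_sum h1).trans ?_
  have h2 := le_totalDegree hμ
  rw [Finsupp.sum_fintype _ _ (fun _ => rfl)] at h2
  exact h2.trans hF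

/-- The chain rule. -/
theorem der_aeval (f : Fin 4 → Polynomial ℝ) (F : P4) :
    Polynomial.derivative (aeval f F) = ∑ i, aeval f (pderiv i F) * Polynomial.derivative (f i) := by
  induction F using MvPolynomial.induction_on with
  | C a =>
    rw [aeval_C]
    simp
  | add p q hp hq =>
    simp only [map_add, hp, hq, add_mul, Finset.sum_add_distrib]
  | mul_X p j hp =>
    rw [map_mul, aeval_X, Polynomial.derivative_mul, hp, Finset.sum_mul]
    have e : ∀ i, aeval f (pderiv i (p * X j)) * Polynomial.derivative (f i) =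
        aeval f (pderiv i p) * Polynomial.derivative (f i) * f j +
          (if i = j then aeval f p * Polynomial.derivative (f j) else 0) := by
      intro i
      rw [Derivation.leibniz, smul_eq_mul, smul_eq_mul, map_add, map_mul, map_mul, aeval_X]
      by_cases h : i = j
      · subst h
        rw [pderiv_X_self, map_one, if_pos rfl]
        ring
      · rw [pderiv_X_of_ne (Ne.symm h), map_zero, if_neg h]
        ring
    rw [Finset.sum_congr rfl fun i _ => e i, Finset.sum_add_distrib, Finset.sum_ite_eq' univ j,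
      if_pos (Finset.mem_univ j)]

theorem der_lz (b c : Fin 4 → ℝ) (i : Fin 4) :
    Polynomial.derivative (lz b c i) = Polynomial.C (c i) := by
  unfold lz
  simp

/-- The linear coefficient of the restriction to a line. -/
theorem coeff_one_lz (b c : Fin 4 → ℝ) (F : P4) :
    (aeval (lz b c) F).coeff 1 = ∑ i, eval b (pderiv i F) * c i := by
  have h := der_aeval (lz b c) F
  have h1 : (Polynomial.derivative (aeval (lz b c) F)).eval 0 = (aeval (lz b c) F).coeff 1 := by
    rw [← Polynomial.coeff_zero_eq_eval_zero, Polynomial.coeff_derivative]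
    simp
  rw [← h1, h, Polynomial.eval_finsetSum]
  refine Finset.sum_congr rfl fun i _ => ?_
  rw [Polynomial.eval_mul, der_lz, Polynomial.eval_C, eval_lz]
  simp

/-! ### Bounds -/

theorem td_pderiv_le (p : P4) (i : Fin 4) :
    (MvPolynomial.pderiv i p).totalDegree ≤ p.totalDegree := by
  classical
  rw [p.as_sum, map_sum]
  refine (totalDegree_finsetSum _ _).trans ?_
  rw [← p.as_sum]
  refine Finset.sup_le fun s hs => ?_
  rw [pderiv_monomial]
  refine (totalDegree_monomial_le _ _).trans ?_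
  refine le_trans ?_ (le_totalDegree hs)
  have h1 : (s - Finsupp.single i 1) ≤ s := tsub_le_self
  exact Finsupp.sum_le_sum_index h1 (fun j _ => monotone_id) (fun j _ => rfl)

/-- The degree of `F` is at most `d`, and `|F| ≤ B * M ^ (2 * d)` on the cube of size `M`. -/
def Bd (F : P4) (d : ℕ) (B : ℝ) : Prop :=
  F.totalDegree ≤ d ∧ ∀ M : ℝ, 1 ≤ M → ∀ b : Fin 4 → ℝ, (∀ i, |b i| ≤ M) →
    |eval b F| ≤ B * M ^ (2 * d)

/-- The constant of the Markov inequality. -/
noncomputable def cV (d : ℕ) : ℝ := (32 * d) ^ d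

theorem cV_pos {d : ℕ} (hd : 1 ≤ d) : 1 ≤ cV d := by
  unfold cV
  refine one_le_pow₀ ?_
  have : (1 : ℝ) ≤ d := by exact_mod_cast hd
  linarith

theorem Bd.nonneg {F : P4} {d : ℕ} {B : ℝ} (h : Bd F d B) : 0 ≤ B := by
  have := h.2 1 le_rfl (fun _ => 0) (fun _ => by simp)
  rw [one_pow, mul_one] at this
  exact (abs_nonneg _).trans this

/-- Coefficients of the restriction to a line. -/
theorem Bd.coeff {F : P4} {d : ℕ} {B : ℝ} (h : Bd F d B) (hd : 1 ≤ d) {M : ℝ} (hM : 1 ≤ M)
    {b c : Fin 4 → ℝ} (hb : ∀ i, |b i| ≤ M) (hc : ∀ i, |c i| ≤ 1) (m : ℕ) :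
    |(aeval (lz b c) F).coeff m| ≤ cV d * B * M ^ (2 * d) := by
  obtain ⟨n1, n2⟩ := nodes hd
  have hd0 : (0 : ℝ) < d := by exact_mod_cast hd
  have hd1 : (1 : ℝ) / d ≤ 1 := by
    rw [div_le_one hd0]
    exact_mod_cast hd
  have key := vander (K := 1) (ρ := 1 / d) le_rfl (by positivity) hd1 d (aeval (lz b c) F)
    (natDegree_lz b c h.1) (fun k => (k : ℝ) / d) n1 n2 (B * (M + 1) ^ (2 * d))
    (mul_nonneg h.nonneg (by positivity)) (fun i hi => by
      rw [eval_lz]
      refine h.2 (M + 1) (by linarith) _ fun j => ?_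
      refine (abs_add_le _ _).trans ?_
      rw [abs_mul]
      have := mul_le_mul (n1 i hi) (hc j) (abs_nonneg _) zero_le_one
      linarith [hb j]) m
  refine key.trans ?_
  have e1 : (8 * 1 / (1 / (d : ℝ))) = 8 * d := by field_simp
  rw [e1]
  have e2 : (M + 1) ^ (2 * d) ≤ 4 ^ d * M ^ (2 * d) := by
    have : (M + 1) ^ (2 * d) ≤ (2 * M) ^ (2 * d) := pow_le_pow_left₀ (by linarith) (by linarith) _
    refine this.trans (le_of_eq ?_)
    rw [mul_pow, pow_mul 2 2 d]
    norm_num
  have e3 : cV d = (8 * d) ^ d * 4 ^ d := by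
    unfold cV
    rw [← mul_pow]
    congr 1
    ring
  rw [e3]
  have hB := h.nonneg
  have : (8 * (d : ℝ)) ^ d * (B * (M + 1) ^ (2 * d)) ≤
      (8 * (d : ℝ)) ^ d * (B * (4 ^ d * M ^ (2 * d))) := by
    refine mul_le_mul_of_nonneg_left (mul_le_mul_of_nonneg_left e2 hB) (by positivity)
  refine this.trans (le_of_eq (by ring))

/-- **Gradients are bounded.** -/
theorem Bd.pderiv {F : P4} {d : ℕ} {B : ℝ} (h : Bd F d B) (hd : 1 ≤ d) (i : Fin 4) :
    Bd (pderiv i F) d (cV d * B) := by
  classical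
  refine ⟨?_, fun M hM b hb => ?_⟩
  · exact (td_pderiv_le F i).trans h.1
  · have key := h.coeff hd hM hb (c := Pi.single i 1) (fun j => by
      by_cases hj : j = i
      · subst hj; simp
      · rw [Pi.single_eq_of_ne hj]; simp) 1
    rw [coeff_one_lz] at key
    have e : ∑ j, eval b (MvPolynomial.pderiv j F) * (Pi.single i 1 : Fin 4 → ℝ) j =
        eval b (MvPolynomial.pderiv i F) := by
      rw [Finset.sum_eq_single i]
      · simp
      · intro j _ hj
        rw [Pi.single_eq_of_ne hj, mul_zero]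
      · intro hi
        exact absurd (Finset.mem_univ i) hi
    rwa [e] at key

/-- **Lipschitz bound.** -/
theorem Bd.lip {F : P4} {d : ℕ} {B : ℝ} (h : Bd F d B) (hd : 1 ≤ d) {M δ : ℝ} (hM : 1 ≤ M)
    (hδ1 : δ ≤ 1) {b b' : Fin 4 → ℝ} (hb : ∀ i, |b i| ≤ M) (hbb : ∀ i, |b' i - b i| ≤ δ) :
    |eval b' F - eval b F| ≤ d * (cV d * B * M ^ (2 * d)) * δ := by
  have hδ0 : 0 ≤ δ := (abs_nonneg _).trans (hbb 0)
  rcases hδ0.eq_or_lt with h0 | h0
  · have e : b' = b := by
      funext i
      have := hbb i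
      rw [← h0] at this
      have := abs_nonpos_iff.1 this
      linarith
    rw [e, sub_self, abs_zero, ← h0, mul_zero]
  · obtain ⟨c, hc⟩ : ∃ c : Fin 4 → ℝ, c = fun i => (b' i - b i) / δ := ⟨_, rfl⟩
    have hc1 : ∀ i, |c i| ≤ 1 := fun i => by
      rw [hc]
      simp only
      rw [abs_div, abs_of_pos h0, div_le_one h0]
      exact hbb i
    have hB := h.nonneg
    have hcV : 0 ≤ cV d := zero_le_one.trans (cV_pos hd)
    have key := eval_sub_zero_le (natDegree_lz b c h.1) (ε := cV d * B * M ^ (2 * d)) (z := δ)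
      (by positivity) (fun m => h.coeff hd hM hb hc1 m) (by rw [abs_of_pos h0]; exact hδ1)
    rw [eval_lz, eval_lz, abs_of_pos h0] at key
    have e1 : (fun i => b i + δ * c i) = b' := by
      funext i
      rw [hc]
      simp only
      field_simp
      ring
    have e2 : (fun i => b i + 0 * c i) = b := by
      funext i
      ring
    rw [e1, e2] at key
    exact key

/-- Bounded factors. -/
theorem Bd.C_mul {F : P4} {d : ℕ} {B c : ℝ} (h : Bd F d B) : Bd (C c * F) d (|c| * B) := by
  refine ⟨?_, fun M hM b hb => ?_⟩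
  · refine (totalDegree_mul _ _).trans ?_
    rw [totalDegree_C, zero_add]
    exact h.1
  · rw [eval_mul, eval_C, abs_mul, mul_assoc]
    exact mul_le_mul_of_nonneg_left (h.2 M hM b hb) (abs_nonneg _)

theorem totalDegree_pderiv_iter (i : Fin 4) (F : P4) (j : ℕ) :
    ((MvPolynomial.pderiv i)^[j] F).totalDegree ≤ F.totalDegree := by
  induction j with
  | zero => exact le_rfl
  | succ j ih =>
    rw [Function.iterate_succ_apply']
    exact (td_pderiv_le _ i).trans ih

theorem Bd.iter {F : P4} {d : ℕ} {B : ℝ} (h : Bd F d B) (hd : 1 ≤ d) (i : Fin 4) (j : ℕ) :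
    Bd ((MvPolynomial.pderiv i)^[j] F) d (cV d ^ j * B) := by
  induction j with
  | zero => simpa using h
  | succ j ih =>
    rw [Function.iterate_succ_apply', pow_succ, mul_comm (cV d ^ j), mul_assoc]
    exact ih.pderiv hd i

end Pool.S6P
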