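import Pool.Agent.H26.DIC.Imp1

/-!
# Lines with implicit labels: tangency, straightness of the fans, tangent planes

Samples with a point, a window and a line in box coordinates `0`, `1` (base) and `2` (normal); the
fans are straight in the base. The label is a polynomial `S` in normal coordinate, time and base,
which vanishes nearly at the samples and has a large normal derivative.
-/

set_option autoImplicit false

namespace Pool.S6P

open MvPolynomial Finset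

variable {Ω U V : Type}

/-- Data. -/
structure Idp (Ω U V : Type) where
  /-- point -/
  pt : Ω → U
  /-- line and window -/
  wn : Ω → V
  /-- time in the window -/
  s : Ω → ℝ
  /-- position at the base time -/
  Y : Ω → Fin 3 → ℝ
  /-- velocity -/
  D : Ω → Fin 3 → ℝ
  /-- slope of the fans in the base -/
  e : U → ℝ
  /-- offset of the fans in the base -/
  n : U → ℝ

namespace Idp

/-- The position. -/
noncomputable def x (X : Idp Ω U V) (ω : Ω) (i : Fin 3) : ℝ := X.Y ω i + X.s ω * X.D ω i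

/-- The sample in the variables of the label. -/
noncomputable def pp (X : Idp Ω U V) (ω : Ω) : Fin 4 → ℝ := ![X.x ω 2, X.s ω, X.x ω 0, X.x ω 1]

/-- The direction in the variables of the label. -/
noncomputable def vd (X : Idp Ω U V) (ω : Ω) : Fin 4 → ℝ := ![X.D ω 2, 1, X.D ω 0, X.D ω 1]

/-- Geometry; `r` is the precision of the frames and of the points. -/
structure Geo (X : Idp Ω U V) (A : Ω → Prop) (K r : ℝ) : Prop where
  hK : 1 ≤ K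
  r0 : 0 ≤ r
  r1 : r ≤ 1
  spt : ∀ ω ω', A ω → A ω' → X.pt ω' = X.pt ω → X.s ω' = X.s ω
  ypt : ∀ ω ω', A ω → A ω' → X.pt ω' = X.pt ω → ∀ i, |X.x ω' i - X.x ω i| ≤ r
  line : ∀ ω ω', A ω → A ω' → X.wn ω' = X.wn ω → X.Y ω' = X.Y ω ∧ X.D ω' = X.D ω
  s1 : ∀ ω, A ω → |X.s ω| ≤ 1
  Y : ∀ ω, A ω → ∀ i, |X.Y ω i| ≤ K
  D : ∀ ω, A ω → ∀ i, |X.D ω i| ≤ K
  fr : ∀ ω, A ω → |X.D ω 1 - X.e (X.pt ω) * X.D ω 0 - X.n (X.pt ω)| ≤ r

/-- Nondegenerate labels. -/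
structure Nd (X : Idp Ω U V) (A : Ω → Prop) (S : Ω → P4) (d : ℕ) (B ε g : ℝ) : Prop where
  hd : 1 ≤ d
  ε0 : 0 ≤ ε
  g0 : 0 < g
  spt : ∀ ω ω', A ω → A ω' → X.pt ω' = X.pt ω → S ω' = S ω
  swn : ∀ ω ω', A ω → A ω' → X.wn ω' = X.wn ω → S ω' = S ω
  bd : ∀ ω, A ω → Bd (S ω) d B
  sm : ∀ ω, A ω → |eval (X.pp ω) (S ω)| ≤ ε
  gr : ∀ ω, A ω → g ≤ |eval (X.pp ω) (pderiv 0 (S ω))|

variable {X : Idp Ω U V} {A : Ω → Prop} {K r : ℝ}

theorem Geo.x_le (h : X.Geo A K r) {ω : Ω} (hω : A ω) (i : Fin 3) : |X.x ω i| ≤ 2 * K := by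
  unfold x
  have h1 := h.Y ω hω i
  have h2 := h.D ω hω i
  have h3 := h.s1 ω hω
  have h4 : |X.s ω * X.D ω i| ≤ 1 * K := by
    rw [abs_mul]
    exact mul_le_mul h3 h2 (abs_nonneg _) zero_le_one
  exact (abs_add_le _ _).trans (by linarith)

theorem Geo.pp_le (h : X.Geo A K r) {ω : Ω} (hω : A ω) (i : Fin 4) : |X.pp ω i| ≤ 2 * K := by
  have hK := h.hK
  have hi : i = 0 ∨ i = 1 ∨ i = 2 ∨ i = 3 := by revert i; decide
  rcases hi with rfl | rfl | rfl | rfl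
  · exact h.x_le hω 2
  · have : |X.s ω| ≤ 2 * K := (h.s1 ω hω).trans (by linarith)
    exact this
  · exact h.x_le hω 0
  · exact h.x_le hω 1

theorem Geo.vd_le (h : X.Geo A K r) {ω : Ω} (hω : A ω) (i : Fin 4) : |X.vd ω i| ≤ K := by
  have hK := h.hK
  have hi : i = 0 ∨ i = 1 ∨ i = 2 ∨ i = 3 := by revert i; decide
  rcases hi with rfl | rfl | rfl | rfl
  · exact h.D ω hω 2
  · have : |(1 : ℝ)| ≤ K := by rw [abs_one]; exact hK
    exact this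
  · exact h.D ω hω 0
  · exact h.D ω hω 1

theorem Geo.pp_pt (h : X.Geo A K r) {ω ω' : Ω} (hω : A ω) (hω' : A ω') (hp : X.pt ω' = X.pt ω)
    (i : Fin 4) : |X.pp ω' i - X.pp ω i| ≤ r := by
  have hi : i = 0 ∨ i = 1 ∨ i = 2 ∨ i = 3 := by revert i; decide
  rcases hi with rfl | rfl | rfl | rfl
  · exact h.ypt ω ω' hω hω' hp 2
  · have : |X.s ω' - X.s ω| ≤ r := by
      rw [h.spt ω ω' hω hω' hp, sub_self, abs_zero]
      exact h.r0
    exact this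
  · exact h.ypt ω ω' hω hω' hp 0
  · exact h.ypt ω ω' hω hω' hp 1

/-- Samples of one window. -/
theorem Geo.pp_wn (h : X.Geo A K r) {ω ω' : Ω} (hω : A ω) (hω' : A ω') (hw : X.wn ω' = X.wn ω) :
    X.pp ω' = fun i => X.pp ω i + (X.s ω' - X.s ω) * X.vd ω i := by
  obtain ⟨h1, h2⟩ := h.line ω ω' hω hω' hw
  funext i
  have hi : i = 0 ∨ i = 1 ∨ i = 2 ∨ i = 3 := by revert i; decide
  rcases hi with rfl | rfl | rfl | rfl
  · change X.x ω' 2 = X.x ω 2 + (X.s ω' - X.s ω) * X.D ω 2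
    unfold x
    rw [h1, h2]
    ring
  · change X.s ω' = X.s ω + (X.s ω' - X.s ω) * 1
    ring
  · change X.x ω' 0 = X.x ω 0 + (X.s ω' - X.s ω) * X.D ω 0
    unfold x
    rw [h1, h2]
    ring
  · change X.x ω' 1 = X.x ω 1 + (X.s ω' - X.s ω) * X.D ω 1
    unfold x
    rw [h1, h2]
    ring

variable {S : Ω → P4} {d : ℕ} {B ε g : ℝ}

/-- The gradient at the sample. -/
noncomputable def G (X : Idp Ω U V) (S : Ω → P4) (i : Fin 4) (ω : Ω) : ℝ :=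
  eval (X.pp ω) (pderiv i (S ω))

/-! ### Along the line -/

/-- The precision of the label along the line. -/
noncomputable def e2 (d : ℕ) (ρt ε : ℝ) : ℝ := (16 / ρt) ^ d * ε

theorem e2_nonneg {ρt : ℝ} (hρ : 0 < ρt) (hε : 0 ≤ ε) : 0 ≤ e2 d ρt ε := by
  unfold e2
  positivity

/-- The label vanishes along the line. -/
theorem Nd.along (hN : X.Nd A S d B ε g) (h : X.Geo A K r) {ρt : ℝ} (hρ : 0 < ρt) (hρ1 : ρt ≤ 1)
    {ω : Ω} (hω : A ω) (hs : SepF X.wn X.s A ρt d ω) (m : ℕ) :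
    |(aeval (lz (X.pp ω) (X.vd ω)) (S ω)).coeff m| ≤ e2 d ρt ε := by
  obtain ⟨z, hz, hsep⟩ := hs
  have key := vander (K := 2) (by norm_num) hρ hρ1 d (aeval (lz (X.pp ω) (X.vd ω)) (S ω))
    (natDegree_lz _ _ (hN.bd ω hω).1) (fun k => X.s (z k) - X.s ω) (fun i hi => by
      have h1 := h.s1 ω hω
      have h2 := h.s1 _ (hz i hi).1
      exact (abs_sub _ _).trans (by linarith)) (fun i hi j hj hij => by
      have e : X.s (z i) - X.s ω - (X.s (z j) - X.s ω) = X.s (z i) - X.s (z j) := by ring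
      rw [e]
      exact hsep i hi j hj hij) ε hN.ε0 (fun i hi => by
      rw [eval_lz, ← h.pp_wn hω (hz i hi).1 (hz i hi).2,
        ← hN.swn ω _ hω (hz i hi).1 (hz i hi).2]
      exact hN.sm _ (hz i hi).1) m
  unfold e2
  have e1 : (8 * 2 / ρt) = 16 / ρt := by ring
  rw [e1] at key
  exact key

/-- Tangency. -/
theorem Nd.tang (hN : X.Nd A S d B ε g) (h : X.Geo A K r) {ρt : ℝ} (hρ : 0 < ρt) (hρ1 : ρt ≤ 1)
    {ω : Ω} (hω : A ω) (hs : SepF X.wn X.s A ρt d ω) :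
    |X.G S 0 ω * X.D ω 2 + X.G S 1 ω + X.G S 2 ω * X.D ω 0 + X.G S 3 ω * X.D ω 1| ≤
      e2 d ρt ε := by
  have h1 := hN.along h hρ hρ1 hω hs 1
  rw [coeff_one_lz, Fin.sum_univ_four] at h1
  have e1 : X.vd ω 0 = X.D ω 2 := rfl
  have e2 : X.vd ω 1 = 1 := rfl
  have e3 : X.vd ω 2 = X.D ω 0 := rfl
  have e4 : X.vd ω 3 = X.D ω 1 := rfl
  rw [e1, e2, e3, e4, mul_one] at h1
  exact h1

theorem Nd.along_eval (hN : X.Nd A S d B ε g) (h : X.Geo A K r) {ρt : ℝ} (hρ : 0 < ρt)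
    (hρ1 : ρt ≤ 1) {ω : Ω} (hω : A ω) (hs : SepF X.wn X.s A ρt d ω) {z : ℝ} (hz : |z| ≤ 1) :
    |eval (fun i => X.pp ω i + z * X.vd ω i) (S ω)| ≤ (d + 1) * e2 d ρt ε := by
  rw [← eval_lz]
  have h1 := eval_le_of_coeff (natDegree_lz (X.pp ω) (X.vd ω) (hN.bd ω hω).1) (Z := 1) le_rfl
    (e2_nonneg hρ hN.ε0) (fun m => hN.along h hρ hρ1 hω hs m) hz
  rw [one_pow, mul_one] at h1
  exact h1

/-! ### Bounds of the gradient -/

/-- Bound of the gradient. -/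
noncomputable def cG (d : ℕ) (B K : ℝ) : ℝ := cV d * B * (2 * K) ^ (2 * d)

/-- Lipschitz constant of the gradient. -/
noncomputable def cL (d : ℕ) (B K : ℝ) : ℝ := d * (cV d * (cV d * B) * (2 * K) ^ (2 * d))

theorem Nd.G_le (hN : X.Nd A S d B ε g) (h : X.Geo A K r) {ω : Ω} (hω : A ω) (i : Fin 4) :
    |X.G S i ω| ≤ cG d B K := by
  have hK := h.hK
  exact ((hN.bd ω hω).pderiv hN.hd i).2 (2 * K) (by linarith) _ (h.pp_le hω)

theorem Nd.G_pt (hN : X.Nd A S d B ε g) (h : X.Geo A K r) {ω ω' : Ω} (hω : A ω) (hω' : A ω')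
    (hp : X.pt ω' = X.pt ω) (i : Fin 4) : |X.G S i ω' - X.G S i ω| ≤ cL d B K * r := by
  have hK := h.hK
  unfold G
  rw [hN.spt ω ω' hω hω' hp]
  exact ((hN.bd ω hω).pderiv hN.hd i).lip hN.hd (by linarith) h.r1 (h.pp_le hω)
    (h.pp_pt hω hω' hp)

theorem Nd.cG_nonneg (hN : X.Nd A S d B ε g) (h : X.Geo A K r) {ω : Ω} (hω : A ω) :
    0 ≤ cG d B K := (abs_nonneg _).trans (hN.G_le h hω 0)

theorem Nd.cL_nonneg (hN : X.Nd A S d B ε g) (h : X.Geo A K r) {ω : Ω} (hω : A ω) :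
    0 ≤ cL d B K := by
  have hB := (hN.bd ω hω).nonneg
  have hK := h.hK
  have := cV_pos hN.hd
  unfold cL
  positivity

/-! ### Straightness of the fans -/

/-- Tangency of the mates. -/
theorem Nd.mate_tang (hN : X.Nd A S d B ε g) (h : X.Geo A K r) {ρt : ℝ} (hρ : 0 < ρt)
    (hρ1 : ρt ≤ 1) {ω ω' : Ω} (hω : A ω) (hω' : A ω') (hs : SepF X.wn X.s A ρt d ω')
    (hp : X.pt ω' = X.pt ω) :
    |X.G S 0 ω * X.D ω' 2 + X.G S 1 ω + X.G S 2 ω * X.D ω' 0 + X.G S 3 ω * X.D ω' 1| ≤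
      e2 d ρt ε + 4 * K * cL d B K * r := by
  have hK := h.hK
  have h1 := hN.tang h hρ hρ1 hω' hs
  have hG := fun i => hN.G_pt h hω hω' hp i
  have hD := fun i => h.D ω' hω' i
  have hm : ∀ (i : Fin 4) (j : Fin 3), |(X.G S i ω' - X.G S i ω) * X.D ω' j| ≤
      cL d B K * r * K := fun i j => by
    rw [abs_mul]
    exact mul_le_mul (hG i) (hD j) (abs_nonneg _) ((abs_nonneg _).trans (hG i))
  have hL := hN.cL_nonneg h hω
  have h0 : |X.G S 1 ω' - X.G S 1 ω| ≤ cL d B K * r * K := by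
    refine (hG 1).trans ?_
    have := mul_nonneg hL h.r0
    nlinarith
  have e : X.G S 0 ω * X.D ω' 2 + X.G S 1 ω + X.G S 2 ω * X.D ω' 0 + X.G S 3 ω * X.D ω' 1 =
      (X.G S 0 ω' * X.D ω' 2 + X.G S 1 ω' + X.G S 2 ω' * X.D ω' 0 + X.G S 3 ω' * X.D ω' 1) -
      ((X.G S 0 ω' - X.G S 0 ω) * X.D ω' 2 + (X.G S 1 ω' - X.G S 1 ω) +
        (X.G S 2 ω' - X.G S 2 ω) * X.D ω' 0 + (X.G S 3 ω' - X.G S 3 ω) * X.D ω' 1) := by ring
  rw [e]
  have t1 := hm 0 2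
  have t2 := hm 2 0
  have t3 := hm 3 1
  rw [abs_le] at *
  constructor <;> nlinarith [h1.1, h1.2, t1.1, t1.2, t2.1, t2.2, t3.1, t3.2, h0.1, h0.2]

/-- The slope of the fan in the normal coordinate. -/
noncomputable def nu (X : Idp Ω U V) (S : Ω → P4) (ω : Ω) : ℝ :=
  -(X.G S 2 ω + X.G S 3 ω * X.e (X.pt ω)) / X.G S 0 ω

/-- Precision of the frames in the normal coordinate. -/
noncomputable def r2 (d : ℕ) (B K ρt ε r g : ℝ) : ℝ :=
  (2 * e2 d ρt ε + (8 * K * cL d B K + 2 * cG d B K) * r) / g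

theorem Nd.r2_nonneg (hN : X.Nd A S d B ε g) (h : X.Geo A K r) {ρt : ℝ} (hρ : 0 < ρt) {ω : Ω}
    (hω : A ω) : 0 ≤ r2 d B K ρt ε r g := by
  have h1 := hN.cG_nonneg h hω
  have h2 := hN.cL_nonneg h hω
  have h3 := h.hK
  have h4 := e2_nonneg (d := d) hρ hN.ε0
  have h5 := h.r0
  have h6 := hN.g0
  unfold r2
  positivity

/-- **Straightness of the fans in the normal coordinate.** -/
theorem Nd.mate_slope (hN : X.Nd A S d B ε g) (h : X.Geo A K r) {ρt : ℝ} (hρ : 0 < ρt)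
    (hρ1 : ρt ≤ 1) {ω ω' : Ω} (hω : A ω) (hω' : A ω') (hs : SepF X.wn X.s A ρt d ω)
    (hs' : SepF X.wn X.s A ρt d ω') (hp : X.pt ω' = X.pt ω) :
    |(X.D ω' 2 - X.D ω 2) - X.nu S ω * (X.D ω' 0 - X.D ω 0)| ≤ r2 d B K ρt ε r g := by
  have hK := h.hK
  have h1 := hN.mate_tang h hρ hρ1 hω hω hs rfl
  have h2 := hN.mate_tang h hρ hρ1 hω hω' hs' hp
  have f1 := h.fr ω hω
  have f2 := h.fr ω' hω'
  rw [hp] at f2
  have g0 := hN.gr ω hω
  have hgp := hN.g0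
  have hgN : X.G S 0 ω ≠ 0 := by
    intro h0
    have : g ≤ |X.G S 0 ω| := g0
    rw [h0, abs_zero] at this
    linarith
  have g3 := hN.G_le h hω 3
  have hGb := hN.cG_nonneg h hω
  have k1 : |X.G S 3 ω * ((X.D ω' 1 - X.D ω 1) - X.e (X.pt ω) * (X.D ω' 0 - X.D ω 0))| ≤
      cG d B K * (2 * r) := by
    rw [abs_mul]
    refine mul_le_mul g3 ?_ (abs_nonneg _) hGb
    rw [abs_le] at *
    constructor <;> linarith [f1.1, f1.2, f2.1, f2.2]
  have k2 : X.G S 0 ω * ((X.D ω' 2 - X.D ω 2) - X.nu S ω * (X.D ω' 0 - X.D ω 0)) =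
      (X.G S 0 ω * X.D ω' 2 + X.G S 1 ω + X.G S 2 ω * X.D ω' 0 + X.G S 3 ω * X.D ω' 1) -
      (X.G S 0 ω * X.D ω 2 + X.G S 1 ω + X.G S 2 ω * X.D ω 0 + X.G S 3 ω * X.D ω 1) -
      X.G S 3 ω * ((X.D ω' 1 - X.D ω 1) - X.e (X.pt ω) * (X.D ω' 0 - X.D ω 0)) := by
    unfold nu
    field_simp
    ring
  unfold r2
  rw [le_div_iff₀ hgp]
  calc |(X.D ω' 2 - X.D ω 2) - X.nu S ω * (X.D ω' 0 - X.D ω 0)| * g ≤
        |(X.D ω' 2 - X.D ω 2) - X.nu S ω * (X.D ω' 0 - X.D ω 0)| * |X.G S 0 ω| :=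
        mul_le_mul_of_nonneg_left g0 (abs_nonneg _)
    _ = |X.G S 0 ω * ((X.D ω' 2 - X.D ω 2) - X.nu S ω * (X.D ω' 0 - X.D ω 0))| := by
        rw [abs_mul, mul_comm]
    _ ≤ _ := by
        rw [k2]
        have t1 := abs_sub ((X.G S 0 ω * X.D ω' 2 + X.G S 1 ω + X.G S 2 ω * X.D ω' 0 +
          X.G S 3 ω * X.D ω' 1) -
          (X.G S 0 ω * X.D ω 2 + X.G S 1 ω + X.G S 2 ω * X.D ω 0 + X.G S 3 ω * X.D ω 1))
          (X.G S 3 ω * ((X.D ω' 1 - X.D ω 1) - X.e (X.pt ω) * (X.D ω' 0 - X.D ω 0)))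
        have t2 := abs_sub (X.G S 0 ω * X.D ω' 2 + X.G S 1 ω + X.G S 2 ω * X.D ω' 0 +
          X.G S 3 ω * X.D ω' 1)
          (X.G S 0 ω * X.D ω 2 + X.G S 1 ω + X.G S 2 ω * X.D ω 0 + X.G S 3 ω * X.D ω 1)
        linarith

end Idp

end Pool.S6P
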