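import Pool.Agent.H26.DIC.Imp2

/-!
# Implicit labels: the planes of the fans, tangent planes along a line
-/

set_option autoImplicit false

namespace Pool.S6P

open MvPolynomial Finset

variable {Ω U V : Type}

namespace Idp

variable {X : Idp Ω U V} {A : Ω → Prop} {K r : ℝ} {S : Ω → P4} {d : ℕ} {B ε g : ℝ}

/-- Lipschitz constant of the label. -/
noncomputable def cM (d : ℕ) (B K : ℝ) : ℝ := d * (cV d * B * (3 * K) ^ (2 * d))

/-- Precision of the label on the plane of the fan. -/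
noncomputable def e4 (d : ℕ) (B K ρt ε r g : ℝ) : ℝ :=
  (d + 1) * e2 d ρt ε + cM d B K * (3 * r + r2 d B K ρt ε r g)

/-- Precision of the tangency of the planes. -/
noncomputable def e3 (d : ℕ) (B K ρ ρt ε r g : ℝ) : ℝ :=
  (d + 1) * 2 ^ d * ((16 * d) ^ d * ((32 * K / ρ) ^ d * e4 d B K ρt ε r g))

theorem Nd.e4_nonneg (hN : X.Nd A S d B ε g) (h : X.Geo A K r) {ρt : ℝ} (hρ : 0 < ρt) {ω : Ω}
    (hω : A ω) : 0 ≤ e4 d B K ρt ε r g := by
  have h1 := hN.r2_nonneg h hρ hω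
  have h3 := h.hK
  have h4 := e2_nonneg (d := d) hρ hN.ε0
  have h5 := h.r0
  have h6 := cV_pos hN.hd
  have h7 := (hN.bd ω hω).nonneg
  unfold e4 cM
  positivity

/-- The direction of the fan. -/
noncomputable def kap (X : Idp Ω U V) (S : Ω → P4) (ω : Ω) : Fin 4 → ℝ :=
  ![X.nu S ω, 0, 1, X.e (X.pt ω)]

/-- **The label vanishes on the plane of the fan**: the linear coefficient. -/
theorem Nd.plane_one (hN : X.Nd A S d B ε g) (h : X.Geo A K r) {ρ ρt : ℝ} (hρ : 0 < ρ)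
    (hρ1 : ρ ≤ 1) (hρt : 0 < ρt) (hρt1 : ρt ≤ 1) (hr : 3 * r + r2 d B K ρt ε r g ≤ 1)
    {ω : Ω} (hω : A ω) (hs : SepF X.wn X.s A ρt d ω)
    (hm : SepF X.pt (fun ω => X.D ω 0) (fun ω => A ω ∧ SepF X.wn X.s A ρt d ω) ρ d ω)
    {z : ℝ} (hz : 1 / 2 ≤ |z|) (hz1 : |z| ≤ 1) :
    |∑ i, eval (fun i => X.pp ω i + z * X.vd ω i) (pderiv i (S ω)) * X.kap S ω i| ≤
      (32 * K / ρ) ^ d * e4 d B K ρt ε r g := by
  obtain ⟨y, hy, hsep⟩ := hm
  have hK := h.hK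
  obtain ⟨β, hβ⟩ : ∃ β : Fin 4 → ℝ, β = fun i => X.pp ω i + z * X.vd ω i := ⟨_, rfl⟩
  rw [← hβ]
  have hr2 := hN.r2_nonneg h hρt hω
  have hr0 := h.r0
  obtain ⟨c, hc⟩ : ∃ c : ℕ → ℝ, c = fun k => z * (X.D (y k) 0 - X.D ω 0) := ⟨_, rfl⟩
  have hcK : ∀ k ≤ d, |c k| ≤ 2 * K := fun k hk => by
    rw [hc]
    simp only
    rw [abs_mul]
    have a1 := h.D _ (hy k hk).1.1 0
    have a2 := h.D ω hω 0
    have a3 : |X.D (y k) 0 - X.D ω 0| ≤ 2 * K := (abs_sub _ _).trans (by linarith)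
    have := mul_le_mul hz1 a3 (abs_nonneg _) zero_le_one
    linarith
  have hcsep : ∀ i ≤ d, ∀ j ≤ d, i ≠ j → ρ / 2 ≤ |c i - c j| := fun i hi j hj hij => by
    rw [hc]
    simp only
    have e : z * (X.D (y i) 0 - X.D ω 0) - z * (X.D (y j) 0 - X.D ω 0) =
        z * (X.D (y i) 0 - X.D (y j) 0) := by ring
    rw [e, abs_mul]
    have := hsep i hi j hj hij
    have := mul_le_mul hz this hρ.le (abs_nonneg _)
    linarith
  have hval : ∀ k ≤ d, |(aeval (lz β (X.kap S ω)) (S ω)).eval (c k)| ≤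
      e4 d B K ρt ε r g := by
    intro k hk
    obtain ⟨⟨hyA, hys⟩, hyp⟩ := hy k hk
    rw [eval_lz]
    -- the point on the mate
    obtain ⟨b, hb⟩ : ∃ b : Fin 4 → ℝ, b = fun i => X.pp (y k) i + z * X.vd (y k) i := ⟨_, rfl⟩
    have hb1 : ∀ i, |b i| ≤ 3 * K := fun i => by
      rw [hb]
      simp only
      have a1 := h.pp_le hyA i
      have a2 := h.vd_le hyA i
      have a3 : |z * X.vd (y k) i| ≤ 1 * K := by
        rw [abs_mul]
        exact mul_le_mul hz1 a2 (abs_nonneg _) zero_le_one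
      exact (abs_add_le _ _).trans (by linarith)
    have hpp := fun i => h.pp_pt hω hyA hyp i
    have hsl := hN.mate_slope h hρt hρt1 hω hyA hs hys hyp
    have f1 := h.fr ω hω
    have f2 := h.fr (y k) hyA
    rw [hyp] at f2
    have hzm : ∀ {a t : ℝ}, |a| ≤ t → |z * a| ≤ t := fun {a t} ha => by
      rw [abs_mul]
      have := mul_le_mul hz1 ha (abs_nonneg _) zero_le_one
      linarith
    have hclose : ∀ i, |(β i + c k * X.kap S ω i) - b i| ≤ 3 * r + r2 d B K ρt ε r g := by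
      intro i
      have hi : i = 0 ∨ i = 1 ∨ i = 2 ∨ i = 3 := by revert i; decide
      rw [hβ, hb, hc]
      simp only
      rcases hi with rfl | rfl | rfl | rfl
      · have e1 : X.kap S ω 0 = X.nu S ω := rfl
        have e2 : X.vd ω 0 = X.D ω 2 := rfl
        have e3 : X.vd (y k) 0 = X.D (y k) 2 := rfl
        rw [e1, e2, e3]
        have e4 : X.pp ω 0 + z * X.D ω 2 + z * (X.D (y k) 0 - X.D ω 0) * X.nu S ω -
            (X.pp (y k) 0 + z * X.D (y k) 2) = -(X.pp (y k) 0 - X.pp ω 0) -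
            z * ((X.D (y k) 2 - X.D ω 2) - X.nu S ω * (X.D (y k) 0 - X.D ω 0)) := by ring
        rw [e4]
        refine (abs_sub _ _).trans ?_
        rw [abs_neg]
        linarith [hpp 0, hzm hsl]
      · have e1 : X.kap S ω 1 = 0 := rfl
        have e2 : X.vd ω 1 = 1 := rfl
        have e3 : X.vd (y k) 1 = 1 := rfl
        rw [e1, e2, e3]
        have e4 : X.pp ω 1 + z * 1 + z * (X.D (y k) 0 - X.D ω 0) * 0 -
            (X.pp (y k) 1 + z * 1) = -(X.pp (y k) 1 - X.pp ω 1) := by ring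
        rw [e4, abs_neg]
        linarith [hpp 1]
      · have e1 : X.kap S ω 2 = 1 := rfl
        have e2 : X.vd ω 2 = X.D ω 0 := rfl
        have e3 : X.vd (y k) 2 = X.D (y k) 0 := rfl
        rw [e1, e2, e3]
        have e4 : X.pp ω 2 + z * X.D ω 0 + z * (X.D (y k) 0 - X.D ω 0) * 1 -
            (X.pp (y k) 2 + z * X.D (y k) 0) = -(X.pp (y k) 2 - X.pp ω 2) := by ring
        rw [e4, abs_neg]
        linarith [hpp 2]
      · have e1 : X.kap S ω 3 = X.e (X.pt ω) := rfl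
        have e2 : X.vd ω 3 = X.D ω 1 := rfl
        have e3 : X.vd (y k) 3 = X.D (y k) 1 := rfl
        rw [e1, e2, e3]
        have e4 : X.pp ω 3 + z * X.D ω 1 + z * (X.D (y k) 0 - X.D ω 0) * X.e (X.pt ω) -
            (X.pp (y k) 3 + z * X.D (y k) 1) = -(X.pp (y k) 3 - X.pp ω 3) -
            z * ((X.D (y k) 1 - X.D ω 1) - X.e (X.pt ω) * (X.D (y k) 0 - X.D ω 0)) := by ring
        rw [e4]
        have k1 : |(X.D (y k) 1 - X.D ω 1) - X.e (X.pt ω) * (X.D (y k) 0 - X.D ω 0)| ≤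
            2 * r := by
          rw [abs_le] at *
          constructor <;> linarith [f1.1, f1.2, f2.1, f2.2]
        refine (abs_sub _ _).trans ?_
        rw [abs_neg]
        linarith [hpp 3, hzm k1]
    have hlip := (hN.bd ω hω).lip hN.hd (M := 3 * K) (by linarith) hr hb1 hclose
    have hal := hN.along_eval h hρt hρt1 hyA hys hz1
    rw [hN.spt ω (y k) hω hyA hyp, ← hb] at hal
    have hfin : |eval (fun i => β i + c k * X.kap S ω i) (S ω)| ≤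
        |eval (fun i => β i + c k * X.kap S ω i) (S ω) - eval b (S ω)| + |eval b (S ω)| := by
      have := abs_add_le (eval (fun i => β i + c k * X.kap S ω i) (S ω) - eval b (S ω))
        (eval b (S ω))
      rwa [sub_add_cancel] at this
    unfold e4 cM
    linarith
  have key := vander (K := 2 * K) (ρ := ρ / 2) (by linarith) (by positivity) (by linarith) d
    (aeval (lz β (X.kap S ω)) (S ω)) (natDegree_lz _ _ (hN.bd ω hω).1) c hcK hcsep
    (e4 d B K ρt ε r g) (hN.e4_nonneg h hρt hω) hval 1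
  rw [coeff_one_lz] at key
  have e1 : 8 * (2 * K) / (ρ / 2) = 32 * K / ρ := by
    field_simp
    ring
  rw [e1] at key
  exact key

/-- The derivative in the direction `κ`. -/
noncomputable def dirD (F : P4) (κ : Fin 4 → ℝ) : P4 := ∑ i, C (κ i) * pderiv i F

theorem eval_dirD (F : P4) (κ b : Fin 4 → ℝ) :
    eval b (dirD F κ) = ∑ i, eval b (pderiv i F) * κ i := by
  unfold dirD
  rw [map_sum]
  refine Finset.sum_congr rfl fun i _ => ?_
  rw [map_mul, eval_C, mul_comm]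

theorem totalDegree_dirD {F : P4} {d : ℕ} (hF : F.totalDegree ≤ d) (κ : Fin 4 → ℝ) :
    (dirD F κ).totalDegree ≤ d := by
  unfold dirD
  refine totalDegree_finsetSum_le fun i _ => ?_
  refine (totalDegree_mul _ _).trans ?_
  rw [totalDegree_C, zero_add]
  exact (td_pderiv_le F i).trans hF

/-- **The planes of all the fans of a line are tangent at all the times.** -/
theorem Nd.plane_all (hN : X.Nd A S d B ε g) (h : X.Geo A K r) {ρ ρt : ℝ} (hρ : 0 < ρ)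
    (hρ1 : ρ ≤ 1) (hρt : 0 < ρt) (hρt1 : ρt ≤ 1) (hr : 3 * r + r2 d B K ρt ε r g ≤ 1)
    {ω : Ω} (hω : A ω) (hs : SepF X.wn X.s A ρt d ω)
    (hm : SepF X.pt (fun ω => X.D ω 0) (fun ω => A ω ∧ SepF X.wn X.s A ρt d ω) ρ d ω)
    {ω' : Ω} (hω' : A ω') (hw : X.wn ω' = X.wn ω) :
    |X.G S 0 ω' * X.nu S ω + X.G S 2 ω' + X.G S 3 ω' * X.e (X.pt ω)| ≤
      e3 d B K ρ ρt ε r g := by
  have hd := hN.hd
  have hK := h.hK
  have hd0 : (0 : ℝ) < d := by exact_mod_cast hd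
  have hd1 : (1 : ℝ) ≤ d := by exact_mod_cast hd
  obtain ⟨E, hE⟩ : ∃ E, E = (32 * K / ρ) ^ d * e4 d B K ρt ε r g := ⟨_, rfl⟩
  have hE0 : 0 ≤ E := by
    rw [hE]
    have := hN.e4_nonneg h hρt hω
    positivity
  obtain ⟨n1, n2⟩ := nodes hd
  obtain ⟨T, hT⟩ : ∃ T : ℕ → ℝ, T = fun k : ℕ => 1 / 2 + (k : ℝ) / d / 2 := ⟨_, rfl⟩
  have hT1 : ∀ k ≤ d, 1 / 2 ≤ |T k| ∧ |T k| ≤ 1 := fun k hk => by
    rw [hT]
    simp only
    have a1 : (0 : ℝ) ≤ (k : ℝ) / d := by positivity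
    have a2 : (k : ℝ) / d ≤ 1 := (le_abs_self _).trans (n1 k hk)
    rw [abs_of_nonneg (by positivity)]
    constructor <;> linarith
  have hT2 : ∀ i ≤ d, ∀ j ≤ d, i ≠ j → 1 / (2 * (d : ℝ)) ≤ |T i - T j| := fun i hi j hj hij => by
    rw [hT]
    simp only
    have e : 1 / 2 + (i : ℝ) / d / 2 - (1 / 2 + (j : ℝ) / d / 2) =
        ((i : ℝ) / d - (j : ℝ) / d) / 2 := by ring
    rw [e, abs_div, abs_of_pos (by norm_num : (0 : ℝ) < 2)]
    have := n2 i hi j hj hij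
    have e2 : 1 / (2 * (d : ℝ)) = 1 / d / 2 := by
      field_simp
    rw [e2]
    linarith
  have key := vander (K := 1) (ρ := 1 / (2 * d)) le_rfl (by positivity) (by
      rw [div_le_one (by positivity)]
      linarith) d
    (aeval (lz (X.pp ω) (X.vd ω)) (dirD (S ω) (X.kap S ω)))
    (natDegree_lz _ _ (totalDegree_dirD (hN.bd ω hω).1 _)) T (fun i hi => (hT1 i hi).2) hT2 E hE0
    (fun i hi => by
      rw [eval_lz, eval_dirD, hE]
      exact hN.plane_one h hρ hρ1 hρt hρt1 hr hω hs hm (hT1 i hi).1 (hT1 i hi).2)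
  have e1 : 8 * 1 / (1 / (2 * (d : ℝ))) = 16 * d := by
    field_simp
    ring
  rw [e1] at key
  have hz : |X.s ω' - X.s ω| ≤ 2 := by
    have h1 := h.s1 ω hω
    have h2 := h.s1 _ hω'
    exact (abs_sub _ _).trans (by linarith)
  have hev := eval_le_of_coeff (natDegree_lz (X.pp ω) (X.vd ω)
    (totalDegree_dirD (hN.bd ω hω).1 (X.kap S ω))) (Z := 2) (by norm_num)
    (by positivity : 0 ≤ (16 * (d : ℝ)) ^ d * E) key hz
  rw [eval_lz, ← h.pp_wn hω hω' hw, eval_dirD, Fin.sum_univ_four,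
    ← hN.swn ω ω' hω hω' hw] at hev
  have k0 : X.kap S ω 0 = X.nu S ω := rfl
  have k1 : X.kap S ω 1 = 0 := rfl
  have k2 : X.kap S ω 2 = 1 := rfl
  have k3 : X.kap S ω 3 = X.e (X.pt ω) := rfl
  rw [k0, k1, k2, k3, mul_zero, mul_one, add_zero] at hev
  unfold e3
  rw [← hE]
  exact hev

/-! ### Tangent planes -/

/-- The slopes of the tangent plane. -/
noncomputable def ta (X : Idp Ω U V) (S : Ω → P4) (ω : Ω) : ℝ := -X.G S 2 ω / X.G S 0 ω

/-- The slopes of the tangent plane. -/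
noncomputable def tb (X : Idp Ω U V) (S : Ω → P4) (ω : Ω) : ℝ := -X.G S 3 ω / X.G S 0 ω

/-- The velocity of the tangent plane. -/
noncomputable def tc (X : Idp Ω U V) (S : Ω → P4) (ω : Ω) : ℝ := -X.G S 1 ω / X.G S 0 ω

theorem Nd.g_ne (hN : X.Nd A S d B ε g) {ω : Ω} (hω : A ω) : X.G S 0 ω ≠ 0 := by
  intro h0
  have h1 : g ≤ |X.G S 0 ω| := hN.gr ω hω
  have h2 := hN.g0
  rw [h0, abs_zero] at h1
  linarith

theorem Nd.nu_rel (hN : X.Nd A S d B ε g) (h : X.Geo A K r) {ρ ρt : ℝ} (hρ : 0 < ρ)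
    (hρ1 : ρ ≤ 1) (hρt : 0 < ρt) (hρt1 : ρt ≤ 1) (hr : 3 * r + r2 d B K ρt ε r g ≤ 1)
    {ω : Ω} (hω : A ω) (hs : SepF X.wn X.s A ρt d ω)
    (hm : SepF X.pt (fun ω => X.D ω 0) (fun ω => A ω ∧ SepF X.wn X.s A ρt d ω) ρ d ω)
    {ω' : Ω} (hω' : A ω') (hw : X.wn ω' = X.wn ω) :
    |X.nu S ω - X.ta S ω' - X.tb S ω' * X.e (X.pt ω)| ≤ e3 d B K ρ ρt ε r g / g := by
  have h1 := hN.plane_all h hρ hρ1 hρt hρt1 hr hω hs hm hω' hw
  have hne := hN.g_ne hω'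
  have hg : g ≤ |X.G S 0 ω'| := hN.gr ω' hω'
  have hg0 := hN.g0
  rw [le_div_iff₀ hg0]
  calc |X.nu S ω - X.ta S ω' - X.tb S ω' * X.e (X.pt ω)| * g ≤
        |X.nu S ω - X.ta S ω' - X.tb S ω' * X.e (X.pt ω)| * |X.G S 0 ω'| :=
        mul_le_mul_of_nonneg_left hg (abs_nonneg _)
    _ = |X.G S 0 ω' * X.nu S ω + X.G S 2 ω' + X.G S 3 ω' * X.e (X.pt ω)| := by
        rw [← abs_mul]
        congr 1
        unfold ta tb
        field_simp
        ring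
    _ ≤ _ := h1

/-- The frames are bounded where the fans are spread. -/
theorem Geo.e_le (h : X.Geo A K r) {ρ : ℝ} (hρ : 0 < ρ) {ω : Ω} {C : Ω → Prop}
    (hC : ∀ ω, C ω → A ω) (hd : 1 ≤ d) (hm : SepF X.pt (fun ω => X.D ω 0) C ρ d ω) :
    |X.e (X.pt ω)| ≤ 4 * K / ρ := by
  obtain ⟨y, hy, hsep⟩ := hm
  have hK := h.hK
  have h0 := hsep 0 (Nat.zero_le _) 1 hd (by norm_num)
  simp only at h0
  have a0 := hC _ (hy 0 (Nat.zero_le _)).1
  have a1 := hC _ (hy 1 hd).1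
  have f0 := h.fr _ a0
  have f1 := h.fr _ a1
  rw [(hy 0 (Nat.zero_le _)).2] at f0
  rw [(hy 1 hd).2] at f1
  have d0 := h.D _ a0 1
  have d1 := h.D _ a1 1
  have hr1 := h.r1
  have k1 : |X.e (X.pt ω) * (X.D (y 0) 0 - X.D (y 1) 0)| ≤ 4 * K := by
    rw [abs_le] at *
    constructor <;> linarith [f0.1, f0.2, f1.1, f1.2, d0.1, d0.2, d1.1, d1.2]
  rw [le_div_iff₀ hρ]
  rw [abs_mul] at k1
  exact (mul_le_mul_of_nonneg_left h0 (abs_nonneg _)).trans k1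

/-- The error of the tangent planes along the line. -/
noncomputable def d1 (d : ℕ) (B K ρ τ ρt ε r g : ℝ) : ℝ :=
  2 * (e3 d B K ρ ρt ε r g / g) + 4 * K / ρ * (4 * (e3 d B K ρ ρt ε r g / g) / τ) +
    4 * (e3 d B K ρ ρt ε r g / g) / τ

/-- **The tangent planes agree along the line.** -/
theorem Nd.agree (hN : X.Nd A S d B ε g) (h : X.Geo A K r) {ρ τ ρt : ℝ} (hρ : 0 < ρ)
    (hρ1 : ρ ≤ 1) (hτ : 0 < τ) (hρt : 0 < ρt) (hρt1 : ρt ≤ 1)
    (hr : 3 * r + r2 d B K ρt ε r g ≤ 1)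
    {ω₀ ω₁ ω ω' : Ω} (hω₀ : A ω₀) (hs₀ : SepF X.wn X.s A ρt d ω₀)
    (hm₀ : SepF X.pt (fun ω => X.D ω 0) (fun ω => A ω ∧ SepF X.wn X.s A ρt d ω) ρ d ω₀)
    (hω₁ : A ω₁) (hs₁ : SepF X.wn X.s A ρt d ω₁)
    (hm₁ : SepF X.pt (fun ω => X.D ω 0) (fun ω => A ω ∧ SepF X.wn X.s A ρt d ω) ρ d ω₁)
    (hsep : τ ≤ |X.e (X.pt ω₀) - X.e (X.pt ω₁)|) (hω : A ω) (hω' : A ω')
    (hw₀ : X.wn ω = X.wn ω₀) (hw₁ : X.wn ω = X.wn ω₁) (hw : X.wn ω' = X.wn ω) :
    |X.ta S ω' - X.ta S ω| ≤ d1 d B K ρ τ ρt ε r g ∧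
    |X.tb S ω' - X.tb S ω| ≤ d1 d B K ρ τ ρt ε r g := by
  have a0 := hN.nu_rel h hρ hρ1 hρt hρt1 hr hω₀ hs₀ hm₀ hω hw₀
  have a1 := hN.nu_rel h hρ hρ1 hρt hρt1 hr hω₁ hs₁ hm₁ hω hw₁
  have b0 := hN.nu_rel h hρ hρ1 hρt hρt1 hr hω₀ hs₀ hm₀ hω' (hw.trans hw₀)
  have b1 := hN.nu_rel h hρ hρ1 hρt hρt1 hr hω₁ hs₁ hm₁ hω' (hw.trans hw₁)
  have he := h.e_le hρ (C := fun ω => A ω ∧ SepF X.wn X.s A ρt d ω) (fun _ h => h.1)
    hN.hd hm₀
  obtain ⟨E, hE⟩ : ∃ E, E = e3 d B K ρ ρt ε r g / g := ⟨_, rfl⟩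
  rw [← hE] at a0 a1 b0 b1
  have hE0 : 0 ≤ E := (abs_nonneg _).trans a0
  have hK := h.hK
  obtain ⟨da, hda⟩ : ∃ da, da = X.ta S ω' - X.ta S ω := ⟨_, rfl⟩
  obtain ⟨db, hdb⟩ : ∃ db, db = X.tb S ω' - X.tb S ω := ⟨_, rfl⟩
  have c0 : |da + db * X.e (X.pt ω₀)| ≤ 2 * E := by
    have e : da + db * X.e (X.pt ω₀) =
        (X.nu S ω₀ - X.ta S ω - X.tb S ω * X.e (X.pt ω₀)) -
        (X.nu S ω₀ - X.ta S ω' - X.tb S ω' * X.e (X.pt ω₀)) := by
      rw [hda, hdb]; ring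
    rw [e]
    exact (abs_sub _ _).trans (by linarith)
  have c1 : |da + db * X.e (X.pt ω₁)| ≤ 2 * E := by
    have e : da + db * X.e (X.pt ω₁) =
        (X.nu S ω₁ - X.ta S ω - X.tb S ω * X.e (X.pt ω₁)) -
        (X.nu S ω₁ - X.ta S ω' - X.tb S ω' * X.e (X.pt ω₁)) := by
      rw [hda, hdb]; ring
    rw [e]
    exact (abs_sub _ _).trans (by linarith)
  have c2 : |db| ≤ 4 * E / τ := by
    rw [le_div_iff₀ hτ]
    have e : db * (X.e (X.pt ω₀) - X.e (X.pt ω₁)) =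
        (da + db * X.e (X.pt ω₀)) - (da + db * X.e (X.pt ω₁)) := by ring
    calc |db| * τ ≤ |db| * |X.e (X.pt ω₀) - X.e (X.pt ω₁)| :=
          mul_le_mul_of_nonneg_left hsep (abs_nonneg _)
      _ = |(da + db * X.e (X.pt ω₀)) - (da + db * X.e (X.pt ω₁))| := by rw [← abs_mul, e]
      _ ≤ 4 * E := (abs_sub _ _).trans (by linarith)
  have c3 : |da| ≤ 2 * E + 4 * K / ρ * (4 * E / τ) := by
    have e : da = (da + db * X.e (X.pt ω₀)) - db * X.e (X.pt ω₀) := by ring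
    rw [e]
    refine (abs_sub _ _).trans ?_
    rw [abs_mul]
    have : |db| * |X.e (X.pt ω₀)| ≤ 4 * E / τ * (4 * K / ρ) :=
      mul_le_mul c2 he (abs_nonneg _) (by positivity)
    linarith
  unfold d1
  rw [← hE, ← hda, ← hdb]
  have p1 : 0 ≤ 4 * E / τ := by positivity
  have p2 : 0 ≤ 4 * K / ρ * (4 * E / τ) := by positivity
  constructor <;> linarith

/-- The error of the tangent planes of the mates. -/
noncomputable def d2 (d : ℕ) (B K r g : ℝ) : ℝ := 2 * cG d B K * (cL d B K * r) / g ^ 2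

theorem quot_sub {a a' b b' G L g : ℝ} (hg : 0 < g) (hb : g ≤ |b|) (hb' : g ≤ |b'|)
    (ha : |a| ≤ G) (hbG : |b| ≤ G) (haa : |a' - a| ≤ L) (hbb : |b' - b| ≤ L) :
    |-a' / b' - -a / b| ≤ 2 * G * L / g ^ 2 := by
  have hb0 : b ≠ 0 := by
    intro h
    rw [h, abs_zero] at hb
    linarith
  have hb0' : b' ≠ 0 := by
    intro h
    rw [h, abs_zero] at hb'
    linarith
  have hG : 0 ≤ G := (abs_nonneg _).trans ha
  have hL : 0 ≤ L := (abs_nonneg _).trans haa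
  have e : -a' / b' - -a / b = (a * (b' - b) - (a' - a) * b) / (b' * b) := by
    field_simp
    ring
  rw [e, abs_div, abs_mul b' b]
  have h1 : |a * (b' - b) - (a' - a) * b| ≤ 2 * G * L := by
    refine (abs_sub _ _).trans ?_
    rw [abs_mul, abs_mul]
    have t1 : |a| * |b' - b| ≤ G * L := mul_le_mul ha hbb (abs_nonneg _) hG
    have t2 : |a' - a| * |b| ≤ L * G := mul_le_mul haa hbG (abs_nonneg _) hL
    linarith
  have h2 : g ^ 2 ≤ |b'| * |b| := by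
    rw [sq]
    exact mul_le_mul hb' hb hg.le (abs_nonneg _)
  exact div_le_div₀ (by positivity) h1 (by positivity) h2

/-- **The tangent plane is a function of the point.** -/
theorem Nd.agree_pt (hN : X.Nd A S d B ε g) (h : X.Geo A K r) {ω ω' : Ω} (hω : A ω) (hω' : A ω')
    (hp : X.pt ω' = X.pt ω) : |X.ta S ω' - X.ta S ω| ≤ d2 d B K r g ∧
      |X.tb S ω' - X.tb S ω| ≤ d2 d B K r g ∧ |X.tc S ω' - X.tc S ω| ≤ d2 d B K r g := by
  have hg : g ≤ |X.G S 0 ω| := hN.gr ω hω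
  have hg' : g ≤ |X.G S 0 ω'| := hN.gr ω' hω'
  have hG := fun i => hN.G_le h hω i
  have hL := fun i => hN.G_pt h hω hω' hp i
  unfold ta tb tc d2
  exact ⟨quot_sub hN.g0 hg hg' (hG 2) (hG 0) (hL 2) (hL 0),
    quot_sub hN.g0 hg hg' (hG 3) (hG 0) (hL 3) (hL 0),
    quot_sub hN.g0 hg hg' (hG 1) (hG 0) (hL 1) (hL 0)⟩

/-- The slopes are bounded. -/
theorem Nd.t_le (hN : X.Nd A S d B ε g) (h : X.Geo A K r) {ω : Ω} (hω : A ω) :
    |X.ta S ω| ≤ cG d B K / g ∧ |X.tb S ω| ≤ cG d B K / g := by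
  have hg : g ≤ |X.G S 0 ω| := hN.gr ω hω
  have hG := fun i => hN.G_le h hω i
  have hG0 := hN.cG_nonneg h hω
  unfold ta tb
  rw [abs_div, abs_neg, abs_div, abs_neg]
  exact ⟨div_le_div₀ hG0 (hG 2) hN.g0 hg, div_le_div₀ hG0 (hG 3) hN.g0 hg⟩

/-- The velocity of the line in the tangent plane. -/
theorem Nd.vel (hN : X.Nd A S d B ε g) (h : X.Geo A K r) {ρt : ℝ} (hρ : 0 < ρt) (hρ1 : ρt ≤ 1)
    {ω : Ω} (hω : A ω) (hs : SepF X.wn X.s A ρt d ω) :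
    |X.D ω 2 - X.tc S ω - X.ta S ω * X.D ω 0 - X.tb S ω * X.D ω 1| ≤ e2 d ρt ε / g := by
  have h1 := hN.tang h hρ hρ1 hω hs
  have hne := hN.g_ne hω
  have hg : g ≤ |X.G S 0 ω| := hN.gr ω hω
  have hg0 := hN.g0
  rw [le_div_iff₀ hg0]
  calc |X.D ω 2 - X.tc S ω - X.ta S ω * X.D ω 0 - X.tb S ω * X.D ω 1| * g ≤
        |X.D ω 2 - X.tc S ω - X.ta S ω * X.D ω 0 - X.tb S ω * X.D ω 1| * |X.G S 0 ω| :=
        mul_le_mul_of_nonneg_left hg (abs_nonneg _)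
    _ = |X.G S 0 ω * X.D ω 2 + X.G S 1 ω + X.G S 2 ω * X.D ω 0 + X.G S 3 ω * X.D ω 1| := by
        rw [← abs_mul]
        congr 1
        unfold ta tb tc
        field_simp
        ring
    _ ≤ _ := h1

end Idp

end Pool.S6P
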