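import Pool.Agent.H26.DIC.Imp3

/-!
# Implicit labels: the plank of the tangent planes
-/

set_option autoImplicit false

namespace Pool.S6P

open MvPolynomial Finset

variable {Ω U V : Type}

theorem round_near {δ : ℝ} (hδ : 0 < δ) (x : ℝ) : |δ * ⌊x / δ⌋ - x| ≤ δ := by
  have a1 := Int.floor_le (x / δ)
  have a2 := Int.lt_floor_add_one (x / δ)
  have e : x = δ * (x / δ) := by field_simp
  have b : |(⌊x / δ⌋ : ℝ) - x / δ| ≤ 1 := by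
    rw [abs_le]
    constructor <;> linarith
  calc |δ * ⌊x / δ⌋ - x| = |δ * (⌊x / δ⌋ - x / δ)| := by rw [mul_sub, ← e]
    _ = δ * |(⌊x / δ⌋ : ℝ) - x / δ| := by rw [abs_mul, abs_of_pos hδ]
    _ ≤ δ * 1 := mul_le_mul_of_nonneg_left b hδ.le
    _ = δ := mul_one δ

theorem round_step {δ x y : ℝ} (hδ : 0 < δ) (h : |x - y| ≤ δ) : |⌊x / δ⌋ - ⌊y / δ⌋| ≤ 1 := by
  have h2 : |x / δ - y / δ| ≤ 1 := by
    rw [← sub_div, abs_div, abs_of_pos hδ, div_le_one hδ]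
    exact h
  have a1 := Int.floor_le (x / δ)
  have a2 := Int.lt_floor_add_one (x / δ)
  have a3 := Int.floor_le (y / δ)
  have a4 := Int.lt_floor_add_one (y / δ)
  rw [abs_le] at h2
  have b1 : ((⌊x / δ⌋ - ⌊y / δ⌋ : ℤ) : ℝ) < 2 := by push_cast; linarith only [h2, a1, a4]
  have b2 : (-2 : ℝ) < ((⌊x / δ⌋ - ⌊y / δ⌋ : ℤ) : ℝ) := by push_cast; linarith only [h2, a2, a3]
  have b3 : ⌊x / δ⌋ - ⌊y / δ⌋ < 2 := by exact_mod_cast b1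
  have b4 : -2 < ⌊x / δ⌋ - ⌊y / δ⌋ := by exact_mod_cast b2
  rw [abs_le]
  constructor <;> omega

namespace Idp

variable {X : Idp Ω U V} {A : Ω → Prop} {K r : ℝ} {S : Ω → P4} {d : ℕ} {B ε g : ℝ}

/-- Separated times. -/
def A1 (X : Idp Ω U V) (A : Ω → Prop) (d : ℕ) (ρt : ℝ) (ω : Ω) : Prop :=
  A ω ∧ SepF X.wn X.s A ρt d ω

/-- Separated mates. -/
def A2 (X : Idp Ω U V) (A : Ω → Prop) (d : ℕ) (ρt ρ : ℝ) (ω : Ω) : Prop :=
  X.A1 A d ρt ω ∧ SepF X.pt (fun ω => X.D ω 0) (fun ω => A ω ∧ SepF X.wn X.s A ρt d ω) ρ d ω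

/-- Separated slopes. -/
def A3 (X : Idp Ω U V) (A : Ω → Prop) (d : ℕ) (ρt ρ τ : ℝ) (ω : Ω) : Prop :=
  X.A2 A d ρt ρ ω ∧ SepF X.wn (fun ω => X.e (X.pt ω)) (X.A2 A d ρt ρ) τ 1 ω

/-- The error of the coefficients of the plank. -/
noncomputable def d3 (d : ℕ) (B K ρ τ ρt ε r g : ℝ) : ℝ :=
  2 * (e2 d ρt ε / g + 2 * K * d1 d B K ρ τ ρt ε r g) + d2 d B K r g +
    (r * (1 + 2 * (cG d B K / g)) + 4 * K * (2 * d1 d B K ρ τ ρt ε r g + d2 d B K r g))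

/-- The coefficients of the plank; `a`, `b` are the slopes. -/
noncomputable def cc (X : Idp Ω U V) (a b : Ω → ℝ) (ω : Ω) : Fin 4 → ℝ :=
  ![X.Y ω 2 - a ω * X.Y ω 0 - b ω * X.Y ω 1, X.D ω 2 - a ω * X.D ω 0 - b ω * X.D ω 1, a ω, b ω]

/-- **The plank.** -/
theorem Nd.lab (hN : X.Nd A S d B ε g) (h : X.Geo A K r) {ρ τ ρt δ : ℝ} (hρ : 0 < ρ)
    (hρ1 : ρ ≤ 1) (hτ : 0 < τ) (hρt : 0 < ρt) (hρt1 : ρt ≤ 1)
    (hr : 3 * r + r2 d B K ρt ε r g ≤ 1) (hδ : 0 < δ) (hδ3 : d3 d B K ρ τ ρt ε r g ≤ δ) :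
    ∃ f : Ω → Fin 4 → ℤ,
      (∀ ω ω', X.A3 A d ρt ρ τ ω → X.A3 A d ρt ρ τ ω' → X.pt ω' = X.pt ω →
        ∀ i, |f ω' i - f ω i| ≤ 1) ∧
      (∀ ω ω', X.A3 A d ρt ρ τ ω → X.A3 A d ρt ρ τ ω' → X.wn ω' = X.wn ω → f ω' = f ω) ∧
      ∀ ω, X.A3 A d ρt ρ τ ω → |δ * f ω 2| ≤ cG d B K / g + δ ∧ |δ * f ω 3| ≤ cG d B K / g + δ ∧
        |X.Y ω 2 - δ * f ω 0 - δ * f ω 2 * X.Y ω 0 - δ * f ω 3 * X.Y ω 1| ≤ (1 + 2 * K) * δ ∧
        |X.D ω 2 - δ * f ω 1 - δ * f ω 2 * X.D ω 0 - δ * f ω 3 * X.D ω 1| ≤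
          (1 + 2 * K) * δ := by
  classical
  rcases isEmpty_or_nonempty Ω with hΩ | hΩ
  · exact ⟨fun _ _ => 0, fun ω => (hΩ.false ω).elim, fun ω => (hΩ.false ω).elim,
      fun ω => (hΩ.false ω).elim⟩
  -- representatives of the windows
  have hex : ∀ v : V, ∃ ω', (∃ ω, X.A3 A d ρt ρ τ ω ∧ X.wn ω = v) →
      X.A3 A d ρt ρ τ ω' ∧ X.wn ω' = v := by
    intro v
    by_cases hv : ∃ ω, X.A3 A d ρt ρ τ ω ∧ X.wn ω = v
    · obtain ⟨ω, h1⟩ := hv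
      exact ⟨ω, fun _ => h1⟩
    · exact ⟨Classical.arbitrary Ω, fun h => absurd h hv⟩
  choose q hq using hex
  have hq' : ∀ ω, X.A3 A d ρt ρ τ ω → X.A3 A d ρt ρ τ (q (X.wn ω)) ∧ X.wn (q (X.wn ω)) = X.wn ω :=
    fun ω hω => hq _ ⟨ω, hω, rfl⟩
  have hA : ∀ {ω}, X.A3 A d ρt ρ τ ω → A ω := fun {ω} hω => hω.1.1.1
  have hK := h.hK
  obtain ⟨δ₁, hδ₁⟩ : ∃ δ₁, δ₁ = d1 d B K ρ τ ρt ε r g := ⟨_, rfl⟩
  obtain ⟨δ₂, hδ₂⟩ : ∃ δ₂, δ₂ = d2 d B K r g := ⟨_, rfl⟩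
  obtain ⟨η, hη⟩ : ∃ η, η = e2 d ρt ε / g := ⟨_, rfl⟩
  have hη0 : 0 ≤ η := by
    rw [hη]
    exact div_nonneg (e2_nonneg hρt hN.ε0) hN.g0.le
  -- the slopes of the representatives
  have hag : ∀ ω, X.A3 A d ρt ρ τ ω → |X.ta S (q (X.wn ω)) - X.ta S ω| ≤ δ₁ ∧
      |X.tb S (q (X.wn ω)) - X.tb S ω| ≤ δ₁ := by
    intro ω hω
    obtain ⟨z, hz, hsep⟩ := hω.2
    have s01 := hsep 0 (by norm_num) 1 le_rfl (by norm_num)
    obtain ⟨⟨⟨a0, a1⟩, a2⟩, a3⟩ := hz 0 (by norm_num)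
    obtain ⟨⟨⟨b0, b1⟩, b2⟩, b3⟩ := hz 1 le_rfl
    rw [hδ₁]
    exact hN.agree h hρ hρ1 hτ hρt hρt1 hr a0 a1 a2 b0 b1 b2 s01 (hA hω) (hA (hq' ω hω).1)
      a3.symm b3.symm (hq' ω hω).2
  obtain ⟨a, ha⟩ : ∃ a : Ω → ℝ, a = fun ω => X.ta S (q (X.wn ω)) := ⟨_, rfl⟩
  obtain ⟨b, hb⟩ : ∃ b : Ω → ℝ, b = fun ω => X.tb S (q (X.wn ω)) := ⟨_, rfl⟩
  have haω : ∀ ω, X.A3 A d ρt ρ τ ω → |a ω - X.ta S ω| ≤ δ₁ ∧ |b ω - X.tb S ω| ≤ δ₁ :=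
    fun ω hω => by rw [ha, hb]; exact hag ω hω
  have hGb : ∀ ω, X.A3 A d ρt ρ τ ω → |a ω| ≤ cG d B K / g ∧ |b ω| ≤ cG d B K / g :=
    fun ω hω => by rw [ha, hb]; exact hN.t_le h (hA (hq' ω hω).1)
  have hab : ∀ ω ω', X.A3 A d ρt ρ τ ω → X.A3 A d ρt ρ τ ω' → X.pt ω' = X.pt ω →
      |a ω' - a ω| ≤ 2 * δ₁ + δ₂ ∧ |b ω' - b ω| ≤ 2 * δ₁ + δ₂ := by
    intro ω ω' hω hω' hp
    obtain ⟨k1, k2, -⟩ := hN.agree_pt h (hA hω) (hA hω') hp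
    rw [← hδ₂] at k1 k2
    have m1 := haω ω hω
    have m2 := haω ω' hω'
    constructor
    · have t1 := m1.1
      have t2 := m2.1
      rw [abs_le] at *
      constructor <;> linarith only [k1, m1, m2, t1.1, t1.2, t2.1, t2.2, k1.1, k1.2]
    · have t1 := m1.2
      have t2 := m2.2
      rw [abs_le] at *
      constructor <;> linarith only [k2, t1, t2, t1.1, t1.2, t2.1, t2.2, k2.1, k2.2]
  -- the velocity
  have hc1 : ∀ ω, X.A3 A d ρt ρ τ ω → |X.cc a b ω 1 - X.tc S ω| ≤ η + 2 * K * δ₁ := by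
    intro ω hω
    have k1 := hN.vel h hρt hρt1 (hA hω) hω.1.1.2
    rw [← hη] at k1
    have e : X.cc a b ω 1 - X.tc S ω =
        (X.D ω 2 - X.tc S ω - X.ta S ω * X.D ω 0 - X.tb S ω * X.D ω 1) -
        (a ω - X.ta S ω) * X.D ω 0 - (b ω - X.tb S ω) * X.D ω 1 := by
      have : X.cc a b ω 1 = X.D ω 2 - a ω * X.D ω 0 - b ω * X.D ω 1 := rfl
      rw [this]
      ring
    rw [e]
    have m1 := haω ω hω
    have hm : ∀ {t : ℝ} (i : Fin 3), |t| ≤ δ₁ → |t * X.D ω i| ≤ δ₁ * K := fun {t} i ht => by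
      rw [abs_mul]
      exact mul_le_mul ht (h.D ω (hA hω) i) (abs_nonneg _) ((abs_nonneg _).trans ht)
    have t1 := hm 0 m1.1
    have t2 := hm 1 m1.2
    refine (abs_sub _ _).trans ?_
    have := abs_sub (X.D ω 2 - X.tc S ω - X.ta S ω * X.D ω 0 - X.tb S ω * X.D ω 1)
      ((a ω - X.ta S ω) * X.D ω 0)
    linarith only [k1, t1, t2, this]
  -- all the coefficients
  have hcc : ∀ ω ω', X.A3 A d ρt ρ τ ω → X.A3 A d ρt ρ τ ω' → X.pt ω' = X.pt ω →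
      ∀ i, |X.cc a b ω' i - X.cc a b ω i| ≤ δ := by
    intro ω ω' hω hω' hp
    obtain ⟨k1, k2⟩ := hab ω ω' hω hω' hp
    obtain ⟨-, -, k3⟩ := hN.agree_pt h (hA hω) (hA hω') hp
    rw [← hδ₂] at k3
    have m1 := hc1 ω hω
    have m2 := hc1 ω' hω'
    have hx := fun i => h.ypt ω ω' (hA hω) (hA hω') hp i
    have hx' := fun i => h.x_le (hA hω') i
    have hg1 := hGb ω hω
    have hG0 : 0 ≤ cG d B K / g := (abs_nonneg _).trans hg1.1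
    have hδ₁0 : 0 ≤ δ₁ := (abs_nonneg _).trans (haω ω hω).1
    have hδ₂0 : 0 ≤ δ₂ := (abs_nonneg _).trans k3
    have hr0 := h.r0
    have hd3 : 2 * (η + 2 * K * δ₁) + δ₂ + (r * (1 + 2 * (cG d B K / g)) +
        4 * K * (2 * δ₁ + δ₂)) ≤ δ := by
      rw [hη, hδ₁, hδ₂]
      exact hδ3
    have p1 : 0 ≤ K * δ₁ := by positivity
    have p2 : 0 ≤ K * δ₂ := by positivity
    have p3 : 0 ≤ r * (1 + 2 * (cG d B K / g)) := by positivity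
    have q1 : |X.cc a b ω' 1 - X.cc a b ω 1| ≤ 2 * (η + 2 * K * δ₁) + δ₂ := by
      rw [abs_le] at *
      constructor <;> linarith only [k3, m1, m2, m1.1, m1.2, m2.1, m2.2, k3.1, k3.2]
    have q0 : |(X.cc a b ω' 0 + X.s ω * X.cc a b ω' 1) - (X.cc a b ω 0 + X.s ω * X.cc a b ω 1)| ≤
        r * (1 + 2 * (cG d B K / g)) + 4 * K * (2 * δ₁ + δ₂) := by
      have e0 : ∀ ω, X.cc a b ω 0 = X.Y ω 2 - a ω * X.Y ω 0 - b ω * X.Y ω 1 := fun _ => rfl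
      have e1 : ∀ ω, X.cc a b ω 1 = X.D ω 2 - a ω * X.D ω 0 - b ω * X.D ω 1 := fun _ => rfl
      have hs := h.spt ω ω' (hA hω) (hA hω') hp
      have ex : ∀ i, X.x ω' i = X.Y ω' i + X.s ω * X.D ω' i := fun i => by
        unfold x
        rw [hs]
      have ex' : ∀ i, X.x ω i = X.Y ω i + X.s ω * X.D ω i := fun i => rfl
      have e : (X.cc a b ω' 0 + X.s ω * X.cc a b ω' 1) -
          (X.cc a b ω 0 + X.s ω * X.cc a b ω 1) =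
          (X.x ω' 2 - X.x ω 2) - a ω * (X.x ω' 0 - X.x ω 0) - (a ω' - a ω) * X.x ω' 0 -
            b ω * (X.x ω' 1 - X.x ω 1) - (b ω' - b ω) * X.x ω' 1 := by
        rw [e0, e0, e1, e1, ex, ex, ex, ex', ex', ex']
        ring
      rw [e]
      have t1 : |a ω * (X.x ω' 0 - X.x ω 0)| ≤ cG d B K / g * r := by
        rw [abs_mul]
        exact mul_le_mul hg1.1 (hx 0) (abs_nonneg _) hG0
      have t2 : |b ω * (X.x ω' 1 - X.x ω 1)| ≤ cG d B K / g * r := by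
        rw [abs_mul]
        exact mul_le_mul hg1.2 (hx 1) (abs_nonneg _) hG0
      have t3 : |(a ω' - a ω) * X.x ω' 0| ≤ (2 * δ₁ + δ₂) * (2 * K) := by
        rw [abs_mul]
        exact mul_le_mul k1 (hx' 0) (abs_nonneg _) (by positivity)
      have t4 : |(b ω' - b ω) * X.x ω' 1| ≤ (2 * δ₁ + δ₂) * (2 * K) := by
        rw [abs_mul]
        exact mul_le_mul k2 (hx' 1) (abs_nonneg _) (by positivity)
      have t0 := hx 2
      rw [abs_le] at *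
      constructor <;> nlinarith only [t1, t2, t3, t4, t0, t0.1, t0.2, t1.1, t1.2, t2.1, t2.2, t3.1, t3.2, t4.1, t4.2]
    intro i
    have hi : i = 0 ∨ i = 1 ∨ i = 2 ∨ i = 3 := by revert i; decide
    rcases hi with rfl | rfl | rfl | rfl
    · have hs1 := h.s1 ω (hA hω)
      have t : |X.s ω * (X.cc a b ω' 1 - X.cc a b ω 1)| ≤ 2 * (η + 2 * K * δ₁) + δ₂ := by
        rw [abs_mul]
        have := mul_le_mul hs1 q1 (abs_nonneg _) zero_le_one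
        linarith only [this]
      have e : X.cc a b ω' 0 - X.cc a b ω 0 =
          ((X.cc a b ω' 0 + X.s ω * X.cc a b ω' 1) - (X.cc a b ω 0 + X.s ω * X.cc a b ω 1)) -
          X.s ω * (X.cc a b ω' 1 - X.cc a b ω 1) := by ring
      rw [e]
      exact (abs_sub _ _).trans (by linarith only [hd3, q0, t])
    · linarith only [hd3, p1, p2, p3, q1]
    · have : |a ω' - a ω| ≤ δ := by nlinarith only [hη0, k1, hd3, p1, p2, p3, hK, hδ₁0]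
      exact this
    · have : |b ω' - b ω| ≤ δ := by nlinarith only [hη0, k2, hd3, p1, p2, p3, hK, hδ₁0]
      exact this
  refine ⟨fun ω i => ⌊X.cc a b ω i / δ⌋, ?_, ?_, ?_⟩
  · intro ω ω' hω hω' hp i
    exact round_step hδ (hcc ω ω' hω hω' hp i)
  · intro ω ω' hω hω' hw
    obtain ⟨l1, l2⟩ := h.line ω ω' (hA hω) (hA hω') hw
    have ea : a ω' = a ω := by rw [ha]; simp only [hw]
    have eb : b ω' = b ω := by rw [hb]; simp only [hw]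
    have e : X.cc a b ω' = X.cc a b ω := by
      unfold cc
      rw [l1, l2, ea, eb]
    simp only [e]
  · intro ω hω
    have m := fun i => round_near hδ (X.cc a b ω i)
    have hg1 := hGb ω hω
    have c0 : X.cc a b ω 0 = X.Y ω 2 - a ω * X.Y ω 0 - b ω * X.Y ω 1 := rfl
    have c1 : X.cc a b ω 1 = X.D ω 2 - a ω * X.D ω 0 - b ω * X.D ω 1 := rfl
    have c2 : X.cc a b ω 2 = a ω := rfl
    have c3 : X.cc a b ω 3 = b ω := rfl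
    have hm : ∀ (i : Fin 4) (x : ℝ), |x| ≤ K →
        |(δ * ⌊X.cc a b ω i / δ⌋ - X.cc a b ω i) * x| ≤ δ * K := by
      intro i x hx
      rw [abs_mul]
      exact mul_le_mul (m i) hx (abs_nonneg _) hδ.le
    have tri : ∀ (p q s : ℝ), |-p - q - s| ≤ |p| + |q| + |s| := by
      intro p q s
      have t1 := abs_sub (-p - q) s
      have t2 := abs_sub (-p) q
      rw [abs_neg] at t2
      linarith only [t1, t2]
    refine ⟨?_, ?_, ?_, ?_⟩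
    · have m2 := m 2
      have e : δ * ⌊X.cc a b ω 2 / δ⌋ = (δ * ⌊X.cc a b ω 2 / δ⌋ - X.cc a b ω 2) + a ω := by
        rw [c2]; ring
      simp only
      rw [e]
      exact (abs_add_le _ _).trans (by linarith only [hg1, m2, hg1.1])
    · have m3 := m 3
      have e : δ * ⌊X.cc a b ω 3 / δ⌋ = (δ * ⌊X.cc a b ω 3 / δ⌋ - X.cc a b ω 3) + b ω := by
        rw [c3]; ring
      simp only
      rw [e]
      exact (abs_add_le _ _).trans (by linarith only [hg1, m3, hg1.2])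
    · have e1 : X.Y ω 2 - δ * ⌊X.cc a b ω 0 / δ⌋ - δ * ⌊X.cc a b ω 2 / δ⌋ * X.Y ω 0 -
          δ * ⌊X.cc a b ω 3 / δ⌋ * X.Y ω 1 =
          -(δ * ⌊X.cc a b ω 0 / δ⌋ - X.cc a b ω 0) -
          (δ * ⌊X.cc a b ω 2 / δ⌋ - X.cc a b ω 2) * X.Y ω 0 -
          (δ * ⌊X.cc a b ω 3 / δ⌋ - X.cc a b ω 3) * X.Y ω 1 := by
        rw [c0, c2, c3]
        ring
      simp only
      rw [e1]
      refine (tri _ _ _).trans ?_
      have k0 := m 0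
      have k2 := hm 2 _ (h.Y ω (hA hω) 0)
      have k3 := hm 3 _ (h.Y ω (hA hω) 1)
      linarith only [k0, k2, k3]
    · have e1 : X.D ω 2 - δ * ⌊X.cc a b ω 1 / δ⌋ - δ * ⌊X.cc a b ω 2 / δ⌋ * X.D ω 0 -
          δ * ⌊X.cc a b ω 3 / δ⌋ * X.D ω 1 =
          -(δ * ⌊X.cc a b ω 1 / δ⌋ - X.cc a b ω 1) -
          (δ * ⌊X.cc a b ω 2 / δ⌋ - X.cc a b ω 2) * X.D ω 0 -
          (δ * ⌊X.cc a b ω 3 / δ⌋ - X.cc a b ω 3) * X.D ω 1 := by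
        rw [c1, c2, c3]
        ring
      simp only
      rw [e1]
      refine (tri _ _ _).trans ?_
      have k0 := m 1
      have k2 := hm 2 _ (h.D ω (hA hω) 0)
      have k3 := hm 3 _ (h.D ω (hA hω) 1)
      linarith only [k0, k2, k3]

/-- The exceptional events. -/
theorem except (X : Idp Ω U V) (A : Ω → Prop) (d : ℕ) (ρt ρ τ : ℝ) :
    ∃ (tt : ℕ → V → ℝ) (v : ℕ → U → ℝ) (ζ : V → ℝ), ∀ ω, A ω →
      (∃ k < d, |X.s ω - tt k (X.wn ω)| ≤ ρt) ∨ (∃ k < d, |X.D ω 0 - v k (X.pt ω)| ≤ ρ) ∨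
      |X.e (X.pt ω) - ζ (X.wn ω)| ≤ τ ∨ X.A3 A d ρt ρ τ ω := by
  obtain ⟨tt, htt⟩ := cover X.wn X.s A ρt d
  obtain ⟨v, hv⟩ := cover X.pt (fun ω => X.D ω 0) (fun ω => A ω ∧ SepF X.wn X.s A ρt d ω) ρ d
  obtain ⟨ζ, hζ⟩ := cover X.wn (fun ω => X.e (X.pt ω)) (X.A2 A d ρt ρ) τ 1
  refine ⟨tt, v, ζ 0, fun ω hω => ?_⟩
  rcases htt ω hω with h1 | h1
  swap
  · exact Or.inl h1
  rcases hv ω ⟨hω, h1⟩ with h2 | h2
  swap
  · exact Or.inr (Or.inl h2)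
  rcases hζ ω ⟨⟨hω, h1⟩, h2⟩ with h3 | ⟨k, hk, h3⟩
  · exact Or.inr (Or.inr (Or.inr ⟨⟨⟨hω, h1⟩, h2⟩, h3⟩))
  · have : k = 0 := by omega
    rw [this] at h3
    exact Or.inr (Or.inr (Or.inl h3))

end Idp

end Pool.S6P
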