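import Pool.Agent.H26.DIC.Imp4

/-!
# Implicit labels: the degenerate case

A polynomial in time and base which vanishes nearly at the samples is small, outside the events on
which the time is known from the window, the fans are thin, or the slopes are known from the window.
-/

set_option autoImplicit false

namespace Pool.S6P

open MvPolynomial Finset

/-! ### Multiplication with a variable -/

theorem ws_X_mul (v : (Fin 3 →₀ ℕ) → ℝ) (i : Fin 3) (F : P3) :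
    ws v (X i * F) = ws (fun μ => v (Finsupp.single i 1 + μ)) F := by
  unfold ws
  rw [support_X_mul, Finset.sum_map]
  refine Finset.sum_congr rfl fun μ _ => ?_
  rw [addLeftEmbedding_apply, coeff_X_mul]

theorem nn_X2 (F : P3) : nn (X 0 * (X 0 * F)) = l1 F := by
  unfold nn l1
  rw [ws_X_mul, ws_X_mul]
  unfold ws
  refine Finset.sum_congr rfl fun μ _ => ?_
  congr 1
  unfold w2
  simp only
  rw [if_pos]
  unfold dg
  rw [Finsupp.add_apply, Finsupp.add_apply, Finsupp.add_apply, Finsupp.add_apply,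
    Finsupp.add_apply, Finsupp.add_apply, Finsupp.single_eq_same]
  omega

theorem l1_X_mul (F : P3) : l1 (X 0 * F) = l1 F := by
  unfold l1
  rw [ws_X_mul]

variable {Ω U V : Type}

namespace Idp

/-- Labels in time and base. -/
structure Dg (X : Idp Ω U V) (A : Ω → Prop) (q : Ω → P3) (d : ℕ) (η : ℝ) : Prop where
  hd : 1 ≤ d
  η0 : 0 ≤ η
  spt : ∀ ω ω', A ω → A ω' → X.pt ω' = X.pt ω → q ω' = q ω
  swn : ∀ ω ω', A ω → A ω' → X.wn ω' = X.wn ω → q ω' = q ω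
  deg : ∀ ω, A ω → (q ω).totalDegree ≤ d
  l1b : ∀ ω, A ω → l1 (q ω) ≤ 1
  sm : ∀ ω, A ω → |eval (![X.s ω, X.x ω 0, X.x ω 1] : Fin 3 → ℝ) (q ω)| ≤ η

variable {X : Idp Ω U V} {A : Ω → Prop} {K r : ℝ} {q : Ω → P3} {d : ℕ} {η : ℝ}

/-- The data with an explicit label. -/
noncomputable def ldp (X : Idp Ω U V) (q : Ω → P3) : Ldp Ω U V where
  pt := X.pt
  wn := X.wn
  s := X.s
  Y := fun ω => ![X.Y ω 0, X.Y ω 1, 0]
  D := fun ω => ![X.D ω 0, X.D ω 1, 0]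
  L := fun ω => MvPolynomial.X 0 * (MvPolynomial.X 0 * q ω)
  e := fun u => ![1, X.e u, 0]
  n := fun u => ![0, X.n u, 0]

theorem Dg.ok (hN : X.Dg A q d η) (h : X.Geo A K r) (hr : 2 * r ≤ 1) {ρt : ℝ} (hρ : 0 < ρt)
    (hρ1 : ρt ≤ 1) : (X.ldp q).Ok (fun ω => A ω ∧ SepF X.wn X.s A ρt d ω) (d + 2) K
      ((d + 1) * ((8 / ρt) ^ d * η)) (2 * r) where
  hK := h.hK
  ε0 := by
    have := hN.η0
    positivity
  r0 := by linarith [h.r0]
  r1 := hr
  hd := by omega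
  spt := fun ω ω' h1 h2 => h.spt ω ω' h1.1 h2.1
  ypt := fun ω ω' h1 h2 hp i => by
    have hs := h.spt ω ω' h1.1 h2.1 hp
    have hy := fun i => h.ypt ω ω' h1.1 h2.1 hp i
    have hr0 := h.r0
    have hi : i = 0 ∨ i = 1 ∨ i = 2 := by revert i; decide
    rcases hi with rfl | rfl | rfl
    · have := hy 0
      unfold x at this
      rw [hs] at this
      exact this.trans (by linarith)
    · have := hy 1
      unfold x at this
      rw [hs] at this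
      exact this.trans (by linarith)
    · have : |(0 + X.s ω * 0) - (0 + X.s ω * 0)| ≤ 2 * r := by
        rw [sub_self, abs_zero]
        linarith
      exact this
  rel := fun ω ω' h1 h2 hp => by
    obtain ⟨z, hz, hsep⟩ := h2.2
    have key := rel_of_times hN.hd hρ hρ1 hN.η0 (hN.deg ω' h2.1)
      (![X.Y ω' 0, X.Y ω' 1, 0] : Fin 3 → ℝ) (![X.D ω' 0, X.D ω' 1, 0] : Fin 3 → ℝ)
      (fun k => X.s (z k)) (fun k hk => h.s1 _ (hz k hk).1) hsep (fun k hk => by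
        have a1 := hN.sm _ (hz k hk).1
        obtain ⟨l1, l2⟩ := h.line ω' (z k) h2.1 (hz k hk).1 (hz k hk).2
        rw [hN.swn ω' (z k) h2.1 (hz k hk).1 (hz k hk).2] at a1
        unfold x at a1
        rw [l1, l2] at a1
        have e : eval (![X.s (z k), (![X.Y ω' 0, X.Y ω' 1, 0] : Fin 3 → ℝ) 0 +
            X.s (z k) * (![X.D ω' 0, X.D ω' 1, 0] : Fin 3 → ℝ) 0,
            (![X.Y ω' 0, X.Y ω' 1, 0] : Fin 3 → ℝ) 1 +
            X.s (z k) * (![X.D ω' 0, X.D ω' 1, 0] : Fin 3 → ℝ) 1] : Fin 3 → ℝ) (q ω') -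
            ((![X.Y ω' 0, X.Y ω' 1, 0] : Fin 3 → ℝ) 2 +
              X.s (z k) * (![X.D ω' 0, X.D ω' 1, 0] : Fin 3 → ℝ) 2) =
            eval (![X.s (z k), X.Y ω' 0 + X.s (z k) * X.D ω' 0,
              X.Y ω' 1 + X.s (z k) * X.D ω' 1] : Fin 3 → ℝ) (q ω') := by
          simp
        rw [e]
        exact a1)
    have e0 : (C ((![X.Y ω' 0, X.Y ω' 1, 0] : Fin 3 → ℝ) 2) +
        C ((![X.D ω' 0, X.D ω' 1, 0] : Fin 3 → ℝ) 2) * MvPolynomial.X 0 : P3) = 0 := by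
      simp
    rw [e0, sub_zero, hN.spt ω ω' h1.1 h2.1 hp] at key
    change l1 (aeval (ln (![X.Y ω' 0, X.Y ω' 1, 0] : Fin 3 → ℝ)
      (![X.D ω' 0, X.D ω' 1, 0] : Fin 3 → ℝ))
      (MvPolynomial.X 0 * (MvPolynomial.X 0 * q ω)) -
      (C ((![X.Y ω' 0, X.Y ω' 1, 0] : Fin 3 → ℝ) 2) +
        C ((![X.D ω' 0, X.D ω' 1, 0] : Fin 3 → ℝ) 2) * MvPolynomial.X 0)) ≤ _
    rw [e0, sub_zero, map_mul, map_mul, aeval_X]
    have e1 : ln (![X.Y ω' 0, X.Y ω' 1, 0] : Fin 3 → ℝ)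
      (![X.D ω' 0, X.D ω' 1, 0] : Fin 3 → ℝ) 0 = MvPolynomial.X 0 := rfl
    rw [e1, l1_X_mul, l1_X_mul]
    exact key
  deg := fun ω h1 => by
    change (MvPolynomial.X 0 * (MvPolynomial.X 0 * q ω) : P3).totalDegree ≤ d + 2
    have h2 := hN.deg ω h1.1
    have h3 := totalDegree_mul (MvPolynomial.X 0 : P3) (MvPolynomial.X 0 * q ω)
    have h4 := totalDegree_mul (MvPolynomial.X 0 : P3) (q ω)
    have h5 : (MvPolynomial.X 0 : P3).totalDegree = 1 := totalDegree_X _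
    omega
  Lb := fun ω h1 => by
    change l1 (MvPolynomial.X 0 * (MvPolynomial.X 0 * q ω) : P3) ≤ K
    rw [l1_X_mul, l1_X_mul]
    exact (hN.l1b ω h1.1).trans h.hK
  s1 := fun ω h1 => h.s1 ω h1.1
  Y := fun ω h1 i => by
    have hK := h.hK
    have hi : i = 0 ∨ i = 1 ∨ i = 2 := by revert i; decide
    rcases hi with rfl | rfl | rfl
    · exact h.Y ω h1.1 0
    · exact h.Y ω h1.1 1
    · have : |(0 : ℝ)| ≤ K := by rw [abs_zero]; linarith
      exact this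
  D := fun ω h1 i => by
    have hK := h.hK
    have hi : i = 0 ∨ i = 1 ∨ i = 2 := by revert i; decide
    rcases hi with rfl | rfl | rfl
    · exact h.D ω h1.1 0
    · exact h.D ω h1.1 1
    · have : |(0 : ℝ)| ≤ K := by rw [abs_zero]; linarith
      exact this
  line := fun ω h1 i => by
    have hr0 := h.r0
    have hi : i = 0 ∨ i = 1 ∨ i = 2 := by revert i; decide
    rcases hi with rfl | rfl | rfl
    · have : |X.D ω 0 - 1 * X.D ω 0 - 0| ≤ 2 * r / 2 := by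
        have e : X.D ω 0 - 1 * X.D ω 0 - 0 = 0 := by ring
        rw [e, abs_zero]
        linarith
      exact this
    · have h2 := h.fr ω h1.1
      have : |X.D ω 1 - X.e (X.pt ω) * X.D ω 0 - X.n (X.pt ω)| ≤ 2 * r / 2 := by linarith
      exact this
    · have : |(0 : ℝ) - 0 * X.D ω 0 - 0| ≤ 2 * r / 2 := by
        have e : (0 : ℝ) - 0 * X.D ω 0 - 0 = 0 := by ring
        rw [e, abs_zero]
        linarith
      exact this

/-- **The degenerate case.** -/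
theorem Dg.alt (hN : X.Dg A q d η) (h : X.Geo A K r) {ρ τ ρt : ℝ} (hρ : 0 < ρ) (hρ1 : ρ ≤ 1)
    (hτ : 0 < τ) (hτ1 : τ ≤ 1) (hρt : 0 < ρt) (hρt1 : ρt ≤ 1) (hr2 : 2 * r ≤ 1)
    (hr : cB (d + 2) K / (ρ ^ 2 * τ) ^ (d + 2) * (2 * r) ≤ 1 / 2) :
    ∃ (tt : ℕ → V → ℝ) (v : ℕ → U → ℝ) (E : ℕ → Ω → Prop) (ζ : ℕ → V → ℝ),
      (∀ k ω, E k ω → A ω ∧ |X.e (X.pt ω) - ζ k (X.wn ω)| ≤
        Ldp.cS (d + 2) K * ((d + 1) * ((8 / ρt) ^ d * η) + 2 * r) / ρ ^ (d + 3) +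
          (4 * K) ^ (d + 3) * τ) ∧
      ∀ ω, A ω → (∃ k < d, |X.s ω - tt k (X.wn ω)| ≤ ρt) ∨
        (∃ k < d + 2, |X.D ω 0 - v k (X.pt ω)| ≤ ρ) ∨ (∃ k < d + 2, E k ω) ∨
        l1 (q ω) ≤ 2 * (cB (d + 2) K / (ρ ^ 2 * τ) ^ (d + 2)) *
          ((d + 1) * ((8 / ρt) ^ d * η)) := by
  obtain ⟨tt, htt⟩ := cover X.wn X.s A ρt d
  have hok := hN.ok h hr2 hρt hρt1
  have hW : (X.ldp q).Wn (fun ω => A ω ∧ SepF X.wn X.s A ρt d ω) := by
    intro ω ω' h1 h2 hw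
    obtain ⟨l1, l2⟩ := h.line ω ω' h1.1 h2.1 hw
    have l3 := hN.swn ω ω' h1.1 h2.1 hw
    unfold ldp
    simp only
    rw [l1, l2, l3]
    exact ⟨rfl, rfl, rfl⟩
  obtain ⟨v, E, ζ, hE, hal⟩ := hok.alt hW hρ hρ1 hτ hτ1 hr
  refine ⟨tt, v, E, fun k y => ζ k y 1, fun k ω hk => ⟨(hE k ω hk).1.1, ?_⟩, fun ω hω => ?_⟩
  · exact (hE k ω hk).2 1
  · rcases htt ω hω with hs | hs
    swap
    · exact Or.inl hs
    rcases hal ω ⟨hω, hs⟩ with h1 | h1 | h1
    · exact Or.inr (Or.inl h1)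
    · exact Or.inr (Or.inr (Or.inl h1))
    · right; right; right
      have h2 : nn (MvPolynomial.X 0 * (MvPolynomial.X 0 * q ω) : P3) ≤
        2 * (cB (d + 2) K / (ρ ^ 2 * τ) ^ (d + 2)) * ((d + 1) * ((8 / ρt) ^ d * η)) := h1
      rwa [nn_X2] at h2

end Idp

end Pool.S6P
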