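import Pool.Agent.H26.DIC.Imp5

/-!
# Implicit labels: the final precision, thresholds
-/

set_option autoImplicit false

namespace Pool.S6P

open MvPolynomial Finset

namespace Idp

/-- The constant of the final precision. -/
noncomputable def cD (d : ℕ) (B K : ℝ) : ℝ :=
  (2 * 16 ^ d + (8 * K * cL d B K + 2 * cG d B K)) +
  (2 * (16 ^ d + 2 * K * ((6 + 16 * K) * ((d + 1) * 2 ^ d * ((16 * d) ^ d * (32 * K) ^ d) *
    ((d + 1) * 16 ^ d + cM d B K * (3 + (2 * 16 ^ d + (8 * K * cL d B K + 2 * cG d B K))))))) +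
  2 * cG d B K * cL d B K + ((1 + 2 * cG d B K) + 4 * K * (2 * ((6 + 16 * K) *
    ((d + 1) * 2 ^ d * ((16 * d) ^ d * (32 * K) ^ d) *
    ((d + 1) * 16 ^ d + cM d B K * (3 + (2 * 16 ^ d + (8 * K * cL d B K + 2 * cG d B K)))))) +
    2 * cG d B K * cL d B K)))

/-- **The final precision.** -/
theorem d3_le {d : ℕ} {B K ρ τ ρt ε r g : ℝ} (hd : 1 ≤ d) (hB : 0 ≤ B) (hK : 1 ≤ K) (hρ : 0 < ρ)
    (hρ1 : ρ ≤ 1) (hτ : 0 < τ) (hτ1 : τ ≤ 1) (hρt : 0 < ρt) (hρt1 : ρt ≤ 1) (hε : 0 ≤ ε)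
    (hr : 0 ≤ r) (hg : 0 < g) (hg1 : g ≤ 1) :
    r2 d B K ρt ε r g ≤ cD d B K * ((ε + r) / (ρt ^ d * (g ^ 2 * τ * ρ ^ (d + 1)))) ∧
    d3 d B K ρ τ ρt ε r g ≤ cD d B K * ((ε + r) / (ρt ^ d * (g ^ 2 * τ * ρ ^ (d + 1)))) := by
  obtain ⟨W, hW⟩ : ∃ W, W = (ε + r) / (ρt ^ d * (g ^ 2 * τ * ρ ^ (d + 1))) := ⟨_, rfl⟩
  obtain ⟨Z, hZ⟩ : ∃ Z, Z = (ε + r) / ρt ^ d := ⟨_, rfl⟩
  have hW0 : 0 ≤ W := by
    rw [hW]
    positivity
  have hZ0 : 0 ≤ Z := by
    rw [hZ]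
    positivity
  have hZW : Z = W * (g ^ 2 * τ * ρ ^ (d + 1)) := by
    rw [hZ, hW]
    field_simp
  have hcV := cV_pos hd
  have hcG : 0 ≤ cG d B K := by unfold cG; positivity
  have hcL : 0 ≤ cL d B K := by unfold cL; positivity
  have hcM : 0 ≤ cM d B K := by unfold cM; positivity
  obtain ⟨c₁, hc₁⟩ : ∃ c, c = 8 * K * cL d B K + 2 * cG d B K := ⟨_, rfl⟩
  have hc₁0 : 0 ≤ c₁ := by rw [hc₁]; positivity
  -- elementary
  have h2 : e2 d ρt ε ≤ 16 ^ d * Z := by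
    unfold e2
    rw [hZ, div_pow]
    have : (16 : ℝ) ^ d / ρt ^ d * ε = 16 ^ d * (ε / ρt ^ d) := by ring
    rw [this]
    refine mul_le_mul_of_nonneg_left ?_ (by positivity)
    exact div_le_div_of_nonneg_right (by linarith only [hr]) (by positivity)
  have h20 : 0 ≤ e2 d ρt ε := e2_nonneg hρt hε
  have hrZ : r ≤ Z := by
    rw [hZ, le_div_iff₀ (by positivity)]
    have : ρt ^ d ≤ 1 := pow_le_one₀ hρt.le hρt1
    nlinarith only [hε, hr, this]
  have hρd : ρ ^ (d + 1) ≤ 1 := pow_le_one₀ hρ.le hρ1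
  have hρd' : ρ ^ d ≤ 1 := pow_le_one₀ hρ.le hρ1
  have hZg : Z / g ≤ W := by
    rw [hZW, div_le_iff₀ hg]
    have h1 : g * τ * ρ ^ (d + 1) ≤ 1 := by
      have : g * τ ≤ 1 := by nlinarith only [hτ1, hτ, hg1]
      have h3 : 0 ≤ g * τ := by positivity
      nlinarith only [this, hρd, h3, pow_pos hρ (d + 1)]
    have h3 : W * (g ^ 2 * τ * ρ ^ (d + 1)) = (W * g) * (g * τ * ρ ^ (d + 1)) := by ring
    rw [h3]
    have : 0 ≤ W * g := by positivity
    nlinarith only [h1, this]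
  have hZZg : Z ≤ Z / g := by
    rw [le_div_iff₀ hg]
    nlinarith only [hg1, hZ0]
  have hr2 : r2 d B K ρt ε r g ≤ (2 * 16 ^ d + c₁) * (Z / g) := by
    unfold r2
    rw [← hc₁, ← mul_div_assoc]
    refine div_le_div_of_nonneg_right ?_ hg.le
    nlinarith only [h2, hc₁0, hrZ]
  have hr20 : 0 ≤ r2 d B K ρt ε r g := by
    unfold r2
    rw [← hc₁]
    positivity
  obtain ⟨c₂, hc₂⟩ : ∃ c, c = (d + 1) * 16 ^ d + cM d B K * (3 + (2 * 16 ^ d + c₁)) := ⟨_, rfl⟩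
  have hc₂0 : 0 ≤ c₂ := by rw [hc₂]; positivity
  have he4 : e4 d B K ρt ε r g ≤ c₂ * (Z / g) := by
    unfold e4
    have t1 : (d + 1) * e2 d ρt ε ≤ (d + 1) * (16 ^ d * (Z / g)) := by
      refine mul_le_mul_of_nonneg_left (h2.trans ?_) (by positivity)
      exact mul_le_mul_of_nonneg_left hZZg (by positivity)
    have t2 : cM d B K * (3 * r + r2 d B K ρt ε r g) ≤
        cM d B K * (3 * (Z / g) + (2 * 16 ^ d + c₁) * (Z / g)) := by
      refine mul_le_mul_of_nonneg_left ?_ hcM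
      linarith only [hrZ, hZZg, hr2]
    rw [hc₂]
    refine (add_le_add t1 t2).trans (le_of_eq (by ring))
  obtain ⟨c₃, hc₃⟩ : ∃ c : ℝ, c = (d + 1) * 2 ^ d * ((16 * d) ^ d * (32 * K) ^ d) := ⟨_, rfl⟩
  have hc₃0 : 0 ≤ c₃ := by rw [hc₃]; positivity
  have he3 : e3 d B K ρ ρt ε r g ≤ c₃ * c₂ * (Z / (g * ρ ^ d)) := by
    unfold e3
    have e : (d + 1) * 2 ^ d * ((16 * d) ^ d * ((32 * K / ρ) ^ d * e4 d B K ρt ε r g)) =
        c₃ * (e4 d B K ρt ε r g / ρ ^ d) := by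
      rw [hc₃, div_pow]
      ring
    rw [e]
    have : e4 d B K ρt ε r g / ρ ^ d ≤ c₂ * (Z / g) / ρ ^ d :=
      div_le_div_of_nonneg_right he4 (by positivity)
    calc c₃ * (e4 d B K ρt ε r g / ρ ^ d) ≤ c₃ * (c₂ * (Z / g) / ρ ^ d) :=
          mul_le_mul_of_nonneg_left this hc₃0
      _ = c₃ * c₂ * (Z / (g * ρ ^ d)) := by
          field_simp
  obtain ⟨E, hE⟩ : ∃ E, E = e3 d B K ρ ρt ε r g / g := ⟨_, rfl⟩
  have hEW : E / (ρ * τ) ≤ c₃ * c₂ * W := by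
    have h1 : E ≤ c₃ * c₂ * (Z / (g * ρ ^ d)) / g := by
      rw [hE]
      exact div_le_div_of_nonneg_right he3 hg.le
    have h2 : c₃ * c₂ * (Z / (g * ρ ^ d)) / g / (ρ * τ) = c₃ * c₂ * W := by
      rw [hZW]
      field_simp
      ring
    rw [← h2]
    exact div_le_div_of_nonneg_right h1 (by positivity)
  have hE0 : 0 ≤ E := by
    have h4 : 0 ≤ e4 d B K ρt ε r g := by
      unfold e4
      positivity
    rw [hE]
    unfold e3
    positivity
  have hEE : E ≤ E / (ρ * τ) := by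
    rw [le_div_iff₀ (by positivity)]
    have : ρ * τ ≤ 1 := by nlinarith only [hρ1, hρ, hτ1]
    nlinarith only [hE0, this]
  have hd1 : d1 d B K ρ τ ρt ε r g ≤ (6 + 16 * K) * (c₃ * c₂ * W) := by
    unfold d1
    rw [← hE]
    have t1 : 4 * K / ρ * (4 * E / τ) = 16 * K * (E / (ρ * τ)) := by
      field_simp
      ring
    have t2 : 4 * E / τ ≤ 4 * (E / (ρ * τ)) := by
      have : E / τ ≤ E / (ρ * τ) := by
        refine div_le_div_of_nonneg_left hE0 (by positivity) ?_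
        nlinarith only [hρ1, hτ]
      have e : 4 * E / τ = 4 * (E / τ) := by ring
      rw [e]
      linarith only [this]
    rw [t1]
    have t3 : (6 + 16 * K) * (E / (ρ * τ)) ≤ (6 + 16 * K) * (c₃ * c₂ * W) :=
      mul_le_mul_of_nonneg_left hEW (by linarith only [hK])
    linarith only [hEE, t2, t3]
  have hd2 : d2 d B K r g ≤ 2 * cG d B K * cL d B K * W := by
    unfold d2
    have e : 2 * cG d B K * (cL d B K * r) / g ^ 2 = 2 * cG d B K * cL d B K * (r / g ^ 2) := by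
      ring
    rw [e]
    refine mul_le_mul_of_nonneg_left ?_ (by positivity)
    rw [div_le_iff₀ (by positivity)]
    refine hrZ.trans ?_
    rw [hZW]
    have h1 : τ * ρ ^ (d + 1) ≤ 1 := by nlinarith only [hτ1, hτ, hρd, pow_pos hρ (d + 1)]
    have h3 : W * (g ^ 2 * τ * ρ ^ (d + 1)) = (W * g ^ 2) * (τ * ρ ^ (d + 1)) := by ring
    rw [h3]
    have : 0 ≤ W * g ^ 2 := by positivity
    nlinarith only [h1, this]
  have hZW' : Z ≤ W := hZZg.trans hZg
  have hcD : cD d B K = (2 * 16 ^ d + c₁) + (2 * (16 ^ d + 2 * K * ((6 + 16 * K) * (c₃ * c₂))) +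
      2 * cG d B K * cL d B K + ((1 + 2 * cG d B K) + 4 * K * (2 * ((6 + 16 * K) * (c₃ * c₂)) +
      2 * cG d B K * cL d B K))) := by
    unfold cD
    rw [hc₂, hc₃, hc₁]
  rw [← hW, hcD]
  have p1 : 0 ≤ 2 * (16 ^ d + 2 * K * ((6 + 16 * K) * (c₃ * c₂))) +
      2 * cG d B K * cL d B K + ((1 + 2 * cG d B K) + 4 * K * (2 * ((6 + 16 * K) * (c₃ * c₂)) +
      2 * cG d B K * cL d B K)) := by positivity
  have p2 : 0 ≤ 2 * (16 : ℝ) ^ d + c₁ := by positivity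
  constructor
  · refine hr2.trans ?_
    have t1 : (2 * 16 ^ d + c₁) * (Z / g) ≤ (2 * 16 ^ d + c₁) * W :=
      mul_le_mul_of_nonneg_left hZg p2
    have t2 := mul_nonneg p1 hW0
    linarith only [t1, t2]
  · unfold d3
    have t1 : e2 d ρt ε / g ≤ 16 ^ d * W := by
      have : e2 d ρt ε / g ≤ 16 ^ d * (Z / g) := by
        rw [← mul_div_assoc]
        exact div_le_div_of_nonneg_right h2 hg.le
      exact this.trans (mul_le_mul_of_nonneg_left hZg (by positivity))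
    have t2 : 2 * K * d1 d B K ρ τ ρt ε r g ≤ 2 * K * ((6 + 16 * K) * (c₃ * c₂ * W)) :=
      mul_le_mul_of_nonneg_left hd1 (by linarith only [hK])
    have t3 : r * (1 + 2 * (cG d B K / g)) ≤ (1 + 2 * cG d B K) * W := by
      have a1 : r ≤ W := hrZ.trans hZW'
      have a2 : r * (cG d B K / g) ≤ cG d B K * W := by
        have : r / g ≤ W := (div_le_div_of_nonneg_right hrZ hg.le).trans hZg
        calc r * (cG d B K / g) = cG d B K * (r / g) := by ring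
          _ ≤ _ := mul_le_mul_of_nonneg_left this hcG
      nlinarith only [hrZ, hZg, hZZg, a2]
    have t4 : 4 * K * (2 * d1 d B K ρ τ ρt ε r g + d2 d B K r g) ≤
        4 * K * (2 * ((6 + 16 * K) * (c₃ * c₂ * W)) + 2 * cG d B K * cL d B K * W) :=
      mul_le_mul_of_nonneg_left (by linarith only [hd1, hd2]) (by linarith only [hK])
    have t5 := mul_nonneg p2 hW0
    have fin : 2 * (e2 d ρt ε / g + 2 * K * d1 d B K ρ τ ρt ε r g) + d2 d B K r g +
        (r * (1 + 2 * (cG d B K / g)) +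
          4 * K * (2 * d1 d B K ρ τ ρt ε r g + d2 d B K r g)) ≤
        2 * (16 ^ d * W + 2 * K * ((6 + 16 * K) * (c₃ * c₂ * W))) +
          2 * cG d B K * cL d B K * W + ((1 + 2 * cG d B K) * W +
          4 * K * (2 * ((6 + 16 * K) * (c₃ * c₂ * W)) + 2 * cG d B K * cL d B K * W)) := by
      linarith only [hd2, t1, t2, t3, t4]
    refine fin.trans ?_
    have e : 2 * (16 ^ d * W + 2 * K * ((6 + 16 * K) * (c₃ * c₂ * W))) +
          2 * cG d B K * cL d B K * W + ((1 + 2 * cG d B K) * W +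
          4 * K * (2 * ((6 + 16 * K) * (c₃ * c₂ * W)) + 2 * cG d B K * cL d B K * W)) =
        (2 * (16 ^ d + 2 * K * ((6 + 16 * K) * (c₃ * c₂))) +
      2 * cG d B K * cL d B K + ((1 + 2 * cG d B K) + 4 * K * (2 * ((6 + 16 * K) * (c₃ * c₂)) +
      2 * cG d B K * cL d B K))) * W := by ring
    rw [e]
    linarith only [t5]

end Idp

end Pool.S6P
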