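import Pool.Agent.H26.DIC.Imp6

/-!
# Implicit labels: norm, derivatives in the normal direction, classes of samples
-/

set_option autoImplicit false

namespace Pool.S6P

open MvPolynomial Finset

/-! ### The coefficients as polynomials in time and base -/

/-- The coefficient of the power `j` of the normal coordinate. -/
noncomputable def cq (R : P4) (j : ℕ) : P3 := (finSuccEquiv ℝ 3 R).coeff j

/-- The norm. -/
noncomputable def nP (d : ℕ) (R : P4) : ℝ := ∑ j ∈ range (d + 1), l1 (cq R j)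

theorem cq_deg {R : P4} {d : ℕ} (hR : R.totalDegree ≤ d) (j : ℕ) : (cq R j).totalDegree ≤ d := by
  by_cases h : (finSuccEquiv ℝ 3 R).coeff j = 0
  · unfold cq
    rw [h, totalDegree_zero]
    exact Nat.zero_le _
  · have := totalDegree_coeff_finSuccEquiv_add_le R j h
    unfold cq
    omega

theorem natDegree_fin {R : P4} {d : ℕ} (hR : R.totalDegree ≤ d) :
    (finSuccEquiv ℝ 3 R).natDegree ≤ d := by
  rw [natDegree_finSuccEquiv]
  exact (degreeOf_le_totalDegree R 0).trans hR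

theorem eval_fin {R : P4} {d : ℕ} (hR : R.totalDegree ≤ d) (b : Fin 4 → ℝ) :
    eval b R = ∑ j ∈ range (d + 1), eval (fun i : Fin 3 => b i.succ) (cq R j) * b 0 ^ j := by
  have e : b = Fin.cons (b 0) (fun i : Fin 3 => b i.succ) := by
    funext i
    refine Fin.cases ?_ (fun i => ?_) i
    · rfl
    · rfl
  conv_lhs => rw [e]
  rw [eval_eq_eval_mv_eval']
  have hd : (Polynomial.map (eval (fun i : Fin 3 => b i.succ)) (finSuccEquiv ℝ 3 R)).natDegree <
      d + 1 := by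
    have h1 := Polynomial.natDegree_map_le (f := eval (fun i : Fin 3 => b i.succ))
      (p := finSuccEquiv ℝ 3 R)
    have h2 := natDegree_fin hR
    omega
  rw [Polynomial.eval_eq_sum_range' hd]
  refine Finset.sum_congr rfl fun j _ => ?_
  rw [Polynomial.coeff_map]
  rfl

theorem aeval_CC (b : Fin 3 → ℝ) (F : P3) :
    aeval (fun i => (C (b i) : P3)) F = C (eval b F) := by
  induction F using MvPolynomial.induction_on with
  | C a => rw [aeval_C, eval_C]; rfl
  | add p q hp hq => rw [map_add, map_add, map_add, hp, hq]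
  | mul_X p i hp => rw [map_mul, map_mul, map_mul, hp, aeval_X, eval_X]

theorem eval_le_l1 {F : P3} {d : ℕ} (hF : F.totalDegree ≤ d) {M : ℝ} (hM : 1 ≤ M)
    {b : Fin 3 → ℝ} (hb : ∀ i, |b i| ≤ M) : |eval b F| ≤ M ^ d * l1 F := by
  have h1 := l1_aeval_le (f := fun i => (C (b i) : P3)) hM (fun i => by rw [l1_C]; exact hb i) hF
  rw [aeval_CC, l1_C] at h1
  exact h1

/-- Polynomials are bounded by their norm. -/
theorem Bd_nP {R : P4} {d : ℕ} (hR : R.totalDegree ≤ d) : Bd R d (nP d R) := by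
  refine ⟨hR, fun M hM b hb => ?_⟩
  rw [eval_fin hR]
  refine (Finset.abs_sum_le_sum_abs _ _).trans ?_
  unfold nP
  rw [Finset.sum_mul]
  refine Finset.sum_le_sum fun j hj => ?_
  have hj' : j ≤ d := by
    have := Finset.mem_range.1 hj
    omega
  rw [abs_mul, abs_pow]
  have h1 := eval_le_l1 (cq_deg hR j) hM (b := fun i : Fin 3 => b i.succ) (fun i => hb _)
  have h2 : |b 0| ^ j ≤ M ^ d :=
    (pow_le_pow_left₀ (abs_nonneg _) (hb 0) j).trans (pow_le_pow_right₀ hM hj')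
  calc _ ≤ M ^ d * l1 (cq R j) * M ^ d :=
        mul_le_mul h1 h2 (by positivity) (mul_nonneg (by positivity) (l1_nonneg _))
    _ = l1 (cq R j) * M ^ (2 * d) := by
        rw [two_mul, pow_add]
        ring

theorem Bd.mono {F : P4} {d : ℕ} {B B' : ℝ} (h : Bd F d B) (hB : B ≤ B') : Bd F d B' :=
  ⟨h.1, fun M hM b hb => (h.2 M hM b hb).trans (mul_le_mul_of_nonneg_right hB (by positivity))⟩

/-! ### Derivatives in the normal direction -/

theorem der_iter (b : Fin 4 → ℝ) (F : P4) (j : ℕ) :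
    Polynomial.derivative^[j] (aeval (lz b (Pi.single 0 1)) F) =
      aeval (lz b (Pi.single 0 1)) ((pderiv 0)^[j] F) := by
  induction j with
  | zero => rfl
  | succ j ih =>
    rw [Function.iterate_succ_apply', Function.iterate_succ_apply', ih, der_aeval,
      Fin.sum_univ_four]
    simp only [der_lz]
    have e0 : (Pi.single 0 1 : Fin 4 → ℝ) 0 = 1 := rfl
    have e1 : (Pi.single 0 1 : Fin 4 → ℝ) 1 = 0 := rfl
    have e2 : (Pi.single 0 1 : Fin 4 → ℝ) 2 = 0 := rfl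
    have e3 : (Pi.single 0 1 : Fin 4 → ℝ) 3 = 0 := rfl
    rw [e0, e1, e2, e3]
    simp

/-- The coefficients in the normal direction. -/
theorem coeff_nrm (b : Fin 4 → ℝ) (F : P4) (j : ℕ) :
    (j.factorial : ℝ) * (aeval (lz b (Pi.single 0 1)) F).coeff j =
      eval b ((pderiv 0)^[j] F) := by
  have h1 : (Polynomial.derivative^[j] (aeval (lz b (Pi.single 0 1)) F)).eval 0 =
      eval b ((pderiv 0)^[j] F) := by
    rw [der_iter, eval_lz]
    congr 1
    simp
  rw [← h1, ← Polynomial.coeff_zero_eq_eval_zero, Polynomial.coeff_iterate_derivative, zero_add,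
    Nat.descFactorial_self, nsmul_eq_mul]

/-- The constant of the Taylor formula. -/
noncomputable def cY (d : ℕ) (M : ℝ) : ℝ := (8 * d) ^ d * ((d + 1) * (1 + M) ^ d)

/-- **If all the normal derivatives are small, all the coefficients are small at the point.** -/
theorem base_small {R : P4} {d : ℕ} (hd : 1 ≤ d) (hR : R.totalDegree ≤ d) {b : Fin 4 → ℝ}
    {M η : ℝ} (hb : |b 0| ≤ M) (hη : 0 ≤ η)
    (h : ∀ j ≤ d, |eval b ((pderiv 0)^[j] R)| ≤ η) (j : ℕ) :
    |eval (fun i : Fin 3 => b i.succ) (cq R j)| ≤ cY d M * η := by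
  obtain ⟨φ, hφ⟩ : ∃ φ, φ = aeval (lz b (Pi.single 0 1)) R := ⟨_, rfl⟩
  have hM : 0 ≤ M := (abs_nonneg _).trans hb
  have hφd : φ.natDegree ≤ d := by rw [hφ]; exact natDegree_lz _ _ hR
  have hφc : ∀ m, |φ.coeff m| ≤ η := by
    intro m
    by_cases hm : m ≤ d
    · have h1 := h m hm
      rw [← coeff_nrm, ← hφ, abs_mul, abs_of_nonneg (by positivity)] at h1
      have h2 : (1 : ℝ) ≤ m.factorial := by
        exact_mod_cast Nat.succ_le_of_lt (Nat.factorial_pos m)
      have h3 := abs_nonneg (φ.coeff m)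
      nlinarith
    · rw [Polynomial.coeff_eq_zero_of_natDegree_lt (by omega), abs_zero]
      exact hη
  obtain ⟨P, hP⟩ : ∃ P, P = Polynomial.map (eval (fun i : Fin 3 => b i.succ))
    (finSuccEquiv ℝ 3 R) := ⟨_, rfl⟩
  have hPd : P.natDegree ≤ d := by
    rw [hP]
    exact Polynomial.natDegree_map_le.trans (natDegree_fin hR)
  have hPe : ∀ z, P.eval z = φ.eval (z - b 0) := by
    intro z
    rw [hP, hφ, ← eval_eq_eval_mv_eval', eval_lz]
    congr 1
    congr 1
    funext i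
    refine Fin.cases ?_ (fun i => ?_) i
    · have e0 : (Pi.single 0 1 : Fin 4 → ℝ) 0 = 1 := rfl
      rw [e0, Fin.cons_zero]
      ring
    · have e1 : (Pi.single 0 1 : Fin 4 → ℝ) i.succ = 0 := by
        rw [Pi.single_eq_of_ne (Fin.succ_ne_zero i)]
      rw [e1, Fin.cons_succ]
      ring
  obtain ⟨n1, n2⟩ := nodes hd
  have hd0 : (0 : ℝ) < d := by exact_mod_cast hd
  have hd1 : (1 : ℝ) / d ≤ 1 := by
    rw [div_le_one hd0]
    exact_mod_cast hd
  have key := vander (K := 1) (ρ := 1 / d) le_rfl (by positivity) hd1 d P hPd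
    (fun k => (k : ℝ) / d) n1 n2 ((d + 1) * (1 + M) ^ d * η) (by positivity) (fun i hi => by
      rw [hPe]
      refine eval_le_of_coeff hφd (by linarith) hη hφc ?_
      refine (abs_sub _ _).trans ?_
      have := n1 i hi
      linarith) j
  have e1 : (8 * 1 / (1 / (d : ℝ))) = 8 * d := by field_simp
  rw [e1, hP, Polynomial.coeff_map] at key
  unfold cY cq
  refine key.trans (le_of_eq (by ring))

/-- A large coefficient. -/
theorem exists_big (d : ℕ) (R : P4) : ∃ j ≤ d, nP d R ≤ (d + 1) * l1 (cq R j) := by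
  obtain ⟨j, hj, hmax⟩ := Finset.exists_max_image (range (d + 1)) (fun j => l1 (cq R j))
    ⟨0, by simp⟩
  refine ⟨j, by have := Finset.mem_range.1 hj; omega, ?_⟩
  unfold nP
  refine (Finset.sum_le_card_nsmul _ _ _ hmax).trans (le_of_eq ?_)
  rw [card_range, nsmul_eq_mul]
  push_cast
  ring

/-- The index of a large coefficient. -/
noncomputable def jm (d : ℕ) (R : P4) : ℕ := (exists_big d R).choose

theorem jm_le (d : ℕ) (R : P4) : jm d R ≤ d := (exists_big d R).choose_spec.1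

theorem jm_spec (d : ℕ) (R : P4) : nP d R ≤ (d + 1) * l1 (cq R (jm d R)) :=
  (exists_big d R).choose_spec.2

theorem l1_cq_le {d : ℕ} (R : P4) {j : ℕ} (hj : j ≤ d) : l1 (cq R j) ≤ nP d R :=
  Finset.single_le_sum (f := fun j => l1 (cq R j)) (fun _ _ => l1_nonneg _)
    (Finset.mem_range.2 (by omega))

variable {Ω U V : Type}

namespace Idp

/-- Implicit labels. -/
structure Imp (X : Idp Ω U V) (A : Ω → Prop) (R : Ω → P4) (d : ℕ) (ε : ℝ) : Prop where
  hd : 1 ≤ d
  ε0 : 0 ≤ ε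
  spt : ∀ ω ω', A ω → A ω' → X.pt ω' = X.pt ω → R ω' = R ω
  swn : ∀ ω ω', A ω → A ω' → X.wn ω' = X.wn ω → R ω' = R ω
  deg : ∀ ω, A ω → (R ω).totalDegree ≤ d
  nrm : ∀ ω, A ω → nP d (R ω) = 1
  sm : ∀ ω, A ω → |eval (X.pp ω) (R ω)| ≤ ε

variable {X : Idp Ω U V} {A : Ω → Prop} {R : Ω → P4} {d : ℕ} {ε K r : ℝ}

/-- The normal derivatives at the sample. -/
noncomputable def Dn (X : Idp Ω U V) (R : Ω → P4) (j : ℕ) (ω : Ω) : ℝ :=
  eval (X.pp ω) ((pderiv 0)^[j] (R ω))

/-- The samples of order `k`. -/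
def Ak (X : Idp Ω U V) (A : Ω → Prop) (R : Ω → P4) (η : ℕ → ℝ) (k : ℕ) (ω : Ω) : Prop :=
  A ω ∧ η k ≤ |X.Dn R k ω| ∧ ∀ j < k, |X.Dn R j ω| ≤ η j

/-- The degenerate samples. -/
def Ai (X : Idp Ω U V) (A : Ω → Prop) (R : Ω → P4) (d : ℕ) (η : ℕ → ℝ) (ω : Ω) : Prop :=
  A ω ∧ ∀ j ≤ d, |X.Dn R j ω| ≤ η j

theorem Imp.split (h : X.Imp A R d ε) {η : ℕ → ℝ} (h0 : ε ≤ η 0) (ω : Ω) (hω : A ω) :
    X.Ai A R d η ω ∨ ∃ k < d, X.Ak A R η (k + 1) ω := by
  classical
  by_cases hex : ∃ k, k < d ∧ η (k + 1) ≤ |X.Dn R (k + 1) ω|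
  · right
    refine ⟨Nat.find hex, (Nat.find_spec hex).1, hω, (Nat.find_spec hex).2, fun j hj => ?_⟩
    rcases Nat.eq_zero_or_pos j with h1 | h1
    · rw [h1]
      exact (h.sm ω hω).trans h0
    · obtain ⟨i, rfl⟩ : ∃ i, j = i + 1 := ⟨j - 1, by omega⟩
      have h2 := Nat.find_min hex (show i < Nat.find hex by omega)
      by_contra hc
      push Not at hc
      exact h2 ⟨by have := (Nat.find_spec hex).1; omega, hc.le⟩
  · left
    push Not at hex
    refine ⟨hω, fun j hj => ?_⟩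
    rcases Nat.eq_zero_or_pos j with h1 | h1
    · rw [h1]
      exact (h.sm ω hω).trans h0
    · obtain ⟨i, rfl⟩ : ∃ i, j = i + 1 := ⟨j - 1, by omega⟩
      exact (hex i (by omega)).le

/-- The label of the samples of order `k + 1`. -/
theorem Imp.nd (h : X.Imp A R d ε) {η : ℕ → ℝ} {k : ℕ} (hk : k < d) (hη : 0 < η (k + 1))
    (hη' : 0 ≤ η k) :
    X.Nd (X.Ak A R η (k + 1)) (fun ω => (pderiv 0)^[k] (R ω)) d (cV d ^ d) (η k)
      (η (k + 1)) where
  hd := h.hd
  ε0 := hη'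
  g0 := hη
  spt := fun ω ω' h1 h2 hp => by rw [h.spt ω ω' h1.1 h2.1 hp]
  swn := fun ω ω' h1 h2 hp => by rw [h.swn ω ω' h1.1 h2.1 hp]
  bd := fun ω hω => by
    have h1 := Bd_nP (h.deg ω hω.1)
    rw [h.nrm ω hω.1] at h1
    refine (h1.iter h.hd 0 k).mono ?_
    rw [mul_one]
    exact pow_le_pow_right₀ (cV_pos h.hd) hk.le
  sm := fun ω hω => hω.2.2 k (Nat.lt_succ_self k)
  gr := fun ω hω => by
    have h1 := hω.2.1
    unfold Dn at h1
    rw [Function.iterate_succ_apply'] at h1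
    exact h1

/-- The label of the degenerate samples. -/
theorem Imp.dg (h : X.Imp A R d ε) (hG : X.Geo A K r) {η : ℕ → ℝ} {η₁ : ℝ} (hη₁ : 0 ≤ η₁)
    (hη : ∀ j ≤ d, η j ≤ η₁) :
    X.Dg (X.Ai A R d η) (fun ω => cq (R ω) (jm d (R ω))) d (cY d (2 * K) * η₁) where
  hd := h.hd
  η0 := by
    have := hG.hK
    unfold cY
    positivity
  spt := fun ω ω' h1 h2 hp => by rw [h.spt ω ω' h1.1 h2.1 hp]
  swn := fun ω ω' h1 h2 hp => by rw [h.swn ω ω' h1.1 h2.1 hp]
  deg := fun ω hω => cq_deg (h.deg ω hω.1) _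
  l1b := fun ω hω => by
    have h1 := l1_cq_le (d := d) (R ω) (jm_le d (R ω))
    rw [h.nrm ω hω.1] at h1
    exact h1
  sm := fun ω hω => by
    have h1 := base_small (b := X.pp ω) h.hd (h.deg ω hω.1) (hG.pp_le hω.1 0) hη₁
      (fun j hj => (hω.2 j hj).trans (hη j hj)) (jm d (R ω))
    have e : (fun i : Fin 3 => X.pp ω i.succ) = ![X.s ω, X.x ω 0, X.x ω 1] := by
      funext i
      have hi : i = 0 ∨ i = 1 ∨ i = 2 := by revert i; decide
      rcases hi with rfl | rfl | rfl <;> rfl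
    rw [e] at h1
    exact h1

theorem Geo.sub {B : Ω → Prop} (h : X.Geo A K r) (hB : ∀ ω, B ω → A ω) : X.Geo B K r where
  hK := h.hK
  r0 := h.r0
  r1 := h.r1
  spt := fun ω ω' h1 h2 => h.spt ω ω' (hB _ h1) (hB _ h2)
  ypt := fun ω ω' h1 h2 => h.ypt ω ω' (hB _ h1) (hB _ h2)
  line := fun ω ω' h1 h2 => h.line ω ω' (hB _ h1) (hB _ h2)
  s1 := fun ω h1 => h.s1 ω (hB _ h1)
  Y := fun ω h1 => h.Y ω (hB _ h1)
  D := fun ω h1 => h.D ω (hB _ h1)
  fr := fun ω h1 => h.fr ω (hB _ h1)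

end Idp

end Pool.S6P
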