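import Pool.Agent.H26.DIC.Imp7
import Pool.Agent.H80.KS6.Plk
import Pool.Agent.H13.K2S.Cht

/-!
# Implicit labels: the dichotomy with probabilities
-/

set_option autoImplicit false

namespace Pool.S6P

open MvPolynomial Finset Pool.K2S Pool.STK

/-- On a part of `A` of proportion at least `1 / C` the property `Q` holds. -/
def Big {Ω : Type} [Fintype Ω] (p : Ω → ℝ) (C : ℝ) (A : Ω → Prop) (Q : (Ω → Prop) → Prop) :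
    Prop :=
  ∃ B : Ω → Prop, Sub B A ∧ Pe p A ≤ C * Pe p B ∧ Q B

section big

variable {Ω : Type} [Fintype Ω] {p : Ω → ℝ} {A : Ω → Prop} {Q : (Ω → Prop) → Prop} {C : ℝ}

theorem Big.self (h : Q A) : Big p 1 A Q := ⟨A, fun _ h => h, by rw [one_mul], h⟩

theorem Big.mono (hp : IsLaw p) {C' : ℝ} (hC : C ≤ C') (h : Big p C A Q) : Big p C' A Q := by
  obtain ⟨B, h1, h2, h3⟩ := h
  exact ⟨B, h1, h2.trans (mul_le_mul_of_nonneg_right hC (Pe_nonneg hp B)), h3⟩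

theorem Big.imp {Q' : (Ω → Prop) → Prop} (h : Big p C A Q) (hQ : ∀ B, Sub B A → Q B → Q' B) :
    Big p C A Q' := by
  obtain ⟨B, h1, h2, h3⟩ := h
  exact ⟨B, h1, h2, hQ B h1 h3⟩

theorem Big.bind {C' : ℝ} {Q' : (Ω → Prop) → Prop} (hC : 0 ≤ C) (h : Big p C A Q)
    (hQ : ∀ B, Sub B A → Q B → Big p C' B Q') : Big p (C * C') A Q' := by
  obtain ⟨B, h1, h2, h3⟩ := h
  obtain ⟨B', k1, k2, k3⟩ := hQ B h1 h3
  refine ⟨B', k1.trans h1, h2.trans ?_, k3⟩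
  rw [mul_assoc]
  exact mul_le_mul_of_nonneg_left k2 hC

theorem Big.or (hp : IsLaw p) {A₁ A₂ : Ω → Prop} {C₁ C₂ : ℝ} (hA : ∀ ω, A ω → A₁ ω ∨ A₂ ω)
    (h₁ : Sub A₁ A) (h₂ : Sub A₂ A) (hC₁ : 0 ≤ C₁) (hC₂ : 0 ≤ C₂) (b₁ : Big p C₁ A₁ Q)
    (b₂ : Big p C₂ A₂ Q) : Big p (C₁ + C₂) A Q := by
  obtain ⟨B₁, k1, k2, k3⟩ := b₁
  obtain ⟨B₂, l1, l2, l3⟩ := b₂
  have h0 := Pe_or hp hA
  rcases le_total (Pe p B₁) (Pe p B₂) with h | h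
  · refine ⟨B₂, l1.trans h₂, ?_, l3⟩
    have := mul_le_mul_of_nonneg_left h hC₁
    linarith
  · refine ⟨B₁, k1.trans h₁, ?_, k3⟩
    have := mul_le_mul_of_nonneg_left h hC₂
    linarith

theorem Big.ex (hp : IsLaw p) (hC : 0 ≤ C) (hQ : Q (fun _ => False)) (n : ℕ)
    (E : ℕ → Ω → Prop) (hA : ∀ ω, A ω → ∃ k < n, E k ω)
    (h : ∀ k < n, Big p C (fun ω => A ω ∧ E k ω) Q) : Big p (n * C) A Q := by
  induction n generalizing A with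
  | zero =>
    have : A = fun _ => False := by
      funext ω
      refine propext ⟨fun h => ?_, fun h => h.elim⟩
      obtain ⟨k, hk, -⟩ := hA ω h
      omega
    rw [this]
    refine ⟨fun _ => False, fun _ h => h, ?_, hQ⟩
    have e : Pe p (fun _ => False) = 0 := by
      classical
      rw [Pe_eq]
      simp
    rw [e]
    simp
  | succ n ih =>
    have h1 : Big p (n * C) (fun ω => A ω ∧ ∃ k < n, E k ω) Q := by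
      refine ih (fun ω hω => hω.2) fun k hk => ?_
      have h2 := h k (by omega)
      have e : (fun ω => (A ω ∧ ∃ k < n, E k ω) ∧ E k ω) = fun ω => A ω ∧ E k ω := by
        funext ω
        exact propext ⟨fun h => ⟨h.1.1, h.2⟩, fun h => ⟨⟨h.1, k, hk, h.2⟩, h.2⟩⟩
      rw [e]
      exact h2
    have h2 := Big.or hp (A := A) (fun ω hω => by
      obtain ⟨k, hk, hE⟩ := hA ω hω
      rcases Nat.lt_succ_iff_lt_or_eq.1 hk with h3 | h3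
      · exact Or.inl (⟨hω, k, h3, hE⟩ : A ω ∧ ∃ k < n, E k ω)
      · rw [h3] at hE
        exact Or.inr (⟨hω, hE⟩ : A ω ∧ E n ω)) (fun ω hω => hω.1) (fun ω hω => hω.1)
      (by positivity) hC h1 (h n (by omega))
    refine h2.mono hp (le_of_eq ?_)
    push_cast
    ring

end big

namespace Idp

variable {Ω U V : Type} {X : Idp Ω U V}

/-- **Planks**: rounded coefficients, functions of the point and of the window. -/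
def Pl (X : Idp Ω U V) (A : Ω → Prop) (K ρ δ Λ : ℝ) (B : Ω → Prop) : Prop :=
  ∃ f : Ω → Fin 4 → ℤ, (∀ ω ω', B ω → B ω' → X.pt ω' = X.pt ω → f ω' = f ω) ∧
    (∀ ω ω', B ω → B ω' → X.wn ω' = X.wn ω → f ω' = f ω) ∧
    ∀ ω, B ω → SepF X.pt (fun ω => X.D ω 0) A ρ 1 ω ∧ |δ * f ω 2| ≤ Λ ∧ |δ * f ω 3| ≤ Λ ∧
      |X.Y ω 2 - δ * f ω 0 - δ * f ω 2 * X.Y ω 0 - δ * f ω 3 * X.Y ω 1| ≤ (1 + 2 * K) * δ ∧
      |X.D ω 2 - δ * f ω 1 - δ * f ω 2 * X.D ω 0 - δ * f ω 3 * X.D ω 1| ≤ (1 + 2 * K) * δ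

/-- **The alternatives.** -/
def Out (X : Idp Ω U V) (A : Ω → Prop) (K ρ τ ρt δ Λ : ℝ) (B : Ω → Prop) : Prop :=
  (∃ tt : V → ℝ, ∀ ω, B ω → |X.s ω - tt (X.wn ω)| ≤ ρt) ∨
  (∃ v : U → ℝ, ∀ ω, B ω → |X.D ω 0 - v (X.pt ω)| ≤ ρ) ∨
  (∃ ζ : V → ℝ, ∀ ω, B ω → |X.e (X.pt ω) - ζ (X.wn ω)| ≤ τ) ∨ X.Pl A K ρ δ Λ B

theorem out_false {A : Ω → Prop} {K ρ τ ρt δ Λ : ℝ} : X.Out A K ρ τ ρt δ Λ (fun _ => False) :=
  Or.inl ⟨fun _ => 0, fun _ h => h.elim⟩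

theorem Pl.mono {A A' : Ω → Prop} {K ρ δ Λ Λ' : ℝ} {B : Ω → Prop} (hA : ∀ ω, A' ω → A ω)
    (hΛ : Λ ≤ Λ') (h : X.Pl A' K ρ δ Λ B) : X.Pl A K ρ δ Λ' B := by
  obtain ⟨f, h1, h2, h3⟩ := h
  refine ⟨f, h1, h2, fun ω hω => ?_⟩
  obtain ⟨⟨z, hz, hs⟩, a, b, c⟩ := h3 ω hω
  exact ⟨⟨z, fun i hi => ⟨hA _ (hz i hi).1, (hz i hi).2⟩, hs⟩, a.trans hΛ, b.trans hΛ, c⟩

theorem Out.mono {A A' : Ω → Prop} {K ρ τ ρt δ Λ Λ' : ℝ} {B : Ω → Prop} (hA : ∀ ω, A' ω → A ω)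
    (hΛ : Λ ≤ Λ') (h : X.Out A' K ρ τ ρt δ Λ B) : X.Out A K ρ τ ρt δ Λ' B := by
  rcases h with h | h | h | h
  · exact Or.inl h
  · exact Or.inr (Or.inl h)
  · exact Or.inr (Or.inr (Or.inl h))
  · exact Or.inr (Or.inr (Or.inr (h.mono hA hΛ)))

variable [Fintype Ω] {p : Ω → ℝ} {A : Ω → Prop} {K r : ℝ} {S : Ω → P4} {d : ℕ} {B ε g : ℝ}

/-- The dichotomy for nondegenerate labels. -/
theorem Nd.big (hp : IsLaw p) (hN : X.Nd A S d B ε g) (h : X.Geo A K r) {ρ τ ρt δ : ℝ}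
    (hρ : 0 < ρ) (hρ1 : ρ ≤ 1) (hτ : 0 < τ) (hρt : 0 < ρt) (hρt1 : ρt ≤ 1)
    (hr : 3 * r + r2 d B K ρt ε r g ≤ 1) (hδ : 0 < δ) (hδ3 : d3 d B K ρ τ ρt ε r g ≤ δ) :
    Big p (2 * d + 82) A (X.Out A K ρ τ ρt δ (cG d B K / g + δ)) := by
  obtain ⟨tt, v, ζ, hex⟩ := X.except A d ρt ρ τ
  obtain ⟨f, f1, f2, f3⟩ := hN.lab h hρ hρ1 hτ hρt hρt1 hr hδ hδ3
  have q0 := out_false (X := X) (A := A) (K := K) (ρ := ρ) (τ := τ) (ρt := ρt) (δ := δ)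
    (Λ := cG d B K / g + δ)
  -- the plank
  have b4 : Big p 81 (fun ω => A ω ∧ X.A3 A d ρt ρ τ ω)
      (X.Out A K ρ τ ρt δ (cG d B K / g + δ)) := by
    obtain ⟨B', k1, k2, φ, hφ⟩ := Pool.S6K.exact_label hp 1 X.pt f
      (fun ω => A ω ∧ X.A3 A d ρt ρ τ ω) (fun ω ω' h1 h2 hpt i => by
        have := f1 ω' ω h2.2 h1.2 hpt i
        exact_mod_cast this)
    refine ⟨B', k1, ?_, Or.inr (Or.inr (Or.inr ⟨f, fun ω ω' h1 h2 hpt => ?_,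
      fun ω ω' h1 h2 hw => f2 ω ω' (k1 ω h1).2 (k1 ω' h2).2 hw, fun ω hω => ?_⟩))⟩
    · norm_num at k2
      exact k2
    · rw [hφ ω h1, hφ ω' h2, hpt]
    · obtain ⟨a1, a2, a3, a4⟩ := f3 ω (k1 ω hω).2
      obtain ⟨z, hz, hs⟩ := (k1 ω hω).2.1.2
      have hd := hN.hd
      exact ⟨⟨z, fun i hi => ⟨(hz i (hi.trans hd)).1.1, (hz i (hi.trans hd)).2⟩,
        fun i hi j hj => hs i (hi.trans hd) j (hj.trans hd)⟩, a1, a2, a3, a4⟩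
  have b3 : Big p 1 (fun ω => A ω ∧ |X.e (X.pt ω) - ζ (X.wn ω)| ≤ τ)
      (X.Out A K ρ τ ρt δ (cG d B K / g + δ)) :=
    Big.self (Or.inr (Or.inr (Or.inl ⟨ζ, fun ω hω => hω.2⟩)))
  have b2 : Big p (d * 1) (fun ω => A ω ∧ ∃ k < d, |X.D ω 0 - v k (X.pt ω)| ≤ ρ)
      (X.Out A K ρ τ ρt δ (cG d B K / g + δ)) :=
    Big.ex hp zero_le_one q0 d (fun k ω => |X.D ω 0 - v k (X.pt ω)| ≤ ρ) (fun ω hω => hω.2)
      fun k _ => Big.self (Or.inr (Or.inl ⟨v k, fun ω hω => hω.2⟩))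
  have b1 : Big p (d * 1) (fun ω => A ω ∧ ∃ k < d, |X.s ω - tt k (X.wn ω)| ≤ ρt)
      (X.Out A K ρ τ ρt δ (cG d B K / g + δ)) :=
    Big.ex hp zero_le_one q0 d (fun k ω => |X.s ω - tt k (X.wn ω)| ≤ ρt) (fun ω hω => hω.2)
      fun k _ => Big.self (Or.inl ⟨tt k, fun ω hω => hω.2⟩)
  have c1 := Big.or hp (A := fun ω => A ω ∧ (|X.e (X.pt ω) - ζ (X.wn ω)| ≤ τ ∨
    X.A3 A d ρt ρ τ ω)) (fun ω hω => by
      rcases hω.2 with h1 | h1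
      · exact Or.inl (⟨hω.1, h1⟩ : A ω ∧ |X.e (X.pt ω) - ζ (X.wn ω)| ≤ τ)
      · exact Or.inr (⟨hω.1, h1⟩ : A ω ∧ X.A3 A d ρt ρ τ ω))
    (fun ω hω => ⟨hω.1, Or.inl hω.2⟩) (fun ω hω => ⟨hω.1, Or.inr hω.2⟩) (by norm_num)
    (by norm_num) b3 b4
  have c2 := Big.or hp (A := fun ω => A ω ∧ ((∃ k < d, |X.D ω 0 - v k (X.pt ω)| ≤ ρ) ∨
    |X.e (X.pt ω) - ζ (X.wn ω)| ≤ τ ∨ X.A3 A d ρt ρ τ ω)) (fun ω hω => by
      rcases hω.2 with h1 | h1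
      · exact Or.inl (⟨hω.1, h1⟩ : A ω ∧ ∃ k < d, |X.D ω 0 - v k (X.pt ω)| ≤ ρ)
      · exact Or.inr (⟨hω.1, h1⟩ : A ω ∧ (|X.e (X.pt ω) - ζ (X.wn ω)| ≤ τ ∨
          X.A3 A d ρt ρ τ ω)))
    (fun ω hω => ⟨hω.1, Or.inl hω.2⟩) (fun ω hω => ⟨hω.1, Or.inr hω.2⟩) (by positivity)
    (by norm_num) b2 c1
  have c3 := Big.or hp (A := A) (fun ω hω => by
      rcases hex ω hω with h1 | h1
      · exact Or.inl (⟨hω, h1⟩ : A ω ∧ ∃ k < d, |X.s ω - tt k (X.wn ω)| ≤ ρt)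
      · exact Or.inr (⟨hω, h1⟩ : A ω ∧ ((∃ k < d, |X.D ω 0 - v k (X.pt ω)| ≤ ρ) ∨
          |X.e (X.pt ω) - ζ (X.wn ω)| ≤ τ ∨ X.A3 A d ρt ρ τ ω)))
    (fun ω hω => hω.1) (fun ω hω => hω.1) (by positivity) (by positivity) b1 c2
  refine c3.mono hp (le_of_eq (by ring))

/-- The dichotomy for degenerate labels. -/
theorem Dg.big (hp : IsLaw p) {q : Ω → P3} {η : ℝ} (hN : X.Dg A q d η) (h : X.Geo A K r)
    {ρ τ τ' ρt δ Λ : ℝ} (hρ : 0 < ρ) (hρ1 : ρ ≤ 1) (hτ : 0 < τ') (hτ1 : τ' ≤ 1) (hρt : 0 < ρt)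
    (hρt1 : ρt ≤ 1) (hr2 : 2 * r ≤ 1)
    (hr : cB (d + 2) K / (ρ ^ 2 * τ') ^ (d + 2) * (2 * r) ≤ 1 / 2)
    (hturn : Ldp.cS (d + 2) K * ((d + 1) * ((8 / ρt) ^ d * η) + 2 * r) / ρ ^ (d + 3) +
      (4 * K) ^ (d + 3) * τ' ≤ τ)
    (hlow : ∀ ω, A ω → 2 * (cB (d + 2) K / (ρ ^ 2 * τ') ^ (d + 2)) *
      ((d + 1) * ((8 / ρt) ^ d * η)) < l1 (q ω)) :
    Big p (3 * d + 4) A (X.Out A K ρ τ ρt δ Λ) := by
  obtain ⟨tt, v, E, ζ, hE, hal⟩ := hN.alt h hρ hρ1 hτ hτ1 hρt hρt1 hr2 hr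
  have q0 := out_false (X := X) (A := A) (K := K) (ρ := ρ) (τ := τ) (ρt := ρt) (δ := δ) (Λ := Λ)
  have b3 : Big p ((d + 2 : ℕ) * 1) (fun ω => A ω ∧ ∃ k < d + 2, E k ω)
      (X.Out A K ρ τ ρt δ Λ) :=
    Big.ex hp zero_le_one q0 (d + 2) E (fun ω hω => hω.2)
      fun k _ => Big.self (Or.inr (Or.inr (Or.inl ⟨ζ k, fun ω hω =>
        (hE k ω hω.2).2.trans hturn⟩)))
  have b2 : Big p ((d + 2 : ℕ) * 1) (fun ω => A ω ∧ ∃ k < d + 2, |X.D ω 0 - v k (X.pt ω)| ≤ ρ)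
      (X.Out A K ρ τ ρt δ Λ) :=
    Big.ex hp zero_le_one q0 (d + 2) (fun k ω => |X.D ω 0 - v k (X.pt ω)| ≤ ρ)
      (fun ω hω => hω.2) fun k _ => Big.self (Or.inr (Or.inl ⟨v k, fun ω hω => hω.2⟩))
  have b1 : Big p (d * 1) (fun ω => A ω ∧ ∃ k < d, |X.s ω - tt k (X.wn ω)| ≤ ρt)
      (X.Out A K ρ τ ρt δ Λ) :=
    Big.ex hp zero_le_one q0 d (fun k ω => |X.s ω - tt k (X.wn ω)| ≤ ρt) (fun ω hω => hω.2)
      fun k _ => Big.self (Or.inl ⟨tt k, fun ω hω => hω.2⟩)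
  have c2 := Big.or hp (A := fun ω => A ω ∧ ((∃ k < d + 2, |X.D ω 0 - v k (X.pt ω)| ≤ ρ) ∨
    ∃ k < d + 2, E k ω)) (fun ω hω => by
      rcases hω.2 with h1 | h1
      · exact Or.inl (⟨hω.1, h1⟩ : A ω ∧ ∃ k < d + 2, |X.D ω 0 - v k (X.pt ω)| ≤ ρ)
      · exact Or.inr (⟨hω.1, h1⟩ : A ω ∧ ∃ k < d + 2, E k ω))
    (fun ω hω => ⟨hω.1, Or.inl hω.2⟩) (fun ω hω => ⟨hω.1, Or.inr hω.2⟩) (by positivity)
    (by positivity) b2 b3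
  have c3 := Big.or hp (A := A) (fun ω hω => by
      rcases hal ω hω with h1 | h1 | h1 | h1
      · exact Or.inl (⟨hω, h1⟩ : A ω ∧ ∃ k < d, |X.s ω - tt k (X.wn ω)| ≤ ρt)
      · exact Or.inr (⟨hω, Or.inl h1⟩ : A ω ∧ ((∃ k < d + 2, |X.D ω 0 - v k (X.pt ω)| ≤ ρ) ∨
          ∃ k < d + 2, E k ω))
      · exact Or.inr (⟨hω, Or.inr h1⟩ : A ω ∧ ((∃ k < d + 2, |X.D ω 0 - v k (X.pt ω)| ≤ ρ) ∨
          ∃ k < d + 2, E k ω))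
      · exact absurd (h1.trans_lt (hlow ω hω)) (lt_irrefl _))
    (fun ω hω => hω.1) (fun ω hω => hω.1) (by positivity) (by positivity) b1 c2
  refine c3.mono hp (le_of_eq ?_)
  push_cast
  ring

end Idp

end Pool.S6P
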