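import Pool.Agent.H26.DIC.Imp8

/-!
# The dichotomy for implicit labels
-/

set_option autoImplicit false

namespace Pool.S6P

open MvPolynomial Finset Pool.K2S Pool.STK

theorem mono_le {ρ τ ρt δ κ C : ℝ} (hρ : 0 < ρ) (hρ1 : ρ ≤ 1) (hτ : 0 < τ) (hτ1 : τ ≤ 1)
    (hρt : 0 < ρt) (hρt1 : ρt ≤ 1) (hδ : 0 < δ) {m a b c : ℕ} (ha : a ≤ m) (hb : b ≤ m)
    (hc : c ≤ m) (hC : 0 < C) (hκ : κ = (ρ * τ * ρt) ^ m * δ / C) :
    C * κ ≤ δ * (ρ ^ a * τ ^ b * ρt ^ c) := by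
  have e : C * κ = δ * (ρ ^ m * τ ^ m * ρt ^ m) := by
    rw [hκ, mul_pow, mul_pow]
    field_simp
  rw [e]
  refine mul_le_mul_of_nonneg_left ?_ hδ.le
  have h1 := pow_le_pow_of_le_one hρ.le hρ1 ha
  have h2 := pow_le_pow_of_le_one hτ.le hτ1 hb
  have h3 := pow_le_pow_of_le_one hρt.le hρt1 hc
  exact mul_le_mul (mul_le_mul h1 h2 (by positivity) (by positivity)) h3 (by positivity)
    (by positivity)

namespace Idp

/-- **The dichotomy for implicit labels.** -/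
theorem Imp.main {d : ℕ} (hd : 1 ≤ d) {K : ℝ} (hK : 1 ≤ K) : ∃ C : ℝ, 1 ≤ C ∧
    ∀ {Ω U V : Type} [Fintype Ω] {p : Ω → ℝ}, IsLaw p → ∀ {X : Idp Ω U V} {A : Ω → Prop}
      {R : Ω → P4} {ε r ρ τ ρt δ κ : ℝ}, 0 < ρ → ρ ≤ 1 → 0 < τ → τ ≤ 1 → 0 < ρt → ρt ≤ 1 →
      0 < δ → δ ≤ 1 → κ = (ρ * τ * ρt) ^ (2 * (d + 2)) * δ / C → X.Geo A K r →
      X.Imp A R d ε → ε ≤ κ ^ (2 ^ (d + 1)) → r ≤ κ ^ (2 ^ (d + 1)) →
      Big p C A (X.Out A K ρ τ ρt δ (C / κ ^ (2 ^ (d + 1)))) := by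
  have hcV := cV_pos hd
  have hK0 : 0 < K := by linarith only [hK]
  obtain ⟨B, hB⟩ : ∃ B, B = cV d ^ d := ⟨_, rfl⟩
  have hB0 : 0 ≤ B := by rw [hB]; positivity
  have hcG : 0 ≤ cG d B K := by unfold cG; positivity
  have hcL : 0 ≤ cL d B K := by unfold cL; positivity
  have hcM : 0 ≤ cM d B K := by unfold cM; positivity
  obtain ⟨a₁, ha₁⟩ : ∃ a, a = cD d B K := ⟨_, rfl⟩
  have ha₁0 : 0 ≤ a₁ := by rw [ha₁]; unfold cD; positivity
  obtain ⟨b₀, hb₀⟩ : ∃ b, b = cB (d + 2) K * (2 * (4 * K) ^ (d + 3)) ^ (d + 2) := ⟨_, rfl⟩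
  have hb₀0 : 0 ≤ b₀ := by rw [hb₀]; unfold cB; positivity
  obtain ⟨y₀, hy₀⟩ : ∃ y : ℝ, y = (d + 1) * (8 ^ d * cY d (2 * K)) := ⟨_, rfl⟩
  have hy₀0 : 0 ≤ y₀ := by rw [hy₀]; unfold cY; positivity
  obtain ⟨c₀, hc₀⟩ : ∃ c, c = Ldp.cS (d + 2) K * (y₀ + 2) := ⟨_, rfl⟩
  have hcS : 0 ≤ Ldp.cS (d + 2) K := by unfold Ldp.cS cA; positivity
  have hc₀0 : 0 ≤ c₀ := by rw [hc₀]; positivity
  obtain ⟨C, hC⟩ : ∃ C : ℝ, C = 8 * a₁ + 8 + 4 * b₀ + 4 * (d + 1) * b₀ * y₀ + 2 * c₀ +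
    (cG d B K + 1) + ((3 * d + 4) + d * (2 * d + 82)) := ⟨_, rfl⟩
  have t1 : 0 ≤ 4 * ((d : ℝ) + 1) * b₀ * y₀ := by positivity
  have t2 : 0 ≤ (3 * (d : ℝ) + 4) + d * (2 * d + 82) := by positivity
  have hC8 : 8 ≤ C := by rw [hC]; linarith only [hcG, ha₁0, hb₀0, hc₀0, t1, t2]
  have hC0 : 0 < C := by linarith only [hcG, ha₁0, hb₀0, hc₀0, hC, t1, t2]
  refine ⟨C, by linarith only [hcG, ha₁0, hb₀0, hc₀0, hC, t1, t2], ?_⟩
  intro Ω U V _ p hp X A R ε r ρ τ ρt δ κ hρ hρ1 hτ hτ1 hρt hρt1 hδ hδ1 hκ hG hI hε hr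
  have hm : ∀ {a b c : ℕ}, a ≤ 2 * (d + 2) → b ≤ 2 * (d + 2) → c ≤ 2 * (d + 2) →
      C * κ ≤ δ * (ρ ^ a * τ ^ b * ρt ^ c) := fun ha hb hc =>
    mono_le hρ hρ1 hτ hτ1 hρt hρt1 hδ ha hb hc hC0 hκ
  have hκ0 : 0 < κ := by rw [hκ]; positivity
  have hCκ : C * κ ≤ 1 := by
    have := hm (a := 0) (b := 0) (c := 0) (by omega) (by omega) (by omega)
    simp only [pow_zero, mul_one] at this
    linarith only [hδ1, this]
  have hκ8 : κ ≤ 1 / 8 := by nlinarith only [hκ0, hCκ, hcG, ha₁0, hb₀0, hc₀0, hC, t1, t2]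
  have hκ1 : κ ≤ 1 := by linarith only [hκ0, hκ8]
  obtain ⟨η, hη⟩ : ∃ η : ℕ → ℝ, η = fun k => κ ^ (2 ^ (d - k + 1) - 1) := ⟨_, rfl⟩
  have hη0 : ∀ k, 0 < η k := fun k => by rw [hη]; positivity
  have hηκ : ∀ k, η k ≤ κ := fun k => by
    rw [hη]
    simp only
    have h1 : 1 ≤ 2 ^ (d - k + 1) - 1 := by
      have : 2 ^ 1 ≤ 2 ^ (d - k + 1) := Nat.pow_le_pow_right (by norm_num) (by omega)
      omega
    calc κ ^ (2 ^ (d - k + 1) - 1) ≤ κ ^ 1 := pow_le_pow_of_le_one hκ0.le hκ1 h1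
      _ = κ := pow_one κ
  have hηlow : ∀ k, κ ^ (2 ^ (d + 1)) ≤ η k := fun k => by
    rw [hη]
    simp only
    refine pow_le_pow_of_le_one hκ0.le hκ1 ?_
    have h3 : (2 : ℕ) ^ (d - k + 1) ≤ (2 : ℕ) ^ (d + 1) :=
      Nat.pow_le_pow_right (by norm_num) (by omega)
    exact (Nat.sub_le _ _).trans h3
  have hstep : ∀ k < d, η k = κ * (η (k + 1)) ^ 2 := fun k hk => by
    rw [hη]
    simp only
    rw [← pow_mul, ← pow_succ']
    congr 1
    obtain ⟨a, ha⟩ : ∃ a, d - (k + 1) = a := ⟨_, rfl⟩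
    have h1 : d - k = a + 1 := by omega
    rw [ha, h1, pow_succ 2 (a + 1)]
    have : 1 ≤ 2 ^ (a + 1) := Nat.one_le_two_pow
    omega
  obtain ⟨Λ, hΛ⟩ : ∃ Λ, Λ = C / κ ^ (2 ^ (d + 1)) := ⟨_, rfl⟩
  rw [← hΛ]
  have hκp : 0 < κ ^ (2 ^ (d + 1)) := by positivity
  have hr0 := hG.r0
  -- nondegenerate samples
  have hk : ∀ k < d, Big p (2 * d + 82) (X.Ak A R η (k + 1)) (X.Out A K ρ τ ρt δ Λ) := by
    intro k hkd
    have hN := hI.nd (η := η) hkd (hη0 _) (hη0 _).le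
    rw [← hB] at hN
    have hG' : X.Geo (X.Ak A R η (k + 1)) K r := hG.sub fun ω hω => hω.1
    have hrk : r ≤ η k := hr.trans (hηlow k)
    obtain ⟨g, hg⟩ : ∃ g, g = η (k + 1) := ⟨_, rfl⟩
    have hg0 : 0 < g := by rw [hg]; exact hη0 _
    have hg1 : g ≤ 1 := by rw [hg]; exact (hηκ _).trans hκ1
    have hsum : η k + r ≤ 2 * (κ * g ^ 2) := by
      have := hstep k hkd
      rw [← hg] at this
      linarith only [hrk, this]
    obtain ⟨W, hW⟩ : ∃ W, W = (η k + r) / (ρt ^ d * (g ^ 2 * τ * ρ ^ (d + 1))) := ⟨_, rfl⟩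
    have hWle : C * W ≤ 2 * δ := by
      have h1 := hm (a := d + 1) (b := 1) (c := d) (by omega) (by omega) (by omega)
      rw [pow_one] at h1
      have h2 : W ≤ 2 * (κ * g ^ 2) / (ρt ^ d * (g ^ 2 * τ * ρ ^ (d + 1))) := by
        rw [hW]
        exact div_le_div_of_nonneg_right hsum (by positivity)
      have h3 : 2 * (κ * g ^ 2) / (ρt ^ d * (g ^ 2 * τ * ρ ^ (d + 1))) =
          2 * κ / (ρ ^ (d + 1) * τ * ρt ^ d) := by
        field_simp
      rw [h3] at h2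
      have h4 : C * (2 * κ / (ρ ^ (d + 1) * τ * ρt ^ d)) =
          2 * (C * κ / (ρ ^ (d + 1) * τ * ρt ^ d)) := by ring
      have h5 : C * κ / (ρ ^ (d + 1) * τ * ρt ^ d) ≤ δ := by
        rw [div_le_iff₀ (by positivity)]
        exact h1
      calc C * W ≤ C * (2 * κ / (ρ ^ (d + 1) * τ * ρt ^ d)) :=
            mul_le_mul_of_nonneg_left h2 hC0.le
        _ ≤ 2 * δ := by rw [h4]; linarith only [h5]
    have hW0 : 0 ≤ W := by
      rw [hW]
      have := (hη0 k).le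
      positivity
    have haW : a₁ * W ≤ δ / 4 := by
      have : 8 * a₁ * W ≤ C * W := by
        refine mul_le_mul_of_nonneg_right ?_ hW0
        rw [hC]
        linarith only [hcG, hb₀0, hc₀0, t1, t2, hκ0, hκ8]
      linarith only [hWle, this]
    obtain ⟨q1, q2⟩ := d3_le (B := B) (ε := η k) (r := r) (g := g) hd hB0 hK hρ hρ1 hτ hτ1 hρt
      hρt1 (hη0 k).le hr0 hg0 hg1
    rw [← hW, ← ha₁] at q1 q2
    have hrκ : r ≤ κ := hrk.trans (hηκ k)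
    rw [← hg] at hN
    refine (hN.big hp hG' hρ hρ1 hτ hρt hρt1 (δ := δ) (by linarith only [hδ1, hκ0, hκ8, haW, q1, hrκ]) hδ (by linarith only [hδ, haW, q2])).imp
      fun B' _ hB' => hB'.mono (fun ω hω => hω.1) ?_
    rw [hΛ]
    have h1 : cG d B K / g ≤ cG d B K / κ ^ (2 ^ (d + 1)) := by
      refine div_le_div_of_nonneg_left hcG hκp ?_
      rw [hg]
      exact hηlow _
    have h2 : δ ≤ 1 / κ ^ (2 ^ (d + 1)) := by
      have h3 : κ ^ (2 ^ (d + 1)) ≤ 1 := pow_le_one₀ hκ0.le hκ1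
      have h4 : 1 ≤ 1 / κ ^ (2 ^ (d + 1)) := by
        rw [le_div_iff₀ hκp]
        linarith only [h3]
      linarith only [hδ1, h4]
    have h3 : cG d B K / κ ^ (2 ^ (d + 1)) + 1 / κ ^ (2 ^ (d + 1)) ≤ C / κ ^ (2 ^ (d + 1)) := by
      rw [← add_div]
      refine div_le_div_of_nonneg_right ?_ hκp.le
      rw [hC]
      linarith only [ha₁0, hb₀0, hc₀0, t1, t2, hκ0, hκ8]
    linarith only [h1, h2, h3]
  -- degenerate samples
  exact by
   have hi : Big p (3 * d + 4) (X.Ai A R d η) (X.Out A K ρ τ ρt δ Λ) := by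
     have hG' : X.Geo (X.Ai A R d η) K r := hG.sub fun ω hω => hω.1
     have hN := hI.dg hG (η := η) hκ0.le (fun j _ => hηκ j)
     have hrκ : r ≤ κ := (hr.trans (hηlow 0)).trans (hηκ 0)
     obtain ⟨θ, hθ⟩ : ∃ θ, θ = 2 * (4 * K) ^ (d + 3) := ⟨_, rfl⟩
     have hθ1 : 1 ≤ θ := by
       rw [hθ]
       have : (1 : ℝ) ≤ (4 * K) ^ (d + 3) := one_le_pow₀ (by linarith only [hK, hκ0, hκ8])
       linarith only [hκ0, hκ8, this]
     have hθ0 : 0 < θ := by linarith only [hκ0, hκ8, hθ1]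
     obtain ⟨τ', hτ'⟩ : ∃ τ', τ' = τ / θ := ⟨_, rfl⟩
     have hτ'0 : 0 < τ' := by rw [hτ']; positivity
     have hτ'1 : τ' ≤ 1 := by
       rw [hτ', div_le_one hθ0]
       linarith only [hτ1, hθ1]
     have hcB : cB (d + 2) K / (ρ ^ 2 * τ') ^ (d + 2) =
         b₀ / (ρ ^ (2 * (d + 2)) * τ ^ (d + 2)) := by
       rw [hτ', hb₀, ← hθ, mul_pow, div_pow, ← pow_mul]
       field_simp
     have hY : (d + 1) * ((8 / ρt) ^ d * (cY d (2 * K) * κ)) = y₀ * κ / ρt ^ d := by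
       rw [hy₀, div_pow]
       ring
     have hbC : ∀ {a : ℝ}, 0 ≤ a → a ≤ C → a * κ ≤ C * κ := fun _ h =>
       mul_le_mul_of_nonneg_right h hκ0.le
     refine Big.imp (hN.big hp hG' hρ hρ1 hτ'0 hτ'1 hρt hρt1 (τ := τ) (δ := δ) (Λ := Λ)
       (by linarith only [hκ0, hκ8, hrκ]) ?_ ?_ ?_) fun B' _ hB' => hB'.mono (fun ω hω => hω.1) le_rfl
     · rw [hcB]
       have h1 := hm (a := 2 * (d + 2)) (b := d + 2) (c := 0) le_rfl (by omega) (by omega)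
       rw [pow_zero, mul_one] at h1
       have h2 : b₀ / (ρ ^ (2 * (d + 2)) * τ ^ (d + 2)) * (2 * r) ≤
           2 * b₀ * κ / (ρ ^ (2 * (d + 2)) * τ ^ (d + 2)) := by
         rw [div_mul_eq_mul_div]
         refine div_le_div_of_nonneg_right ?_ (by positivity)
         nlinarith only [hb₀0, hrκ]
       refine h2.trans ?_
       rw [div_le_iff₀ (by positivity)]
       have h3 : 4 * b₀ * κ ≤ C * κ := hbC (by positivity) (by rw [hC]; linarith only [hcG, ha₁0, hc₀0, t1, t2, hκ0, hκ8])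
       have h4 : 0 ≤ ρ ^ (2 * (d + 2)) * τ ^ (d + 2) := by positivity
       nlinarith only [hκ0, h1, hcG, ha₁0, hc₀0, hC, t1, t2, hδ1, h4]
     · rw [hY]
       have h1 := hm (a := d + 3) (b := 1) (c := d) (by omega) (by omega) (by omega)
       rw [pow_one] at h1
       have e1 : (4 * K) ^ (d + 3) * τ' = τ / 2 := by
         rw [hτ', hθ]
         field_simp
       have h2 : y₀ * κ / ρt ^ d + 2 * r ≤ (y₀ + 2) * κ / ρt ^ d := by
         have h3 : 2 * κ ≤ 2 * κ / ρt ^ d := by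
           rw [le_div_iff₀ (by positivity)]
           have : ρt ^ d ≤ 1 := pow_le_one₀ hρt.le hρt1
           nlinarith only [hκ0, this]
         have e2 : (y₀ + 2) * κ / ρt ^ d = y₀ * κ / ρt ^ d + 2 * κ / ρt ^ d := by
           rw [← add_div]
           congr 1
           ring
         rw [e2]
         linarith only [hrκ, h3]
       have h3 : Ldp.cS (d + 2) K * (y₀ * κ / ρt ^ d + 2 * r) / ρ ^ (d + 3) ≤
           c₀ * κ / (ρ ^ (d + 3) * ρt ^ d) := by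
         have h4 := mul_le_mul_of_nonneg_left h2 hcS
         refine (div_le_div_of_nonneg_right h4 (by positivity)).trans (le_of_eq ?_)
         rw [hc₀]
         field_simp
       have h4 : c₀ * κ / (ρ ^ (d + 3) * ρt ^ d) ≤ τ / 2 := by
         rw [div_le_iff₀ (by positivity)]
         have h5 : 2 * c₀ * κ ≤ C * κ := hbC (by positivity) (by rw [hC]; linarith only [hcG, ha₁0, hb₀0, t1, t2, hκ0, hκ8])
         have h6 : δ * (ρ ^ (d + 3) * τ * ρt ^ d) ≤ 1 * (ρ ^ (d + 3) * τ * ρt ^ d) :=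
           mul_le_mul_of_nonneg_right hδ1 (by positivity)
         have e3 : τ / 2 * (ρ ^ (d + 3) * ρt ^ d) = (ρ ^ (d + 3) * τ * ρt ^ d) / 2 := by ring
         rw [e3]
         linarith only [h1, h5, h6]
       rw [e1]
       linarith only [h3, h4]
     · intro ω hω
       rw [hcB, hY]
       have h1 := hm (a := 2 * (d + 2)) (b := d + 2) (c := d) le_rfl (by omega) (by omega)
       have h2 := jm_spec d (R ω)
       rw [hI.nrm ω hω.1] at h2
       have e1 : 2 * (b₀ / (ρ ^ (2 * (d + 2)) * τ ^ (d + 2))) * (y₀ * κ / ρt ^ d) =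
           2 * b₀ * y₀ * κ / (ρ ^ (2 * (d + 2)) * τ ^ (d + 2) * ρt ^ d) := by
         field_simp
       rw [e1]
       obtain ⟨D, hD⟩ : ∃ D, D = ρ ^ (2 * (d + 2)) * τ ^ (d + 2) * ρt ^ d := ⟨_, rfl⟩
       have hD0 : 0 < D := by rw [hD]; positivity
       rw [← hD] at h1 ⊢
       have hd1 : (0 : ℝ) < d + 1 := by positivity
       have h3 : (4 * (d + 1) * b₀ * y₀) * κ < C * κ := by
         refine mul_lt_mul_of_pos_right ?_ hκ0
         rw [hC]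
         linarith only [hcG, ha₁0, hb₀0, hc₀0, t2, hκ0, hκ8]
       have h4 : δ * D ≤ D := by nlinarith only [hδ1, hD0]
       have h5 : (d + 1) * (2 * b₀ * y₀ * κ / D) < 1 := by
         rw [mul_div_assoc', div_lt_one hD0]
         nlinarith only [h1, hD0, h3, h4]
       have h6 : (d + 1) * (2 * b₀ * y₀ * κ / D) < (d + 1) * l1 (cq (R ω) (jm d (R ω))) := by
         linarith only [h2, h5]
       exact lt_of_mul_lt_mul_left h6 hd1.le
   -- all the samples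
   exact by
    have q0 := out_false (X := X) (A := A) (K := K) (ρ := ρ) (τ := τ) (ρt := ρt) (δ := δ) (Λ := Λ)
    have h2 : Big p (d * (2 * d + 82)) (fun ω => A ω ∧ ∃ k < d, X.Ak A R η (k + 1) ω)
        (X.Out A K ρ τ ρt δ Λ) := by
      refine Big.ex hp (by positivity) q0 d (fun k ω => X.Ak A R η (k + 1) ω)
        (fun ω hω => hω.2) fun k hkd => ?_
      have e : (fun ω => (A ω ∧ ∃ k < d, X.Ak A R η (k + 1) ω) ∧ X.Ak A R η (k + 1) ω) =
          X.Ak A R η (k + 1) := by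
        funext ω
        exact propext ⟨fun h => h.2, fun h => ⟨⟨h.1, k, hkd, h⟩, h⟩⟩
      rw [e]
      exact hk k hkd
    have h3 := Big.or hp (A := A) (fun ω hω => by
        rcases hI.split (η := η) (hε.trans (hηlow 0)) ω hω with h | h
        · exact Or.inl h
        · exact Or.inr (⟨hω, h⟩ : A ω ∧ ∃ k < d, X.Ak A R η (k + 1) ω))
      (fun ω hω => hω.1) (fun ω hω => hω.1) (by positivity) (by positivity) hi h2
    refine h3.mono hp ?_
    rw [hC]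
    linarith only [hcG, ha₁0, hb₀0, hc₀0, t1, hκ0, hκ8]

end Idp

end Pool.S6P
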