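import Mathlib

/-!
# Polynomials in three variables which are affine on many planes through a line

`l1 F` is the sum of the absolute values of the coefficients of `F`, `nn F` the same sum over the
monomials of degree at least two. If `F` is nearly affine on many planes which contain one line,
it is nearly affine.
-/

set_option autoImplicit false

namespace Pool.S6P

open MvPolynomial Finset

/-- Polynomials in three variables. -/
abbrev P3 : Type := MvPolynomial (Fin 3) ℝ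

/-- The degree of a monomial. -/
def dg (μ : Fin 3 →₀ ℕ) : ℕ := μ 0 + μ 1 + μ 2

theorem sum_eq_dg (μ : Fin 3 →₀ ℕ) : (μ.sum fun _ e => e) = dg μ := by
  rw [Finsupp.sum_fintype _ _ (fun _ => rfl), Fin.sum_univ_three]
  rfl

theorem dg_le {F : P3} {d : ℕ} (h : F.totalDegree ≤ d) {μ : Fin 3 →₀ ℕ} (hμ : F.coeff μ ≠ 0) :
    dg μ ≤ d := by
  rw [← sum_eq_dg]
  exact (le_totalDegree (mem_support_iff.2 hμ)).trans h

theorem coeff_of_dg {F : P3} {d : ℕ} (h : F.totalDegree ≤ d) {μ : Fin 3 →₀ ℕ} (hμ : d < dg μ) :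
    F.coeff μ = 0 := by
  by_contra hc
  have := dg_le h hc
  omega

theorem dg_zero : dg 0 = 0 := rfl

/-- Weighted sum of the coefficients. -/
noncomputable def ws (v : (Fin 3 →₀ ℕ) → ℝ) (F : P3) : ℝ := ∑ μ ∈ F.support, v μ * |F.coeff μ|

theorem ws_of_subset {v : (Fin 3 →₀ ℕ) → ℝ} {F : P3} {S : Finset (Fin 3 →₀ ℕ)}
    (h : F.support ⊆ S) : ws v F = ∑ μ ∈ S, v μ * |F.coeff μ| := by
  unfold ws
  refine Finset.sum_subset h fun μ _ hμ => ?_
  rw [notMem_support_iff.1 hμ, abs_zero, mul_zero]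

theorem ws_nonneg {v : (Fin 3 →₀ ℕ) → ℝ} (hv : ∀ μ, 0 ≤ v μ) (F : P3) : 0 ≤ ws v F :=
  Finset.sum_nonneg fun μ _ => mul_nonneg (hv μ) (abs_nonneg _)

theorem ws_add_le {v : (Fin 3 →₀ ℕ) → ℝ} (hv : ∀ μ, 0 ≤ v μ) (F G : P3) :
    ws v (F + G) ≤ ws v F + ws v G := by
  classical
  rw [ws_of_subset (S := F.support ∪ G.support) (F := F + G) support_add,
    ws_of_subset (S := F.support ∪ G.support) (F := F) subset_union_left,
    ws_of_subset (S := F.support ∪ G.support) (F := G) subset_union_right,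
    ← Finset.sum_add_distrib]
  refine Finset.sum_le_sum fun μ _ => ?_
  rw [coeff_add, ← mul_add]
  exact mul_le_mul_of_nonneg_left (abs_add_le _ _) (hv μ)

theorem ws_zero (v : (Fin 3 →₀ ℕ) → ℝ) : ws v 0 = 0 := by
  unfold ws
  simp

theorem ws_C_mul (v : (Fin 3 →₀ ℕ) → ℝ) (c : ℝ) (F : P3) : ws v (C c * F) = |c| * ws v F := by
  rw [ws_of_subset (S := F.support) (F := C c * F) (by
    intro μ hμ
    rw [mem_support_iff, coeff_C_mul] at hμ
    rw [mem_support_iff]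
    exact right_ne_zero_of_mul hμ)]
  unfold ws
  rw [Finset.mul_sum]
  refine Finset.sum_congr rfl fun μ _ => ?_
  rw [coeff_C_mul, abs_mul]
  ring

theorem ws_neg (v : (Fin 3 →₀ ℕ) → ℝ) (F : P3) : ws v (-F) = ws v F := by
  have h := ws_C_mul v (-1) F
  have e : C (-1 : ℝ) * F = -F := by simp
  rw [e] at h
  rw [h]
  simp

theorem ws_sub_le {v : (Fin 3 →₀ ℕ) → ℝ} (hv : ∀ μ, 0 ≤ v μ) (F G : P3) :
    ws v (F - G) ≤ ws v F + ws v G := by
  rw [sub_eq_add_neg]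
  refine (ws_add_le hv _ _).trans ?_
  rw [ws_neg]

theorem ws_sum_le {v : (Fin 3 →₀ ℕ) → ℝ} (hv : ∀ μ, 0 ≤ v μ) {ι : Type*} (S : Finset ι)
    (f : ι → P3) : ws v (∑ i ∈ S, f i) ≤ ∑ i ∈ S, ws v (f i) := by
  classical
  induction S using Finset.induction_on with
  | empty => simp [ws_zero]
  | insert a S ha ih =>
    rw [Finset.sum_insert ha, Finset.sum_insert ha]
    exact (ws_add_le hv _ _).trans (by linarith)

theorem ws_monomial (v : (Fin 3 →₀ ℕ) → ℝ) (μ : Fin 3 →₀ ℕ) (c : ℝ) :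
    ws v (monomial μ c) = v μ * |c| := by
  classical
  rw [ws_of_subset (S := {μ}) (F := monomial μ c) support_monomial_subset, Finset.sum_singleton,
    coeff_monomial, if_pos rfl]

theorem coeff_le_ws {v : (Fin 3 →₀ ℕ) → ℝ} (hv : ∀ μ, 0 ≤ v μ) (F : P3) (μ : Fin 3 →₀ ℕ) :
    v μ * |F.coeff μ| ≤ ws v F := by
  by_cases h : μ ∈ F.support
  · exact Finset.single_le_sum (f := fun μ => v μ * |F.coeff μ|)
      (fun μ _ => mul_nonneg (hv μ) (abs_nonneg _)) h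
  · rw [notMem_support_iff.1 h, abs_zero, mul_zero]
    exact ws_nonneg hv F

/-- Sum of the absolute values of the coefficients. -/
noncomputable def l1 (F : P3) : ℝ := ws (fun _ => 1) F

/-- The weight of the monomials of degree at least two. -/
noncomputable def w2 (μ : Fin 3 →₀ ℕ) : ℝ := if 2 ≤ dg μ then 1 else 0

/-- Distance to the affine functions. -/
noncomputable def nn (F : P3) : ℝ := ws w2 F

theorem w2_nonneg (μ : Fin 3 →₀ ℕ) : 0 ≤ w2 μ := by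
  unfold w2
  split_ifs <;> norm_num

theorem w2_le (μ : Fin 3 →₀ ℕ) : w2 μ ≤ 1 := by
  unfold w2
  split_ifs <;> norm_num

theorem nn_nonneg (F : P3) : 0 ≤ nn F := ws_nonneg w2_nonneg F

theorem l1_nonneg (F : P3) : 0 ≤ l1 F := ws_nonneg (fun _ => zero_le_one) F

theorem nn_le_l1 (F : P3) : nn F ≤ l1 F := by
  unfold nn l1 ws
  exact Finset.sum_le_sum fun μ _ => mul_le_mul_of_nonneg_right (w2_le μ) (abs_nonneg _)

theorem nn_add_le (F G : P3) : nn (F + G) ≤ nn F + nn G := ws_add_le w2_nonneg F G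

theorem nn_sub_le (F G : P3) : nn (F - G) ≤ nn F + nn G := ws_sub_le w2_nonneg F G

theorem l1_add_le (F G : P3) : l1 (F + G) ≤ l1 F + l1 G :=
  ws_add_le (fun _ => zero_le_one) F G

theorem l1_sub_le (F G : P3) : l1 (F - G) ≤ l1 F + l1 G :=
  ws_sub_le (fun _ => zero_le_one) F G

theorem coeff_le_l1 (F : P3) (μ : Fin 3 →₀ ℕ) : |F.coeff μ| ≤ l1 F := by
  have := coeff_le_ws (v := fun _ => 1) (fun _ => zero_le_one) F μ
  rw [one_mul] at this
  exact this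

theorem coeff_le_nn (F : P3) {μ : Fin 3 →₀ ℕ} (h : 2 ≤ dg μ) : |F.coeff μ| ≤ nn F := by
  have h1 := coeff_le_ws w2_nonneg F μ
  have h2 : w2 μ = 1 := if_pos h
  rw [h2, one_mul] at h1
  exact h1

theorem l1_C (c : ℝ) : l1 (C c) = |c| := by
  have h := ws_monomial (fun _ => 1) 0 c
  rw [one_mul] at h
  exact h

theorem l1_X (i : Fin 3) : l1 (X i) = 1 := by
  have h := ws_monomial (fun _ => 1) (Finsupp.single i 1) 1
  rw [one_mul, abs_one] at h
  exact h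

theorem l1_C_mul (c : ℝ) (F : P3) : l1 (C c * F) = |c| * l1 F := ws_C_mul _ _ _

theorem nn_C_mul (c : ℝ) (F : P3) : nn (C c * F) = |c| * nn F := ws_C_mul _ _ _

theorem nn_affine {F : P3} (h : F.totalDegree ≤ 1) : nn F = 0 := by
  unfold nn ws
  refine Finset.sum_eq_zero fun μ hμ => ?_
  have h1 := dg_le h (mem_support_iff.1 hμ)
  have h2 : w2 μ = 0 := if_neg (by omega)
  rw [h2, zero_mul]

theorem l1_one : l1 (1 : P3) = 1 := by
  have h := l1_C 1
  rw [abs_one] at h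
  rwa [C_1] at h

theorem l1_mul_le (F G : P3) : l1 (F * G) ≤ l1 F * l1 G := by
  have e : F * G = ∑ μ ∈ F.support, ∑ ν ∈ G.support,
      monomial (μ + ν) (F.coeff μ * G.coeff ν) := by
    conv_lhs => rw [F.as_sum, G.as_sum, Finset.sum_mul_sum]
    refine Finset.sum_congr rfl fun μ _ => Finset.sum_congr rfl fun ν _ => ?_
    rw [monomial_mul]
  rw [e]
  refine (ws_sum_le (fun _ => zero_le_one) _ _).trans ?_
  unfold l1 ws
  rw [Finset.sum_mul_sum]
  refine Finset.sum_le_sum fun μ _ => ?_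
  refine (ws_sum_le (fun _ => zero_le_one) _ _).trans (Finset.sum_le_sum fun ν _ => ?_)
  rw [ws_monomial, one_mul, one_mul, one_mul, abs_mul]

theorem l1_pow_le (F : P3) (n : ℕ) : l1 (F ^ n) ≤ l1 F ^ n := by
  induction n with
  | zero => rw [pow_zero, pow_zero, l1_one]
  | succ n ih =>
    rw [pow_succ, pow_succ]
    exact (l1_mul_le _ _).trans (mul_le_mul_of_nonneg_right ih (l1_nonneg _))

/-! ### Substitutions -/

/-- The value of a monomial under a substitution. -/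
noncomputable def pr (f : Fin 3 → P3) (μ : Fin 3 →₀ ℕ) : P3 :=
  f 0 ^ μ 0 * f 1 ^ μ 1 * f 2 ^ μ 2

theorem aeval_eq (f : Fin 3 → P3) (F : P3) :
    aeval f F = ∑ μ ∈ F.support, C (F.coeff μ) * pr f μ := by
  conv_lhs => rw [F.as_sum, map_sum]
  refine Finset.sum_congr rfl fun μ _ => ?_
  rw [aeval_monomial, Finsupp.prod_fintype _ _ (fun _ => pow_zero _), Fin.prod_univ_three]
  rfl

theorem l1_pr {f : Fin 3 → P3} {K : ℝ} (hK : 1 ≤ K) (hf : ∀ i, l1 (f i) ≤ K)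
    (μ : Fin 3 →₀ ℕ) : l1 (pr f μ) ≤ K ^ dg μ := by
  have hK0 : 0 ≤ K := by linarith
  have h : ∀ i, l1 (f i ^ μ i) ≤ K ^ μ i := fun i =>
    (l1_pow_le _ _).trans (pow_le_pow_left₀ (l1_nonneg _) (hf i) _)
  unfold pr dg
  rw [pow_add, pow_add]
  refine (l1_mul_le _ _).trans ?_
  refine mul_le_mul ((l1_mul_le _ _).trans ?_) (h 2) (l1_nonneg _) (by positivity)
  exact mul_le_mul (h 0) (h 1) (l1_nonneg _) (by positivity)

/-- A monomial of degree at most one is constant or a variable. -/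
theorem pr_low (f : Fin 3 → P3) {μ : Fin 3 →₀ ℕ} (h : dg μ < 2) :
    pr f μ = 1 ∨ ∃ i, pr f μ = f i ∧ ∀ g : Fin 3 → P3, pr g μ = g i := by
  unfold dg at h
  have h4 : (μ 0 = 0 ∧ μ 1 = 0 ∧ μ 2 = 0) ∨ (μ 0 = 1 ∧ μ 1 = 0 ∧ μ 2 = 0) ∨
    (μ 0 = 0 ∧ μ 1 = 1 ∧ μ 2 = 0) ∨ (μ 0 = 0 ∧ μ 1 = 0 ∧ μ 2 = 1) := by omega
  rcases h4 with ⟨h0, h1, h2⟩ | ⟨h0, h1, h2⟩ | ⟨h0, h1, h2⟩ | ⟨h0, h1, h2⟩
  · left
    unfold pr
    rw [h0, h1, h2]
    simp
  · right
    refine ⟨0, ?_, fun g => ?_⟩ <;> unfold pr <;> rw [h0, h1, h2] <;> simp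
  · right
    refine ⟨1, ?_, fun g => ?_⟩ <;> unfold pr <;> rw [h0, h1, h2] <;> simp
  · right
    refine ⟨2, ?_, fun g => ?_⟩ <;> unfold pr <;> rw [h0, h1, h2] <;> simp

theorem totalDegree_pr {f : Fin 3 → P3} (hf : ∀ i, (f i).totalDegree ≤ 1) (μ : Fin 3 →₀ ℕ) :
    (pr f μ).totalDegree ≤ dg μ := by
  have h : ∀ i, (f i ^ μ i).totalDegree ≤ μ i := fun i => by
    refine (totalDegree_pow _ _).trans ?_
    calc μ i * (f i).totalDegree ≤ μ i * 1 := Nat.mul_le_mul_left _ (hf i)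
      _ = μ i := mul_one _
  unfold pr dg
  refine (totalDegree_mul _ _).trans (add_le_add ((totalDegree_mul _ _).trans ?_) (h 2))
  exact add_le_add (h 0) (h 1)

theorem totalDegree_aeval {f : Fin 3 → P3} (hf : ∀ i, (f i).totalDegree ≤ 1) {F : P3} {d : ℕ}
    (hF : F.totalDegree ≤ d) : (aeval f F).totalDegree ≤ d := by
  rw [aeval_eq]
  refine totalDegree_finsetSum_le fun μ hμ => ?_
  refine (totalDegree_mul _ _).trans ?_
  rw [totalDegree_C, zero_add]
  exact (totalDegree_pr hf μ).trans (dg_le hF (mem_support_iff.1 hμ))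

theorem nn_pr_low {f : Fin 3 → P3} (hf : ∀ i, (f i).totalDegree ≤ 1) {μ : Fin 3 →₀ ℕ}
    (h : dg μ < 2) : nn (pr f μ) = 0 :=
  nn_affine ((totalDegree_pr hf μ).trans (by omega))

/-- Affine substitutions. -/
theorem nn_aeval_le {f : Fin 3 → P3} {K : ℝ} (hK : 1 ≤ K) (hf1 : ∀ i, (f i).totalDegree ≤ 1)
    (hf : ∀ i, l1 (f i) ≤ K) {F : P3} {d : ℕ} (hF : F.totalDegree ≤ d) :
    nn (aeval f F) ≤ K ^ d * nn F := by
  rw [aeval_eq]
  refine (ws_sum_le w2_nonneg _ _).trans ?_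
  show ∑ μ ∈ F.support, ws w2 (C (F.coeff μ) * pr f μ) ≤ K ^ d * ∑ μ ∈ F.support, w2 μ * |F.coeff μ|
  rw [Finset.mul_sum]
  refine Finset.sum_le_sum fun μ hμ => ?_
  rw [ws_C_mul]
  by_cases h : dg μ < 2
  · have e1 : ws w2 (pr f μ) = 0 := nn_pr_low hf1 h
    have e2 : w2 μ = 0 := if_neg (by omega)
    rw [e1, e2]
    simp
  · have e2 : w2 μ = 1 := if_pos (by omega)
    have e3 : ws w2 (pr f μ) ≤ K ^ d := by
      refine (nn_le_l1 _).trans ((l1_pr hK hf μ).trans ?_)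
      exact pow_le_pow_right₀ hK (dg_le hF (mem_support_iff.1 hμ))
    rw [e2, one_mul, mul_comm]
    exact mul_le_mul_of_nonneg_right e3 (abs_nonneg _)

theorem l1_aeval_le {f : Fin 3 → P3} {K : ℝ} (hK : 1 ≤ K)
    (hf : ∀ i, l1 (f i) ≤ K) {F : P3} {d : ℕ} (hF : F.totalDegree ≤ d) :
    l1 (aeval f F) ≤ K ^ d * l1 F := by
  rw [aeval_eq]
  refine (ws_sum_le (fun _ => zero_le_one) _ _).trans ?_
  show ∑ μ ∈ F.support, ws (fun _ => 1) (C (F.coeff μ) * pr f μ) ≤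
    K ^ d * ∑ μ ∈ F.support, 1 * |F.coeff μ|
  rw [Finset.mul_sum]
  refine Finset.sum_le_sum fun μ hμ => ?_
  rw [ws_C_mul]
  have e3 : ws (fun _ => 1) (pr f μ) ≤ K ^ d :=
    (l1_pr hK hf μ).trans (pow_le_pow_right₀ hK (dg_le hF (mem_support_iff.1 hμ)))
  rw [one_mul, mul_comm]
  exact mul_le_mul_of_nonneg_right e3 (abs_nonneg _)

/-! ### Perturbation -/

theorem l1_pow_sub {f g : P3} {K r : ℝ} (hK : 1 ≤ K) (hr : 0 ≤ r) (hf : l1 f ≤ K) (hg : l1 g ≤ K)
    (hfg : l1 (f - g) ≤ r) (n : ℕ) : l1 (f ^ n - g ^ n) ≤ n * K ^ n * r := by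
  induction n with
  | zero => simp [l1, ws_zero]
  | succ n ih =>
    have e : f ^ (n + 1) - g ^ (n + 1) = (f ^ n - g ^ n) * f + g ^ n * (f - g) := by ring
    rw [e]
    have hK0 : 0 ≤ K := by linarith
    have h1 : l1 ((f ^ n - g ^ n) * f) ≤ n * K ^ n * r * K :=
      (l1_mul_le _ _).trans (mul_le_mul ih hf (l1_nonneg _) (by positivity))
    have h2 : l1 (g ^ n * (f - g)) ≤ K ^ n * r :=
      (l1_mul_le _ _).trans (mul_le_mul ((l1_pow_le _ _).trans
        (pow_le_pow_left₀ (l1_nonneg _) hg _)) hfg (l1_nonneg _) (by positivity))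
    have h3 : K ^ n * r ≤ K ^ (n + 1) * r := by
      refine mul_le_mul_of_nonneg_right ?_ hr
      exact pow_le_pow_right₀ hK (Nat.le_succ n)
    refine (l1_add_le _ _).trans ?_
    push_cast
    rw [pow_succ] at h3 ⊢
    nlinarith

theorem l1_pr_sub {f g : Fin 3 → P3} {K r : ℝ} (hK : 1 ≤ K) (hr : 0 ≤ r) (hf : ∀ i, l1 (f i) ≤ K)
    (hg : ∀ i, l1 (g i) ≤ K) (hfg : ∀ i, l1 (f i - g i) ≤ r) (μ : Fin 3 →₀ ℕ) :
    l1 (pr f μ - pr g μ) ≤ dg μ * K ^ dg μ * r := by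
  have hK0 : 0 ≤ K := by linarith
  have e : pr f μ - pr g μ = (f 0 ^ μ 0 - g 0 ^ μ 0) * f 1 ^ μ 1 * f 2 ^ μ 2 +
      g 0 ^ μ 0 * (f 1 ^ μ 1 - g 1 ^ μ 1) * f 2 ^ μ 2 +
      g 0 ^ μ 0 * g 1 ^ μ 1 * (f 2 ^ μ 2 - g 2 ^ μ 2) := by unfold pr; ring
  have hF : ∀ i, l1 (f i ^ μ i) ≤ K ^ μ i := fun i =>
    (l1_pow_le _ _).trans (pow_le_pow_left₀ (l1_nonneg _) (hf i) _)
  have hG : ∀ i, l1 (g i ^ μ i) ≤ K ^ μ i := fun i =>
    (l1_pow_le _ _).trans (pow_le_pow_left₀ (l1_nonneg _) (hg i) _)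
  have hD : ∀ i, l1 (f i ^ μ i - g i ^ μ i) ≤ μ i * K ^ μ i * r := fun i =>
    l1_pow_sub hK hr (hf i) (hg i) (hfg i) _
  have m3 : ∀ (a b c : P3) (x y z : ℝ), 0 ≤ x → 0 ≤ y → l1 a ≤ x → l1 b ≤ y → l1 c ≤ z →
      l1 (a * b * c) ≤ x * y * z := by
    intro a b c x y z hx hy h1 h2 h3
    exact (l1_mul_le _ _).trans (mul_le_mul ((l1_mul_le _ _).trans
      (mul_le_mul h1 h2 (l1_nonneg _) hx)) h3 (l1_nonneg _) (by positivity))
  rw [e]
  have t1 := m3 _ _ _ _ _ _ (by positivity) (by positivity) (hD 0) (hF 1) (hF 2)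
  have t2 := m3 _ _ _ _ _ _ (by positivity) (by positivity) (hG 0) (hD 1) (hF 2)
  have t3 := m3 _ _ _ _ _ _ (by positivity) (by positivity) (hG 0) (hG 1) (hD 2)
  refine (l1_add_le _ _).trans ?_
  have t4 := l1_add_le ((f 0 ^ μ 0 - g 0 ^ μ 0) * f 1 ^ μ 1 * f 2 ^ μ 2)
    (g 0 ^ μ 0 * (f 1 ^ μ 1 - g 1 ^ μ 1) * f 2 ^ μ 2)
  have e2 : (dg μ : ℝ) * K ^ dg μ * r = (μ 0 * K ^ μ 0 * r) * K ^ μ 1 * K ^ μ 2 +
      K ^ μ 0 * (μ 1 * K ^ μ 1 * r) * K ^ μ 2 + K ^ μ 0 * K ^ μ 1 * (μ 2 * K ^ μ 2 * r) := by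
    unfold dg
    rw [pow_add, pow_add]
    push_cast
    ring
  rw [e2]
  linarith

theorem nn_aeval_sub {f g : Fin 3 → P3} {K r : ℝ} (hK : 1 ≤ K) (hr : 0 ≤ r)
    (hf1 : ∀ i, (f i).totalDegree ≤ 1) (hg1 : ∀ i, (g i).totalDegree ≤ 1)
    (hf : ∀ i, l1 (f i) ≤ K) (hg : ∀ i, l1 (g i) ≤ K) (hfg : ∀ i, l1 (f i - g i) ≤ r)
    {F : P3} {d : ℕ} (hF : F.totalDegree ≤ d) :
    nn (aeval f F - aeval g F) ≤ d * K ^ d * r * nn F := by
  have hK0 : 0 ≤ K := by linarith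
  rw [aeval_eq, aeval_eq, ← Finset.sum_sub_distrib]
  refine (ws_sum_le w2_nonneg _ _).trans ?_
  show _ ≤ (d : ℝ) * K ^ d * r * ∑ μ ∈ F.support, w2 μ * |F.coeff μ|
  rw [Finset.mul_sum]
  refine Finset.sum_le_sum fun μ hμ => ?_
  rw [← mul_sub, ws_C_mul]
  by_cases h : dg μ < 2
  · have e1 : ws w2 (pr f μ - pr g μ) = 0 := by
      refine le_antisymm ?_ (ws_nonneg w2_nonneg _)
      refine (ws_sub_le w2_nonneg _ _).trans (le_of_eq ?_)
      have a1 : ws w2 (pr f μ) = 0 := nn_pr_low hf1 h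
      have a2 : ws w2 (pr g μ) = 0 := nn_pr_low hg1 h
      rw [a1, a2, add_zero]
    have e2 : w2 μ = 0 := if_neg (by omega)
    rw [e1, e2]
    simp
  · have e2 : w2 μ = 1 := if_pos (by omega)
    have hd := dg_le hF (mem_support_iff.1 hμ)
    have e3 : ws w2 (pr f μ - pr g μ) ≤ d * K ^ d * r := by
      refine (nn_le_l1 _).trans ((l1_pr_sub hK hr hf hg hfg μ).trans ?_)
      refine mul_le_mul_of_nonneg_right ?_ hr
      refine mul_le_mul (by exact_mod_cast hd) (pow_le_pow_right₀ hK hd) (by positivity)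
        (by positivity)
    rw [e2, one_mul, mul_comm]
    exact mul_le_mul_of_nonneg_right e3 (abs_nonneg _)

theorem l1_aeval_sub {f g : Fin 3 → P3} {K r : ℝ} (hK : 1 ≤ K) (hr : 0 ≤ r)
    (hf : ∀ i, l1 (f i) ≤ K) (hg : ∀ i, l1 (g i) ≤ K) (hfg : ∀ i, l1 (f i - g i) ≤ r)
    {F : P3} {d : ℕ} (hF : F.totalDegree ≤ d) :
    l1 (aeval f F - aeval g F) ≤ d * K ^ d * r * l1 F := by
  have hK0 : 0 ≤ K := by linarith
  rw [aeval_eq, aeval_eq, ← Finset.sum_sub_distrib]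
  refine (ws_sum_le (fun _ => zero_le_one) _ _).trans ?_
  show _ ≤ (d : ℝ) * K ^ d * r * ∑ μ ∈ F.support, 1 * |F.coeff μ|
  rw [Finset.mul_sum]
  refine Finset.sum_le_sum fun μ hμ => ?_
  rw [← mul_sub, ws_C_mul]
  have hd := dg_le hF (mem_support_iff.1 hμ)
  have e3 : ws (fun _ => 1) (pr f μ - pr g μ) ≤ d * K ^ d * r := by
    refine (l1_pr_sub hK hr hf hg hfg μ).trans ?_
    refine mul_le_mul_of_nonneg_right ?_ hr
    refine mul_le_mul (by exact_mod_cast hd) (pow_le_pow_right₀ hK hd) (by positivity)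
      (by positivity)
  rw [one_mul, mul_comm]
  exact mul_le_mul_of_nonneg_right e3 (abs_nonneg _)

/-! ### Interpolation in one variable -/

/-- **Coefficients of a polynomial which is small at separated points.** -/
theorem vander {K ρ : ℝ} (hK : 1 ≤ K) (hρ : 0 < ρ) (hρ1 : ρ ≤ 1) :
    ∀ (d : ℕ) (P : Polynomial ℝ), P.natDegree ≤ d → ∀ x : ℕ → ℝ, (∀ i ≤ d, |x i| ≤ K) →
      (∀ i ≤ d, ∀ j ≤ d, i ≠ j → ρ ≤ |x i - x j|) → ∀ ε : ℝ, 0 ≤ ε →
      (∀ i ≤ d, |P.eval (x i)| ≤ ε) → ∀ m, |P.coeff m| ≤ (8 * K / ρ) ^ d * ε := by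
  intro d
  induction d with
  | zero =>
    intro P hP x _ _ ε _ hε m
    rw [pow_zero, one_mul]
    obtain ⟨c, rfl⟩ : ∃ c, P = Polynomial.C c :=
      ⟨P.coeff 0, Polynomial.eq_C_of_natDegree_le_zero hP⟩
    have h0 := hε 0 le_rfl
    rw [Polynomial.eval_C] at h0
    rw [Polynomial.coeff_C]
    split_ifs
    · exact h0
    · rw [abs_zero]
      exact (abs_nonneg _).trans h0
  | succ d ih =>
    intro P hP x hx hsep ε hε0 hε m
    obtain ⟨a, ha⟩ : ∃ a, a = x (d + 1) := ⟨_, rfl⟩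
    obtain ⟨Q, hQ⟩ := Polynomial.X_sub_C_dvd_sub_C_eval (p := P) (a := a)
    have hPe : P = Polynomial.C (P.eval a) + (Polynomial.X - Polynomial.C a) * Q := by
      rw [← hQ]; ring
    have hQd : Q.natDegree ≤ d := by
      by_cases hQ0 : Q = 0
      · rw [hQ0]; simp
      have h1 : ((Polynomial.X - Polynomial.C a) * Q).natDegree = 1 + Q.natDegree := by
        rw [Polynomial.natDegree_mul (Polynomial.X_sub_C_ne_zero a) hQ0,
          Polynomial.natDegree_X_sub_C]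
      have h2 : (P - Polynomial.C (P.eval a)).natDegree ≤ d + 1 :=
        (Polynomial.natDegree_sub_le _ _).trans (by simp [hP])
      rw [hQ, h1] at h2
      omega
    have hKρ : 1 ≤ 8 * K / ρ := by
      rw [le_div_iff₀ hρ]
      linarith
    have hq : ∀ i ≤ d, |Q.eval (x i)| ≤ 2 * ε / ρ := by
      intro i hi
      have h1 : P.eval (x i) - P.eval a = (x i - a) * Q.eval (x i) := by
        have := congrArg (Polynomial.eval (x i)) hQ
        simpa using this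
      have h2 : ρ ≤ |x i - a| := by
        rw [ha]
        exact hsep i (by omega) (d + 1) le_rfl (by omega)
      have h3 : |x i - a| * |Q.eval (x i)| ≤ 2 * ε := by
        rw [← abs_mul, ← h1]
        have a1 := hε i (by omega)
        have a2 := hε (d + 1) le_rfl
        rw [← ha] at a2
        have := abs_sub (P.eval (x i)) (P.eval a)
        linarith
      rw [le_div_iff₀ hρ]
      have h4 := mul_le_mul_of_nonneg_right h2 (abs_nonneg (Q.eval (x i)))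
      linarith
    have hc := ih Q hQd x (fun i hi => hx i (by omega))
      (fun i hi j hj => hsep i (by omega) j (by omega)) (2 * ε / ρ) (by positivity) hq
    obtain ⟨B, hB⟩ : ∃ B, B = (8 * K / ρ) ^ d * (2 * ε / ρ) := ⟨_, rfl⟩
    rw [← hB] at hc
    have hB0 : 0 ≤ B := (abs_nonneg _).trans (hc 0)
    have hax : |a| ≤ K := by rw [ha]; exact hx (d + 1) le_rfl
    have hPa : |P.eval a| ≤ ε := by rw [ha]; exact hε (d + 1) le_rfl
    -- the coefficient
    have hcoef : |P.coeff m| ≤ ε + (B + K * B) := by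
      rw [hPe, Polynomial.coeff_add, sub_mul, Polynomial.coeff_sub, Polynomial.coeff_C_mul]
      have t1 : |(Polynomial.C (P.eval a)).coeff m| ≤ ε := by
        rw [Polynomial.coeff_C]
        split_ifs
        · exact hPa
        · rw [abs_zero]; exact hε0
      have t2 : |(Polynomial.X * Q).coeff m| ≤ B := by
        cases m with
        | zero => rw [Polynomial.coeff_X_mul_zero, abs_zero]; exact hB0
        | succ m => rw [Polynomial.coeff_X_mul]; exact hc m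
      have t3 : |a * Q.coeff m| ≤ K * B := by
        rw [abs_mul]
        exact mul_le_mul hax (hc m) (abs_nonneg _) (by linarith)
      have t4 := abs_add_le ((Polynomial.C (P.eval a)).coeff m)
        ((Polynomial.X * Q).coeff m - a * Q.coeff m)
      have t5 := abs_sub ((Polynomial.X * Q).coeff m) (a * Q.coeff m)
      linarith
    refine hcoef.trans ?_
    have h1 : (1 : ℝ) ≤ (8 * K / ρ) ^ d := one_le_pow₀ hKρ
    rw [pow_succ]
    have e1 : (8 * K / ρ) ^ d * (8 * K / ρ) * ε = 4 * K * B := by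
      rw [hB]; ring
    have e2 : ε ≤ B := by
      rw [hB]
      have : ε ≤ 2 * ε / ρ := by
        rw [le_div_iff₀ hρ]
        nlinarith
      calc ε ≤ 1 * (2 * ε / ρ) := by linarith
        _ ≤ _ := mul_le_mul_of_nonneg_right h1 (by positivity)
    rw [e1]
    nlinarith

end Pool.S6P
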