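import Pool.Agent.H26.DIC.Pol

/-!
# Planes through a line

Mates of a line in a plane force the polynomial to be affine on the plane; many planes through a
line force it to be affine.
-/

set_option autoImplicit false

namespace Pool.S6P

open MvPolynomial Finset

/-- Restriction to the plane `q = e p`. -/
noncomputable def sb (e : ℝ) : Fin 3 → P3 := ![X 0, X 1, C e * X 1]

/-- The exponents after the restriction. -/
noncomputable def hx (μ : Fin 3 →₀ ℕ) : Fin 3 →₀ ℕ :=
  Finsupp.single 0 (μ 0) + Finsupp.single 1 (μ 1 + μ 2)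

theorem hx_0 (μ : Fin 3 →₀ ℕ) : hx μ 0 = μ 0 := by
  unfold hx
  simp

theorem hx_1 (μ : Fin 3 →₀ ℕ) : hx μ 1 = μ 1 + μ 2 := by
  unfold hx
  simp

theorem hx_2 (μ : Fin 3 →₀ ℕ) : hx μ 2 = 0 := by
  unfold hx
  simp

theorem dg_hx (μ : Fin 3 →₀ ℕ) : dg (hx μ) = dg μ := by
  unfold dg
  rw [hx_0, hx_1, hx_2]
  omega

theorem pr_sb (e c : ℝ) (μ : Fin 3 →₀ ℕ) :
    C c * pr (sb e) μ = monomial (hx μ) (c * e ^ μ 2) := by
  have h : pr (sb e) μ = X 0 ^ μ 0 * X 1 ^ μ 1 * (C e * X 1) ^ μ 2 := rfl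
  rw [h, mul_pow, ← C_pow, X_pow_eq_monomial, X_pow_eq_monomial, X_pow_eq_monomial,
    C_mul_monomial, monomial_mul, monomial_mul, C_mul_monomial]
  congr 1
  · unfold hx
    rw [add_assoc, ← Finsupp.single_add]
  · ring

theorem coeff_sb (e : ℝ) (Φ : P3) (ν : Fin 3 →₀ ℕ) : coeff ν (aeval (sb e) Φ) =
    ∑ μ ∈ Φ.support, if hx μ = ν then Φ.coeff μ * e ^ μ 2 else 0 := by
  classical
  rw [aeval_eq, coeff_sum]
  refine Finset.sum_congr rfl fun μ _ => ?_
  rw [pr_sb, coeff_monomial]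

theorem card_support_le {Φ : P3} {d : ℕ} (hΦ : Φ.totalDegree ≤ d) :
    (Φ.support.card : ℝ) ≤ (d + 1) ^ 3 := by
  have h : Φ.support.card ≤ (range (d + 1) ×ˢ range (d + 1) ×ˢ range (d + 1)).card := by
    refine Finset.card_le_card_of_injOn (fun μ => (μ 0, μ 1, μ 2)) (fun μ hμ => ?_) ?_
    · have h1 := dg_le hΦ (mem_support_iff.1 hμ)
      unfold dg at h1
      simp only [Finset.coe_product, Set.mem_prod, Finset.coe_range, Set.mem_Iio]
      omega
    · intro μ _ ν _ h
      simp only [Prod.mk.injEq] at h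
      ext i
      have hi : ∀ i : Fin 3, i = 0 ∨ i = 1 ∨ i = 2 := by decide
      rcases hi i with rfl | rfl | rfl
      · exact h.1
      · exact h.2.1
      · exact h.2.2
  rw [card_product, card_product, card_range] at h
  calc (Φ.support.card : ℝ) ≤ (((d + 1) * ((d + 1) * (d + 1)) : ℕ) : ℝ) := by exact_mod_cast h
    _ = _ := by push_cast; ring

/-- **Separated planes.** -/
theorem nn_vander {d : ℕ} {K τ ε : ℝ} (hK : 1 ≤ K) (hτ : 0 < τ) (hτ1 : τ ≤ 1) (hε0 : 0 ≤ ε)
    {Φ : P3} (hΦ : Φ.totalDegree ≤ d) {e : ℕ → ℝ} (he : ∀ i ≤ d, |e i| ≤ K)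
    (hsep : ∀ i ≤ d, ∀ j ≤ d, i ≠ j → τ ≤ |e i - e j|)
    (h : ∀ i ≤ d, nn (aeval (sb (e i)) Φ) ≤ ε) :
    nn Φ ≤ (d + 1) ^ 3 * ((8 * K / τ) ^ d * ε) := by
  classical
  have hB0 : 0 ≤ (8 * K / τ) ^ d * ε := by positivity
  have key : ∀ μ ∈ Φ.support, w2 μ * |Φ.coeff μ| ≤ (8 * K / τ) ^ d * ε := by
    intro μ₀ hμ₀
    by_cases h2 : 2 ≤ dg μ₀
    swap
    · have : w2 μ₀ = 0 := if_neg h2
      rw [this, zero_mul]
      exact hB0
    have hw : w2 μ₀ = 1 := if_pos h2
    rw [hw, one_mul]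
    obtain ⟨S, hS⟩ : ∃ S, S = Φ.support.filter fun μ => hx μ = hx μ₀ := ⟨_, rfl⟩
    have hμS : μ₀ ∈ S := by
      rw [hS, mem_filter]
      exact ⟨hμ₀, rfl⟩
    obtain ⟨P, hP⟩ : ∃ P : Polynomial ℝ, P = ∑ μ ∈ S, Polynomial.monomial (μ 2) (Φ.coeff μ) :=
      ⟨_, rfl⟩
    have hdeg : P.natDegree ≤ d := by
      rw [hP]
      refine Polynomial.natDegree_sum_le_of_forall_le _ _ fun μ hμ => ?_
      refine (Polynomial.natDegree_monomial_le _).trans ?_
      rw [hS, mem_filter] at hμ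
      have := dg_le hΦ (mem_support_iff.1 hμ.1)
      unfold dg at this
      omega
    have heval : ∀ x : ℝ, P.eval x = coeff (hx μ₀) (aeval (sb x) Φ) := by
      intro x
      rw [coeff_sb, hP, Polynomial.eval_finsetSum, hS, Finset.sum_filter]
      refine Finset.sum_congr rfl fun μ _ => ?_
      rw [Polynomial.eval_monomial]
    have hcoef : P.coeff (μ₀ 2) = Φ.coeff μ₀ := by
      rw [hP, Polynomial.finsetSum_coeff, Finset.sum_eq_single μ₀]
      · rw [Polynomial.coeff_monomial, if_pos rfl]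
      · intro μ hμ hne
        rw [Polynomial.coeff_monomial, if_neg]
        intro h22
        refine hne ?_
        rw [hS, mem_filter] at hμ
        have e0 : μ 0 = μ₀ 0 := by
          have := DFunLike.congr_fun hμ.2 0
          rwa [hx_0, hx_0] at this
        have e1 : μ 1 + μ 2 = μ₀ 1 + μ₀ 2 := by
          have := DFunLike.congr_fun hμ.2 1
          rwa [hx_1, hx_1] at this
        ext i
        have hi : ∀ i : Fin 3, i = 0 ∨ i = 1 ∨ i = 2 := by decide
        rcases hi i with rfl | rfl | rfl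
        · exact e0
        · omega
        · exact h22
      · intro hn
        exact absurd hμS hn
    rw [← hcoef]
    refine vander hK hτ hτ1 d P hdeg e he hsep ε hε0 (fun i hi => ?_) (μ₀ 2)
    rw [heval]
    refine (coeff_le_nn _ ?_).trans (h i hi)
    rw [dg_hx]
    exact h2
  unfold nn ws
  refine (Finset.sum_le_sum key).trans ?_
  rw [Finset.sum_const, nsmul_eq_mul]
  exact mul_le_mul_of_nonneg_right (card_support_le hΦ) hB0

/-! ### The affine part -/

/-- The affine part. -/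
noncomputable def lin (F : P3) : P3 := C (F.coeff 0) + C (F.coeff (Finsupp.single 0 1)) * X 0 +
  C (F.coeff (Finsupp.single 1 1)) * X 1 + C (F.coeff (Finsupp.single 2 1)) * X 2

theorem low_cases {μ : Fin 3 →₀ ℕ} (h : dg μ < 2) : μ = 0 ∨ μ = Finsupp.single 0 1 ∨
    μ = Finsupp.single 1 1 ∨ μ = Finsupp.single 2 1 := by
  unfold dg at h
  have hi : ∀ i : Fin 3, i = 0 ∨ i = 1 ∨ i = 2 := by decide
  have h4 : (μ 0 = 0 ∧ μ 1 = 0 ∧ μ 2 = 0) ∨ (μ 0 = 1 ∧ μ 1 = 0 ∧ μ 2 = 0) ∨
    (μ 0 = 0 ∧ μ 1 = 1 ∧ μ 2 = 0) ∨ (μ 0 = 0 ∧ μ 1 = 0 ∧ μ 2 = 1) := by omega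
  rcases h4 with ⟨h0, h1, h2⟩ | ⟨h0, h1, h2⟩ | ⟨h0, h1, h2⟩ | ⟨h0, h1, h2⟩
  · left
    ext i
    rcases hi i with rfl | rfl | rfl <;> simp [h0, h1, h2]
  · right; left
    ext i
    rcases hi i with rfl | rfl | rfl <;> simp [h0, h1, h2]
  · right; right; left
    ext i
    rcases hi i with rfl | rfl | rfl <;> simp [h0, h1, h2]
  · right; right; right
    ext i
    rcases hi i with rfl | rfl | rfl <;> simp [h0, h1, h2]

theorem totalDegree_lin (F : P3) : (lin F).totalDegree ≤ 1 := by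
  have h : ∀ (c : ℝ) (i : Fin 3), (C c * X i : P3).totalDegree ≤ 1 := fun c i => by
    refine (totalDegree_mul _ _).trans ?_
    rw [totalDegree_C, totalDegree_X]
  unfold lin
  refine (totalDegree_add _ _).trans (max_le ((totalDegree_add _ _).trans (max_le
    ((totalDegree_add _ _).trans (max_le ?_ (h _ _))) (h _ _))) (h _ _))
  rw [totalDegree_C]
  exact zero_le_one

theorem single_ne {i j : Fin 3} (h : i ≠ j) :
    (Finsupp.single i 1 : Fin 3 →₀ ℕ) ≠ Finsupp.single j 1 := by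
  intro hc
  have := DFunLike.congr_fun hc i
  simp [h.symm] at this

theorem single_ne_zero' (i : Fin 3) : (Finsupp.single i 1 : Fin 3 →₀ ℕ) ≠ 0 := by
  intro hc
  have := DFunLike.congr_fun hc i
  simp at this

theorem coeff_lin (F : P3) (μ : Fin 3 →₀ ℕ) :
    coeff μ (F - lin F) = if 2 ≤ dg μ then F.coeff μ else 0 := by
  classical
  rw [coeff_sub]
  by_cases h : 2 ≤ dg μ
  · rw [if_pos h, coeff_of_dg (totalDegree_lin F) (by omega), sub_zero]
  rw [if_neg h]
  have hc : ∀ (c : ℝ) (i : Fin 3) (ν : Fin 3 →₀ ℕ), coeff ν (C c * X i : P3) =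
      if Finsupp.single i 1 = ν then c else 0 := by
    intro c i ν
    rw [coeff_C_mul, coeff_X]
    split_ifs <;> simp
  have h01 : (0 : Fin 3) ≠ 1 := by decide
  have h02 : (0 : Fin 3) ≠ 2 := by decide
  have h12 : (1 : Fin 3) ≠ 2 := by decide
  rcases low_cases (μ := μ) (by omega) with rfl | rfl | rfl | rfl
  · unfold lin
    rw [coeff_add, coeff_add, coeff_add, hc, hc, hc, coeff_C, if_pos rfl,
      if_neg (single_ne_zero' 0), if_neg (single_ne_zero' 1), if_neg (single_ne_zero' 2)]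
    ring
  · unfold lin
    rw [coeff_add, coeff_add, coeff_add, hc, hc, hc, coeff_C, if_neg (single_ne_zero' 0).symm,
      if_pos rfl, if_neg (single_ne h01.symm), if_neg (single_ne h02.symm)]
    ring
  · unfold lin
    rw [coeff_add, coeff_add, coeff_add, hc, hc, hc, coeff_C, if_neg (single_ne_zero' 1).symm,
      if_neg (single_ne h01), if_pos rfl, if_neg (single_ne h12.symm)]
    ring
  · unfold lin
    rw [coeff_add, coeff_add, coeff_add, hc, hc, hc, coeff_C, if_neg (single_ne_zero' 2).symm,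
      if_neg (single_ne h02), if_neg (single_ne h12), if_pos rfl]
    ring

theorem l1_hi_le (F : P3) : l1 (F - lin F) ≤ nn F := by
  classical
  have hs : (F - lin F).support ⊆ F.support := by
    intro μ hμ
    rw [mem_support_iff, coeff_lin] at hμ
    rw [mem_support_iff]
    split_ifs at hμ with h
    · exact hμ
    · exact absurd rfl hμ
  unfold l1
  rw [ws_of_subset hs]
  unfold nn ws
  refine Finset.sum_le_sum fun μ _ => ?_
  rw [coeff_lin]
  unfold w2
  split_ifs <;> simp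

theorem totalDegree_hi {F : P3} {d : ℕ} (hF : F.totalDegree ≤ d) (hd : 1 ≤ d) :
    (F - lin F).totalDegree ≤ d :=
  (totalDegree_sub _ _).trans (max_le hF ((totalDegree_lin F).trans hd))

/-- The linear coefficient after a restriction. -/
theorem coeff_one_sb (a : ℝ) (Φ : P3) : coeff (Finsupp.single 1 1) (aeval (sb a) Φ) =
    Φ.coeff (Finsupp.single 1 1) + a * Φ.coeff (Finsupp.single 2 1) := by
  classical
  have h12 : (1 : Fin 3) ≠ 2 := by decide
  rw [coeff_sb]
  have hs : ∀ μ ∈ Φ.support, (if hx μ = Finsupp.single 1 1 then Φ.coeff μ * a ^ μ 2 else 0) =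
      (if μ = Finsupp.single 1 1 then Φ.coeff μ else 0) +
      (if μ = Finsupp.single 2 1 then a * Φ.coeff μ else 0) := by
    intro μ _
    by_cases h : hx μ = Finsupp.single 1 1
    · rw [if_pos h]
      have h0 : dg μ < 2 := by
        rw [← dg_hx, h]
        unfold dg
        simp
      have e0 : μ 0 = 0 := by
        have := DFunLike.congr_fun h 0
        rw [hx_0] at this
        simpa using this
      have e1 : μ 1 + μ 2 = 1 := by
        have := DFunLike.congr_fun h 1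
        rw [hx_1] at this
        simpa using this
      rcases low_cases h0 with rfl | rfl | rfl | rfl
      · simp at e1
      · simp at e0
      · rw [if_pos rfl, if_neg (single_ne h12)]
        simp
      · rw [if_neg (single_ne h12.symm), if_pos rfl]
        simp [mul_comm]
    · rw [if_neg h]
      have n1 : μ ≠ Finsupp.single 1 1 := by
        rintro rfl
        refine h ?_
        ext i
        have hi : ∀ i : Fin 3, i = 0 ∨ i = 1 ∨ i = 2 := by decide
        rcases hi i with rfl | rfl | rfl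
        · rw [hx_0]
        · rw [hx_1]; simp
        · rw [hx_2]; simp
      have n2 : μ ≠ Finsupp.single 2 1 := by
        rintro rfl
        refine h ?_
        ext i
        have hi : ∀ i : Fin 3, i = 0 ∨ i = 1 ∨ i = 2 := by decide
        rcases hi i with rfl | rfl | rfl
        · rw [hx_0]; simp
        · rw [hx_1]; simp
        · rw [hx_2]; simp
      rw [if_neg n1, if_neg n2, add_zero]
  rw [Finset.sum_congr rfl hs, Finset.sum_add_distrib, Finset.sum_ite_eq', Finset.sum_ite_eq']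
  congr 1
  · split_ifs with h
    · rfl
    · rw [notMem_support_iff.1 h]
  · split_ifs with h
    · rfl
    · rw [notMem_support_iff.1 h, mul_zero]

/-! ### Substitutions attached to a line -/

/-- The line. -/
noncomputable def ln (Y D : Fin 3 → ℝ) : Fin 3 → P3 :=
  ![X 0, C (Y 0) + C (D 0) * X 0, C (Y 1) + C (D 1) * X 0]

/-- The plane of slope `e` through the line. -/
noncomputable def pl (Y D : Fin 3 → ℝ) (e : ℝ) : Fin 3 → P3 :=
  ![X 0, C (Y 0) + C (D 0) * X 0 + X 1, C (Y 1) + C (D 1) * X 0 + C e * X 1]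

/-- Coordinates relative to the line. -/
noncomputable def rl (Y D : Fin 3 → ℝ) : Fin 3 → P3 :=
  ![X 0, C (Y 0) + C (D 0) * X 0 + X 1, C (Y 1) + C (D 1) * X 0 + X 2]

/-- Inverse of `rl`. -/
noncomputable def ri (Y D : Fin 3 → ℝ) : Fin 3 → P3 :=
  ![X 0, X 1 - C (Y 0) - C (D 0) * X 0, X 2 - C (Y 1) - C (D 1) * X 0]

/-- The plane, with base point at the time `s`. -/
noncomputable def ap (s : ℝ) (Y D : Fin 3 → ℝ) (e : ℝ) : Fin 3 → P3 :=
  ![C s + X 1, C (Y 0 + s * D 0) + C (D 0) * X 1 + X 2,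
    C (Y 1 + s * D 1) + C (D 1) * X 1 + C e * X 2]

/-- A line in the plane through the base point. -/
noncomputable def ma (s : ℝ) (Y D : Fin 3 → ℝ) (e a : ℝ) : Fin 3 → P3 :=
  ![C s + X 1, C (Y 0 + s * D 0) + C (D 0 + a) * X 1,
    C (Y 1 + s * D 1) + C (D 1 + e * a) * X 1]

/-- A line with base time `s`. -/
noncomputable def sh (s : ℝ) (Y D : Fin 3 → ℝ) : Fin 3 → P3 :=
  ![C s + X 1, C (Y 0 + s * D 0) + C (D 0) * X 1, C (Y 1 + s * D 1) + C (D 1) * X 1]

theorem fin3 {P : Fin 3 → Prop} (h0 : P 0) (h1 : P 1) (h2 : P 2) (i : Fin 3) : P i := by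
  have hi : ∀ i : Fin 3, i = 0 ∨ i = 1 ∨ i = 2 := by decide
  rcases hi i with rfl | rfl | rfl
  · exact h0
  · exact h1
  · exact h2

theorem comp (g f : Fin 3 → P3) (F : P3) :
    aeval g (aeval f F) = aeval (fun i => aeval g (f i)) F :=
  comp_aeval_apply f (aeval g) F

theorem sb_ap (s : ℝ) (Y D : Fin 3 → ℝ) (e a : ℝ) (F : P3) :
    aeval (sb a) (aeval (ap s Y D e) F) = aeval (ma s Y D e a) F := by
  rw [comp]
  congr 2
  funext i
  refine fin3 (P := fun i => aeval (sb a) (ap s Y D e i) = ma s Y D e a i) ?_ ?_ ?_ i <;>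
    simp [sb, ap, ma] <;> ring

theorem sh_ln (s : ℝ) (Y D : Fin 3 → ℝ) (F : P3) :
    aeval (fun _ => C s + X 1 : Fin 3 → P3) (aeval (ln Y D) F) = aeval (sh s Y D) F := by
  rw [comp]
  congr 2
  funext i
  refine fin3 (P := fun i => aeval (fun _ => C s + X 1 : Fin 3 → P3) (ln Y D i) =
    sh s Y D i) ?_ ?_ ?_ i <;>
    simp [sh, ln] <;> ring

theorem pl_ap (s : ℝ) (Y D : Fin 3 → ℝ) (e : ℝ) (F : P3) :
    aeval (![0, X 0 - C s, X 1] : Fin 3 → P3) (aeval (ap s Y D e) F) = aeval (pl Y D e) F := by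
  rw [comp]
  congr 2
  funext i
  refine fin3 (P := fun i => aeval (![0, X 0 - C s, X 1] : Fin 3 → P3) (ap s Y D e i) =
    pl Y D e i) ?_ ?_ ?_ i <;>
    simp [pl, ap] <;> ring

theorem sb_rl (Y D : Fin 3 → ℝ) (e : ℝ) (F : P3) :
    aeval (sb e) (aeval (rl Y D) F) = aeval (pl Y D e) F := by
  rw [comp]
  congr 2
  funext i
  refine fin3 (P := fun i => aeval (sb e) (rl Y D i) = pl Y D e i) ?_ ?_ ?_ i <;>
    simp [pl, rl, sb]

theorem ri_rl (Y D : Fin 3 → ℝ) (F : P3) : aeval (ri Y D) (aeval (rl Y D) F) = F := by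
  rw [comp]
  conv_rhs => rw [← aeval_X_left_apply F]
  congr 2
  funext i
  refine fin3 (P := fun i => aeval (ri Y D) (rl Y D i) = X i) ?_ ?_ ?_ i <;>
    simp [ri, rl]

end Pool.S6P
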