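import Pool.Agent.H26.DIC.Pol2

/-!
# Estimates for the substitutions attached to a line
-/

set_option autoImplicit false

namespace Pool.S6P

open MvPolynomial Finset

theorem td_C (a : ℝ) : (C a : P3).totalDegree ≤ 1 := by
  rw [totalDegree_C]
  exact zero_le_one

theorem td_X (i : Fin 3) : (X i : P3).totalDegree ≤ 1 := by
  rw [totalDegree_X]

theorem td_add {F G : P3} (hF : F.totalDegree ≤ 1) (hG : G.totalDegree ≤ 1) :
    (F + G).totalDegree ≤ 1 := (totalDegree_add _ _).trans (max_le hF hG)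

theorem td_sub {F G : P3} (hF : F.totalDegree ≤ 1) (hG : G.totalDegree ≤ 1) :
    (F - G).totalDegree ≤ 1 := (totalDegree_sub _ _).trans (max_le hF hG)

theorem td_CX (a : ℝ) (i : Fin 3) : (C a * X i : P3).totalDegree ≤ 1 := by
  refine (totalDegree_mul _ _).trans ?_
  rw [totalDegree_C, totalDegree_X]

theorem l1_CX (a : ℝ) (i : Fin 3) : l1 (C a * X i : P3) = |a| := by
  rw [l1_C_mul, l1_X, mul_one]

theorem l1_zero : l1 (0 : P3) = 0 := ws_zero _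

theorem td_zero : (0 : P3).totalDegree ≤ 1 := by
  rw [totalDegree_zero]
  exact zero_le_one

theorem l1_neg (F : P3) : l1 (-F) = l1 F := ws_neg _ F

section

variable {K s e a : ℝ} {Y D : Fin 3 → ℝ}

theorem ap_td (i : Fin 3) : (ap s Y D e i).totalDegree ≤ 1 := by
  refine fin3 (P := fun i => (ap s Y D e i).totalDegree ≤ 1) ?_ ?_ ?_ i
  · exact td_add (td_C _) (td_X _)
  · exact td_add (td_add (td_C _) (td_CX _ _)) (td_X _)
  · exact td_add (td_add (td_C _) (td_CX _ _)) (td_CX _ _)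

theorem ma_td (i : Fin 3) : (ma s Y D e a i).totalDegree ≤ 1 := by
  refine fin3 (P := fun i => (ma s Y D e a i).totalDegree ≤ 1) ?_ ?_ ?_ i
  · exact td_add (td_C _) (td_X _)
  · exact td_add (td_C _) (td_CX _ _)
  · exact td_add (td_C _) (td_CX _ _)

theorem sh_td (i : Fin 3) : (sh s Y D i).totalDegree ≤ 1 := by
  refine fin3 (P := fun i => (sh s Y D i).totalDegree ≤ 1) ?_ ?_ ?_ i
  · exact td_add (td_C _) (td_X _)
  · exact td_add (td_C _) (td_CX _ _)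
  · exact td_add (td_C _) (td_CX _ _)

theorem pl_td (i : Fin 3) : (pl Y D e i).totalDegree ≤ 1 := by
  refine fin3 (P := fun i => (pl Y D e i).totalDegree ≤ 1) ?_ ?_ ?_ i
  · exact td_X _
  · exact td_add (td_add (td_C _) (td_CX _ _)) (td_X _)
  · exact td_add (td_add (td_C _) (td_CX _ _)) (td_CX _ _)

theorem rl_td (i : Fin 3) : (rl Y D i).totalDegree ≤ 1 := by
  refine fin3 (P := fun i => (rl Y D i).totalDegree ≤ 1) ?_ ?_ ?_ i
  · exact td_X _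
  · exact td_add (td_add (td_C _) (td_CX _ _)) (td_X _)
  · exact td_add (td_add (td_C _) (td_CX _ _)) (td_X _)

theorem ri_td (i : Fin 3) : (ri Y D i).totalDegree ≤ 1 := by
  refine fin3 (P := fun i => (ri Y D i).totalDegree ≤ 1) ?_ ?_ ?_ i
  · exact td_X _
  · exact td_sub (td_sub (td_X _) (td_C _)) (td_CX _ _)
  · exact td_sub (td_sub (td_X _) (td_C _)) (td_CX _ _)

theorem ln_td (i : Fin 3) : (ln Y D i).totalDegree ≤ 1 := by
  refine fin3 (P := fun i => (ln Y D i).totalDegree ≤ 1) ?_ ?_ ?_ i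
  · exact td_X _
  · exact td_add (td_C _) (td_CX _ _)
  · exact td_add (td_C _) (td_CX _ _)

theorem pos_le (hs : |s| ≤ 1) (hY : ∀ i, |Y i| ≤ K) (hD : ∀ i, |D i| ≤ K) (i : Fin 3) :
    |Y i + s * D i| ≤ 2 * K := by
  have h1 : |s * D i| ≤ 1 * K := by
    rw [abs_mul]
    exact mul_le_mul hs (hD i) (abs_nonneg _) zero_le_one
  have := abs_add_le (Y i) (s * D i)
  linarith [hY i]

theorem ma_l1 (hK : 1 ≤ K) (hs : |s| ≤ 1) (hY : ∀ i, |Y i| ≤ K) (hD : ∀ i, |D i| ≤ K)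
    (h0 : |D 0 + a| ≤ 2 * K) (h1 : |D 1 + e * a| ≤ 2 * K) (i : Fin 3) :
    l1 (ma s Y D e a i) ≤ 4 * K := by
  have p := pos_le hs hY hD
  refine fin3 (P := fun i => l1 (ma s Y D e a i) ≤ 4 * K) ?_ ?_ ?_ i
  · have := l1_add_le (C s) (X 1)
    rw [l1_C, l1_X] at this
    refine this.trans ?_
    linarith
  · have := l1_add_le (C (Y 0 + s * D 0)) (C (D 0 + a) * X 1)
    rw [l1_C, l1_CX] at this
    refine this.trans ?_
    linarith [p 0]
  · have := l1_add_le (C (Y 1 + s * D 1)) (C (D 1 + e * a) * X 1)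
    rw [l1_C, l1_CX] at this
    refine this.trans ?_
    linarith [p 1]

theorem sh_l1 (hK : 1 ≤ K) (hs : |s| ≤ 1) (hY : ∀ i, |Y i| ≤ K) (hD : ∀ i, |D i| ≤ K)
    (i : Fin 3) : l1 (sh s Y D i) ≤ 4 * K := by
  have p := pos_le hs hY hD
  refine fin3 (P := fun i => l1 (sh s Y D i) ≤ 4 * K) ?_ ?_ ?_ i
  · have := l1_add_le (C s) (X 1)
    rw [l1_C, l1_X] at this
    refine this.trans ?_
    linarith
  · have := l1_add_le (C (Y 0 + s * D 0)) (C (D 0) * X 1)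
    rw [l1_C, l1_CX] at this
    refine this.trans ?_
    linarith [p 0, hD 0]
  · have := l1_add_le (C (Y 1 + s * D 1)) (C (D 1) * X 1)
    rw [l1_C, l1_CX] at this
    refine this.trans ?_
    linarith [p 1, hD 1]

theorem rl_l1 (hK : 1 ≤ K) (hY : ∀ i, |Y i| ≤ K) (hD : ∀ i, |D i| ≤ K) (i : Fin 3) :
    l1 (rl Y D i) ≤ 4 * K := by
  refine fin3 (P := fun i => l1 (rl Y D i) ≤ 4 * K) ?_ ?_ ?_ i
  · show l1 (X 0) ≤ 4 * K
    rw [l1_X]
    linarith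
  · have h1 := l1_add_le (C (Y 0) + C (D 0) * X 0) (X 1)
    have h2 := l1_add_le (C (Y 0)) (C (D 0) * X 0)
    rw [l1_X] at h1
    rw [l1_C, l1_CX] at h2
    refine h1.trans ?_
    linarith [hY 0, hD 0]
  · have h1 := l1_add_le (C (Y 1) + C (D 1) * X 0) (X 2)
    have h2 := l1_add_le (C (Y 1)) (C (D 1) * X 0)
    rw [l1_X] at h1
    rw [l1_C, l1_CX] at h2
    refine h1.trans ?_
    linarith [hY 1, hD 1]

theorem ri_l1 (hK : 1 ≤ K) (hY : ∀ i, |Y i| ≤ K) (hD : ∀ i, |D i| ≤ K) (i : Fin 3) :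
    l1 (ri Y D i) ≤ 4 * K := by
  refine fin3 (P := fun i => l1 (ri Y D i) ≤ 4 * K) ?_ ?_ ?_ i
  · show l1 (X 0) ≤ 4 * K
    rw [l1_X]
    linarith
  · have h1 := l1_sub_le (X 1 - C (Y 0)) (C (D 0) * X 0)
    have h2 := l1_sub_le (X 1) (C (Y 0))
    rw [l1_CX] at h1
    rw [l1_X, l1_C] at h2
    refine h1.trans ?_
    linarith [hY 0, hD 0]
  · have h1 := l1_sub_le (X 2 - C (Y 1)) (C (D 1) * X 0)
    have h2 := l1_sub_le (X 2) (C (Y 1))
    rw [l1_CX] at h1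
    rw [l1_X, l1_C] at h2
    refine h1.trans ?_
    linarith [hY 1, hD 1]

theorem ln_l1 (hK : 1 ≤ K) (hY : ∀ i, |Y i| ≤ K) (hD : ∀ i, |D i| ≤ K) (i : Fin 3) :
    l1 (ln Y D i) ≤ 2 * K := by
  refine fin3 (P := fun i => l1 (ln Y D i) ≤ 2 * K) ?_ ?_ ?_ i
  · show l1 (X 0) ≤ 2 * K
    rw [l1_X]
    linarith
  · have h2 := l1_add_le (C (Y 0)) (C (D 0) * X 0)
    rw [l1_C, l1_CX] at h2
    refine h2.trans ?_
    linarith [hY 0, hD 0]
  · have h2 := l1_add_le (C (Y 1)) (C (D 1) * X 0)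
    rw [l1_C, l1_CX] at h2
    refine h2.trans ?_
    linarith [hY 1, hD 1]

end

/-- A mate at the time `s` of the line `(Y, D)`: it passes through the point up to `r`, its
direction lies up to `r` on the line of slope `e`, and it lies in the leaf of `F`. -/
structure Mt (K ε r s : ℝ) (Y D : Fin 3 → ℝ) (e : ℝ) (F : P3) (Y' D' : Fin 3 → ℝ) : Prop where
  yb : ∀ i, |Y' i| ≤ K
  vb : ∀ i, |D' i| ≤ K
  p0 : |(Y' 0 + s * D' 0) - (Y 0 + s * D 0)| ≤ r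
  p1 : |(Y' 1 + s * D' 1) - (Y 1 + s * D 1)| ≤ r
  sl : |(D' 1 - D 1) - e * (D' 0 - D 0)| ≤ r
  rel : l1 (aeval (ln Y' D') F - (C (Y' 2) + C (D' 2) * X 0)) ≤ ε

theorem nn_ln {ε y₂ d₂ : ℝ} {Y' D' : Fin 3 → ℝ} {F : P3}
    (h : l1 (aeval (ln Y' D') F - (C y₂ + C d₂ * X 0)) ≤ ε) :
    nn (aeval (ln Y' D') F) ≤ ε := by
  have e : aeval (ln Y' D') F = (aeval (ln Y' D') F - (C y₂ + C d₂ * X 0)) +
      (C y₂ + C d₂ * X 0) := by ring
  rw [e]
  refine (nn_add_le _ _).trans ?_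
  have h1 : nn (C y₂ + C d₂ * X 0 : P3) = 0 := nn_affine (td_add (td_C _) (td_CX _ _))
  have h2 := nn_le_l1 (aeval (ln Y' D') F - (C y₂ + C d₂ * X 0))
  linarith

section

variable {d : ℕ} {K ε r s e : ℝ} {Y D Y' D' : Fin 3 → ℝ} {F : P3}

theorem Mt.e0 (_h : Mt K ε r s Y D e F Y' D') : D 0 + (D' 0 - D 0) = D' 0 := by ring

theorem Mt.b0 (hK : 1 ≤ K) (h : Mt K ε r s Y D e F Y' D') : |D 0 + (D' 0 - D 0)| ≤ 2 * K := by
  rw [h.e0]
  linarith [h.vb 0]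

theorem Mt.b1 (hK : 1 ≤ K) (hr : r ≤ 1) (h : Mt K ε r s Y D e F Y' D') :
    |D 1 + e * (D' 0 - D 0)| ≤ 2 * K := by
  have e1 : D 1 + e * (D' 0 - D 0) = D' 1 - ((D' 1 - D 1) - e * (D' 0 - D 0)) := by ring
  rw [e1]
  have := abs_sub (D' 1) ((D' 1 - D 1) - e * (D' 0 - D 0))
  linarith [h.vb 1, h.sl]

theorem Mt.l1_sub (h : Mt K ε r s Y D e F Y' D') (i : Fin 3) :
    l1 (ma s Y D e (D' 0 - D 0) i - sh s Y' D' i) ≤ 2 * r := by
  have hr0 : 0 ≤ r := (abs_nonneg _).trans h.sl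
  refine fin3 (P := fun i => l1 (ma s Y D e (D' 0 - D 0) i - sh s Y' D' i) ≤ 2 * r) ?_ ?_ ?_ i
  · have e1 : ma s Y D e (D' 0 - D 0) 0 - sh s Y' D' 0 = 0 := by simp [ma, sh]
    rw [e1, l1_zero]
    linarith
  · have e1 : ma s Y D e (D' 0 - D 0) 1 - sh s Y' D' 1 =
        C ((Y 0 + s * D 0) - (Y' 0 + s * D' 0)) := by
      simp [ma, sh]
    rw [e1, l1_C, abs_sub_comm]
    linarith [h.p0]
  · have e1 : ma s Y D e (D' 0 - D 0) 2 - sh s Y' D' 2 =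
        C ((Y 1 + s * D 1) - (Y' 1 + s * D' 1)) +
          C (-((D' 1 - D 1) - e * (D' 0 - D 0))) * X 1 := by
      simp [ma, sh]
      ring
    rw [e1]
    refine (l1_add_le _ _).trans ?_
    rw [l1_C, l1_CX, abs_neg, abs_sub_comm]
    linarith [h.p1, h.sl]

/-- The shifted relation. -/
theorem Mt.rel_sh (hs : |s| ≤ 1) (hd : 1 ≤ d) (hF : F.totalDegree ≤ d)
    (h : Mt K ε r s Y D e F Y' D') :
    l1 (aeval (sh s Y' D') F - (C (Y' 2 + s * D' 2) + C (D' 2) * X 1)) ≤ 2 ^ d * ε := by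
  have e1 : aeval (fun _ => C s + X 1 : Fin 3 → P3)
      (aeval (ln Y' D') F - (C (Y' 2) + C (D' 2) * X 0)) =
      aeval (sh s Y' D') F - (C (Y' 2 + s * D' 2) + C (D' 2) * X 1) := by
    rw [map_sub, sh_ln]
    congr 1
    simp
    ring
  rw [← e1]
  refine (l1_aeval_le (K := 2) (by norm_num) (fun i => ?_) (d := d) ?_).trans ?_
  · refine (l1_add_le _ _).trans ?_
    rw [l1_C, l1_X]
    linarith
  · refine (totalDegree_sub _ _).trans (max_le (totalDegree_aeval (fun i => ln_td i) hF) ?_)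
    exact (td_add (td_C _) (td_CX _ _)).trans hd
  · exact mul_le_mul_of_nonneg_left h.rel (by positivity)

theorem Mt.nn_ma (hK : 1 ≤ K) (hs : |s| ≤ 1) (hr : r ≤ 1) (hY : ∀ i, |Y i| ≤ K)
    (hD : ∀ i, |D i| ≤ K) (hd : 1 ≤ d) (hF : F.totalDegree ≤ d)
    (h : Mt K ε r s Y D e F Y' D') :
    nn (aeval (ma s Y D e (D' 0 - D 0)) F) ≤ 2 ^ d * ε + d * (4 * K) ^ d * (2 * r) * nn F := by
  have hr0 : 0 ≤ r := (abs_nonneg _).trans h.sl
  have h1 : nn (aeval (sh s Y' D') F) ≤ 2 ^ d * ε := by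
    have h2 := h.rel_sh hs hd hF
    have e1 : aeval (sh s Y' D') F =
        (aeval (sh s Y' D') F - (C (Y' 2 + s * D' 2) + C (D' 2) * X 1)) +
        (C (Y' 2 + s * D' 2) + C (D' 2) * X 1) := by ring
    rw [e1]
    refine (nn_add_le _ _).trans ?_
    have h3 : nn (C (Y' 2 + s * D' 2) + C (D' 2) * X 1 : P3) = 0 :=
      nn_affine (td_add (td_C _) (td_CX _ _))
    have h4 := nn_le_l1 (aeval (sh s Y' D') F - (C (Y' 2 + s * D' 2) + C (D' 2) * X 1))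
    linarith
  have h2 := nn_aeval_sub (K := 4 * K) (r := 2 * r) (by linarith) (by linarith)
    (fun i => ma_td (s := s) (Y := Y) (D := D) (e := e) (a := D' 0 - D 0) i)
    (fun i => sh_td (s := s) (Y := Y') (D := D') i)
    (ma_l1 hK hs hY hD (h.b0 hK) (h.b1 hK hr)) (sh_l1 hK hs h.yb h.vb) h.l1_sub hF
  have e1 : aeval (ma s Y D e (D' 0 - D 0)) F = aeval (sh s Y' D') F +
      (aeval (ma s Y D e (D' 0 - D 0)) F - aeval (sh s Y' D') F) := by ring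
  rw [e1]
  refine (nn_add_le _ _).trans ?_
  linarith

/-- The velocity of a mate in the normal direction. -/
theorem Mt.vel (hK : 1 ≤ K) (hs : |s| ≤ 1) (hr : r ≤ 1) (hY : ∀ i, |Y i| ≤ K)
    (hD : ∀ i, |D i| ≤ K) (hd : 1 ≤ d) (hF : F.totalDegree ≤ d)
    (h : Mt K ε r s Y D e F Y' D') :
    |D' 2 - (coeff (Finsupp.single 1 1) (aeval (ap s Y D e) F) +
      (D' 0 - D 0) * coeff (Finsupp.single 2 1) (aeval (ap s Y D e) F))| ≤
      2 ^ d * ε + d * (4 * K) ^ d * (2 * r) * l1 F := by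
  classical
  have hr0 : 0 ≤ r := (abs_nonneg _).trans h.sl
  rw [← coeff_one_sb, sb_ap]
  have h1 := (coeff_le_l1 _ (Finsupp.single 1 1)).trans (h.rel_sh hs hd hF)
  have e1 : coeff (Finsupp.single 1 1)
      (aeval (sh s Y' D') F - (C (Y' 2 + s * D' 2) + C (D' 2) * X 1)) =
      coeff (Finsupp.single 1 1) (aeval (sh s Y' D') F) - D' 2 := by
    rw [coeff_sub, coeff_add, coeff_C, if_neg (single_ne_zero' 1).symm, coeff_C_mul, coeff_X,
      if_pos rfl]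
    ring
  rw [e1] at h1
  have h2 := l1_aeval_sub (K := 4 * K) (r := 2 * r) (by linarith) (by linarith)
    (ma_l1 hK hs hY hD (h.b0 hK) (h.b1 hK hr)) (sh_l1 hK hs h.yb h.vb) h.l1_sub hF
  have h3 := (coeff_le_l1 _ (Finsupp.single 1 1)).trans h2
  rw [coeff_sub] at h3
  rw [abs_le] at *
  constructor <;> linarith [h1.1, h1.2, h3.1, h3.2]

end

/-! ### Many mates -/

/-- The constant. -/
noncomputable def cA (d : ℕ) (K : ℝ) : ℝ := (d + 1) ^ 4 * (64 * K ^ 2) ^ d * 2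

section

variable {d : ℕ} {K ε r s e ρ : ℝ} {Y D : Fin 3 → ℝ} {F : P3} {Y' D' : ℕ → Fin 3 → ℝ}

/-- **The plane of the fan**: `d + 1` separated mates force the polynomial to be affine on the
plane. -/
theorem apex (hK : 1 ≤ K) (hs : |s| ≤ 1) (hε : 0 ≤ ε) (hr : r ≤ 1) (hρ : 0 < ρ) (hρ1 : ρ ≤ 1)
    (hY : ∀ i, |Y i| ≤ K) (hD : ∀ i, |D i| ≤ K) (hd : 1 ≤ d) (hF : F.totalDegree ≤ d)
    (h : ∀ j ≤ d, Mt K ε r s Y D e F (Y' j) (D' j))
    (hsep : ∀ j ≤ d, ∀ k ≤ d, j ≠ k → ρ ≤ |D' j 0 - D' k 0|) :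
    nn (aeval (ap s Y D e) F) ≤ (d + 1) ^ 3 * ((16 * K / ρ) ^ d *
      (2 ^ d * ε + d * (4 * K) ^ d * (2 * r) * nn F)) := by
  have hr0 : 0 ≤ r := (abs_nonneg _).trans (h 0 (Nat.zero_le _)).sl
  have hn := nn_nonneg F
  have e1 : 16 * K / ρ = 8 * (2 * K) / ρ := by ring
  rw [e1]
  refine nn_vander (K := 2 * K) (e := fun j => D' j 0 - D 0) (by linarith) hρ hρ1
    (by positivity) (totalDegree_aeval (fun i => ap_td i) hF) (fun j hj => ?_)
    (fun j hj k hk hjk => ?_) (fun j hj => ?_)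
  · have := abs_sub (D' j 0) (D 0)
    linarith [(h j hj).vb 0, hD 0]
  · have e2 : D' j 0 - D 0 - (D' k 0 - D 0) = D' j 0 - D' k 0 := by ring
    rw [e2]
    exact hsep j hj k hk hjk
  · rw [sb_ap]
    exact (h j hj).nn_ma hK hs hr hY hD hd hF

theorem nn_apex_le (hK : 1 ≤ K) (hε : 0 ≤ ε) (hr0 : 0 ≤ r) (hρ : 0 < ρ)
    {M : ℝ} (hM : 0 ≤ M) :
    ((d : ℝ) + 1) ^ 3 * ((16 * K / ρ) ^ d * (2 ^ d * ε + d * (4 * K) ^ d * (2 * r) * M)) ≤
      cA d K / ρ ^ d * (ε + r * M) := by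
  have h1 : (2 : ℝ) ^ d * ε + d * (4 * K) ^ d * (2 * r) * M ≤
      (d + 1) * (4 * K) ^ d * 2 * (ε + r * M) := by
    have a1 : (2 : ℝ) ^ d ≤ (4 * K) ^ d := pow_le_pow_left₀ (by norm_num) (by linarith) _
    have a2 : (4 * K) ^ d * ε ≤ (d + 1) * (4 * K) ^ d * 2 * ε := by
      have h0 : 0 ≤ (4 * K) ^ d * ε := by positivity
      have h00 : (0 : ℝ) ≤ d := Nat.cast_nonneg d
      nlinarith
    have a3 : (2 : ℝ) ^ d * ε ≤ (4 * K) ^ d * ε := mul_le_mul_of_nonneg_right a1 hε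
    have a4 : d * (4 * K) ^ d * (2 * r) * M ≤ (d + 1) * (4 * K) ^ d * 2 * (r * M) := by
      have h0 : 0 ≤ (4 * K) ^ d * 2 * (r * M) := by positivity
      nlinarith
    linarith
  have h2 : ((d : ℝ) + 1) ^ 3 * ((16 * K / ρ) ^ d * ((d + 1) * (4 * K) ^ d * 2 * (ε + r * M))) =
      cA d K / ρ ^ d * (ε + r * M) := by
    unfold cA
    rw [div_pow]
    have e3 : (64 * K ^ 2) ^ d = (16 * K) ^ d * (4 * K) ^ d := by
      rw [← mul_pow]
      congr 1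
      ring
    rw [e3]
    field_simp
  rw [← h2]
  refine mul_le_mul_of_nonneg_left (mul_le_mul_of_nonneg_left h1 (by positivity)) (by positivity)

theorem plane (hK : 1 ≤ K) (hs : |s| ≤ 1) (hε : 0 ≤ ε) (hr : r ≤ 1) (hρ : 0 < ρ) (hρ1 : ρ ≤ 1)
    (hY : ∀ i, |Y i| ≤ K) (hD : ∀ i, |D i| ≤ K) (hd : 1 ≤ d) (hF : F.totalDegree ≤ d)
    (h : ∀ j ≤ d, Mt K ε r s Y D e F (Y' j) (D' j))
    (hsep : ∀ j ≤ d, ∀ k ≤ d, j ≠ k → ρ ≤ |D' j 0 - D' k 0|) :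
    nn (aeval (pl Y D e) F) ≤ 2 ^ d * (cA d K / ρ ^ d * (ε + r * nn F)) := by
  have hr0 : 0 ≤ r := (abs_nonneg _).trans (h 0 (Nat.zero_le _)).sl
  have h1 := (apex hK hs hε hr hρ hρ1 hY hD hd hF h hsep).trans
    (nn_apex_le (d := d) hK hε hr0 hρ (nn_nonneg F))
  rw [← pl_ap s]
  refine (nn_aeval_le (K := 2) (by norm_num) (fun i => ?_) (fun i => ?_)
    (totalDegree_aeval (fun i => ap_td i) hF)).trans ?_
  · refine fin3 (P := fun i => ((![0, X 0 - C s, X 1] : Fin 3 → P3) i).totalDegree ≤ 1)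
      ?_ ?_ ?_ i
    · exact td_zero
    · exact td_sub (td_X _) (td_C _)
    · exact td_X _
  · refine fin3 (P := fun i => l1 ((![0, X 0 - C s, X 1] : Fin 3 → P3) i) ≤ 2) ?_ ?_ ?_ i
    · show l1 0 ≤ 2
      rw [l1_zero]
      norm_num
    · show l1 (X 0 - C s) ≤ 2
      refine (l1_sub_le _ _).trans ?_
      rw [l1_X, l1_C]
      linarith
    · show l1 (X 1) ≤ 2
      rw [l1_X]
      norm_num
  · exact mul_le_mul_of_nonneg_left h1 (by positivity)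

/-- The slope of the plane in the normal direction, at the base time. -/
noncomputable def gE (Y D : Fin 3 → ℝ) (e : ℝ) (F : P3) : ℝ :=
  coeff (Finsupp.single 1 1) (aeval (pl Y D e) F)

theorem gE_sub_le (hs : |s| ≤ 1) (hd : 1 ≤ d) (hF : F.totalDegree ≤ d) :
    |gE Y D e F - coeff (Finsupp.single 2 1) (aeval (ap s Y D e) F)| ≤
      2 ^ d * nn (aeval (ap s Y D e) F) := by
  classical
  obtain ⟨Φ, hΦ⟩ : ∃ Φ, Φ = aeval (ap s Y D e) F := ⟨_, rfl⟩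
  have hΦd : Φ.totalDegree ≤ d := by
    rw [hΦ]
    exact totalDegree_aeval (fun i => ap_td i) hF
  unfold gE
  rw [← pl_ap s, ← hΦ]
  have e1 : aeval (![0, X 0 - C s, X 1] : Fin 3 → P3) Φ =
      aeval (![0, X 0 - C s, X 1] : Fin 3 → P3) (lin Φ) +
      aeval (![0, X 0 - C s, X 1] : Fin 3 → P3) (Φ - lin Φ) := by
    rw [← map_add]
    congr 1
    ring
  have e2 : coeff (Finsupp.single 1 1) (aeval (![0, X 0 - C s, X 1] : Fin 3 → P3) (lin Φ)) =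
      Φ.coeff (Finsupp.single 2 1) := by
    have e3 : aeval (![0, X 0 - C s, X 1] : Fin 3 → P3) (lin Φ) =
        C (Φ.coeff 0 - Φ.coeff (Finsupp.single 1 1) * s) +
        C (Φ.coeff (Finsupp.single 1 1)) * X 0 + C (Φ.coeff (Finsupp.single 2 1)) * X 1 := by
      unfold lin
      simp
      ring
    rw [e3, coeff_add, coeff_add, coeff_C, if_neg (single_ne_zero' 1).symm, coeff_C_mul, coeff_X,
      coeff_C_mul, coeff_X, if_neg (single_ne (by decide)), if_pos rfl]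
    ring
  rw [e1, coeff_add, e2, add_sub_cancel_left]
  refine (coeff_le_l1 _ _).trans ?_
  refine (l1_aeval_le (K := 2) (by norm_num) (fun i => ?_) (totalDegree_hi hΦd hd)).trans ?_
  · refine fin3 (P := fun i => l1 ((![0, X 0 - C s, X 1] : Fin 3 → P3) i) ≤ 2) ?_ ?_ ?_ i
    · show l1 0 ≤ 2
      rw [l1_zero]
      norm_num
    · show l1 (X 0 - C s) ≤ 2
      refine (l1_sub_le _ _).trans ?_
      rw [l1_X, l1_C]
      linarith
    · show l1 (X 1) ≤ 2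
      rw [l1_X]
      norm_num
  · exact mul_le_mul_of_nonneg_left (l1_hi_le Φ) (by positivity)

/-- **The normal slope of a fan** is determined by the line, the polynomial and the slope. -/
theorem slope (hK : 1 ≤ K) (hs : |s| ≤ 1) (hε : 0 ≤ ε) (hr : r ≤ 1) (hρ : 0 < ρ) (hρ1 : ρ ≤ 1)
    (hY : ∀ i, |Y i| ≤ K) (hD : ∀ i, |D i| ≤ K) (hd : 1 ≤ d) (hF : F.totalDegree ≤ d)
    (h : ∀ j ≤ d, Mt K ε r s Y D e F (Y' j) (D' j))
    (hsep : ∀ j ≤ d, ∀ k ≤ d, j ≠ k → ρ ≤ |D' j 0 - D' k 0|) {E n : ℝ}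
    (hE : ∀ j ≤ d, |D' j 2 - E * D' j 0 - n| ≤ r) :
    |E - gE Y D e F| ≤ (2 * r + 2 * (2 ^ d * ε + d * (4 * K) ^ d * (2 * r) * l1 F)) / ρ +
      2 ^ d * (cA d K / ρ ^ d * (ε + r * nn F)) := by
  have hr0 : 0 ≤ r := (abs_nonneg _).trans (h 0 (Nat.zero_le _)).sl
  have h1 := (apex hK hs hε hr hρ hρ1 hY hD hd hF h hsep).trans
    (nn_apex_le (d := d) hK hε hr0 hρ (nn_nonneg F))
  have h2 := gE_sub_le (Y := Y) (D := D) (e := e) hs hd hF
  obtain ⟨c1, hc1⟩ : ∃ c, c = coeff (Finsupp.single 1 1) (aeval (ap s Y D e) F) := ⟨_, rfl⟩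
  obtain ⟨c2, hc2⟩ : ∃ c, c = coeff (Finsupp.single 2 1) (aeval (ap s Y D e) F) := ⟨_, rfl⟩
  obtain ⟨B, hB⟩ : ∃ B, B = 2 ^ d * ε + d * (4 * K) ^ d * (2 * r) * l1 F := ⟨_, rfl⟩
  have v0 := (h 0 (Nat.zero_le _)).vel hK hs hr hY hD hd hF
  have v1 := (h 1 hd).vel hK hs hr hY hD hd hF
  rw [← hc1, ← hc2, ← hB] at v0 v1
  rw [← hc2] at h2
  have s01 := hsep 0 (Nat.zero_le _) 1 hd (by norm_num)
  have f0 := hE 0 (Nat.zero_le _)
  have f1 := hE 1 hd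
  have k1 : |(E - c2) * (D' 0 0 - D' 1 0)| ≤ 2 * r + 2 * B := by
    rw [abs_le] at *
    constructor <;> linarith [v0.1, v0.2, v1.1, v1.2, f0.1, f0.2, f1.1, f1.2]
  have k2 : |E - c2| ≤ (2 * r + 2 * B) / ρ := by
    rw [le_div_iff₀ hρ]
    rw [abs_mul] at k1
    have := mul_le_mul_of_nonneg_left s01 (abs_nonneg (E - c2))
    linarith
  have k3 : |gE Y D e F - c2| ≤ 2 ^ d * (cA d K / ρ ^ d * (ε + r * nn F)) :=
    h2.trans (mul_le_mul_of_nonneg_left h1 (by positivity))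
  have e1 : E - gE Y D e F = (E - c2) - (gE Y D e F - c2) := by ring
  rw [e1, ← hB]
  exact (abs_sub _ _).trans (add_le_add k2 k3)

/-- The normal slope depends in a Lipschitz way on the slope. -/
theorem gE_lip (hK : 1 ≤ K) (hY : ∀ i, |Y i| ≤ K) (hD : ∀ i, |D i| ≤ K)
    (hF : F.totalDegree ≤ d) (e ζ : ℝ) :
    |gE Y D e F - gE Y D ζ F| ≤ |e - ζ| * ((4 * K) ^ d * l1 F) := by
  unfold gE
  rw [← sb_rl, ← sb_rl, coeff_one_sb, coeff_one_sb]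
  obtain ⟨Ψ, hΨ⟩ : ∃ Ψ, Ψ = aeval (rl Y D) F := ⟨_, rfl⟩
  rw [← hΨ]
  have e1 : Ψ.coeff (Finsupp.single 1 1) + e * Ψ.coeff (Finsupp.single 2 1) -
      (Ψ.coeff (Finsupp.single 1 1) + ζ * Ψ.coeff (Finsupp.single 2 1)) =
      (e - ζ) * Ψ.coeff (Finsupp.single 2 1) := by ring
  rw [e1, abs_mul]
  refine mul_le_mul_of_nonneg_left ?_ (abs_nonneg _)
  refine (coeff_le_l1 _ _).trans ?_
  rw [hΨ]
  exact l1_aeval_le (by linarith) (fun i => rl_l1 hK hY hD i) hF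

end

section

variable {d : ℕ} {K Ke τ E : ℝ} {Y D : Fin 3 → ℝ} {F : P3} {e : ℕ → ℝ}

/-- **Many planes through one line.** -/
theorem planes (hK : 1 ≤ K) (hKe : 1 ≤ Ke) (hτ : 0 < τ) (hτ1 : τ ≤ 1) (hE : 0 ≤ E)
    (hY : ∀ i, |Y i| ≤ K) (hD : ∀ i, |D i| ≤ K) (hF : F.totalDegree ≤ d)
    (he : ∀ i ≤ d, |e i| ≤ Ke) (hsep : ∀ i ≤ d, ∀ j ≤ d, i ≠ j → τ ≤ |e i - e j|)
    (h : ∀ i ≤ d, nn (aeval (pl Y D (e i)) F) ≤ E) :
    nn F ≤ (4 * K) ^ d * ((d + 1) ^ 3 * ((8 * Ke / τ) ^ d * E)) := by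
  have h1 : nn (aeval (rl Y D) F) ≤ (d + 1) ^ 3 * ((8 * Ke / τ) ^ d * E) := by
    refine nn_vander hKe hτ hτ1 hE (totalDegree_aeval (fun i => rl_td i) hF) he hsep
      (fun i hi => ?_)
    rw [sb_rl]
    exact h i hi
  conv_lhs => rw [← ri_rl Y D F]
  refine (nn_aeval_le (K := 4 * K) (by linarith) (fun i => ri_td i)
    (fun i => ri_l1 hK hY hD i) (totalDegree_aeval (fun i => rl_td i) hF)).trans ?_
  exact mul_le_mul_of_nonneg_left h1 (by positivity)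

/-- The constant of the main estimate. -/
noncomputable def cB (d : ℕ) (K : ℝ) : ℝ := (d + 1) ^ 7 * (12288 * K ^ 4) ^ d * 2

/-- **Main estimate.** The slopes are at most `3 K / ρ`. -/
theorem main_est {ε r ρ : ℝ} (hK : 1 ≤ K) (hτ : 0 < τ) (hτ1 : τ ≤ 1) (hε : 0 ≤ ε) (hr0 : 0 ≤ r)
    (hρ : 0 < ρ) (hρ1 : ρ ≤ 1)
    (hY : ∀ i, |Y i| ≤ K) (hD : ∀ i, |D i| ≤ K) (hF : F.totalDegree ≤ d)
    (he : ∀ i ≤ d, |e i| ≤ 3 * K / ρ) (hsep : ∀ i ≤ d, ∀ j ≤ d, i ≠ j → τ ≤ |e i - e j|)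
    (h : ∀ i ≤ d, nn (aeval (pl Y D (e i)) F) ≤ 2 ^ d * (cA d K / ρ ^ d * (ε + r * nn F))) :
    nn F ≤ cB d K / (ρ ^ 2 * τ) ^ d * (ε + r * nn F) := by
  have hn := nn_nonneg F
  have hcA : 0 ≤ cA d K := by unfold cA; positivity
  have hKe : 1 ≤ 3 * K / ρ := by
    rw [le_div_iff₀ hρ]
    linarith
  have h1 := planes (E := 2 ^ d * (cA d K / ρ ^ d * (ε + r * nn F))) hK hKe hτ hτ1 (by positivity)
    hY hD hF he hsep h
  refine h1.trans (le_of_eq ?_)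
  unfold cA cB
  rw [div_pow, mul_pow (ρ ^ 2) τ, ← pow_mul, mul_comm 2 d, pow_mul ρ d 2]
  have e3 : (12288 * K ^ 4) ^ d = (4 * K) ^ d * (24 * K) ^ d * (2 ^ d * (64 * K ^ 2) ^ d) := by
    rw [← mul_pow, ← mul_pow, ← mul_pow]
    congr 1
    ring
  have e4 : (8 * (3 * K / ρ)) ^ d = (24 * K) ^ d / ρ ^ d := by
    rw [← div_pow]
    congr 1
    ring
  rw [e3, e4]
  field_simp

/-- The absorbed form of the main estimate. -/
theorem main_absorb {ε r ρ : ℝ} (hr : cB d K / (ρ ^ 2 * τ) ^ d * r ≤ 1 / 2)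
    (h : nn F ≤ cB d K / (ρ ^ 2 * τ) ^ d * (ε + r * nn F)) :
    nn F ≤ 2 * (cB d K / (ρ ^ 2 * τ) ^ d) * ε := by
  have hn := nn_nonneg F
  have h1 := mul_le_mul_of_nonneg_right hr hn
  nlinarith

end

end Pool.S6P
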