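import Pool.Agent.H26.DIC.PolS

/-!
# Coefficients from values

Polynomials which are small on a cube, or at separated times of a line, have small coefficients.
-/

set_option autoImplicit false

namespace Pool.S6P

open MvPolynomial Finset

/-- Coefficients from the restrictions to separated planes. -/
theorem coeff_vander {d : ℕ} {K τ ε : ℝ} (hK : 1 ≤ K) (hτ : 0 < τ) (hτ1 : τ ≤ 1) (hε0 : 0 ≤ ε)
    {Φ : P3} (hΦ : Φ.totalDegree ≤ d) {e : ℕ → ℝ} (he : ∀ i ≤ d, |e i| ≤ K)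
    (hsep : ∀ i ≤ d, ∀ j ≤ d, i ≠ j → τ ≤ |e i - e j|) (μ₀ : Fin 3 →₀ ℕ)
    (h : ∀ i ≤ d, |coeff (hx μ₀) (aeval (sb (e i)) Φ)| ≤ ε) :
    |Φ.coeff μ₀| ≤ (8 * K / τ) ^ d * ε := by
  classical
  by_cases hμ₀ : μ₀ ∈ Φ.support
  swap
  · rw [notMem_support_iff.1 hμ₀, abs_zero]
    positivity
  obtain ⟨S, hS⟩ : ∃ S, S = Φ.support.filter fun μ => hx μ = hx μ₀ := ⟨_, rfl⟩
  have hμS : μ₀ ∈ S := by
    rw [hS, mem_filter]
    exact ⟨hμ₀, rfl⟩
  obtain ⟨P, hP⟩ : ∃ P : Polynomial ℝ, P = ∑ μ ∈ S, Polynomial.monomial (μ 2) (Φ.coeff μ) :=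
    ⟨_, rfl⟩
  have hdeg : P.natDegree ≤ d := by
    rw [hP]
    refine Polynomial.natDegree_sum_le_of_forall_le _ _ fun μ hμ => ?_
    refine (Polynomial.natDegree_monomial_le _).trans ?_
    rw [hS, mem_filter] at hμ
    have := dg_le hΦ (mem_support_iff.1 hμ.1)
    unfold dg at this
    omega
  have heval : ∀ x : ℝ, P.eval x = coeff (hx μ₀) (aeval (sb x) Φ) := by
    intro x
    rw [coeff_sb, hP, Polynomial.eval_finsetSum, hS, Finset.sum_filter]
    refine Finset.sum_congr rfl fun μ _ => ?_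
    rw [Polynomial.eval_monomial]
  have hcoef : P.coeff (μ₀ 2) = Φ.coeff μ₀ := by
    rw [hP, Polynomial.finsetSum_coeff, Finset.sum_eq_single μ₀]
    · rw [Polynomial.coeff_monomial, if_pos rfl]
    · intro μ hμ hne
      rw [Polynomial.coeff_monomial, if_neg]
      intro h22
      refine hne ?_
      rw [hS, mem_filter] at hμ
      have e0 : μ 0 = μ₀ 0 := by
        have := DFunLike.congr_fun hμ.2 0
        rwa [hx_0, hx_0] at this
      have e1 : μ 1 + μ 2 = μ₀ 1 + μ₀ 2 := by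
        have := DFunLike.congr_fun hμ.2 1
        rwa [hx_1, hx_1] at this
      ext i
      exact fin3 (P := fun i => μ i = μ₀ i) e0 (by omega) h22 i
    · intro hn
      exact absurd hμS hn
  rw [← hcoef]
  refine vander hK hτ hτ1 d P hdeg e he hsep ε hε0 (fun i hi => ?_) (μ₀ 2)
  rw [heval]
  exact h i hi

theorem l1_vander {d : ℕ} {K τ ε : ℝ} (hK : 1 ≤ K) (hτ : 0 < τ) (hτ1 : τ ≤ 1) (hε0 : 0 ≤ ε)
    {Φ : P3} (hΦ : Φ.totalDegree ≤ d) {e : ℕ → ℝ} (he : ∀ i ≤ d, |e i| ≤ K)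
    (hsep : ∀ i ≤ d, ∀ j ≤ d, i ≠ j → τ ≤ |e i - e j|)
    (h : ∀ i ≤ d, l1 (aeval (sb (e i)) Φ) ≤ ε) :
    l1 Φ ≤ (d + 1) ^ 3 * ((8 * K / τ) ^ d * ε) := by
  have hB0 : 0 ≤ (8 * K / τ) ^ d * ε := by positivity
  unfold l1 ws
  refine (Finset.sum_le_sum (g := fun _ => (8 * K / τ) ^ d * ε) fun μ _ => ?_).trans ?_
  · rw [one_mul]
    exact coeff_vander hK hτ hτ1 hε0 hΦ he hsep μ fun i hi => (coeff_le_l1 _ _).trans (h i hi)
  · rw [Finset.sum_const, nsmul_eq_mul]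
    exact mul_le_mul_of_nonneg_right (card_support_le hΦ) hB0

/-! ### One variable -/

/-- A polynomial in one variable, in the variable `i`. -/
theorem l1_uni {d : ℕ} {P : Polynomial ℝ} (hP : P.natDegree ≤ d) {B : ℝ}
    (h : ∀ m, |P.coeff m| ≤ B) (i : Fin 3) :
    l1 (Polynomial.aeval (X i : P3) P) ≤ (d + 1) * B := by
  have e : Polynomial.aeval (X i : P3) P = ∑ k ∈ range (d + 1), C (P.coeff k) * X i ^ k := by
    rw [Polynomial.aeval_eq_sum_range' (n := d + 1) (by omega)]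
    refine Finset.sum_congr rfl fun k _ => ?_
    rw [C_mul']
  rw [e]
  refine (ws_sum_le (fun _ => zero_le_one) _ _).trans ?_
  have h1 : ∀ k ∈ range (d + 1), ws (fun _ => 1) (C (P.coeff k) * X i ^ k : P3) ≤ B := by
    intro k _
    rw [ws_C_mul]
    have h2 : ws (fun _ => 1) (X i ^ k : P3) ≤ 1 := by
      have := l1_pow_le (X i : P3) k
      rw [l1_X, one_pow] at this
      exact this
    calc _ ≤ B * 1 := mul_le_mul (h k) h2 (ws_nonneg (fun _ => zero_le_one) _)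
          ((abs_nonneg _).trans (h k))
      _ = B := mul_one B
  refine (Finset.sum_le_sum h1).trans ?_
  rw [Finset.sum_const, card_range, nsmul_eq_mul]
  push_cast
  exact le_rfl

/-- Degree after an affine substitution by polynomials in one variable. -/
theorem natDegree_subst {f : Fin 3 → Polynomial ℝ} (hf : ∀ i, (f i).natDegree ≤ 1) {F : P3}
    {d : ℕ} (hF : F.totalDegree ≤ d) : (aeval f F).natDegree ≤ d := by
  have e : aeval f F = ∑ μ ∈ F.support, Polynomial.C (F.coeff μ) *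
      (f 0 ^ μ 0 * f 1 ^ μ 1 * f 2 ^ μ 2) := by
    conv_lhs => rw [F.as_sum, map_sum]
    refine Finset.sum_congr rfl fun μ _ => ?_
    rw [aeval_monomial, Finsupp.prod_fintype _ _ (fun _ => pow_zero _), Fin.prod_univ_three]
    rfl
  rw [e]
  refine Polynomial.natDegree_sum_le_of_forall_le _ _ fun μ hμ => ?_
  refine Polynomial.natDegree_mul_le.trans ?_
  rw [Polynomial.natDegree_C, zero_add]
  have h : ∀ i, (f i ^ μ i).natDegree ≤ μ i := fun i => by
    refine Polynomial.natDegree_pow_le.trans ?_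
    calc μ i * (f i).natDegree ≤ μ i * 1 := Nat.mul_le_mul_left _ (hf i)
      _ = μ i := mul_one _
  refine Polynomial.natDegree_mul_le.trans ?_
  have h2 := Polynomial.natDegree_mul_le (p := f 0 ^ μ 0) (q := f 1 ^ μ 1)
  have h3 := dg_le hF (mem_support_iff.1 hμ)
  unfold dg at h3
  have := h 0
  have := h 1
  have := h 2
  omega

theorem au (i : Fin 3) (a b : ℝ) : Polynomial.aeval (X i : P3)
    (Polynomial.C a + Polynomial.C b * Polynomial.X) = C a + C b * X i := by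
  rw [map_add, map_mul, Polynomial.aeval_C, Polynomial.aeval_C, Polynomial.aeval_X, algebraMap_eq]

theorem av (t a b : ℝ) : Polynomial.aeval t
    (Polynomial.C a + Polynomial.C b * Polynomial.X) = a + b * t := by
  rw [map_add, map_mul, Polynomial.aeval_C, Polynomial.aeval_C, Polynomial.aeval_X]
  rfl

/-- **Values along a line.** -/
theorem l1_line {d : ℕ} {ρ ε : ℝ} (hρ : 0 < ρ) (hρ1 : ρ ≤ 1) (hε : 0 ≤ ε) {F : P3}
    (hF : F.totalDegree ≤ d) (p v : Fin 3 → ℝ) (i : Fin 3) (x : ℕ → ℝ) (hxb : ∀ k ≤ d, |x k| ≤ 1)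
    (hsep : ∀ k ≤ d, ∀ l ≤ d, k ≠ l → ρ ≤ |x k - x l|)
    (h : ∀ k ≤ d, |eval (fun j => p j + v j * x k) F| ≤ ε) :
    l1 (aeval (fun j => C (p j) + C (v j) * X i : Fin 3 → P3) F) ≤
      (d + 1) * ((8 / ρ) ^ d * ε) := by
  obtain ⟨f, hf⟩ : ∃ f : Fin 3 → Polynomial ℝ, f = fun j =>
    Polynomial.C (p j) + Polynomial.C (v j) * Polynomial.X := ⟨_, rfl⟩
  obtain ⟨P, hP⟩ : ∃ P, P = aeval f F := ⟨_, rfl⟩
  have hfd : ∀ j, (f j).natDegree ≤ 1 := by
    intro j
    rw [hf]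
    refine (Polynomial.natDegree_add_le _ _).trans (max_le ?_ ?_)
    · rw [Polynomial.natDegree_C]; exact zero_le_one
    · exact (Polynomial.natDegree_C_mul_le _ _).trans Polynomial.natDegree_X_le
  have hPd : P.natDegree ≤ d := by
    rw [hP]
    exact natDegree_subst hfd hF
  have e1 : aeval (fun j => C (p j) + C (v j) * X i : Fin 3 → P3) F =
      Polynomial.aeval (X i : P3) P := by
    rw [hP]
    have h1 := comp_aeval_apply (R := ℝ) f ((Polynomial.aeval (X i : P3) : Polynomial ℝ →ₐ[ℝ] P3)) F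
    rw [h1]
    congr 2
    funext j
    rw [hf]
    exact (au i _ _).symm
  have e2 : ∀ t : ℝ, P.eval t = eval (fun j => p j + v j * t) F := by
    intro t
    have h1 := comp_aeval_apply (R := ℝ) f ((Polynomial.aeval t : Polynomial ℝ →ₐ[ℝ] ℝ)) F
    rw [hP]
    rw [← Polynomial.coe_aeval_eq_eval, h1]
    have h2 : (fun j => (Polynomial.aeval t) (f j)) = fun j => p j + v j * t := by
      funext j
      rw [hf]
      exact av _ _ _
    rw [h2, aeval_eq_eval]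
  rw [e1]
  refine l1_uni hPd (fun m => ?_) i
  have h3 := vander (K := 1) le_rfl hρ hρ1 d P hPd x hxb hsep ε hε (fun k hk => by
    rw [e2]
    exact h k hk) m
  rw [mul_one] at h3
  exact h3

/-! ### Values on a cube -/

/-- Equidistant nodes. -/
theorem nodes {d : ℕ} (hd : 1 ≤ d) : (∀ k ≤ d, |(k : ℝ) / d| ≤ 1) ∧
    ∀ k ≤ d, ∀ l ≤ d, k ≠ l → (1 : ℝ) / d ≤ |(k : ℝ) / d - (l : ℝ) / d| := by
  have hd0 : (0 : ℝ) < d := by exact_mod_cast hd
  refine ⟨fun k hk => ?_, fun k _ l _ hkl => ?_⟩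
  · rw [abs_of_nonneg (by positivity), div_le_one hd0]
    exact_mod_cast hk
  · rw [← sub_div, abs_div, abs_of_pos hd0]
    refine div_le_div_of_nonneg_right ?_ hd0.le
    have h1 : (1 : ℤ) ≤ |(k : ℤ) - l| := Int.one_le_abs (by omega)
    have h2 : ((1 : ℤ) : ℝ) ≤ ((|(k : ℤ) - l| : ℤ) : ℝ) := by exact_mod_cast h1
    push_cast at h2
    exact h2

/-- The constant of the cube. -/
noncomputable def cQ (d : ℕ) : ℝ := (d + 1) ^ 7 * (8 * d) ^ (3 * d)

/-- **A polynomial which is small on the unit cube has small coefficients.** -/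
theorem l1_cube {d : ℕ} (hd : 1 ≤ d) {ε : ℝ} (hε : 0 ≤ ε) {Φ : P3} (hΦ : Φ.totalDegree ≤ d)
    (h : ∀ b : Fin 3 → ℝ, (∀ j, |b j| ≤ 1) → |eval b Φ| ≤ ε) : l1 Φ ≤ cQ d * ε := by
  have hd0 : (0 : ℝ) < d := by exact_mod_cast hd
  have hd1 : (1 : ℝ) / d ≤ 1 := by
    rw [div_le_one hd0]
    exact_mod_cast hd
  have hρ : (0 : ℝ) < 1 / d := by positivity
  obtain ⟨n1, n2⟩ := nodes hd
  have e8 : 8 * 1 / (1 / (d : ℝ)) = 8 * d := by field_simp
  -- one variable
  have s1 : ∀ a b : ℝ, |a| ≤ 1 → |b| ≤ 1 →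
      l1 (aeval (fun j => C (0 : ℝ) + C ((![1, a, a * b] : Fin 3 → ℝ) j) * X 1 : Fin 3 → P3) Φ) ≤
      (d + 1) * ((8 * d) ^ d * ε) := by
    intro a b ha hb
    have h1 := l1_line hρ hd1 hε hΦ (fun _ => 0) ![1, a, a * b] 1 (fun k => (k : ℝ) / d) n1 n2
      (fun k hk => h _ fun j => ?_)
    · have e9 : 8 / (1 / (d : ℝ)) = 8 * d := by field_simp
      rw [e9] at h1
      exact h1
    · have hk1 := n1 k hk
      rw [zero_add, abs_mul]
      have hv : |(![1, a, a * b] : Fin 3 → ℝ) j| ≤ 1 := by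
        refine fin3 (P := fun j => |(![1, a, a * b] : Fin 3 → ℝ) j| ≤ 1) ?_ ?_ ?_ j
        · simp
        · simpa using ha
        · show |a * b| ≤ 1
          rw [abs_mul]
          calc _ ≤ 1 * (1 : ℝ) := mul_le_mul ha hb (abs_nonneg _) zero_le_one
            _ = 1 := mul_one 1
      calc _ ≤ 1 * (1 : ℝ) := mul_le_mul hv hk1 (abs_nonneg _) zero_le_one
        _ = 1 := mul_one 1
  -- two variables
  have s2 : ∀ b : ℝ, |b| ≤ 1 → l1 (aeval (![X 1, X 2, C b * X 2] : Fin 3 → P3) Φ) ≤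
      (d + 1) ^ 3 * ((8 * d) ^ d * ((d + 1) * ((8 * d) ^ d * ε))) := by
    intro b hb
    have hdeg : (aeval (![X 1, X 2, C b * X 2] : Fin 3 → P3) Φ).totalDegree ≤ d := by
      refine totalDegree_aeval (fun i => ?_) hΦ
      exact fin3 (P := fun i => ((![X 1, X 2, C b * X 2] : Fin 3 → P3) i).totalDegree ≤ 1)
        (td_X 1) (td_X 2) (td_CX b 2) i
    have h1 := l1_vander (K := 1) (τ := 1 / d) (ε := (d + 1) * ((8 * d) ^ d * ε)) le_rfl hρ hd1
      (by positivity) hdeg (e := fun k => (k : ℝ) / d) n1 n2 (fun k hk => ?_)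
    · rw [e8] at h1
      exact h1
    · have h2 := s1 ((k : ℝ) / d) b (n1 k hk) hb
      refine le_trans (le_of_eq ?_) h2
      congr 1
      rw [comp]
      congr 2
      funext i
      refine fin3 (P := fun i => aeval (sb ((k : ℝ) / d)) ((![X 1, X 2, C b * X 2] :
        Fin 3 → P3) i) = C (0 : ℝ) + C ((![1, (k : ℝ) / d, (k : ℝ) / d * b] : Fin 3 → ℝ) i) *
        X 1) ?_ ?_ ?_ i <;> simp [sb]
      ring
  -- three variables
  have h1 := l1_vander (K := 1) (τ := 1 / d)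
    (ε := (d + 1) ^ 3 * ((8 * d) ^ d * ((d + 1) * ((8 * d) ^ d * ε)))) le_rfl hρ hd1
    (by positivity) hΦ (e := fun k => (k : ℝ) / d) n1 n2 (fun k hk => ?_)
  · rw [e8] at h1
    refine h1.trans (le_of_eq ?_)
    unfold cQ
    rw [show 3 * d = d + d + d by ring, pow_add, pow_add]
    ring
  · have h2 := s2 ((k : ℝ) / d) (n1 k hk)
    refine le_trans ?_ h2
    have e3 : aeval (sb ((k : ℝ) / d)) Φ = aeval (![0, X 0, X 1] : Fin 3 → P3)
        (aeval (![X 1, X 2, C ((k : ℝ) / d) * X 2] : Fin 3 → P3) Φ) := by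
      rw [comp]
      congr 2
      funext i
      refine fin3 (P := fun i => sb ((k : ℝ) / d) i = aeval (![0, X 0, X 1] : Fin 3 → P3)
        ((![X 1, X 2, C ((k : ℝ) / d) * X 2] : Fin 3 → P3) i)) ?_ ?_ ?_ i <;> simp [sb]
    rw [e3]
    have h4 := l1_aeval_le (f := (![0, X 0, X 1] : Fin 3 → P3)) (K := 1) le_rfl (fun i => ?_)
      (F := aeval (![X 1, X 2, C ((k : ℝ) / d) * X 2] : Fin 3 → P3) Φ) (d := d) ?_
    · rw [one_pow, one_mul] at h4
      exact h4
    · refine fin3 (P := fun i => l1 ((![0, X 0, X 1] : Fin 3 → P3) i) ≤ 1) ?_ ?_ ?_ i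
      · show l1 0 ≤ 1
        rw [l1_zero]
        exact zero_le_one
      · show l1 (X 0) ≤ 1
        rw [l1_X]
      · show l1 (X 1) ≤ 1
        rw [l1_X]
    · refine totalDegree_aeval (fun i => ?_) hΦ
      exact fin3 (P := fun i => ((![X 1, X 2, C ((k : ℝ) / d) * X 2] : Fin 3 → P3)
        i).totalDegree ≤ 1) (td_X 1) (td_X 2) (td_CX _ 2) i

/-- A polynomial which is small on a unit cube with centre at `p`. -/
theorem l1_ball {d : ℕ} (hd : 1 ≤ d) {ε K : ℝ} (hε : 0 ≤ ε) (hK : 1 ≤ K) {F : P3}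
    (hF : F.totalDegree ≤ d) {p : Fin 3 → ℝ} (hp : ∀ j, |p j| ≤ K)
    (h : ∀ b : Fin 3 → ℝ, (∀ j, |b j - p j| ≤ 1) → |eval b F| ≤ ε) :
    l1 F ≤ (2 * K) ^ d * (cQ d * ε) := by
  obtain ⟨Φ, hΦ⟩ : ∃ Φ, Φ = aeval (fun j => C (p j) + X j : Fin 3 → P3) F := ⟨_, rfl⟩
  have hΦd : Φ.totalDegree ≤ d := by
    rw [hΦ]
    exact totalDegree_aeval (fun i => td_add (td_C _) (td_X _)) hF
  have h1 : l1 Φ ≤ cQ d * ε := by
    refine l1_cube hd hε hΦd fun b hb => ?_
    have e1 : eval b Φ = eval (fun j => p j + b j) F := by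
      rw [hΦ]
      have h2 := comp_aeval_apply (R := ℝ) (fun j => C (p j) + X j : Fin 3 → P3)
        (aeval b : P3 →ₐ[ℝ] ℝ) F
      have h3 : (fun j => (aeval b : P3 →ₐ[ℝ] ℝ) (C (p j) + X j)) = fun j => p j + b j := by
        funext j
        simp
      rw [h3] at h2
      rw [aeval_eq_eval, aeval_eq_eval] at h2
      exact h2
    rw [e1]
    refine h _ fun j => ?_
    rw [add_sub_cancel_left]
    exact hb j
  have e2 : F = aeval (fun j => X j - C (p j) : Fin 3 → P3) Φ := by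
    rw [hΦ, comp]
    conv_lhs => rw [← aeval_X_left_apply F]
    congr 2
    funext j
    simp
  rw [e2]
  refine (l1_aeval_le (K := 2 * K) (by linarith) (fun i => ?_) hΦd).trans ?_
  · refine (l1_sub_le _ _).trans ?_
    rw [l1_X, l1_C]
    linarith [hp i]
  · exact mul_le_mul_of_nonneg_left h1 (by positivity)

/-- **The line lies in the leaf**, from separated times. -/
theorem rel_of_times {d : ℕ} (hd : 1 ≤ d) {ρ ε : ℝ} (hρ : 0 < ρ) (hρ1 : ρ ≤ 1) (hε : 0 ≤ ε)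
    {F : P3} (hF : F.totalDegree ≤ d) (Y D : Fin 3 → ℝ) (x : ℕ → ℝ) (hxb : ∀ k ≤ d, |x k| ≤ 1)
    (hsep : ∀ k ≤ d, ∀ l ≤ d, k ≠ l → ρ ≤ |x k - x l|)
    (h : ∀ k ≤ d, |eval (![x k, Y 0 + x k * D 0, Y 1 + x k * D 1] : Fin 3 → ℝ) F -
      (Y 2 + x k * D 2)| ≤ ε) :
    l1 (aeval (ln Y D) F - (C (Y 2) + C (D 2) * X 0)) ≤ (d + 1) * ((8 / ρ) ^ d * ε) := by
  -- the polynomial in one variable
  obtain ⟨f, hf⟩ : ∃ f : Fin 3 → Polynomial ℝ, f = fun j =>
    Polynomial.C ((![0, Y 0, Y 1] : Fin 3 → ℝ) j) +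
      Polynomial.C ((![1, D 0, D 1] : Fin 3 → ℝ) j) * Polynomial.X := ⟨_, rfl⟩
  obtain ⟨P, hP⟩ : ∃ P, P = aeval f F -
    (Polynomial.C (Y 2) + Polynomial.C (D 2) * Polynomial.X) := ⟨_, rfl⟩
  have hCX : ∀ a b : ℝ, (Polynomial.C a + Polynomial.C b * Polynomial.X).natDegree ≤ 1 := by
    intro a b
    refine (Polynomial.natDegree_add_le _ _).trans (max_le ?_ ?_)
    · rw [Polynomial.natDegree_C]; exact zero_le_one
    · exact (Polynomial.natDegree_C_mul_le _ _).trans Polynomial.natDegree_X_le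
  have hPd : P.natDegree ≤ d := by
    rw [hP]
    refine (Polynomial.natDegree_sub_le _ _).trans (max_le (natDegree_subst (fun j => ?_) hF)
      ((hCX _ _).trans hd))
    rw [hf]
    exact hCX _ _
  have e1 : aeval (ln Y D) F - (C (Y 2) + C (D 2) * X 0) = Polynomial.aeval (X 0 : P3) P := by
    rw [hP, map_sub]
    have h1 := comp_aeval_apply (R := ℝ) f ((Polynomial.aeval (X 0 : P3) : Polynomial ℝ →ₐ[ℝ] P3)) F
    rw [h1]
    congr 1
    · congr 2
      funext j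
      rw [hf]
      rw [au]
      refine fin3 (P := fun j => ln Y D j = C ((![0, Y 0, Y 1] : Fin 3 → ℝ) j) +
        C ((![1, D 0, D 1] : Fin 3 → ℝ) j) * X 0) ?_ ?_ ?_ j <;> simp [ln]
    · rw [au]
  have e2 : ∀ t : ℝ, P.eval t = eval (![t, Y 0 + t * D 0, Y 1 + t * D 1] : Fin 3 → ℝ) F -
      (Y 2 + t * D 2) := by
    intro t
    have h1 := comp_aeval_apply (R := ℝ) f ((Polynomial.aeval t : Polynomial ℝ →ₐ[ℝ] ℝ)) F
    have h2 : (fun j => (Polynomial.aeval t) (f j)) =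
        (![t, Y 0 + t * D 0, Y 1 + t * D 1] : Fin 3 → ℝ) := by
      funext j
      rw [hf]
      rw [av]
      refine fin3 (P := fun j => (![0, Y 0, Y 1] : Fin 3 → ℝ) j +
        (![1, D 0, D 1] : Fin 3 → ℝ) j * t =
        (![t, Y 0 + t * D 0, Y 1 + t * D 1] : Fin 3 → ℝ) j) ?_ ?_ ?_ j
      · simp
      · simp [mul_comm]
      · simp [mul_comm]
    rw [h2, aeval_eq_eval] at h1
    rw [hP, ← Polynomial.coe_aeval_eq_eval, map_sub, h1, av, mul_comm (D 2) t]
  rw [e1]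
  refine l1_uni hPd (fun m => ?_) 0
  have h3 := vander (K := 1) le_rfl hρ hρ1 d P hPd x hxb hsep ε hε (fun k hk => by
    rw [e2]
    exact h k hk) m
  rw [mul_one] at h3
  exact h3

end Pool.S6P
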