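import Pool.Agent.H26.DIC.Pol4

/-!
# Labels with tolerance

The label `L` is a function of the window; at the mates of a sample it is known up to `ε`, and each
sample lies in the leaf of its label at its own time only. Outside events on which the time is known
from the window, the fans are thin, or the slopes are known from the window, the label is affine up
to a small loss: rounded coefficients of the affine part give a plank.
-/

set_option autoImplicit false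

namespace Pool.S6P

open MvPolynomial Finset

variable {Ω U V : Type}

/-- The point of the sample in the variables of the labels. -/
noncomputable def Ldp.po (X : Ldp Ω U V) (ω : Ω) : Fin 3 → ℝ :=
  ![X.s ω, X.Y ω 0 + X.s ω * X.D ω 0, X.Y ω 1 + X.s ω * X.D ω 1]

/-- Bounds; the label is known up to `ε` from the point, and holds at the sampled times. -/
structure Ldp.Tol (X : Ldp Ω U V) (A : Ω → Prop) (d : ℕ) (K ε r : ℝ) : Prop where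
  hK : 1 ≤ K
  ε0 : 0 ≤ ε
  r0 : 0 ≤ r
  r1 : r ≤ 1
  hd : 1 ≤ d
  spt : ∀ ω ω', A ω → A ω' → X.pt ω' = X.pt ω → X.s ω' = X.s ω
  ypt : ∀ ω ω', A ω → A ω' → X.pt ω' = X.pt ω → ∀ i,
    |(X.Y ω' i + X.s ω * X.D ω' i) - (X.Y ω i + X.s ω * X.D ω i)| ≤ r
  pw : ∀ ω, A ω → |eval (X.po ω) (X.L ω) - (X.Y ω 2 + X.s ω * X.D ω 2)| ≤ ε
  cl : ∀ ω ω', A ω → A ω' → X.pt ω' = X.pt ω → l1 (X.L ω' - X.L ω) ≤ ε
  deg : ∀ ω, A ω → (X.L ω).totalDegree ≤ d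
  Lb : ∀ ω, A ω → l1 (X.L ω) ≤ K
  s1 : ∀ ω, A ω → |X.s ω| ≤ 1
  Y : ∀ ω, A ω → ∀ i, |X.Y ω i| ≤ K
  D : ∀ ω, A ω → ∀ i, |X.D ω i| ≤ K
  line : ∀ ω, A ω → ∀ i, |X.D ω i - X.e (X.pt ω) i * X.D ω 0 - X.n (X.pt ω) i| ≤ r / 2

/-- Constant of the time nodes. -/
noncomputable def cT (d : ℕ) (K ρt : ℝ) : ℝ := (d + 1) * (8 / ρt) ^ d + (2 * K) ^ d

theorem cT_nonneg {d : ℕ} {K ρt : ℝ} (hK : 1 ≤ K) (hρ : 0 < ρt) : 0 ≤ cT d K ρt := by
  unfold cT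
  positivity

namespace Ldp

variable {X : Ldp Ω U V} {A : Ω → Prop} {d : ℕ} {K ε r : ℝ}

/-- The relation along the line of a sample with separated times. -/
theorem Tol.rel (h : X.Tol A d K ε r) (hW : X.Wn A) {ρt : ℝ} (hρ : 0 < ρt) (hρ1 : ρt ≤ 1)
    {ω : Ω} (hω : A ω) (hs : SepF X.wn X.s A ρt d ω) :
    l1 (aeval (ln (X.Y ω) (X.D ω)) (X.L ω) - (C (X.Y ω 2) + C (X.D ω 2) * MvPolynomial.X 0)) ≤
      (d + 1) * ((8 / ρt) ^ d * ε) := by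
  obtain ⟨z, hz, hsep⟩ := hs
  refine rel_of_times h.hd hρ hρ1 h.ε0 (h.deg ω hω) (X.Y ω) (X.D ω) (fun k => X.s (z k))
    (fun k hk => h.s1 _ (hz k hk).1) hsep (fun k hk => ?_)
  have h1 := h.pw _ (hz k hk).1
  obtain ⟨w1, w2, w3⟩ := hW ω (z k) hω (hz k hk).1 (hz k hk).2
  unfold po at h1
  rw [w1, w2, w3] at h1
  exact h1

theorem Tol.ok (h : X.Tol A d K ε r) (hW : X.Wn A) {ρt : ℝ} (hρ : 0 < ρt) (hρ1 : ρt ≤ 1) :
    X.Ok (fun ω => A ω ∧ SepF X.wn X.s A ρt d ω) d K (cT d K ρt * ε) r where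
  hK := h.hK
  ε0 := mul_nonneg (cT_nonneg h.hK hρ) h.ε0
  r0 := h.r0
  r1 := h.r1
  hd := h.hd
  spt := fun ω ω' h1 h2 => h.spt ω ω' h1.1 h2.1
  ypt := fun ω ω' h1 h2 => h.ypt ω ω' h1.1 h2.1
  rel := fun ω ω' h1 h2 hp => by
    have a1 := h.rel hW hρ hρ1 h2.1 h2.2
    have a2 := h.cl ω ω' h1.1 h2.1 hp
    have e1 : aeval (ln (X.Y ω') (X.D ω')) (X.L ω) -
        (C (X.Y ω' 2) + C (X.D ω' 2) * MvPolynomial.X 0) =
        (aeval (ln (X.Y ω') (X.D ω')) (X.L ω') -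
          (C (X.Y ω' 2) + C (X.D ω' 2) * MvPolynomial.X 0)) -
        aeval (ln (X.Y ω') (X.D ω')) (X.L ω' - X.L ω) := by
      rw [map_sub]
      ring
    rw [e1]
    refine (l1_sub_le _ _).trans ?_
    have hK := h.hK
    have a3 : l1 (aeval (ln (X.Y ω') (X.D ω')) (X.L ω' - X.L ω)) ≤ (2 * K) ^ d * ε := by
      refine (l1_aeval_le (K := 2 * K) (by linarith) (fun i => ln_l1 hK (h.Y ω' h2.1)
        (h.D ω' h2.1) i) (d := d) ?_).trans ?_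
      · exact (totalDegree_sub _ _).trans (max_le (h.deg ω' h2.1) (h.deg ω h1.1))
      · exact mul_le_mul_of_nonneg_left a2 (by positivity)
    unfold cT
    nlinarith
  deg := fun ω h1 => h.deg ω h1.1
  Lb := fun ω h1 => h.Lb ω h1.1
  s1 := fun ω h1 => h.s1 ω h1.1
  Y := fun ω h1 => h.Y ω h1.1
  D := fun ω h1 => h.D ω h1.1
  line := fun ω h1 => h.line ω h1.1

/-- The coefficients of the affine part. -/
noncomputable def cf (X : Ldp Ω U V) (ω : Ω) : Fin 4 → ℝ :=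
  ![(X.L ω).coeff 0, (X.L ω).coeff (Finsupp.single 0 1), (X.L ω).coeff (Finsupp.single 1 1),
    (X.L ω).coeff (Finsupp.single 2 1)]

theorem Tol.cf_sub (h : X.Tol A d K ε r) {ω ω' : Ω} (hω : A ω) (hω' : A ω')
    (hp : X.pt ω' = X.pt ω) (i : Fin 4) : |X.cf ω' i - X.cf ω i| ≤ ε := by
  have h1 := h.cl ω ω' hω hω' hp
  have key : ∀ μ, |(X.L ω').coeff μ - (X.L ω).coeff μ| ≤ ε := by
    intro μ
    rw [← coeff_sub]
    exact (coeff_le_l1 _ μ).trans h1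
  have hi : ∀ j : Fin 4, j = 0 ∨ j = 1 ∨ j = 2 ∨ j = 3 := by decide
  rcases hi i with rfl | rfl | rfl | rfl <;> exact key _

/-- The affine part along a line. -/
theorem aff_line (F : P3) (Y D : Fin 3 → ℝ) : aeval (ln Y D) (lin F) =
    C (F.coeff 0 + F.coeff (Finsupp.single 1 1) * Y 0 + F.coeff (Finsupp.single 2 1) * Y 1) +
    C (F.coeff (Finsupp.single 0 1) + F.coeff (Finsupp.single 1 1) * D 0 +
      F.coeff (Finsupp.single 2 1) * D 1) * MvPolynomial.X 0 := by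
  unfold lin ln
  simp
  ring

theorem coeff_aff (a b : ℝ) : coeff 0 (C a + C b * MvPolynomial.X 0 : P3) = a ∧
    coeff (Finsupp.single 0 1) (C a + C b * MvPolynomial.X 0 : P3) = b := by
  classical
  constructor
  · rw [coeff_add, coeff_C, if_pos rfl, coeff_C_mul, coeff_X, if_neg (single_ne_zero' 0)]
    ring
  · rw [coeff_add, coeff_C, if_neg (single_ne_zero' 0).symm, coeff_C_mul, coeff_X, if_pos rfl]
    ring

/-- Position and velocity of the line in the direction of the normal. -/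
theorem lin_rel {F : P3} {Y D : Fin 3 → ℝ} {η : ℝ} (hK : 1 ≤ K) (hd : 1 ≤ d)
    (hF : F.totalDegree ≤ d) (hY : ∀ i, |Y i| ≤ K) (hD : ∀ i, |D i| ≤ K)
    (h : l1 (aeval (ln Y D) F - (C (Y 2) + C (D 2) * MvPolynomial.X 0)) ≤ η) :
    |Y 2 - F.coeff 0 - F.coeff (Finsupp.single 1 1) * Y 0 -
      F.coeff (Finsupp.single 2 1) * Y 1| ≤ η + (2 * K) ^ d * nn F ∧
    |D 2 - F.coeff (Finsupp.single 0 1) - F.coeff (Finsupp.single 1 1) * D 0 -
      F.coeff (Finsupp.single 2 1) * D 1| ≤ η + (2 * K) ^ d * nn F := by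
  have h1 : l1 (aeval (ln Y D) (F - lin F)) ≤ (2 * K) ^ d * nn F := by
    refine (l1_aeval_le (K := 2 * K) (by linarith) (fun i => ln_l1 hK hY hD i)
      (totalDegree_hi hF hd)).trans ?_
    exact mul_le_mul_of_nonneg_left (l1_hi_le F) (by positivity)
  have h2 : l1 (aeval (ln Y D) (lin F) - (C (Y 2) + C (D 2) * MvPolynomial.X 0)) ≤
      η + (2 * K) ^ d * nn F := by
    have e1 : aeval (ln Y D) (lin F) - (C (Y 2) + C (D 2) * MvPolynomial.X 0) =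
        (aeval (ln Y D) F - (C (Y 2) + C (D 2) * MvPolynomial.X 0)) -
        aeval (ln Y D) (F - lin F) := by
      rw [map_sub]
      ring
    rw [e1]
    exact (l1_sub_le _ _).trans (add_le_add h h1)
  rw [aff_line] at h2
  obtain ⟨a, ha⟩ : ∃ a, a = F.coeff 0 + F.coeff (Finsupp.single 1 1) * Y 0 +
    F.coeff (Finsupp.single 2 1) * Y 1 := ⟨_, rfl⟩
  obtain ⟨b, hb⟩ : ∃ b, b = F.coeff (Finsupp.single 0 1) + F.coeff (Finsupp.single 1 1) * D 0 +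
      F.coeff (Finsupp.single 2 1) * D 1 := ⟨_, rfl⟩
  rw [← ha, ← hb] at h2
  have g0 := (coeff_le_l1 _ 0).trans h2
  have g1 := (coeff_le_l1 _ (Finsupp.single 0 1)).trans h2
  rw [coeff_sub, (coeff_aff a b).1, (coeff_aff (Y 2) (D 2)).1] at g0
  rw [coeff_sub, (coeff_aff a b).2, (coeff_aff (Y 2) (D 2)).2] at g1
  rw [abs_sub_comm] at g0 g1
  constructor
  · refine le_trans (le_of_eq (congrArg abs ?_)) g0
    rw [ha]; ring
  · refine le_trans (le_of_eq (congrArg abs ?_)) g1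
    rw [hb]; ring

/-- The final precision. -/
noncomputable def cF (d : ℕ) (K ρ τ ρt ε : ℝ) : ℝ :=
  (d + 1) * ((8 / ρt) ^ d * ε) +
    (2 * K) ^ d * (2 * (cB d K / (ρ ^ 2 * τ) ^ d) * (cT d K ρt * ε))

/-- **The dichotomy.** Outside three kinds of events the affine part of the label, with rounded
coefficients, is a plank which contains the line. -/
theorem Tol.dic (h : X.Tol A d K ε r) (hW : X.Wn A) {ρ τ ρt δ : ℝ} (hρ : 0 < ρ) (hρ1 : ρ ≤ 1)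
    (hτ : 0 < τ) (hτ1 : τ ≤ 1) (hρt : 0 < ρt) (hρt1 : ρt ≤ 1) (hδ : 0 < δ) (hεδ : ε ≤ δ)
    (hr : cB d K / (ρ ^ 2 * τ) ^ d * r ≤ 1 / 2) :
    ∃ (tt : ℕ → V → ℝ) (v : ℕ → U → ℝ) (E : ℕ → Ω → Prop) (ζ : ℕ → V → Fin 3 → ℝ)
      (f : Ω → Fin 4 → ℤ),
      (∀ k ω, E k ω → A ω ∧ ∀ j, |X.e (X.pt ω) j - ζ k (X.wn ω) j| ≤
        cS d K * (cT d K ρt * ε + r) / ρ ^ (d + 1) + (4 * K) ^ (d + 1) * τ) ∧
      (∀ ω ω', A ω → A ω' → X.pt ω' = X.pt ω → ∀ i, |f ω' i - f ω i| ≤ 1) ∧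
      (∀ ω ω', A ω → A ω' → X.wn ω' = X.wn ω → f ω' = f ω) ∧
      (∀ ω i, |δ * f ω i - X.cf ω i| ≤ δ) ∧
      ∀ ω, A ω → (∃ k < d, |X.s ω - tt k (X.wn ω)| ≤ ρt) ∨
        (∃ k < d, |X.D ω 0 - v k (X.pt ω)| ≤ ρ) ∨ (∃ k < d, E k ω) ∨
        (|X.Y ω 2 - δ * f ω 0 - δ * f ω 2 * X.Y ω 0 - δ * f ω 3 * X.Y ω 1| ≤
          cF d K ρ τ ρt ε + 3 * K * δ ∧
        |X.D ω 2 - δ * f ω 1 - δ * f ω 2 * X.D ω 0 - δ * f ω 3 * X.D ω 1| ≤
          cF d K ρ τ ρt ε + 3 * K * δ) := by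
  classical
  have hK := h.hK
  have hK0 : 0 < K := by linarith
  obtain ⟨tt, htt⟩ := cover X.wn X.s A ρt d
  have hok := h.ok hW hρt hρt1
  have hW' : X.Wn (fun ω => A ω ∧ SepF X.wn X.s A ρt d ω) :=
    fun ω ω' h1 h2 => hW ω ω' h1.1 h2.1
  obtain ⟨v, E, ζ, hE, hal⟩ := hok.alt hW' hρ hρ1 hτ hτ1 hr
  have hnear : ∀ x : ℝ, |δ * ⌊x / δ⌋ - x| ≤ δ := by
    intro x
    have a1 := Int.floor_le (x / δ)
    have a2 := Int.lt_floor_add_one (x / δ)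
    have e : x = δ * (x / δ) := by field_simp
    have b : |(⌊x / δ⌋ : ℝ) - x / δ| ≤ 1 := by
      rw [abs_le]
      constructor <;> linarith
    calc |δ * ⌊x / δ⌋ - x| = |δ * (⌊x / δ⌋ - x / δ)| := by rw [mul_sub, ← e]
      _ = δ * |(⌊x / δ⌋ : ℝ) - x / δ| := by rw [abs_mul, abs_of_pos hδ]
      _ ≤ δ * 1 := mul_le_mul_of_nonneg_left b hδ.le
      _ = δ := mul_one δ
  refine ⟨tt, v, E, ζ, fun ω i => ⌊X.cf ω i / δ⌋, fun k ω hk => ⟨(hE k ω hk).1.1, (hE k ω hk).2⟩,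
    ?_, ?_, fun ω i => hnear _, ?_⟩
  · intro ω ω' hω hω' hp i
    have h1 := (h.cf_sub hω hω' hp i).trans hεδ
    have h2 : |X.cf ω' i / δ - X.cf ω i / δ| ≤ 1 := by
      rw [← sub_div, abs_div, abs_of_pos hδ, div_le_one hδ]
      exact h1
    have a1 := Int.floor_le (X.cf ω' i / δ)
    have a2 := Int.lt_floor_add_one (X.cf ω' i / δ)
    have a3 := Int.floor_le (X.cf ω i / δ)
    have a4 := Int.lt_floor_add_one (X.cf ω i / δ)
    rw [abs_le] at h2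
    have b1 : ((⌊X.cf ω' i / δ⌋ - ⌊X.cf ω i / δ⌋ : ℤ) : ℝ) < 2 := by push_cast; linarith
    have b2 : (-2 : ℝ) < ((⌊X.cf ω' i / δ⌋ - ⌊X.cf ω i / δ⌋ : ℤ) : ℝ) := by
      push_cast; linarith
    have b3 : ⌊X.cf ω' i / δ⌋ - ⌊X.cf ω i / δ⌋ < 2 := by exact_mod_cast b1
    have b4 : -2 < ⌊X.cf ω' i / δ⌋ - ⌊X.cf ω i / δ⌋ := by exact_mod_cast b2
    show |⌊X.cf ω' i / δ⌋ - ⌊X.cf ω i / δ⌋| ≤ 1
    rw [abs_le]
    constructor <;> omega
  · intro ω ω' hω hω' hp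
    obtain ⟨-, -, w3⟩ := hW ω ω' hω hω' hp
    have e1 : X.cf ω' = X.cf ω := by unfold cf; rw [w3]
    simp only [e1]
  · intro ω hω
    rcases htt ω hω with hsep | hnar
    swap
    · exact Or.inl hnar
    right
    rcases hal ω ⟨hω, hsep⟩ with h1 | h1 | h1
    · exact Or.inl h1
    · exact Or.inr (Or.inl h1)
    right; right
    have hrel := h.rel hW hρt hρt1 hω hsep
    obtain ⟨g0, g1⟩ := lin_rel hK h.hd (h.deg ω hω) (h.Y ω hω) (h.D ω hω) hrel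
    have g2 : (2 * K) ^ d * nn (X.L ω) ≤
        (2 * K) ^ d * (2 * (cB d K / (ρ ^ 2 * τ) ^ d) * (cT d K ρt * ε)) :=
      mul_le_mul_of_nonneg_left h1 (by positivity)
    have hcF : (d + 1) * ((8 / ρt) ^ d * ε) + (2 * K) ^ d * nn (X.L ω) ≤
        cF d K ρ τ ρt ε := by
      unfold cF
      linarith
    have m := fun i => hnear (X.cf ω i)
    have c0 : X.cf ω 0 = (X.L ω).coeff 0 := rfl
    have c1 : X.cf ω 1 = (X.L ω).coeff (Finsupp.single 0 1) := rfl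
    have c2 : X.cf ω 2 = (X.L ω).coeff (Finsupp.single 1 1) := rfl
    have c3 : X.cf ω 3 = (X.L ω).coeff (Finsupp.single 2 1) := rfl
    rw [← c0, ← c2, ← c3] at g0
    rw [← c1, ← c2, ← c3] at g1
    have hm : ∀ (i : Fin 4) (x : ℝ), |x| ≤ K → |(δ * ⌊X.cf ω i / δ⌋ - X.cf ω i) * x| ≤ δ * K := by
      intro i x hx
      rw [abs_mul]
      exact mul_le_mul (m i) hx (abs_nonneg _) hδ.le
    have hδK : δ ≤ δ * K := by nlinarith
    have tri : ∀ (a b c e : ℝ), |a - b - c - e| ≤ |a| + |b| + |c| + |e| := by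
      intro a b c e
      have t1 := abs_sub (a - b - c) e
      have t2 := abs_sub (a - b) c
      have t3 := abs_sub a b
      linarith
    constructor
    · have e1 : X.Y ω 2 - δ * ⌊X.cf ω 0 / δ⌋ - δ * ⌊X.cf ω 2 / δ⌋ * X.Y ω 0 -
          δ * ⌊X.cf ω 3 / δ⌋ * X.Y ω 1 =
          (X.Y ω 2 - X.cf ω 0 - X.cf ω 2 * X.Y ω 0 - X.cf ω 3 * X.Y ω 1) -
          (δ * ⌊X.cf ω 0 / δ⌋ - X.cf ω 0) - (δ * ⌊X.cf ω 2 / δ⌋ - X.cf ω 2) * X.Y ω 0 -
          (δ * ⌊X.cf ω 3 / δ⌋ - X.cf ω 3) * X.Y ω 1 := by ring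
      rw [e1]
      refine (tri _ _ _ _).trans ?_
      have k0 := m 0
      have k2 := hm 2 _ (h.Y ω hω 0)
      have k3 := hm 3 _ (h.Y ω hω 1)
      linarith
    · have e1 : X.D ω 2 - δ * ⌊X.cf ω 1 / δ⌋ - δ * ⌊X.cf ω 2 / δ⌋ * X.D ω 0 -
          δ * ⌊X.cf ω 3 / δ⌋ * X.D ω 1 =
          (X.D ω 2 - X.cf ω 1 - X.cf ω 2 * X.D ω 0 - X.cf ω 3 * X.D ω 1) -
          (δ * ⌊X.cf ω 1 / δ⌋ - X.cf ω 1) - (δ * ⌊X.cf ω 2 / δ⌋ - X.cf ω 2) * X.D ω 0 -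
          (δ * ⌊X.cf ω 3 / δ⌋ - X.cf ω 3) * X.D ω 1 := by ring
      rw [e1]
      refine (tri _ _ _ _).trans ?_
      have k1 := m 1
      have k2 := hm 2 _ (h.D ω hω 0)
      have k3 := hm 3 _ (h.D ω hω 1)
      linarith

end Ldp

end Pool.S6P
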