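import Pool.Agent.H26.DIC.Alg

/-!
# Labelled lines

Samples with an exact point, a window, a line (in window coordinates), a label (a polynomial of
degree at most two which is small on the line) and the frames of the fans. The label is a function
of the point and of the window.
-/

set_option autoImplicit false

namespace Pool.S6D

open Finset

/-- Data. -/
structure Ldt (Ω U V : Type) where
  /-- exact point -/
  pt : Ω → U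
  /-- line and window -/
  wn : Ω → V
  /-- time in the window -/
  s : Ω → ℝ
  /-- position at the base time -/
  Y : Ω → Fin 3 → ℝ
  /-- velocity -/
  D : Ω → Fin 3 → ℝ
  /-- label -/
  L : Ω → QD
  /-- slopes of the frames -/
  e : U → Fin 3 → ℝ
  /-- offsets of the frames -/
  n : U → Fin 3 → ℝ

variable {Ω U V : Type}

/-- Bounds; `ε` is the precision of the label, `r` that of the frames. -/
structure Ldt.Ok (X : Ldt Ω U V) (A : Ω → Prop) (K ε r : ℝ) : Prop where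
  hK : 1 ≤ K
  ε0 : 0 ≤ ε
  ε1 : ε ≤ 1
  r0 : 0 < r
  r1 : r ≤ 1
  spt : ∀ ω ω', A ω → A ω' → X.pt ω' = X.pt ω → X.s ω' = X.s ω
  lpt : ∀ ω ω', A ω → A ω' → X.pt ω' = X.pt ω → X.L ω' = X.L ω
  ypt : ∀ ω ω', A ω → A ω' → X.pt ω' = X.pt ω → ∀ i,
    |(X.Y ω' i + X.s ω * X.D ω' i) - (X.Y ω i + X.s ω * X.D ω i)| ≤ ε / (24 * K ^ 2)
  c1 : ∀ ω, A ω → |(X.L ω).c1 (X.Y ω) (X.D ω)| ≤ ε / 12
  c2 : ∀ ω, A ω → |(X.L ω).c2 (X.D ω)| ≤ ε / 12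
  s1 : ∀ ω, A ω → |X.s ω| ≤ 1
  p : ∀ ω, A ω → ∀ i, |(X.L ω).gs (X.s ω) (X.Y ω) (X.D ω) i| ≤ K
  p2 : ∀ ω, A ω → 1 / 2 ≤ (X.L ω).gs (X.s ω) (X.Y ω) (X.D ω) 2
  q : ∀ ω, A ω → ∀ i, |(X.L ω).g (X.Y ω) i| ≤ K
  q2 : ∀ ω, A ω → 1 / 2 ≤ (X.L ω).g (X.Y ω) 2
  g1 : ∀ ω, A ω → ∀ i, |(X.L ω).g1 (X.D ω) i| ≤ K
  H : ∀ ω, A ω → ∀ i j, |(X.L ω).H i j| ≤ K
  D : ∀ ω, A ω → ∀ i, |X.D ω i| ≤ K / 2
  Y : ∀ ω, A ω → ∀ i, |X.Y ω i| ≤ K / 2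
  e : ∀ ω, A ω → |X.e (X.pt ω) 1| ≤ K
  line : ∀ ω, A ω → ∀ i, |X.D ω i - X.e (X.pt ω) i * X.D ω 0 - X.n (X.pt ω) i| ≤ r / 2

/-- Line and label are functions of the window. -/
def Ldt.Wn (X : Ldt Ω U V) (A : Ω → Prop) : Prop :=
  ∀ ω ω', A ω → A ω' → X.wn ω' = X.wn ω → X.Y ω' = X.Y ω ∧ X.D ω' = X.D ω ∧ X.L ω' = X.L ω

/-- The data at a line. -/
noncomputable def Ldt.dat (X : Ldt Ω U V) (ω : Ω) : Dat where
  p0 := (X.L ω).gs (X.s ω) (X.Y ω) (X.D ω) 0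
  p1 := (X.L ω).gs (X.s ω) (X.Y ω) (X.D ω) 1
  p2 := (X.L ω).gs (X.s ω) (X.Y ω) (X.D ω) 2
  g0 := (X.L ω).g1 (X.D ω) 0
  g1 := (X.L ω).g1 (X.D ω) 1
  g2 := (X.L ω).g1 (X.D ω) 2
  h00 := (X.L ω).H 0 0
  h01 := (X.L ω).H 0 1
  h02 := (X.L ω).H 0 2
  h11 := (X.L ω).H 1 1
  h12 := (X.L ω).H 1 2
  h22 := (X.L ω).H 2 2
  e := X.e (X.pt ω) 1

/-- The first coordinate relative to another line. -/
def Ldt.al (X : Ldt Ω U V) (ω ω' : Ω) : ℝ := X.D ω' 0 - X.D ω 0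

/-- The transversal coordinate relative to another line. -/
def Ldt.be (X : Ldt Ω U V) (ω ω' : Ω) : ℝ :=
  (X.D ω' 1 - X.D ω 1) - X.e (X.pt ω) 1 * (X.D ω' 0 - X.D ω 0)

/-- The first minor. -/
noncomputable def Ldt.me (X : Ldt Ω U V) (ω : Ω) : ℝ := (X.L ω).mm (X.Y ω) (X.D ω) 0

/-- The second minor. -/
noncomputable def Ldt.mu (X : Ldt Ω U V) (ω : Ω) : ℝ := (X.L ω).mm (X.Y ω) (X.D ω) 1

namespace Ldt

variable {X : Ldt Ω U V} {A : Ω → Prop} {K ε r : ℝ}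

theorem Ok.sub (h : X.Ok A K ε r) {B : Ω → Prop} (hB : ∀ ω, B ω → A ω) : X.Ok B K ε r where
  hK := h.hK
  ε0 := h.ε0
  ε1 := h.ε1
  r0 := h.r0
  r1 := h.r1
  spt := fun ω ω' h1 h2 => h.spt ω ω' (hB _ h1) (hB _ h2)
  lpt := fun ω ω' h1 h2 => h.lpt ω ω' (hB _ h1) (hB _ h2)
  ypt := fun ω ω' h1 h2 => h.ypt ω ω' (hB _ h1) (hB _ h2)
  c1 := fun ω h1 => h.c1 ω (hB _ h1)
  c2 := fun ω h1 => h.c2 ω (hB _ h1)
  s1 := fun ω h1 => h.s1 ω (hB _ h1)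
  p := fun ω h1 => h.p ω (hB _ h1)
  p2 := fun ω h1 => h.p2 ω (hB _ h1)
  q := fun ω h1 => h.q ω (hB _ h1)
  q2 := fun ω h1 => h.q2 ω (hB _ h1)
  g1 := fun ω h1 => h.g1 ω (hB _ h1)
  H := fun ω h1 => h.H ω (hB _ h1)
  D := fun ω h1 => h.D ω (hB _ h1)
  Y := fun ω h1 => h.Y ω (hB _ h1)
  e := fun ω h1 => h.e ω (hB _ h1)
  line := fun ω h1 => h.line ω (hB _ h1)

theorem Ok.bdd (h : X.Ok A K ε r) {ω : Ω} (hω : A ω) : (X.dat ω).Bdd K where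
  hK := h.hK
  p0 := h.p ω hω 0
  p1 := h.p ω hω 1
  p2 := h.p2 ω hω
  g0 := h.g1 ω hω 0
  g1 := h.g1 ω hω 1
  g2 := h.g1 ω hω 2
  h02 := h.H ω hω 0 2
  h12 := h.H ω hω 1 2
  h22 := h.H ω hω 2 2
  e := h.e ω hω

theorem Ok.Ddiff (h : X.Ok A K ε r) {ω ω' : Ω} (hω : A ω) (hω' : A ω') (i : Fin 3) :
    |X.D ω' i - X.D ω i| ≤ K := by
  have h1 := h.D ω hω i
  have h2 := h.D ω' hω' i
  have h3 := abs_sub (X.D ω' i) (X.D ω i)
  linarith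

theorem Ok.al_le (h : X.Ok A K ε r) {ω ω' : Ω} (hω : A ω) (hω' : A ω') : |X.al ω ω'| ≤ K :=
  h.Ddiff hω hω' 0

theorem Ok.be_le (h : X.Ok A K ε r) {ω ω' : Ω} (hω : A ω) (hω' : A ω')
    (hp : X.pt ω' = X.pt ω) : |X.be ω ω'| ≤ r := by
  have h1 := h.line ω hω 1
  have h2 := h.line ω' hω' 1
  rw [hp] at h2
  unfold be
  rw [abs_le] at *
  constructor <;> linarith [h1.1, h1.2, h2.1, h2.2]

/-- The differences of the points. -/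
theorem Ok.z_small (h : X.Ok A K ε r) {ω ω' : Ω} (hω : A ω) (hω' : A ω')
    (hp : X.pt ω' = X.pt ω) (i : Fin 3) :
    |(X.Y ω' i + X.s ω * X.D ω' i) - (X.Y ω i + X.s ω * X.D ω i)| ≤ ε / (24 * K ^ 2) :=
  h.ypt ω ω' hω hω' hp i

theorem sum3_le {f : Fin 3 → ℝ} {c : ℝ} (h : ∀ i, |f i| ≤ c) : |∑ i, f i| ≤ 3 * c := by
  refine (Finset.abs_sum_le_sum_abs _ _).trans ?_
  refine (Finset.sum_le_sum fun i _ => h i).trans (le_of_eq ?_)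
  rw [Finset.sum_const, Finset.card_univ, Fintype.card_fin]
  simp

/-- First relation: the direction differences lie in the kernel of the gradient. -/
theorem Ok.first (h : X.Ok A K ε r) {ω ω' : Ω} (hω : A ω) (hω' : A ω')
    (hp : X.pt ω' = X.pt ω) :
    |∑ i, (X.L ω).gs (X.s ω) (X.Y ω) (X.D ω) i * (X.D ω' i - X.D ω i)| ≤ ε := by
  have hK := h.hK
  have hK0 : 0 < K := by linarith
  have hL := h.lpt ω ω' hω hω' hp
  have e1 := (X.L ω).pair_c1 (X.s ω) (X.Y ω) (X.D ω) (X.Y ω') (X.D ω')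
  have a1 := h.c1 ω hω
  have a2 := h.c1 ω' hω'
  have a3 := h.c2 ω hω
  have a4 := h.c2 ω' hω'
  rw [hL] at a2 a4
  have hs := h.s1 ω hω
  have b1 : |2 * X.s ω * (X.L ω).c2 (X.D ω')| ≤ 2 * (ε / 12) := by
    rw [abs_mul, abs_mul, abs_of_pos (by norm_num : (0 : ℝ) < 2)]
    have : |X.s ω| * |(X.L ω).c2 (X.D ω')| ≤ 1 * (ε / 12) :=
      mul_le_mul hs a4 (abs_nonneg _) zero_le_one
    nlinarith
  have b2 : |2 * X.s ω * (X.L ω).c2 (X.D ω)| ≤ 2 * (ε / 12) := by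
    rw [abs_mul, abs_mul, abs_of_pos (by norm_num : (0 : ℝ) < 2)]
    have : |X.s ω| * |(X.L ω).c2 (X.D ω)| ≤ 1 * (ε / 12) :=
      mul_le_mul hs a3 (abs_nonneg _) zero_le_one
    nlinarith
  have b3 : |((X.L ω).c1 (X.Y ω') (X.D ω') + 2 * X.s ω * (X.L ω).c2 (X.D ω')) -
      ((X.L ω).c1 (X.Y ω) (X.D ω) + 2 * X.s ω * (X.L ω).c2 (X.D ω))| ≤ 6 * (ε / 12) := by
    rw [abs_le] at *
    constructor <;> linarith [a1.1, a1.2, a2.1, a2.2, b1.1, b1.2, b2.1, b2.2]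
  have hz := h.z_small hω hω' hp
  have hδ0 : (0 : ℝ) ≤ ε / (24 * K ^ 2) := by have := h.ε0; positivity
  have b4 : |∑ i, (X.L ω).g1 (X.D ω) i *
      ((X.Y ω' i + X.s ω * X.D ω' i) - (X.Y ω i + X.s ω * X.D ω i))| ≤
      3 * (K * (ε / (24 * K ^ 2))) := by
    refine sum3_le fun i => ?_
    rw [abs_mul]
    exact mul_le_mul (h.g1 ω hω i) (hz i) (abs_nonneg _) hK0.le
  have b5 : |∑ i, ∑ j, (X.L ω).H i j *
      ((X.Y ω' i + X.s ω * X.D ω' i) - (X.Y ω i + X.s ω * X.D ω i)) *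
      (X.D ω' j - X.D ω j)| ≤ 3 * (3 * (K * (ε / (24 * K ^ 2)) * K)) := by
    refine sum3_le fun i => sum3_le fun j => ?_
    rw [abs_mul, abs_mul]
    exact mul_le_mul (mul_le_mul (h.H ω hω i j) (hz i) (abs_nonneg _) hK0.le)
      (h.Ddiff hω hω' j) (abs_nonneg _) (by positivity)
  have e2 : 3 * (3 * (K * (ε / (24 * K ^ 2)) * K)) = 9 / 24 * ε := by field_simp; ring
  have e3 : 3 * (K * (ε / (24 * K ^ 2))) ≤ 3 / 24 * ε := by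
    have e4 : 3 * (K * (ε / (24 * K ^ 2))) = 3 / 24 * ε / K := by field_simp
    rw [e4, div_le_iff₀ hK0]
    have := h.ε0
    nlinarith
  rw [e2] at b5
  have e5 : ∑ i, (X.L ω).gs (X.s ω) (X.Y ω) (X.D ω) i * (X.D ω' i - X.D ω i) =
      (((X.L ω).c1 (X.Y ω') (X.D ω') + 2 * X.s ω * (X.L ω).c2 (X.D ω')) -
      ((X.L ω).c1 (X.Y ω) (X.D ω) + 2 * X.s ω * (X.L ω).c2 (X.D ω))) -
      (∑ i, (X.L ω).g1 (X.D ω) i *
        ((X.Y ω' i + X.s ω * X.D ω' i) - (X.Y ω i + X.s ω * X.D ω i))) -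
      ∑ i, ∑ j, (X.L ω).H i j *
        ((X.Y ω' i + X.s ω * X.D ω' i) - (X.Y ω i + X.s ω * X.D ω i)) *
        (X.D ω' j - X.D ω j) := by
    rw [e1]
    ring
  rw [e5]
  have c1 := abs_sub ((((X.L ω).c1 (X.Y ω') (X.D ω') + 2 * X.s ω * (X.L ω).c2 (X.D ω')) -
      ((X.L ω).c1 (X.Y ω) (X.D ω) + 2 * X.s ω * (X.L ω).c2 (X.D ω))) -
      (∑ i, (X.L ω).g1 (X.D ω) i *
        ((X.Y ω' i + X.s ω * X.D ω' i) - (X.Y ω i + X.s ω * X.D ω i))))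
      (∑ i, ∑ j, (X.L ω).H i j *
        ((X.Y ω' i + X.s ω * X.D ω' i) - (X.Y ω i + X.s ω * X.D ω i)) *
        (X.D ω' j - X.D ω j))
  have c2 := abs_sub (((X.L ω).c1 (X.Y ω') (X.D ω') + 2 * X.s ω * (X.L ω).c2 (X.D ω')) -
      ((X.L ω).c1 (X.Y ω) (X.D ω) + 2 * X.s ω * (X.L ω).c2 (X.D ω)))
      (∑ i, (X.L ω).g1 (X.D ω) i *
        ((X.Y ω' i + X.s ω * X.D ω' i) - (X.Y ω i + X.s ω * X.D ω i)))
  linarith

/-- Second relation. -/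
theorem Ok.second (h : X.Ok A K ε r) {ω ω' : Ω} (hω : A ω) (hω' : A ω')
    (hp : X.pt ω' = X.pt ω) :
    |∑ i, (X.L ω).g1 (X.D ω) i * (X.D ω' i - X.D ω i) + (∑ i, ∑ j, (X.L ω).H i j *
      (X.D ω' i - X.D ω i) * (X.D ω' j - X.D ω j)) / 2| ≤ ε := by
  have hL := h.lpt ω ω' hω hω' hp
  rw [← (X.L ω).pair_c2]
  have a3 := h.c2 ω hω
  have a4 := h.c2 ω' hω'
  rw [hL] at a4
  have := abs_sub ((X.L ω).c2 (X.D ω')) ((X.L ω).c2 (X.D ω))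
  have := h.ε0
  linarith

/-- The gradients at one point. -/
theorem Ok.grad (h : X.Ok A K ε r) {ω ω' : Ω} (hω : A ω) (hω' : A ω')
    (hp : X.pt ω' = X.pt ω) (i : Fin 3) :
    |(X.L ω').gs (X.s ω') (X.Y ω') (X.D ω') i - (X.L ω).gs (X.s ω) (X.Y ω) (X.D ω) i| ≤
      ε / (8 * K) := by
  have hK := h.hK
  have hK0 : 0 < K := by linarith
  rw [h.lpt ω ω' hω hω' hp, h.spt ω ω' hω hω' hp, (X.L ω).gs_sub]
  have hz := h.z_small hω hω' hp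
  refine (sum3_le (c := K * (ε / (24 * K ^ 2))) fun j => ?_).trans (le_of_eq ?_)
  · rw [abs_mul]
    exact mul_le_mul (h.H ω hω i j) (hz j) (abs_nonneg _) hK0.le
  · field_simp
    ring

theorem Ok.dot (h : X.Ok A K ε r) {ω ω' : Ω} (hω : A ω) (hω' : A ω')
    (hp : X.pt ω' = X.pt ω) :
    |(X.dat ω).p0 * (X.D ω' 0 - X.D ω 0) + (X.dat ω).p1 * (X.D ω' 1 - X.D ω 1) +
      (X.dat ω).p2 * (X.D ω' 2 - X.D ω 2)| ≤ ε := by
  have h1 := h.first hω hω' hp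
  rw [Fin.sum_univ_three] at h1
  exact h1

/-- The last coordinate. -/
theorem Ok.last (h : X.Ok A K ε r) {ω ω' : Ω} (hω : A ω) (hω' : A ω')
    (hp : X.pt ω' = X.pt ω) :
    |(X.D ω' 2 - X.D ω 2) - (X.dat ω).EN * X.al ω ω' - (X.dat ω).UN * X.be ω ω'| ≤ 2 * ε :=
  Dat.nu_le (h.bdd hω) (h.dot hω hω' hp)

theorem Ok.r2 (h : X.Ok A K ε r) {ω ω' : Ω} (hω : A ω) (hω' : A ω')
    (hp : X.pt ω' = X.pt ω) :
    |X.al ω ω' * (X.dat ω).aE + X.be ω ω' * (X.dat ω).aU +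
      (X.al ω ω' ^ 2 * (X.dat ω).A + 2 * (X.al ω ω' * X.be ω ω' * (X.dat ω).B) +
      X.be ω ω' ^ 2 * (X.dat ω).G) / 2| ≤ 23 * K ^ 4 * ε := by
  have ha := h.al_le hω hω'
  have hb := h.be_le hω hω' hp
  unfold al at ha ⊢
  unfold be at hb ⊢
  refine Dat.rel2 (X := X.dat ω) (d2 := X.D ω' 2 - X.D ω 2) (h.bdd hω) h.ε0 h.ε1 h.r1
    ha hb (h.dot hω hω' hp) ?_
  have h1 := h.second hω hω' hp
  simp only [Fin.sum_univ_three] at h1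
  rw [(X.L ω).sym 1 0, (X.L ω).sym 2 0, (X.L ω).sym 2 1] at h1
  refine le_trans (le_of_eq (congrArg abs ?_)) h1
  show (X.L ω).g1 (X.D ω) 0 * _ + (X.L ω).g1 (X.D ω) 1 * _ + (X.L ω).g1 (X.D ω) 2 * _ +
    ((X.L ω).H 0 0 * _ * _ + (X.L ω).H 1 1 * _ * _ + (X.L ω).H 2 2 * _ * _ +
      2 * ((X.L ω).H 0 1 * _ * _ + (X.L ω).H 0 2 * _ * _ + (X.L ω).H 1 2 * _ * _)) / 2 = _
  ring

theorem Ok.r1' (h : X.Ok A K ε r) {η : ℝ} {ω ω' : Ω} (hω : A ω) (hω' : A ω')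
    (hp : X.pt ω' = X.pt ω) (hm : |X.mu ω| ≤ η) (hm' : |X.mu ω'| ≤ η) :
    |X.al ω ω' * (X.dat ω).B + X.be ω ω' * (X.dat ω).G| ≤ 4 * η + 10 * K ^ 2 * ε := by
  have hL := h.lpt ω ω' hω hω' hp
  have hK := h.hK
  have hle : ε / (8 * K) ≤ ε := by
    rw [div_le_iff₀ (by linarith)]
    have := h.ε0
    nlinarith
  refine Dat.rel1 (X := X.dat ω) (d2 := X.D ω' 2 - X.D ω 2) (g1' := (X.L ω').g1 (X.D ω') 1)
    (g2' := (X.L ω').g1 (X.D ω') 2)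
    (p1' := (X.L ω').gs (X.s ω') (X.Y ω') (X.D ω') 1)
    (p2' := (X.L ω').gs (X.s ω') (X.Y ω') (X.D ω') 2)
    (h.bdd hω) h.ε0 (h.dot hω hω' hp) ?_ ?_ (h.g1 ω' hω' 1) (h.g1 ω' hω' 2)
    ((h.grad hω hω' hp 1).trans hle) ((h.grad hω hω' hp 2).trans hle) ?_ ?_
  · rw [hL]
    have := (X.L ω).g1_sub (X.D ω) (X.D ω') 1
    rw [Fin.sum_univ_three, (X.L ω).sym 1 0] at this
    exact this
  · rw [hL]
    have := (X.L ω).g1_sub (X.D ω) (X.D ω') 2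
    rw [Fin.sum_univ_three, (X.L ω).sym 2 0, (X.L ω).sym 2 1] at this
    exact this
  · have := hm
    unfold mu at this
    rw [(X.L ω).mm_eq (X.s ω)] at this
    exact this
  · have := hm'
    unfold mu at this
    rw [(X.L ω').mm_eq (X.s ω')] at this
    exact this

/-- The value of the derivative of the gradient on the direction of the fan. -/
theorem Ok.me_mu (h : X.Ok A K ε r) {ω : Ω} (hω : A ω) :
    X.me ω + X.e (X.pt ω) 1 * X.mu ω = (X.dat ω).p2 * (X.dat ω).aE := by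
  have hp := (h.bdd hω).p2_ne
  unfold Dat.aE
  rw [Dat.on_E hp]
  rw [mul_div_cancel₀ _ hp]
  unfold me mu
  rw [(X.L ω).mm_eq (X.s ω), (X.L ω).mm_eq (X.s ω)]
  rfl

/-- **The key estimate**: good mates force the direction of the fan into the kernel of the
derivative of the gradient. -/
theorem Ok.key (h : X.Ok A K ε r) {η ρ ρ' : ℝ} (hρ : 0 < ρ) (hρ' : 0 < ρ') (hrρ : r ≤ ρ')
    (hρ1 : ρ' ≤ 1) (hη : 0 ≤ η) {ω ω₁ ω₂ ω₃ ω₄ : Ω} (hω : A ω) (h1 : A ω₁) (h2 : A ω₂)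
    (h3 : A ω₃) (h4 : A ω₄)
    (p1 : X.pt ω₁ = X.pt ω) (p2 : X.pt ω₂ = X.pt ω) (p3 : X.pt ω₃ = X.pt ω)
    (p4 : X.pt ω₄ = X.pt ω) (m0 : |X.mu ω| ≤ η) (m1 : |X.mu ω₁| ≤ η) (m2 : |X.mu ω₂| ≤ η)
    (har : ρ' * r ≤ |X.al ω ω₁ * X.be ω ω₂ - X.al ω ω₂ * X.be ω ω₁|) (s3 : ρ ≤ |X.al ω ω₃|)
    (s4 : ρ ≤ |X.al ω ω₄|) (s34 : ρ ≤ |X.al ω ω₄ - X.al ω ω₃|) :
    |X.me ω + X.e (X.pt ω) 1 * X.mu ω| ≤ 106 * K ^ 6 / ρ ^ 2 * (ε + r / ρ' * η) := by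
  have hK := h.hK
  have hK0 : 0 < K := by linarith
  have hε := h.ε0
  have haU : |(X.dat ω).aU| ≤ 2 * η := by
    unfold Dat.aU
    rw [Dat.on_U (h.bdd hω).p2_ne]
    refine Dat.abs_div_le (h.bdd hω).p2 ?_
    have := m0
    unfold mu at this
    rw [(X.L ω).mm_eq (X.s ω)] at this
    exact this
  have hr := h.r0
  have key := lemQ hK hρ hρ' hr (h.al_le hω h1) (h.be_le hω h1 p1) (h.al_le hω h2)
    (h.be_le hω h2 p2) (h.al_le hω h3) (h.be_le hω h3 p3) (h.al_le hω h4) (h.be_le hω h4 p4)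
    (h.r1' hω h1 p1 m0 m1) (h.r1' hω h2 p2 m0 m2) (h.r2 hω h3 p3) (h.r2 hω h4 p4) haU har
    s3 s4 s34
  rw [h.me_mu hω, abs_mul]
  have hp2 : |(X.dat ω).p2| ≤ K := h.p ω hω 2
  obtain ⟨x, hx⟩ : ∃ x, x = r / ρ' := ⟨_, rfl⟩
  have hx0 : 0 ≤ x := by rw [hx]; positivity
  have hx1 : x ≤ 1 := by rw [hx, div_le_one hρ']; exact hrρ
  have e1 : 3 * K * r * (4 * η + 10 * K ^ 2 * ε) / ρ' = 3 * K * x * (4 * η + 10 * K ^ 2 * ε) := by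
    rw [hx]; field_simp
  have hrx : r ≤ x := by
    rw [hx, le_div_iff₀ hρ']
    nlinarith
  have e2 : 23 * K ^ 4 * ε + 2 * r * η + 3 * K * r * (4 * η + 10 * K ^ 2 * ε) / ρ' ≤
      53 * K ^ 4 * (ε + x * η) := by
    rw [e1]
    have k1 : (1 : ℝ) ≤ K ^ 4 := one_le_pow₀ hK
    have k2 : K ≤ K ^ 4 := by
      calc K = K * 1 := (mul_one _).symm
        _ ≤ K * K ^ 3 := mul_le_mul_of_nonneg_left (one_le_pow₀ hK) hK0.le
        _ = K ^ 4 := by ring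
    have k3 : K ^ 3 ≤ K ^ 4 := by
      calc K ^ 3 = K ^ 3 * 1 := (mul_one _).symm
        _ ≤ K ^ 3 * K := mul_le_mul_of_nonneg_left hK (by positivity)
        _ = K ^ 4 := by ring
    have t1 : 2 * r * η ≤ 2 * K ^ 4 * (x * η) := by
      have : r * η ≤ K ^ 4 * (x * η) := by
        calc r * η ≤ x * η := mul_le_mul_of_nonneg_right hrx hη
          _ = 1 * (x * η) := (one_mul _).symm
          _ ≤ _ := mul_le_mul_of_nonneg_right k1 (by positivity)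
      linarith
    have t2 : 3 * K * x * (4 * η) ≤ 12 * K ^ 4 * (x * η) := by
      have : K * (x * η) ≤ K ^ 4 * (x * η) := mul_le_mul_of_nonneg_right k2 (by positivity)
      linarith
    have t3 : 3 * K * x * (10 * K ^ 2 * ε) ≤ 30 * K ^ 4 * ε := by
      have t4 : K ^ 3 * ε * x ≤ K ^ 4 * ε * 1 :=
        mul_le_mul (mul_le_mul_of_nonneg_right k3 hε) hx1 hx0 (by positivity)
      nlinarith
    have t5 : 0 ≤ K ^ 4 * (x * η) := by positivity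
    nlinarith
  calc |(X.dat ω).p2| * |(X.dat ω).aE| ≤ K * (2 * K / ρ ^ 2 * (53 * K ^ 4 * (ε + x * η))) := by
        refine mul_le_mul hp2 (key.trans ?_) (abs_nonneg _) hK0.le
        exact mul_le_mul_of_nonneg_left e2 (by positivity)
    _ = 106 * K ^ 6 / ρ ^ 2 * (ε + r / ρ' * η) := by rw [← hx]; ring

/-! ### Mates -/

/-- There are two mates which are far from the line and from each other. -/
def Sep (X : Ldt Ω U V) (B : Ω → Prop) (ρ : ℝ) (ω : Ω) : Prop :=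
  ∃ ω₃ ω₄, B ω₃ ∧ B ω₄ ∧ X.pt ω₃ = X.pt ω ∧ X.pt ω₄ = X.pt ω ∧ ρ ≤ |X.al ω ω₃| ∧
    ρ ≤ |X.al ω ω₄| ∧ ρ ≤ |X.al ω ω₄ - X.al ω ω₃|

/-- There are two mates which span the plane. -/
def Area (X : Ldt Ω U V) (B : Ω → Prop) (a : ℝ) (ω : Ω) : Prop :=
  ∃ ω₁ ω₂, B ω₁ ∧ B ω₂ ∧ X.pt ω₁ = X.pt ω ∧ X.pt ω₂ = X.pt ω ∧
    a ≤ |X.al ω ω₁ * X.be ω ω₂ - X.al ω ω₂ * X.be ω ω₁|

/-- The first coordinate is known from the point up to `ρ`. -/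
def Narrow (X : Ldt Ω U V) (ρ : ℝ) (E : Ω → Prop) : Prop :=
  ∃ v : U → ℝ, ∀ ω, E ω → |X.D ω 0 - v (X.pt ω)| ≤ ρ

/-- Lines without separated mates: two narrow events. -/
theorem not_sep (X : Ldt Ω U V) (B : Ω → Prop) (ρ : ℝ) :
    ∃ E₁ E₂ : Ω → Prop, (∀ ω, E₁ ω → B ω) ∧ (∀ ω, E₂ ω → B ω) ∧ Narrow X ρ E₁ ∧
      Narrow X ρ E₂ ∧ ∀ ω, B ω → ¬ Sep X B ρ ω → E₁ ω ∨ E₂ ω := by
  classical
  -- representatives
  have h1 : ∀ u : U, ∃ v : ℝ, (∃ ω, B ω ∧ ¬ Sep X B ρ ω ∧ X.pt ω = u ∧ X.D ω 0 = v) ∨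
      ∀ ω, B ω → ¬ Sep X B ρ ω → X.pt ω ≠ u := by
    intro u
    by_cases h : ∃ ω, B ω ∧ ¬ Sep X B ρ ω ∧ X.pt ω = u
    · obtain ⟨ω, a1, a2, a3⟩ := h
      exact ⟨X.D ω 0, Or.inl ⟨ω, a1, a2, a3, rfl⟩⟩
    · push Not at h
      exact ⟨0, Or.inr h⟩
  choose v hv using h1
  obtain ⟨E₂, hE₂⟩ : ∃ E₂ : Ω → Prop, E₂ = fun ω => (B ω ∧ ¬ Sep X B ρ ω) ∧
      ¬ |X.D ω 0 - v (X.pt ω)| ≤ ρ := ⟨_, rfl⟩
  refine ⟨fun ω => (B ω ∧ ¬ Sep X B ρ ω) ∧ |X.D ω 0 - v (X.pt ω)| ≤ ρ, E₂,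
    fun ω h => h.1.1, fun ω h => by rw [hE₂] at h; exact h.1.1, ⟨v, fun ω h => h.2⟩, ?_, ?_⟩
  · have h2 : ∀ u : U, ∃ v' : ℝ, (∃ ω, E₂ ω ∧ X.pt ω = u ∧ X.D ω 0 = v') ∨
        ∀ ω, E₂ ω → X.pt ω ≠ u := by
      intro u
      by_cases h : ∃ ω, E₂ ω ∧ X.pt ω = u
      · obtain ⟨ω, a1, a3⟩ := h
        exact ⟨X.D ω 0, Or.inl ⟨ω, a1, a3, rfl⟩⟩
      · push Not at h
        exact ⟨0, Or.inr h⟩
    choose v' hv' using h2
    refine ⟨v', fun ω hω => ?_⟩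
    rcases hv' (X.pt ω) with ⟨ω', a1, a2, a3⟩ | h
    · by_contra hcon
      push Not at hcon
      have hω2 := hω
      rw [hE₂] at hω2 a1
      rcases hv (X.pt ω) with ⟨ω₀, b1, b2, b3, b4⟩ | h
      · refine b2 ⟨ω', ω, a1.1.1, hω2.1.1, a2.trans b3.symm, b3.symm, ?_, ?_, ?_⟩
        · have := a1.2
          push Not at this
          rw [a2, ← b4] at this
          exact this.le
        · have := hω2.2
          push Not at this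
          rw [← b4] at this
          exact this.le
        · unfold al
          rw [← a3] at hcon
          have e : X.D ω 0 - X.D ω₀ 0 - (X.D ω' 0 - X.D ω₀ 0) = X.D ω 0 - X.D ω' 0 := by ring
          rw [e]
          exact hcon.le
      · exact absurd rfl (h ω hω2.1.1 hω2.1.2)
    · exact absurd rfl (h ω hω)
  · intro ω h2 h3
    by_cases h : |X.D ω 0 - v (X.pt ω)| ≤ ρ
    · exact Or.inl ⟨⟨h2, h3⟩, h⟩
    · right
      rw [hE₂]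
      exact ⟨⟨h2, h3⟩, h⟩

/-- Lines with separated mates but without mates which span the plane: the fans are straighter. -/
theorem Ok.not_area (h : X.Ok A K ε r) {B : Ω → Prop} (hB : ∀ ω, B ω → A ω) {ρ a : ℝ}
    (hρ : 0 < ρ) :
    ∃ e' n' : U → Fin 3 → ℝ, ∀ ω, B ω → Sep X B ρ ω → ¬ Area X B a ω → ∀ j,
      |X.D ω j - e' (X.pt ω) j * X.D ω 0 - n' (X.pt ω) j| ≤ 2 * K * (a / ρ) + 2 * ε := by
  classical
  have hK := h.hK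
  have hK0 : 0 < K := by linarith
  have hε := h.ε0
  by_cases hex : ∃ ω, B ω ∧ Sep X B ρ ω ∧ ¬ Area X B a ω
  swap
  · push Not at hex
    exact ⟨0, 0, fun ω h1 h2 h3 => absurd (hex ω h1 h2) h3⟩
  have ha : 0 ≤ a := by
    obtain ⟨ω, h1, h2, h3⟩ := hex
    by_contra hcon
    push Not at hcon
    exact h3 ⟨ω, ω, h1, h1, rfl, rfl, hcon.le.trans (abs_nonneg _)⟩
  have key : ∀ u : U, ∃ e' n' : Fin 3 → ℝ, ∀ ω, B ω → Sep X B ρ ω → ¬ Area X B a ω →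
      X.pt ω = u → ∀ j, |X.D ω j - e' j * X.D ω 0 - n' j| ≤ 2 * K * (a / ρ) + 2 * ε := by
    intro u
    by_cases hu : ∃ ω, B ω ∧ Sep X B ρ ω ∧ ¬ Area X B a ω ∧ X.pt ω = u
    swap
    · push Not at hu
      exact ⟨0, 0, fun ω h1 h2 h3 h4 => absurd h4 (hu ω h1 h2 h3)⟩
    obtain ⟨ω, h1, ⟨ω₃, ω₄, s1, s2, s3, s4, s5, s6, s7⟩, h3, h4⟩ := hu
    obtain ⟨σ, hσ⟩ : ∃ σ, σ = X.be ω ω₃ / X.al ω ω₃ := ⟨_, rfl⟩
    obtain ⟨e1, he1⟩ : ∃ e1, e1 = X.e (X.pt ω) 1 + σ := ⟨_, rfl⟩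
    obtain ⟨e2, he2⟩ : ∃ e2, e2 = (X.dat ω).EN + (X.dat ω).UN * σ := ⟨_, rfl⟩
    refine ⟨![1, e1, e2], ![0, X.D ω 1 - e1 * X.D ω 0, X.D ω 2 - e2 * X.D ω 0], ?_⟩
    intro ω' h1' _ _ h4' j
    have hp : X.pt ω' = X.pt ω := h4'.trans h4.symm
    have h3p : 0 < |X.al ω ω₃| := hρ.trans_le s5
    have hne : X.al ω ω₃ ≠ 0 := abs_pos.1 h3p
    have hb : |X.be ω ω' - σ * X.al ω ω'| ≤ a / ρ := by
      have e3 : X.al ω ω₃ * (X.be ω ω' - σ * X.al ω ω') =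
          X.al ω ω₃ * X.be ω ω' - X.al ω ω' * X.be ω ω₃ := by
        rw [hσ]; field_simp
      have e4 : |X.al ω ω₃| * |X.be ω ω' - σ * X.al ω ω'| < a := by
        rw [← abs_mul, e3]
        by_contra hcon
        push Not at hcon
        exact h3 ⟨ω₃, ω', s1, h1', s3, hp, hcon⟩
      rw [le_div_iff₀ hρ]
      have := mul_le_mul_of_nonneg_right s5 (abs_nonneg (X.be ω ω' - σ * X.al ω ω'))
      linarith
    have haρ : 0 ≤ a / ρ := by positivity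
    have hb2 : a / ρ ≤ 2 * K * (a / ρ) := by nlinarith
    have hj : ∀ j : Fin 3, j = 0 ∨ j = 1 ∨ j = 2 := by decide
    rcases hj j with rfl | rfl | rfl
    · simp only [Matrix.cons_val_zero, one_mul, sub_self, abs_zero]
      positivity
    · simp only [Matrix.cons_val_one, Matrix.cons_val_zero]
      have e3 : X.D ω' 1 - e1 * X.D ω' 0 - (X.D ω 1 - e1 * X.D ω 0) =
          X.be ω ω' - σ * X.al ω ω' := by
        rw [he1]; unfold al be; ring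
      rw [e3]
      linarith
    · simp only [Matrix.cons_val]
      have hl := h.last (hB _ h1) (hB _ h1') hp
      have e3 : X.D ω' 2 - e2 * X.D ω' 0 - (X.D ω 2 - e2 * X.D ω 0) =
          ((X.D ω' 2 - X.D ω 2) - (X.dat ω).EN * X.al ω ω' - (X.dat ω).UN * X.be ω ω') +
          (X.dat ω).UN * (X.be ω ω' - σ * X.al ω ω') := by
        rw [he2]; unfold al be; ring
      rw [e3]
      have hU : |(X.dat ω).UN * (X.be ω ω' - σ * X.al ω ω')| ≤ 2 * K * (a / ρ) := by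
        rw [abs_mul]
        exact mul_le_mul (h.bdd (hB _ h1)).UN_le hb (abs_nonneg _) (by positivity)
      refine (abs_add_le _ _).trans ?_
      linarith
  choose e' n' hen using key
  exact ⟨e', n', fun ω h1 h2 h3 j => hen (X.pt ω) ω h1 h2 h3 rfl j⟩

end Ldt

end Pool.S6D
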